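import Pool.Agent.H320.HSC.Chart
set_option autoImplicit false
open Complex
open scoped Manifold ContDiff ComplexOrder
namespace Pool.Agent.H320.HSC

/-- the blow-down map `(α₀, α₁, α₂) ↦ (α₀, α₂)` -/
noncomputable def piX (x : XS) : Sph × Sph := (x.1.1, x.1.2.2)

/-- the two centres `(0, ∞)` and `(∞, 0)` -/
def SX : Set (Sph × Sph) :=
  {(((0 : ℂ) : Sph), OnePoint.infty), (OnePoint.infty, ((0 : ℂ) : Sph))}

theorem ss (x : Sph) : sinv (sinv x) = x := sinv_facts.2.2.2 x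

theorem pi0 (p : ℂ × ℂ) : piX ((E 0).symm p) = ((p.1 : Sph), (p.2 : Sph)) := by
  show ((rhoA^[6] (kap p)).1, (rhoA^[6] (kap p)).2.2) = _
  rw [rho_facts.2.2.1]; rfl

theorem pi1 (p : ℂ × ℂ) : piX ((E 1).symm p) = (sinv (p.2 : Sph), ((p.1 * p.2 : ℂ) : Sph)) := by
  show (sinv (p.2 : Sph), sinv (sinv ((p.1 * p.2 : ℂ) : Sph))) = _
  rw [ss]

theorem pi2 (p : ℂ × ℂ) : piX ((E 2).symm p) = (sinv ((p.1 * p.2 : ℂ) : Sph), (p.1 : Sph)) := by
  show (sinv ((p.1 * p.2 : ℂ) : Sph), sinv (sinv (p.1 : Sph))) = _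
  rw [ss]

theorem pi3 (p : ℂ × ℂ) : piX ((E 3).symm p) = (sinv (p.1 : Sph), sinv (p.2 : Sph)) := rfl

theorem pi4 (p : ℂ × ℂ) : piX ((E 4).symm p) = ((p.2 : Sph), sinv ((p.1 * p.2 : ℂ) : Sph)) := rfl

theorem pi5 (p : ℂ × ℂ) : piX ((E 5).symm p) = (((p.1 * p.2 : ℂ) : Sph), sinv (p.1 : Sph)) := rfl

theorem ne_inf (z : ℂ) : (z : Sph) ≠ OnePoint.infty := OnePoint.coe_ne_infty z

theorem sinv_ne0 (z : ℂ) : sinv (z : Sph) ≠ ((0 : ℂ) : Sph) := by
  rw [← sinv_ne_iff, ss]; exact ne_inf z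

theorem cont_piX : Continuous piX :=
  (continuous_fst.comp continuous_subtype_val).prodMk
    ((continuous_snd.comp continuous_snd).comp continuous_subtype_val)

theorem src0 (x : XS) : x ∈ (E 0).source ↔ (x.1.1 ≠ OnePoint.infty ∧ x.1.2.2 ≠ OnePoint.infty) :=
  Iff.rfl

theorem src1 (x : XS) : x ∈ (E 1).source ↔ (x.1.2.1 ≠ OnePoint.infty ∧ x.1.1 ≠ ((0 : ℂ) : Sph)) := by
  have : x ∈ (E 1).source ↔ (x.1.2.1 ≠ OnePoint.infty ∧ sinv x.1.1 ≠ OnePoint.infty) := Iff.rfl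
  rw [this, sinv_ne_iff]

theorem src2 (x : XS) : x ∈ (E 2).source ↔ (x.1.2.2 ≠ OnePoint.infty ∧ x.1.2.1 ≠ ((0 : ℂ) : Sph)) := by
  have : x ∈ (E 2).source ↔ (x.1.2.2 ≠ OnePoint.infty ∧ sinv x.1.2.1 ≠ OnePoint.infty) := Iff.rfl
  rw [this, sinv_ne_iff]

theorem src3 (x : XS) : x ∈ (E 3).source ↔ (x.1.1 ≠ ((0 : ℂ) : Sph) ∧ x.1.2.2 ≠ ((0 : ℂ) : Sph)) := by
  have : x ∈ (E 3).source ↔ (sinv x.1.1 ≠ OnePoint.infty ∧ sinv x.1.2.2 ≠ OnePoint.infty) := Iff.rfl
  rw [this, sinv_ne_iff, sinv_ne_iff]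

theorem src4 (x : XS) : x ∈ (E 4).source ↔ (x.1.2.1 ≠ ((0 : ℂ) : Sph) ∧ x.1.1 ≠ OnePoint.infty) := by
  have : x ∈ (E 4).source ↔ (sinv x.1.2.1 ≠ OnePoint.infty ∧ sinv (sinv x.1.1) ≠ OnePoint.infty) :=
    Iff.rfl
  rw [this, sinv_ne_iff, ss]

theorem src5 (x : XS) : x ∈ (E 5).source ↔ (x.1.2.2 ≠ ((0 : ℂ) : Sph) ∧ x.1.2.1 ≠ OnePoint.infty) := by
  have : x ∈ (E 5).source ↔ (sinv x.1.2.2 ≠ OnePoint.infty ∧ sinv (sinv x.1.2.1) ≠ OnePoint.infty) :=
    Iff.rfl
  rw [this, sinv_ne_iff, ss]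

theorem c0_mem : c0 ∈ atlas ℂ Sph := Or.inl rfl
theorem c1_mem : c1 ∈ atlas ℂ Sph := Or.inr rfl

theorem prod_mem (e f : OpenPartialHomeomorph Sph ℂ) (he : e ∈ atlas ℂ Sph) (hf : f ∈ atlas ℂ Sph) :
    e.prod f ∈ atlas (ℂ × ℂ) (Sph × Sph) := ⟨e, he, f, hf, rfl⟩

theorem glue (i j : Fin 6) (hij : j - i = 1) (p : ℂ × ℂ) :
    ((E i).symm p ∈ (E j).source ↔ p.1 ≠ 0) ∧
    (p.1 ≠ 0 → E j ((E i).symm p) = (p.1 * p.2, p.1⁻¹)) := by
  have h1 := trans_source i j
  have h2 : (E i).symm p ∈ (E j).source ↔ p ∈ TD (j - i) := by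
    rw [← h1, OpenPartialHomeomorph.trans_source]
    exact ⟨fun h => ⟨Set.mem_univ _, h⟩, fun h => h.2⟩
  rw [hij] at h2
  refine ⟨h2, fun h => ?_⟩
  have h3 := trans_apply i j p (by rw [hij]; exact h)
  rw [hij] at h3
  exact h3

theorem blowUp : IsBlowUp piX SX where
  cont := cont_piX
  finite := (Set.finite_singleton _).insert _
  nonempty := ⟨_, Or.inl rfl⟩
  bij := by
    intro y hy
    obtain ⟨x, ⟨hx, hx1, hx2⟩, hu⟩ := bij_XS y.1 y.2
      (fun h => hy (Or.inl (Prod.ext h.1 h.2))) (fun h => hy (Or.inr (Prod.ext h.1 h.2)))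
    refine ⟨⟨x, hx⟩, Prod.ext hx1 hx2, ?_⟩
    intro x' hx'
    apply Subtype.ext
    exact hu x'.1 ⟨x'.2, (Prod.ext_iff.1 hx').1, (Prod.ext_iff.1 hx').2⟩
  away := by
    intro x hx
    by_cases h : x.1.1 ≠ OnePoint.infty ∧ x.1.2.2 ≠ OnePoint.infty
    · refine ⟨E 0, ⟨0, rfl⟩, c0.prod c0, prod_mem _ _ c0_mem c0_mem, h, ?_, ?_⟩
      · exact Set.univ_prod_univ.symm
      · intro p _
        rw [pi0]; rfl
    · refine ⟨E 3, ⟨3, rfl⟩, c1.prod c1, prod_mem _ _ c1_mem c1_mem, ?_, ?_, ?_⟩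
      · rw [src3]
        constructor
        · intro h0
          apply h
          refine ⟨by rw [h0]; exact ne_inf 0, ?_⟩
          intro h2
          exact hx (Or.inl (Prod.ext h0 h2))
        · intro h0
          apply h
          refine ⟨?_, by rw [h0]; exact ne_inf 0⟩
          intro h2
          exact hx (Or.inr (Prod.ext h2 h0))
      · exact Set.univ_prod_univ.symm
      · intro p _
        rw [pi3]; rfl
  model := by
    rintro q (hq | hq)
    · -- (0, ∞)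
      have hq' : q = (((0 : ℂ) : Sph), OnePoint.infty) := hq
      subst hq'
      refine ⟨c0.prod c1, prod_mem _ _ c0_mem c1_mem, ⟨ne_inf 0, OnePoint.infty_ne_coe 0⟩, ?_, ?_,
        E 4, ⟨4, rfl⟩, E 5, ⟨5, rfl⟩, ?_, ?_, ?_, ?_, ?_, ?_, ?_⟩
      · show (fin ((0 : ℂ) : Sph), fin (sinv OnePoint.infty)) = 0
        rw [sinv_facts.2.2.1, fin_facts.1]; rfl
      · ext y
        constructor
        · rintro ⟨hy1 | hy1, hy2⟩
          · exact hy1
          · exfalso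
            have : y = (OnePoint.infty, ((0 : ℂ) : Sph)) := hy1
            subst this
            exact hy2.1 rfl
        · intro hy
          have : y = (((0 : ℂ) : Sph), OnePoint.infty) := hy
          subst this
          exact ⟨Or.inl rfl, ne_inf 0, OnePoint.infty_ne_coe 0⟩
      · ext x
        constructor
        · rintro (h | h)
          · rw [← (E 4).left_inv h]
            rw [Set.mem_preimage, pi4]
            exact ⟨ne_inf _, sinv_ne0 _⟩
          · rw [← (E 5).left_inv h]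
            rw [Set.mem_preimage, pi5]
            exact ⟨ne_inf _, sinv_ne0 _⟩
        · intro h
          have h1 : x.1.1 ≠ OnePoint.infty := h.1
          have h2 : x.1.2.2 ≠ ((0 : ℂ) : Sph) := h.2
          by_cases h3 : x.1.2.1 = ((0 : ℂ) : Sph)
          · right
            rw [src5]
            exact ⟨h2, by rw [h3]; exact ne_inf 0⟩
          · left
            rw [src4]
            exact ⟨h3, h1⟩
      · ext p
        exact ⟨fun _ => ⟨Set.mem_univ _, Set.mem_univ _⟩, fun _ => Set.mem_univ _⟩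
      · intro p _; rw [pi4]; rfl
      · ext p
        exact ⟨fun _ => ⟨Set.mem_univ _, Set.mem_univ _⟩, fun _ => Set.mem_univ _⟩
      · intro p _; rw [pi5]; rfl
      · intro p _; exact (glue 4 5 rfl p).1
      · intro p _ hp; exact (glue 4 5 rfl p).2 hp
    · -- (∞, 0)
      have hq' : q = (OnePoint.infty, ((0 : ℂ) : Sph)) := hq
      subst hq'
      refine ⟨c1.prod c0, prod_mem _ _ c1_mem c0_mem, ⟨OnePoint.infty_ne_coe 0, ne_inf 0⟩, ?_, ?_,
        E 1, ⟨1, rfl⟩, E 2, ⟨2, rfl⟩, ?_, ?_, ?_, ?_, ?_, ?_, ?_⟩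
      · show (fin (sinv OnePoint.infty), fin ((0 : ℂ) : Sph)) = 0
        rw [sinv_facts.2.2.1, fin_facts.1]; rfl
      · ext y
        constructor
        · rintro ⟨hy1 | hy1, hy2⟩
          · exfalso
            have : y = (((0 : ℂ) : Sph), OnePoint.infty) := hy1
            subst this
            exact hy2.1 rfl
          · exact hy1
        · intro hy
          have : y = (OnePoint.infty, ((0 : ℂ) : Sph)) := hy
          subst this
          exact ⟨Or.inr rfl, OnePoint.infty_ne_coe 0, ne_inf 0⟩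
      · ext x
        constructor
        · rintro (h | h)
          · rw [← (E 1).left_inv h]
            rw [Set.mem_preimage, pi1]
            exact ⟨sinv_ne0 _, ne_inf _⟩
          · rw [← (E 2).left_inv h]
            rw [Set.mem_preimage, pi2]
            exact ⟨sinv_ne0 _, ne_inf _⟩
        · intro h
          have h1 : x.1.1 ≠ ((0 : ℂ) : Sph) := h.1
          have h2 : x.1.2.2 ≠ OnePoint.infty := h.2
          by_cases h3 : x.1.2.1 = OnePoint.infty
          · right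
            rw [src2]
            exact ⟨h2, by rw [h3]; exact OnePoint.infty_ne_coe 0⟩
          · left
            rw [src1]
            exact ⟨h3, h1⟩
      · ext p
        exact ⟨fun _ => ⟨Set.mem_univ _, Set.mem_univ _⟩, fun _ => Set.mem_univ _⟩
      · intro p _; rw [pi1]; rfl
      · ext p
        exact ⟨fun _ => ⟨Set.mem_univ _, Set.mem_univ _⟩, fun _ => Set.mem_univ _⟩
      · intro p _; rw [pi2]; rfl
      · intro p _; exact (glue 1 2 rfl p).1
      · intro p _ hp; exact (glue 1 2 rfl p).2 hp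

theorem SX_ncard : SX.ncard = 2 := by
  apply Set.ncard_pair
  intro h
  exact ne_inf 0 (Prod.ext_iff.1 h).1

end Pool.Agent.H320.HSC
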