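import Pool.Agent.H320.HSC.Defs

/-! Numerical part: order 3 Taylor models in fixed point arithmetic and the list of quantities to be
checked.  Everything is polymorphic in the operations, so that the same program is run on real
numbers and on Taylor models. -/

set_option autoImplicit false

open Complex
open scoped Manifold ContDiff ComplexOrder

namespace Pool.Agent.H320.HSC



theorem cont_sinv : Continuous sinv := by
  have hco : Filter.coclosedCompact ℂ = Bornology.cobounded ℂ := by
    rw [Filter.coclosedCompact_eq_cocompact, Metric.cobounded_eq_cocompact]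
  have hval : ∀ z : ℂ, z ≠ 0 → sinv (z : Sph) = ((z⁻¹ : ℂ) : Sph) := by
    intro z hz
    show (if z = 0 then OnePoint.infty else ((z⁻¹ : ℂ) : Sph)) = _
    rw [if_neg hz]
  have hval0 : sinv ((0 : ℂ) : Sph) = OnePoint.infty := by
    show (if (0 : ℂ) = 0 then OnePoint.infty else (((0 : ℂ)⁻¹ : ℂ) : Sph)) = _
    rw [if_pos rfl]
  rw [OnePoint.continuous_iff]
  constructor
  · have h0 : sinv OnePoint.infty = ((0 : ℂ) : Sph) := rfl
    rw [h0, hco]
    have h1 : Filter.Tendsto (fun z : ℂ => ((z⁻¹ : ℂ) : Sph)) (Bornology.cobounded ℂ)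
        (nhds ((0 : ℂ) : Sph)) :=
      (OnePoint.continuous_coe.tendsto (0 : ℂ)).comp Filter.tendsto_inv₀_cobounded
    refine h1.congr' ?_
    filter_upwards [Bornology.eventually_ne_cobounded (0 : ℂ)] with z hz
    exact (hval z hz).symm
  · rw [continuous_iff_continuousAt]
    intro z
    by_cases hz : z = 0
    · subst hz
      show Filter.Tendsto (fun x : ℂ => sinv (x : Sph)) (nhds 0) (nhds (sinv ((0 : ℂ) : Sph)))
      rw [hval0, ← nhdsNE_sup_pure, Filter.tendsto_sup]
      constructor
      · have h1 : Filter.Tendsto (fun x : ℂ => ((x⁻¹ : ℂ) : Sph)) (nhdsWithin 0 {0}ᶜ)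
            (nhds OnePoint.infty) := by
          rw [OnePoint.nhds_infty_eq, hco]
          refine Filter.Tendsto.mono_right ?_ le_sup_left
          exact Filter.tendsto_map.comp Filter.tendsto_inv₀_nhdsNE_zero
        refine h1.congr' ?_
        filter_upwards [self_mem_nhdsWithin] with x hx
        exact (hval x hx).symm
      · rw [Filter.tendsto_pure_left]
        intro s hs
        rw [hval0]
        exact mem_of_mem_nhds hs
    · have h1 : ContinuousAt (fun x : ℂ => ((x⁻¹ : ℂ) : Sph)) z :=
        (OnePoint.continuous_coe.continuousAt).comp (continuousAt_inv₀ hz)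
      refine h1.congr ?_
      filter_upwards [isOpen_ne.mem_nhds hz] with x hx
      exact (hval x hx).symm

end Pool.Agent.H320.HSC
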