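import Pool.Agent.H320.HSC.Defs

/-! Numerical part: order 3 Taylor models in fixed point arithmetic and the list of quantities to be
checked.  Everything is polymorphic in the operations, so that the same program is run on real
numbers and on Taylor models. -/

set_option autoImplicit false

open Complex
open scoped Manifold ContDiff ComplexOrder

namespace Pool.Agent.H320.HSC



theorem good_chart (q : ℂ × ℂ) : ∃ m : Fin 6, q ∈ TD m ∧ ‖(TT m q).1‖ ≤ 1 ∧ ‖(TT m q).2‖ ≤ 1 := by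
  have hinv : ∀ z : ℂ, 1 < ‖z‖ → ‖z⁻¹‖ ≤ 1 := fun z hz => by
    rw [norm_inv]
    exact inv_le_one_of_one_le₀ hz.le
  have hne : ∀ z : ℂ, 1 < ‖z‖ → z ≠ 0 := fun z hz h => by
    rw [h, norm_zero] at hz
    linarith
  rcases le_or_gt ‖q.1‖ 1 with ha | ha
  · rcases le_or_gt ‖q.2‖ 1 with hb | hb
    · exact ⟨0, trivial, ha, hb⟩
    · rcases le_or_gt ‖q.1 * q.2‖ 1 with hab | hab
      · exact ⟨5, hne _ hb, hinv _ hb, hab⟩
      · exact ⟨4, hne _ hab, hinv _ hab, ha⟩
  · rcases le_or_gt ‖q.1 * q.2‖ 1 with hab | hab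
    · exact ⟨1, hne _ ha, hab, hinv _ ha⟩
    · rcases le_or_gt ‖q.2‖ 1 with hb | hb
      · exact ⟨2, hne _ hab, hb, hinv _ hab⟩
      · exact ⟨3, hne _ hab, hinv _ ha, hinv _ hb⟩

end Pool.Agent.H320.HSC
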