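import Pool.Agent.H320.HSC.Defs

/-! Numerical part: order 3 Taylor models in fixed point arithmetic and the list of quantities to be
checked.  Everything is polymorphic in the operations, so that the same program is run on real
numbers and on Taylor models. -/

set_option autoImplicit false

open Complex
open scoped Manifold ContDiff ComplexOrder

namespace Pool.Agent.H320.HSC



theorem open_TD (m : Fin 6) : IsOpen (TD m) := by
  have h1 : IsOpen {q : ℂ × ℂ | q.1 ≠ 0} := isOpen_ne_fun continuous_fst continuous_const
  have h2 : IsOpen {q : ℂ × ℂ | q.2 ≠ 0} := isOpen_ne_fun continuous_snd continuous_const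
  have h3 : IsOpen {q : ℂ × ℂ | q.1 * q.2 ≠ 0} :=
    isOpen_ne_fun (continuous_fst.mul continuous_snd) continuous_const
  fin_cases m
  · exact isOpen_univ
  · exact h1
  · exact h3
  · exact h3
  · exact h3
  · exact h2

end Pool.Agent.H320.HSC
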