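import Pool.Agent.H320.HSC.Defs

/-! Numerical part: order 3 Taylor models in fixed point arithmetic and the list of quantities to be
checked.  Everything is polymorphic in the operations, so that the same program is run on real
numbers and on Taylor models. -/

set_option autoImplicit false

open Complex
open scoped Manifold ContDiff ComplexOrder

namespace Pool.Agent.H320.HSC



theorem smooth_TT_aux27133 (s : Set (ℂ × ℂ)) :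
    ContDiffOn ℂ ω (fun q : ℂ × ℂ => q.1) s ∧ ContDiffOn ℂ ω (fun q : ℂ × ℂ => q.2) s ∧
    ContDiffOn ℂ ω (fun q : ℂ × ℂ => q.1 * q.2) s :=
  ⟨contDiff_fst.contDiffOn, contDiff_snd.contDiffOn, (contDiff_fst.mul contDiff_snd).contDiffOn⟩

theorem smooth_TT (m : Fin 6) : ContDiffOn ℂ ω (TT m) (TD m) := by
  fin_cases m
  · show ContDiffOn ℂ ω (fun q : ℂ × ℂ => (q.1, q.2)) Set.univ
    exact contDiff_id.contDiffOn
  · show ContDiffOn ℂ ω (fun q : ℂ × ℂ => (q.1 * q.2, q.1⁻¹)) {q : ℂ × ℂ | q.1 ≠ 0}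
    obtain ⟨h1, h2, h3⟩ := smooth_TT_aux27133 {q : ℂ × ℂ | q.1 ≠ 0}
    exact h3.prodMk (h1.inv (fun q hq => hq))
  · show ContDiffOn ℂ ω (fun q : ℂ × ℂ => (q.2, (q.1 * q.2)⁻¹)) {q : ℂ × ℂ | q.1 * q.2 ≠ 0}
    obtain ⟨h1, h2, h3⟩ := smooth_TT_aux27133 {q : ℂ × ℂ | q.1 * q.2 ≠ 0}
    exact h2.prodMk (h3.inv (fun q hq => hq))
  · show ContDiffOn ℂ ω (fun q : ℂ × ℂ => (q.1⁻¹, q.2⁻¹)) {q : ℂ × ℂ | q.1 * q.2 ≠ 0}
    obtain ⟨h1, h2, h3⟩ := smooth_TT_aux27133 {q : ℂ × ℂ | q.1 * q.2 ≠ 0}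
    exact (h1.inv (fun q hq => (mul_ne_zero_iff.mp hq).1)).prodMk
      (h2.inv (fun q hq => (mul_ne_zero_iff.mp hq).2))
  · show ContDiffOn ℂ ω (fun q : ℂ × ℂ => ((q.1 * q.2)⁻¹, q.1)) {q : ℂ × ℂ | q.1 * q.2 ≠ 0}
    obtain ⟨h1, h2, h3⟩ := smooth_TT_aux27133 {q : ℂ × ℂ | q.1 * q.2 ≠ 0}
    exact (h3.inv (fun q hq => hq)).prodMk h1
  · show ContDiffOn ℂ ω (fun q : ℂ × ℂ => (q.2⁻¹, q.1 * q.2)) {q : ℂ × ℂ | q.2 ≠ 0}
    obtain ⟨h1, h2, h3⟩ := smooth_TT_aux27133 {q : ℂ × ℂ | q.2 ≠ 0}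
    exact (h2.inv (fun q hq => hq)).prodMk h3

end Pool.Agent.H320.HSC
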