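import Pool.Agent.H320.HSC.Defs

/-! Numerical part: order 3 Taylor models in fixed point arithmetic and the list of quantities to be
checked.  Everything is polymorphic in the operations, so that the same program is run on real
numbers and on Taylor models. -/

set_option autoImplicit false

open Complex
open scoped Manifold ContDiff ComplexOrder

namespace Pool.Agent.H320.HSC



theorem sinv_facts : (∀ z : ℂ, z ≠ 0 → sinv (z : Sph) = ((z⁻¹ : ℂ) : Sph)) ∧
    sinv ((0 : ℂ) : Sph) = OnePoint.infty ∧ sinv OnePoint.infty = ((0 : ℂ) : Sph) ∧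
    (∀ x, sinv (sinv x) = x) := by
  have h1 : ∀ z : ℂ, z ≠ 0 → sinv (z : Sph) = ((z⁻¹ : ℂ) : Sph) := by
    intro z hz
    show (if z = 0 then OnePoint.infty else ((z⁻¹ : ℂ) : Sph)) = _
    rw [if_neg hz]
  have h2 : sinv ((0 : ℂ) : Sph) = OnePoint.infty := by
    show (if (0 : ℂ) = 0 then OnePoint.infty else (((0 : ℂ)⁻¹ : ℂ) : Sph)) = _
    rw [if_pos rfl]
  have h3 : sinv OnePoint.infty = ((0 : ℂ) : Sph) := rfl
  refine ⟨h1, h2, h3, ?_⟩
  intro x
  induction x using OnePoint.rec with
  | infty => rw [h3, h2]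
  | coe z =>
    by_cases hz : z = 0
    · rw [hz, h2, h3]
    · rw [h1 z hz, h1 z⁻¹ (inv_ne_zero hz), inv_inv]

end Pool.Agent.H320.HSC
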