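import Pool.Agent.H320.HSC.Defs
import Pool.Agent.H320.HSC.P_sinv_facts

/-! Numerical part: order 3 Taylor models in fixed point arithmetic and the list of quantities to be
checked.  Everything is polymorphic in the operations, so that the same program is run on real
numbers and on Taylor models. -/

set_option autoImplicit false

open Complex
open scoped Manifold ContDiff ComplexOrder

namespace Pool.Agent.H320.HSC



theorem trans_eq_sv (z : ℂ) (hz : z ≠ 0) : sinv (z : Sph) = ((z⁻¹ : ℂ) : Sph) :=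
  sinv_facts.1 z hz

theorem trans_eq_ss (x : Sph) : sinv (sinv x) = x := sinv_facts.2.2.2 x

theorem trans_eq (m : Fin 6) (q : ℂ × ℂ) (h : q ∈ TD m) :
    rhoA^[(m : ℕ)] (kap q) = kap (TT m q) := by
  obtain ⟨a, b⟩ := q
  fin_cases m
  · rfl
  · have ha : a ≠ 0 := h
    show (((a * b : ℂ) : Sph), ((b : Sph), sinv (a : Sph))) =
      (((a * b : ℂ) : Sph), (((a * b * a⁻¹ : ℂ) : Sph), ((a⁻¹ : ℂ) : Sph)))
    rw [trans_eq_sv a ha]
    have e : a * b * a⁻¹ = b := by field_simp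
    rw [e]
  · have hab : a * b ≠ 0 := h
    have ha : a ≠ 0 := left_ne_zero_of_mul hab
    have hb : b ≠ 0 := right_ne_zero_of_mul hab
    show ((b : Sph), (sinv (a : Sph), sinv ((a * b : ℂ) : Sph))) =
      ((b : Sph), (((b * (a * b)⁻¹ : ℂ) : Sph), (((a * b)⁻¹ : ℂ) : Sph)))
    rw [trans_eq_sv a ha, trans_eq_sv _ hab]
    have e : b * (a * b)⁻¹ = a⁻¹ := by field_simp
    rw [e]
  · have hab : a * b ≠ 0 := h
    have ha : a ≠ 0 := left_ne_zero_of_mul hab
    have hb : b ≠ 0 := right_ne_zero_of_mul hab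
    show (sinv (a : Sph), (sinv ((a * b : ℂ) : Sph), sinv (b : Sph))) =
      (((a⁻¹ : ℂ) : Sph), (((a⁻¹ * b⁻¹ : ℂ) : Sph), ((b⁻¹ : ℂ) : Sph)))
    rw [trans_eq_sv a ha, trans_eq_sv _ hab, trans_eq_sv b hb, mul_inv]
  · have hab : a * b ≠ 0 := h
    have ha : a ≠ 0 := left_ne_zero_of_mul hab
    have hb : b ≠ 0 := right_ne_zero_of_mul hab
    show (sinv ((a * b : ℂ) : Sph), (sinv (b : Sph), sinv (sinv (a : Sph)))) =
      ((((a * b)⁻¹ : ℂ) : Sph), ((((a * b)⁻¹ * a : ℂ) : Sph), (a : Sph)))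
    rw [trans_eq_ss, trans_eq_sv _ hab, trans_eq_sv b hb]
    have e : (a * b)⁻¹ * a = b⁻¹ := by field_simp
    rw [e]
  · have hb : b ≠ 0 := h
    show (sinv (b : Sph), (sinv (sinv (a : Sph)), sinv (sinv ((a * b : ℂ) : Sph)))) =
      (((b⁻¹ : ℂ) : Sph), (((b⁻¹ * (a * b) : ℂ) : Sph), ((a * b : ℂ) : Sph)))
    rw [trans_eq_ss, trans_eq_ss, trans_eq_sv b hb]
    have e : b⁻¹ * (a * b) = a := by field_simp
    rw [e]

end Pool.Agent.H320.HSC
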