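import Pool.Agent.H320.HSC.P_bij_XS
import Pool.Agent.H320.HSC.P_good_chart
import Pool.Agent.H320.HSC.P_open_TD
import Pool.Agent.H320.HSC.P_smooth_TT
import Pool.Agent.H320.HSC.P_trans_eq
import Pool.Agent.H320.HSC.P_trans_iff
import Pool.Agent.H320.HSC.P_cont_sinv
set_option autoImplicit false
open Complex
open scoped Manifold ContDiff ComplexOrder
namespace Pool.Agent.H320.HSC

theorem kap_mem (q : ℂ × ℂ) : kap q ∈ XSet := ⟨0, q, rfl⟩

theorem cont_iter (n : ℕ) : Continuous (rhoA^[n]) := rho_facts.1.iterate n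

theorem iter_iter (m n : ℕ) (p : Amb) : rhoA^[m] (rhoA^[n] p) = rhoA^[(m + n) % 6] p := by
  rw [← Function.iterate_add_apply, rho_facts.2.2.2]

theorem fin_kap (q : ℂ × ℂ) : (fin (kap q).1, fin (kap q).2.2) = q := by
  simp [kap, fin_facts.1]

theorem kap_ne (q : ℂ × ℂ) : (kap q).1 ≠ OnePoint.infty ∧ (kap q).2.2 ≠ OnePoint.infty := by
  simp [kap]

/-- the six charts of the surface -/
noncomputable def E (k : Fin 6) : OpenPartialHomeomorph XS (ℂ × ℂ) where
  toFun x := (fin (rhoA^[(k : ℕ)] x.1).1, fin (rhoA^[(k : ℕ)] x.1).2.2)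
  invFun q := ⟨rhoA^[6 - (k : ℕ)] (kap q), (rho_mem _ _).2 (kap_mem q)⟩
  source := {x | (rhoA^[(k : ℕ)] x.1).1 ≠ OnePoint.infty ∧
    (rhoA^[(k : ℕ)] x.1).2.2 ≠ OnePoint.infty}
  target := Set.univ
  map_source' x _ := Set.mem_univ _
  map_target' q _ := by
    have : ((k : ℕ) + (6 - (k : ℕ))) % 6 = 0 := by have := k.2; omega
    show (rhoA^[(k : ℕ)] (rhoA^[6 - (k : ℕ)] (kap q))).1 ≠ _ ∧
      (rhoA^[(k : ℕ)] (rhoA^[6 - (k : ℕ)] (kap q))).2.2 ≠ _
    rw [iter_iter, this]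
    exact kap_ne q
  left_inv' x hx := by
    apply Subtype.ext
    show rhoA^[6 - (k : ℕ)] (kap (fin (rhoA^[(k : ℕ)] x.1).1, fin (rhoA^[(k : ℕ)] x.1).2.2)) = x.1
    rw [← mem_kap _ ((rho_mem _ _).2 x.2) hx.1 hx.2, iter_iter]
    have : ((6 - (k : ℕ)) + (k : ℕ)) % 6 = 0 := by have := k.2; omega
    rw [this]; rfl
  right_inv' q _ := by
    have : ((k : ℕ) + (6 - (k : ℕ))) % 6 = 0 := by have := k.2; omega
    show (fin (rhoA^[(k : ℕ)] (rhoA^[6 - (k : ℕ)] (kap q))).1,
      fin (rhoA^[(k : ℕ)] (rhoA^[6 - (k : ℕ)] (kap q))).2.2) = q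
    rw [iter_iter, this]
    exact fin_kap q
  open_source := by
    have h1 : Continuous fun x : XS => (rhoA^[(k : ℕ)] x.1).1 :=
      continuous_fst.comp ((cont_iter _).comp continuous_subtype_val)
    have h2 : Continuous fun x : XS => (rhoA^[(k : ℕ)] x.1).2.2 :=
      (continuous_snd.comp continuous_snd).comp ((cont_iter _).comp continuous_subtype_val)
    exact (isOpen_ne_fun h1 continuous_const).inter (isOpen_ne_fun h2 continuous_const)
  open_target := isOpen_univ
  continuousOn_toFun := by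
    have h1 : Continuous fun x : XS => (rhoA^[(k : ℕ)] x.1).1 :=
      continuous_fst.comp ((cont_iter _).comp continuous_subtype_val)
    have h2 : Continuous fun x : XS => (rhoA^[(k : ℕ)] x.1).2.2 :=
      (continuous_snd.comp continuous_snd).comp ((cont_iter _).comp continuous_subtype_val)
    exact (fin_facts.2.2.comp h1.continuousOn (fun x hx => hx.1)).prodMk
      (fin_facts.2.2.comp h2.continuousOn (fun x hx => hx.2))
  continuousOn_invFun := by
    apply Continuous.continuousOn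
    exact Continuous.subtype_mk ((cont_iter _).comp rho_facts.2.1) _

theorem E_symm_val (k : Fin 6) (q : ℂ × ℂ) : ((E k).symm q).1 = rhoA^[6 - (k : ℕ)] (kap q) := rfl

theorem E_apply (k : Fin 6) (x : XS) :
    E k x = (fin (rhoA^[(k : ℕ)] x.1).1, fin (rhoA^[(k : ℕ)] x.1).2.2) := rfl

theorem mem_E (k : Fin 6) (x : XS) : x ∈ (E k).source ↔
    ((rhoA^[(k : ℕ)] x.1).1 ≠ OnePoint.infty ∧ (rhoA^[(k : ℕ)] x.1).2.2 ≠ OnePoint.infty) :=
  Iff.rfl

theorem E_target (k : Fin 6) : (E k).target = Set.univ := rfl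

theorem iter_sub (i j : Fin 6) (q : ℂ × ℂ) :
    rhoA^[(j : ℕ)] (rhoA^[6 - (i : ℕ)] (kap q)) = rhoA^[((j - i : Fin 6) : ℕ)] (kap q) := by
  rw [iter_iter]
  congr 1
  have : ((j : ℕ) + (6 - (i : ℕ))) % 6 = ((j - i : Fin 6) : ℕ) := by
    rw [Fin.sub_def]
    show _ = (6 - (i : ℕ) + (j : ℕ)) % 6
    rw [add_comm]
  rw [this]

theorem trans_source (i j : Fin 6) : ((E i).symm.trans (E j)).source = TD (j - i) := by
  ext q
  rw [OpenPartialHomeomorph.trans_source]
  constructor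
  · intro h
    have h2 := h.2
    have h3 : ((rhoA^[(j : ℕ)] (rhoA^[6 - (i : ℕ)] (kap q))).1 ≠ OnePoint.infty ∧
      (rhoA^[(j : ℕ)] (rhoA^[6 - (i : ℕ)] (kap q))).2.2 ≠ OnePoint.infty) := h2
    rw [iter_sub] at h3
    exact (trans_iff _ _).1 h3
  · intro h
    refine ⟨Set.mem_univ _, ?_⟩
    show ((rhoA^[(j : ℕ)] (rhoA^[6 - (i : ℕ)] (kap q))).1 ≠ OnePoint.infty ∧
      (rhoA^[(j : ℕ)] (rhoA^[6 - (i : ℕ)] (kap q))).2.2 ≠ OnePoint.infty)
    rw [iter_sub]
    exact (trans_iff _ _).2 h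

theorem trans_apply (i j : Fin 6) (q : ℂ × ℂ) (h : q ∈ TD (j - i)) :
    ((E i).symm.trans (E j)) q = TT (j - i) q := by
  show (fin (rhoA^[(j : ℕ)] (rhoA^[6 - (i : ℕ)] (kap q))).1,
      fin (rhoA^[(j : ℕ)] (rhoA^[6 - (i : ℕ)] (kap q))).2.2) = _
  rw [iter_sub, trans_eq _ _ h, fin_kap]

theorem exists_good (x : XS) : ∃ k : Fin 6, x ∈ (E k).source ∧ ‖(E k x).1‖ ≤ 1 ∧ ‖(E k x).2‖ ≤ 1 := by
  obtain ⟨n, q, hq⟩ := x.2
  obtain ⟨m, hm, h1, h2⟩ := good_chart q
  have h3 : rhoA^[((m : ℕ) + n) % 6] x.1 = kap (TT m q) := by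
    rw [← iter_iter, hq, trans_eq m q hm]
  refine ⟨⟨((m : ℕ) + n) % 6, Nat.mod_lt _ (by norm_num)⟩, ?_, ?_⟩
  · rw [mem_E]
    simp only []
    rw [h3]
    exact kap_ne _
  · rw [E_apply]
    simp only []
    rw [h3]
    have h4 := Prod.ext_iff.1 (fin_kap (TT m q))
    simp only [] at h4
    rw [h4.1, h4.2]
    exact ⟨h1, h2⟩

/-- the complex structure of the surface -/
noncomputable instance instChXS : ChartedSpace (ℂ × ℂ) XS where
  atlas := Set.range E
  chartAt x := E (Classical.choose (exists_good x))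
  mem_chart_source x := (Classical.choose_spec (exists_good x)).1
  chart_mem_atlas x := ⟨_, rfl⟩

theorem chartAt_le (x : XS) : ‖(chartAt (ℂ × ℂ) x x).1‖ ≤ 1 ∧ ‖(chartAt (ℂ × ℂ) x x).2‖ ≤ 1 :=
  (Classical.choose_spec (exists_good x)).2

theorem mem_atlas_XS (e : OpenPartialHomeomorph XS (ℂ × ℂ)) (he : e ∈ atlas (ℂ × ℂ) XS) :
    ∃ k, e = E k := by
  obtain ⟨k, rfl⟩ := he
  exact ⟨k, rfl⟩

theorem manifold_XS : IsManifold 𝓘(ℂ, ℂ × ℂ) ω XS := by
  apply isManifold_of_contDiffOn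
  rintro e e' ⟨i, rfl⟩ ⟨j, rfl⟩
  have h1 : (𝓘(ℂ, ℂ × ℂ).symm ⁻¹' ((E i).symm.trans (E j)).source ∩ Set.range 𝓘(ℂ, ℂ × ℂ)) =
      TD (j - i) := by
    rw [trans_source]
    simp
  rw [h1]
  refine (smooth_TT (j - i)).congr ?_
  intro q hq
  exact trans_apply i j q hq

theorem compact_XS : CompactSpace XS := by
  constructor
  have hK : IsCompact (Metric.closedBall (0 : ℂ) 1 ×ˢ Metric.closedBall (0 : ℂ) 1) :=
    (isCompact_closedBall _ _).prod (isCompact_closedBall _ _)
  have h1 : ∀ k : Fin 6, IsCompact ((E k).symm '' (Metric.closedBall (0 : ℂ) 1 ×ˢ Metric.closedBall (0 : ℂ) 1)) := by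
    intro k
    apply hK.image_of_continuousOn
    exact (E k).continuousOn_symm.mono (fun _ _ => Set.mem_univ _)
  have h2 : (Set.univ : Set XS) = ⋃ k : Fin 6,
      ((E k).symm '' (Metric.closedBall (0 : ℂ) 1 ×ˢ Metric.closedBall (0 : ℂ) 1)) := by
    symm
    rw [Set.eq_univ_iff_forall]
    intro x
    obtain ⟨k, hk, h1, h2⟩ := exists_good x
    refine Set.mem_iUnion.2 ⟨k, E k x, ⟨?_, ?_⟩, (E k).left_inv hk⟩
    · simpa using h1
    · simpa using h2
  rw [h2]
  exact isCompact_iUnion h1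

theorem t2_XS : T2Space XS := inferInstance

/-! ## the Riemann sphere -/

noncomputable def c0 : OpenPartialHomeomorph Sph ℂ where
  toFun := fin
  invFun z := (z : Sph)
  source := {x | x ≠ OnePoint.infty}
  target := Set.univ
  map_source' x _ := Set.mem_univ _
  map_target' z _ := OnePoint.coe_ne_infty z
  left_inv' x hx := fin_facts.2.1 x hx
  right_inv' z _ := fin_facts.1 z
  open_source := isOpen_ne
  open_target := isOpen_univ
  continuousOn_toFun := fin_facts.2.2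
  continuousOn_invFun := OnePoint.continuous_coe.continuousOn

theorem sinv_ne_iff (x : Sph) : sinv x ≠ OnePoint.infty ↔ x ≠ ((0 : ℂ) : Sph) := by
  have h := sinv_facts
  constructor
  · intro h1 h2
    exact h1 (h2 ▸ h.2.1)
  · intro h1 h2
    apply h1
    rw [← h.2.2.2 x, h2, h.2.2.1]

noncomputable def c1 : OpenPartialHomeomorph Sph ℂ where
  toFun x := fin (sinv x)
  invFun z := sinv (z : Sph)
  source := {x | x ≠ ((0 : ℂ) : Sph)}
  target := Set.univ
  map_source' x _ := Set.mem_univ _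
  map_target' z _ := by
    rw [Set.mem_ofPred_eq, ← sinv_ne_iff, sinv_facts.2.2.2]
    exact OnePoint.coe_ne_infty z
  left_inv' x hx := by
    rw [fin_facts.2.1 _ ((sinv_ne_iff x).2 hx), sinv_facts.2.2.2]
  right_inv' z _ := by
    rw [sinv_facts.2.2.2, fin_facts.1]
  open_source := isOpen_ne
  open_target := isOpen_univ
  continuousOn_toFun := fin_facts.2.2.comp cont_sinv.continuousOn
    (fun x hx => (sinv_ne_iff x).2 hx)
  continuousOn_invFun := (cont_sinv.comp OnePoint.continuous_coe).continuousOn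

/-- the standard complex structure of the Riemann sphere: the two charts `z` and `1/z` -/
noncomputable instance instChSph : ChartedSpace ℂ Sph where
  atlas := {c0, c1}
  chartAt x := by classical exact if x = OnePoint.infty then c1 else c0
  mem_chart_source x := by
    by_cases h : x = OnePoint.infty
    · subst h
      simp only [if_true]
      exact OnePoint.infty_ne_coe _
    · simp only [h, if_false]
      exact h
  chart_mem_atlas x := by
    by_cases h : x = OnePoint.infty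
    · simp [h]
    · simp [h]

noncomputable instance instChSph2 : ChartedSpace (ℂ × ℂ) (Sph × Sph) := prodChartedSpace ℂ Sph ℂ Sph

end Pool.Agent.H320.HSC
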