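import Mathlib

/-! Numerical part: order 3 Taylor models in fixed point arithmetic and the list of quantities to be
checked.  Everything is polymorphic in the operations, so that the same program is run on real
numbers and on Taylor models. -/

set_option autoImplicit false

open Complex
open scoped Manifold ContDiff ComplexOrder

namespace Pool.Agent.H320.HSC

/-- basic operations -/
structure Ops (R : Type) where
  add : R → R → R
  sub : R → R → R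
  mul : R → R → R
  inv : R → R
  nat : Nat → R

noncomputable def rOps : Ops ℝ where
  add := fun a b => a + b
  sub := fun a b => a - b
  mul := fun a b => a * b
  inv := fun a => a⁻¹
  nat := fun n => (n : ℝ)

/-- the partial derivatives up to order four -/
structure D14 (R : Type) where
  s : R
  t : R
  ss : R
  st : R
  tt : R
  sss : R
  sst : R
  stt : R
  ttt : R
  ssss : R
  ssst : R
  sstt : R
  sttt : R
  tttt : R

section prog
variable {R : Type} (o : Ops R)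

/-- derivatives of `log L` from the ratios `m_ij = ∂_s^i ∂_t^j L / L` (with `m_30 = m_03 = 0`, ...) -/
def cum (a b aa ab bb aab abb aabb : R) : D14 R where
  s := a
  t := b
  ss := o.sub aa (o.mul a a)
  st := o.sub ab (o.mul a b)
  tt := o.sub bb (o.mul b b)
  sss := o.sub (o.mul (o.nat 2) (o.mul a (o.mul a a))) (o.mul (o.nat 3) (o.mul aa a))
  sst := o.sub (o.add aab (o.mul (o.nat 2) (o.mul a (o.mul a b))))
    (o.add (o.mul aa b) (o.mul (o.nat 2) (o.mul ab a)))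
  stt := o.sub (o.add abb (o.mul (o.nat 2) (o.mul b (o.mul a b))))
    (o.add (o.mul bb a) (o.mul (o.nat 2) (o.mul ab b)))
  ttt := o.sub (o.mul (o.nat 2) (o.mul b (o.mul b b))) (o.mul (o.nat 3) (o.mul bb b))
  ssss := o.sub (o.mul (o.nat 12) (o.mul aa (o.mul a a)))
    (o.add (o.mul (o.nat 3) (o.mul aa aa)) (o.mul (o.nat 6) (o.mul (o.mul a a) (o.mul a a))))
  ssst := o.sub (o.mul (o.nat 6) (o.add (o.mul aa (o.mul a b)) (o.mul ab (o.mul a a))))
    (o.add (o.mul (o.nat 3) (o.add (o.mul aab a) (o.mul aa ab)))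
      (o.mul (o.nat 6) (o.mul (o.mul a a) (o.mul a b))))
  sstt := o.sub (o.add (o.add aabb (o.mul (o.nat 2) (o.add (o.mul aa (o.mul b b)) (o.mul bb (o.mul a a)))))
      (o.mul (o.nat 8) (o.mul ab (o.mul a b))))
    (o.add (o.add (o.mul (o.nat 2) (o.add (o.mul aab b) (o.mul abb a)))
      (o.add (o.mul aa bb) (o.mul (o.nat 2) (o.mul ab ab))))
      (o.mul (o.nat 6) (o.mul (o.mul a a) (o.mul b b))))
  sttt := o.sub (o.mul (o.nat 6) (o.add (o.mul bb (o.mul a b)) (o.mul ab (o.mul b b))))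
    (o.add (o.mul (o.nat 3) (o.add (o.mul abb b) (o.mul bb ab)))
      (o.mul (o.nat 6) (o.mul (o.mul b b) (o.mul a b))))
  tttt := o.sub (o.mul (o.nat 12) (o.mul bb (o.mul b b)))
    (o.add (o.mul (o.nat 3) (o.mul bb bb)) (o.mul (o.nat 6) (o.mul (o.mul b b) (o.mul b b))))

/-- `3 A + 3 B + C + D`, componentwise -/
def comb (A B C D : D14 R) : D14 R where
  s := o.add (o.mul (o.nat 3) (o.add A.s B.s)) (o.add C.s D.s)
  t := o.add (o.mul (o.nat 3) (o.add A.t B.t)) (o.add C.t D.t)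
  ss := o.add (o.mul (o.nat 3) (o.add A.ss B.ss)) (o.add C.ss D.ss)
  st := o.add (o.mul (o.nat 3) (o.add A.st B.st)) (o.add C.st D.st)
  tt := o.add (o.mul (o.nat 3) (o.add A.tt B.tt)) (o.add C.tt D.tt)
  sss := o.add (o.mul (o.nat 3) (o.add A.sss B.sss)) (o.add C.sss D.sss)
  sst := o.add (o.mul (o.nat 3) (o.add A.sst B.sst)) (o.add C.sst D.sst)
  stt := o.add (o.mul (o.nat 3) (o.add A.stt B.stt)) (o.add C.stt D.stt)
  ttt := o.add (o.mul (o.nat 3) (o.add A.ttt B.ttt)) (o.add C.ttt D.ttt)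
  ssss := o.add (o.mul (o.nat 3) (o.add A.ssss B.ssss)) (o.add C.ssss D.ssss)
  ssst := o.add (o.mul (o.nat 3) (o.add A.ssst B.ssst)) (o.add C.ssst D.ssst)
  sstt := o.add (o.mul (o.nat 3) (o.add A.sstt B.sstt)) (o.add C.sstt D.sstt)
  sttt := o.add (o.mul (o.nat 3) (o.add A.sttt B.sttt)) (o.add C.sttt D.sttt)
  tttt := o.add (o.mul (o.nat 3) (o.add A.tttt B.tttt)) (o.add C.tttt D.tttt)

/-- derivatives of `log (1 + s + st)` -/
def dL1 (s t : R) : D14 R :=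
  cum o (o.mul (o.add (o.nat 1) t) (o.inv (o.add (o.nat 1) (o.add s (o.mul s t)))))
    (o.mul s (o.inv (o.add (o.nat 1) (o.add s (o.mul s t)))))
    (o.nat 0) (o.inv (o.add (o.nat 1) (o.add s (o.mul s t)))) (o.nat 0) (o.nat 0) (o.nat 0) (o.nat 0)

/-- derivatives of `log (1 + t + st)` -/
def dL2 (s t : R) : D14 R :=
  cum o (o.mul t (o.inv (o.add (o.nat 1) (o.add t (o.mul s t)))))
    (o.mul (o.add (o.nat 1) s) (o.inv (o.add (o.nat 1) (o.add t (o.mul s t)))))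
    (o.nat 0) (o.inv (o.add (o.nat 1) (o.add t (o.mul s t)))) (o.nat 0) (o.nat 0) (o.nat 0) (o.nat 0)

/-- `Q = 1 + 4s + 4st + s² + 4s²t + s²t² = 1 + 4s(1+t+st) + s²(1+t²)` -/
def pQ (s t : R) : R :=
  o.add (o.add (o.nat 1) (o.mul (o.nat 4) (o.mul s (o.add (o.nat 1) (o.add t (o.mul s t))))))
    (o.mul (o.mul s s) (o.add (o.nat 1) (o.mul t t)))
/-- `∂_s Q = 4 + 4t + 2s + 8st + 2st²` -/
def pQs (s t : R) : R :=
  o.add (o.mul (o.nat 4) (o.add (o.nat 1) t))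
    (o.mul (o.nat 2) (o.mul s (o.add (o.add (o.nat 1) (o.mul (o.nat 4) t)) (o.mul t t))))
/-- `∂_t Q = 4s + 4s² + 2s²t` -/
def pQt (s t : R) : R :=
  o.add (o.mul (o.nat 4) s) (o.mul (o.nat 2) (o.mul (o.mul s s) (o.add (o.nat 2) t)))
/-- `∂_s² Q = 2 + 8t + 2t²` -/
def pQss (t : R) : R := o.mul (o.nat 2) (o.add (o.add (o.nat 1) (o.mul (o.nat 4) t)) (o.mul t t))
/-- `∂_s∂_t Q = 4 + 8s + 4st` -/
def pQst (s t : R) : R := o.mul (o.nat 4) (o.add (o.nat 1) (o.mul s (o.add (o.nat 2) t)))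
/-- `∂_t² Q = 2s²` -/
def pQtt (s : R) : R := o.mul (o.nat 2) (o.mul s s)
/-- `∂_s²∂_t Q = 8 + 4t` -/
def pQsst (t : R) : R := o.mul (o.nat 4) (o.add (o.nat 2) t)
/-- `∂_s∂_t² Q = 4s` -/
def pQstt (s : R) : R := o.mul (o.nat 4) s

/-- derivatives of `log Q(s,t)`, given `i = 1/Q(s,t)` -/
def dQ' (i s t : R) : D14 R :=
  cum o (o.mul (pQs o s t) i) (o.mul (pQt o s t) i) (o.mul (pQss o t) i) (o.mul (pQst o s t) i)
    (o.mul (pQtt o s) i) (o.mul (pQsst o t) i) (o.mul (pQstt o s) i) (o.mul (o.nat 4) i)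
def dQ (s t : R) : D14 R := dQ' o (o.inv (pQ o s t)) s t
/-- derivatives of `log Q(t,s)` -/
def dP' (i s t : R) : D14 R :=
  cum o (o.mul (pQt o t s) i) (o.mul (pQs o t s) i) (o.mul (pQtt o t) i) (o.mul (pQst o t s) i)
    (o.mul (pQss o s) i) (o.mul (pQstt o t) i) (o.mul (pQsst o s) i) (o.mul (o.nat 4) i)
def dP (s t : R) : D14 R := dP' o (o.inv (pQ o t s)) s t

/-- derivatives of `f = 3 log L1 + 3 log L2 + log Q(s,t) + log Q(t,s)` -/
def dF (s t : R) : D14 R := comb o (dL1 o s t) (dL2 o s t) (dQ o s t) (dP o s t)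

/-- intermediate quantities -/
structure Mid (R : Type) where
  st : R
  g11 : R
  g22 : R
  g12 : R
  dt : R
  u1 : R
  u2 : R
  u3 : R
  w1 : R
  w2 : R
  w3 : R
  f1 : R
  f2 : R
  f3 : R
  f4 : R
  f5 : R
  f6 : R

def mid (s t : R) (A : D14 R) : Mid R where
  st := o.mul s t
  g11 := o.add A.s (o.mul s A.ss)
  g22 := o.add A.t (o.mul t A.tt)
  g12 := A.st
  dt := o.sub (o.mul (o.add A.s (o.mul s A.ss)) (o.add A.t (o.mul t A.tt)))
    (o.mul (o.mul s t) (o.mul A.st A.st))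
  u1 := o.add (o.mul (o.nat 2) A.ss) (o.mul s A.sss)
  u2 := o.add A.st (o.mul s A.sst)
  u3 := A.stt
  w1 := o.add (o.mul (o.nat 2) A.tt) (o.mul t A.ttt)
  w2 := o.add A.st (o.mul t A.stt)
  w3 := A.sst
  f1 := o.add (o.add (o.mul (o.nat 2) A.ss) (o.mul (o.nat 4) (o.mul s A.sss)))
    (o.mul (o.mul s s) A.ssss)
  f2 := o.add (o.add A.st (o.mul s A.sst)) (o.add (o.mul t A.stt) (o.mul (o.mul s t) A.sstt))
  f3 := o.add (o.add (o.mul (o.nat 2) A.tt) (o.mul (o.nat 4) (o.mul t A.ttt)))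
    (o.mul (o.mul t t) A.tttt)
  f4 := o.add (o.mul (o.nat 2) A.sst) (o.mul s A.ssst)
  f5 := o.add (o.mul (o.nat 2) A.stt) (o.mul t A.sttt)
  f6 := A.sstt

/-- the six coefficients of the curvature form, multiplied by `dt` -/
structure Q6 (R : Type) where
  al : R
  be : R
  ga : R
  de : R
  ep : R
  ze : R

def q6 (s t : R) (m : Mid R) : Q6 R where
  al := o.sub (o.sub (o.add (o.mul m.g22 (o.mul s (o.mul m.u1 m.u1)))
      (o.mul m.g11 (o.mul m.st (o.mul s (o.mul m.w3 m.w3)))))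
      (o.mul (o.nat 2) (o.mul m.g12 (o.mul s (o.mul m.st (o.mul m.u1 m.w3))))))
    (o.mul m.dt m.f1)
  be := o.sub (o.sub (o.add
      (o.mul m.g22 (o.sub (o.mul (o.nat 4) (o.mul t (o.mul m.u2 m.u2)))
        (o.mul (o.nat 2) (o.mul m.st (o.mul m.u1 m.u3)))))
      (o.mul m.g11 (o.sub (o.mul (o.nat 4) (o.mul s (o.mul m.w2 m.w2)))
        (o.mul (o.nat 2) (o.mul m.st (o.mul m.w1 m.w3))))))
      (o.mul m.g12 (o.mul m.st (o.sub (o.mul (o.nat 8) (o.mul m.u2 m.w2))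
        (o.mul (o.nat 2) (o.add (o.mul m.u1 m.w1) (o.mul m.st (o.mul m.u3 m.w3))))))))
    (o.mul m.dt (o.sub (o.mul (o.nat 4) m.f2) (o.mul (o.nat 2) (o.mul m.st m.f6))))
  ga := o.sub (o.sub (o.add (o.mul m.g11 (o.mul t (o.mul m.w1 m.w1)))
      (o.mul m.g22 (o.mul m.st (o.mul t (o.mul m.u3 m.u3)))))
      (o.mul (o.nat 2) (o.mul m.g12 (o.mul t (o.mul m.st (o.mul m.w1 m.u3))))))
    (o.mul m.dt m.f3)
  de := o.mul (o.nat 2) (o.sub (o.sub (o.add (o.mul m.g22 (o.mul m.u1 m.u2))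
      (o.mul m.g11 (o.mul s (o.mul m.w2 m.w3))))
      (o.mul m.g12 (o.add (o.mul s (o.mul m.u1 m.w2)) (o.mul m.st (o.mul m.u2 m.w3)))))
    (o.mul m.dt m.f4))
  ep := o.mul (o.nat 2) (o.sub (o.sub (o.add (o.mul m.g11 (o.mul m.w1 m.w2))
      (o.mul m.g22 (o.mul t (o.mul m.u2 m.u3))))
      (o.mul m.g12 (o.add (o.mul t (o.mul m.w1 m.u2)) (o.mul m.st (o.mul m.w2 m.u3)))))
    (o.mul m.dt m.f5))
  ze := o.sub (o.sub (o.add (o.mul m.g22 (o.mul m.u1 m.u3)) (o.mul m.g11 (o.mul m.w1 m.w3)))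
      (o.mul m.g12 (o.add (o.mul m.u1 m.w1) (o.mul m.st (o.mul m.u3 m.w3)))))
    (o.mul m.dt m.f6)

def m2 (q : Q6 R) : R := o.sub (o.mul (o.nat 4) (o.mul q.al q.ga)) (o.mul q.be q.be)
def det4 (q : Q6 R) : R :=
  o.sub (o.add (o.mul q.ze (m2 o q)) (o.mul q.be (o.mul q.de q.ep)))
    (o.add (o.mul q.al (o.mul q.ep q.ep)) (o.mul q.ga (o.mul q.de q.de)))

def midF (s t : R) : Mid R := mid o s t (dF o s t)
def q6F (s t : R) : Q6 R := q6 o s t (midF o s t)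

end prog

/-- the four inequalities -/
def Good (s t : ℝ) : Prop :=
  0 < (midF rOps s t).dt ∧ 0 < (q6F rOps s t).al ∧ 0 < m2 rOps (q6F rOps s t) ∧
    0 < det4 rOps (q6F rOps s t)

/-! ### Taylor models -/

/-- `c00 + c10 σ + ... ± r`, all in units of `2^-32` -/
structure TM where
  a00 : Int
  a10 : Int
  a01 : Int
  a20 : Int
  a11 : Int
  a02 : Int
  a30 : Int
  a21 : Int
  a12 : Int
  a03 : Int
  r : Nat
  ok : Bool


namespace TM

/-- `2^32` -/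
abbrev P : Nat := 4294967296

def n1 (x : TM) : Nat := Nat.add (Int.natAbs x.a10) (Int.natAbs x.a01)
def n2 (x : TM) : Nat := Nat.add (Nat.add (Int.natAbs x.a20) (Int.natAbs x.a11)) (Int.natAbs x.a02)
def n3 (x : TM) : Nat := Nat.add (Nat.add (Int.natAbs x.a30) (Int.natAbs x.a21))
  (Nat.add (Int.natAbs x.a12) (Int.natAbs x.a03))
def tot (x : TM) : Nat := Nat.add (Nat.add (Int.natAbs x.a00) (n1 x)) (Nat.add (n2 x) (n3 x))

def cst (n : Nat) : TM := ⟨Int.ofNat (Nat.mul n P), 0, 0, 0, 0, 0, 0, 0, 0, 0, 0, true⟩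

def add (x y : TM) : TM :=
  ⟨Int.add x.a00 y.a00, Int.add x.a10 y.a10, Int.add x.a01 y.a01, Int.add x.a20 y.a20,
   Int.add x.a11 y.a11, Int.add x.a02 y.a02, Int.add x.a30 y.a30, Int.add x.a21 y.a21,
   Int.add x.a12 y.a12, Int.add x.a03 y.a03, Nat.add x.r y.r, and x.ok y.ok⟩

def sub (x y : TM) : TM :=
  ⟨Int.sub x.a00 y.a00, Int.sub x.a10 y.a10, Int.sub x.a01 y.a01, Int.sub x.a20 y.a20,
   Int.sub x.a11 y.a11, Int.sub x.a02 y.a02, Int.sub x.a30 y.a30, Int.sub x.a21 y.a21,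
   Int.sub x.a12 y.a12, Int.sub x.a03 y.a03, Nat.add x.r y.r, and x.ok y.ok⟩

/-- floor division by `2^32` -/
def dv (a : Int) : Int := Int.ediv a (Int.ofNat P)

/-- remainder of a product -/
def mulR (x y : TM) : Nat :=
  Nat.add (Nat.div
    (Nat.add
      (Nat.add (Nat.mul (n1 x) (n3 y)) (Nat.add (Nat.mul (n2 x) (Nat.add (n2 y) (n3 y)))
        (Nat.mul (n3 x) (Nat.add (n1 y) (Nat.add (n2 y) (n3 y))))))
      (Nat.add (Nat.mul (Nat.add (tot x) x.r) y.r) (Nat.mul (tot y) x.r))) P) 11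

def mul (x y : TM) : TM :=
  ⟨dv (Int.mul x.a00 y.a00),
   dv (Int.add (Int.mul x.a00 y.a10) (Int.mul x.a10 y.a00)),
   dv (Int.add (Int.mul x.a00 y.a01) (Int.mul x.a01 y.a00)),
   dv (Int.add (Int.add (Int.mul x.a00 y.a20) (Int.mul x.a20 y.a00)) (Int.mul x.a10 y.a10)),
   dv (Int.add (Int.add (Int.mul x.a00 y.a11) (Int.mul x.a11 y.a00))
      (Int.add (Int.mul x.a10 y.a01) (Int.mul x.a01 y.a10))),
   dv (Int.add (Int.add (Int.mul x.a00 y.a02) (Int.mul x.a02 y.a00)) (Int.mul x.a01 y.a01)),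
   dv (Int.add (Int.add (Int.mul x.a00 y.a30) (Int.mul x.a30 y.a00))
      (Int.add (Int.mul x.a10 y.a20) (Int.mul x.a20 y.a10))),
   dv (Int.add (Int.add (Int.add (Int.mul x.a00 y.a21) (Int.mul x.a21 y.a00))
      (Int.add (Int.mul x.a10 y.a11) (Int.mul x.a11 y.a10)))
      (Int.add (Int.mul x.a01 y.a20) (Int.mul x.a20 y.a01))),
   dv (Int.add (Int.add (Int.add (Int.mul x.a00 y.a12) (Int.mul x.a12 y.a00))
      (Int.add (Int.mul x.a01 y.a11) (Int.mul x.a11 y.a01)))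
      (Int.add (Int.mul x.a10 y.a02) (Int.mul x.a02 y.a10))),
   dv (Int.add (Int.add (Int.mul x.a00 y.a03) (Int.mul x.a03 y.a00))
      (Int.add (Int.mul x.a01 y.a02) (Int.mul x.a02 y.a01))),
   mulR x y, and x.ok y.ok⟩

/-- forget the remainder -/
def noR (x : TM) : TM :=
  ⟨x.a00, x.a10, x.a01, x.a20, x.a11, x.a02, x.a30, x.a21, x.a12, x.a03, 0, true⟩

/-- one Newton step for the inverse, without remainder -/
def newt (x y : TM) : TM := noR (mul y (sub (cst 2) (mul x y)))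

/-- candidate for the inverse (exact polynomial) -/
def cand (x : TM) : TM :=
  newt (noR x) (newt (noR x)
    ⟨Int.ediv (Int.ofNat (Nat.mul P P)) x.a00, 0, 0, 0, 0, 0, 0, 0, 0, 0, 0, true⟩)

/-- `1 - x y` in absolute value, in units of `2^-32` -/
def defect (x y : TM) : Nat :=
  Nat.add (tot (sub (cst 1) (mul x y))) (TM.r (mul x y))

def invWith (x y : TM) (d : Nat) : TM :=
  ⟨y.a00, y.a10, y.a01, y.a20, y.a11, y.a02, y.a30, y.a21, y.a12, y.a03,
    Nat.add (Nat.div (Nat.mul (tot y) d) (Nat.sub P d)) 1, and x.ok (Nat.blt d P)⟩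

def inv (x : TM) : TM := invWith x (cand x) (defect x (cand x))

def tOps : Ops TM := ⟨add, sub, mul, inv, cst⟩

/-- lower bound is positive -/
def pos (x : TM) : Bool :=
  and x.ok (Int.casesOn x.a00
    (fun n => Nat.blt (Nat.add (Nat.add (n1 x) (Nat.add (n2 x) (n3 x))) x.r) n) (fun _ => false))

end TM

/-- boxes: centre `(i, j)/2^k`... given in units of `2^-32`: `s = (a + h σ)/2^32`, `t = (b + k τ)/2^32` -/
def boxS (a h : Nat) : TM := ⟨Int.ofNat a, Int.ofNat h, 0, 0, 0, 0, 0, 0, 0, 0, 0, true⟩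
def boxT (b k : Nat) : TM := ⟨Int.ofNat b, 0, Int.ofNat k, 0, 0, 0, 0, 0, 0, 0, 0, true⟩

def chkQ (dt : TM) (q : Q6 TM) : Bool :=
  and (and (TM.pos dt) (TM.pos q.al)) (and (TM.pos (m2 TM.tOps q)) (TM.pos (det4 TM.tOps q)))

def chkM (s t : TM) (m : Mid TM) : Bool := chkQ m.dt (q6 TM.tOps s t m)

def chk (s t : TM) : Bool := chkM s t (mid TM.tOps s t (dF TM.tOps s t))

/-- a box in units of `2^-13` : centre `(a, b)`, half widths `h, k` -/
def chkB (a h b k : Nat) : Bool :=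
  chk (boxS (Nat.mul a 524288) (Nat.mul h 524288)) (boxT (Nat.mul b 524288) (Nat.mul k 524288))


/-! ## Geometry -/

/-- `∑ v_i ∂F/∂z_i` at `p` (real derivative, complex valued function) -/
noncomputable def Wz (v : ℂ × ℂ) (F : ℂ × ℂ → ℂ) (p : ℂ × ℂ) : ℂ :=
  (fderiv ℝ F p v - I * fderiv ℝ F p (I • v)) / 2

/-- `∑ conj v_i ∂F/∂(conj z_i)` at `p` -/
noncomputable def Wzb (v : ℂ × ℂ) (F : ℂ × ℂ → ℂ) (p : ℂ × ℂ) : ℂ :=
  (fderiv ℝ F p v + I * fderiv ℝ F p (I • v)) / 2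

/-- the components of a vector -/
def comp (v : ℂ × ℂ) : Fin 2 → ℂ := ![v.1, v.2]

/-- the standard basis -/
def bas (i : Fin 2) : ℂ × ℂ := ![((1 : ℂ), (0 : ℂ)), ((0 : ℂ), (1 : ℂ))] i

/-- the Hermitian form `∑ g_{i j̄} v_i conj w_j` -/
noncomputable def pair (g : Matrix (Fin 2) (Fin 2) ℂ) (v w : ℂ × ℂ) : ℂ :=
  ∑ i, ∑ j, g i j * comp v i * (starRingEnd ℂ) (comp w j)

/-- the Chern curvature tensor of a Hermitian metric `g_{i j̄}` in local coordinates: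
`R_{i j̄ k l̄} = - ∂_k ∂_l̄ g_{i j̄} + ∑ g^{a b̄} (∂_k g_{i b̄}) (∂_l̄ g_{a j̄})` -/
noncomputable def curvT (g : ℂ × ℂ → Matrix (Fin 2) (Fin 2) ℂ) (p : ℂ × ℂ) (i j k l : Fin 2) : ℂ :=
  - Wz (bas k) (fun q => Wzb (bas l) (fun r => g r i j) q) p
  + ∑ a, ∑ b, (g p)⁻¹ b a * Wz (bas k) (fun r => g r i b) p * Wzb (bas l) (fun r => g r a j) p

/-- holomorphic sectional curvature `R(v, v̄, v, v̄) / |v|⁴` -/
noncomputable def hsc (g : ℂ × ℂ → Matrix (Fin 2) (Fin 2) ℂ) (p v : ℂ × ℂ) : ℂ :=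
  (∑ i, ∑ j, ∑ k, ∑ l, curvT g p i j k l * comp v i * (starRingEnd ℂ) (comp v j) * comp v k *
    (starRingEnd ℂ) (comp v l)) / (pair (g p) v v) ^ 2

/-- A Kähler metric on a complex surface, given in the charts of the atlas. -/
structure KahlerMetric (X : Type) [TopologicalSpace X] [ChartedSpace (ℂ × ℂ) X] where
  g : OpenPartialHomeomorph X (ℂ × ℂ) → ℂ × ℂ → Matrix (Fin 2) (Fin 2) ℂ
  smooth : ∀ e ∈ atlas (ℂ × ℂ) X, ∀ i j, ContDiffOn ℝ ∞ (fun p => g e p i j) e.target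
  posDef : ∀ e ∈ atlas (ℂ × ℂ) X, ∀ p ∈ e.target, (g e p).PosDef
  kahler : ∀ e ∈ atlas (ℂ × ℂ) X, ∀ p ∈ e.target, ∀ i j k,
    Wz (bas k) (fun r => g e r i j) p = Wz (bas i) (fun r => g e r k j) p
  compat : ∀ e ∈ atlas (ℂ × ℂ) X, ∀ e' ∈ atlas (ℂ × ℂ) X, ∀ p ∈ (e.symm.trans e').source,
    ∀ v w : ℂ × ℂ, pair (g e p) v w = pair (g e' ((e.symm.trans e') p))
      (fderiv ℂ (e.symm.trans e') p v) (fderiv ℂ (e.symm.trans e') p w)

/-- positive holomorphic sectional curvature (computed at `x` in the preferred chart at `x`; the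
holomorphic sectional curvature does not depend on the holomorphic coordinates) -/
def PositiveHSC {X : Type} [TopologicalSpace X] [ChartedSpace (ℂ × ℂ) X] (K : KahlerMetric X) :
    Prop :=
  ∀ x : X, ∀ v : ℂ × ℂ, v ≠ 0 → ∃ r : ℝ, 0 < r ∧
    hsc (K.g (chartAt (ℂ × ℂ) x)) (chartAt (ℂ × ℂ) x x) v = (r : ℂ)

/-- `π : X → Y` is the blow-up of the complex surface `Y` at the finite nonempty set `S` of (distinct)
points: away from `S` it is the identity in suitable charts (in particular locally biholomorphic and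
bijective); a point `q ∈ S` has a chart `(u, v)` centred at `q`, such that the preimage of the chart
domain is covered by two charts, in which `π` is `(a, b) ↦ (u, v) = (b, a b)` (so `a = v/u`, `b = u`),
respectively `(a, b) ↦ (u, v) = (a b, a)` (so `a = v`, `b = u/v`). -/
structure IsBlowUp {X Y : Type} [TopologicalSpace X] [ChartedSpace (ℂ × ℂ) X] [TopologicalSpace Y]
    [ChartedSpace (ℂ × ℂ) Y] (π : X → Y) (S : Set Y) : Prop where
  cont : Continuous π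
  finite : S.Finite
  nonempty : S.Nonempty
  bij : ∀ y, y ∉ S → ∃! x, π x = y
  away : ∀ x, π x ∉ S → ∃ e ∈ atlas (ℂ × ℂ) X, ∃ ψ ∈ atlas (ℂ × ℂ) Y, x ∈ e.source ∧
    e.target = ψ.target ∧ ∀ p ∈ e.target, π (e.symm p) = ψ.symm p
  model : ∀ q ∈ S, ∃ ψ ∈ atlas (ℂ × ℂ) Y, q ∈ ψ.source ∧ ψ q = 0 ∧ S ∩ ψ.source = {q} ∧
    ∃ e₁ ∈ atlas (ℂ × ℂ) X, ∃ e₂ ∈ atlas (ℂ × ℂ) X,
      e₁.source ∪ e₂.source = π ⁻¹' ψ.source ∧
      e₁.target = {p | (p.2, p.1 * p.2) ∈ ψ.target} ∧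
      (∀ p ∈ e₁.target, π (e₁.symm p) = ψ.symm (p.2, p.1 * p.2)) ∧
      e₂.target = {p | (p.1 * p.2, p.1) ∈ ψ.target} ∧
      (∀ p ∈ e₂.target, π (e₂.symm p) = ψ.symm (p.1 * p.2, p.1)) ∧
      (∀ p ∈ e₁.target, (e₁.symm p ∈ e₂.source ↔ p.1 ≠ 0)) ∧
      (∀ p ∈ e₁.target, p.1 ≠ 0 → e₂ (e₁.symm p) = (p.1 * p.2, p.1⁻¹))

/-! ## The Riemann sphere and the surface -/

/-- the Riemann sphere -/
abbrev Sph : Type := OnePoint ℂ

/-- `z ↦ 1/z` on the Riemann sphere -/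
noncomputable def sinv (x : Sph) : Sph :=
  x.elim ((0 : ℂ) : Sph) (fun z => if z = 0 then OnePoint.infty else ((z⁻¹ : ℂ) : Sph))

/-- the finite coordinate (junk value `0` at `∞`) -/
noncomputable def fin (x : Sph) : ℂ := x.elim 0 id

/-- ambient space `(α₀, α₁, α₂)` -/
abbrev Amb : Type := Sph × Sph × Sph

/-- `(α₀, α₁, α₂) ↦ (α₁, α₂, 1/α₀)` -/
noncomputable def rhoA (p : Amb) : Amb := (p.2.1, p.2.2, sinv p.1)

/-- `(a, b) ↦ (a, ab, b)` -/
noncomputable def kap (q : ℂ × ℂ) : Amb :=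
  ((q.1 : Sph), (((q.1 * q.2 : ℂ) : Sph), (q.2 : Sph)))

/-- the surface `α₁ = α₀ α₂` in the product of three Riemann spheres: union of the six affine planes
`(rhoA ^ k) p = (a, ab, b)`, `0 ≤ k < 6` -/
def XSet : Set Amb := {p | ∃ k : ℕ, ∃ q : ℂ × ℂ, rhoA^[k] p = kap q}

/-- the surface -/
abbrev XS : Type := XSet

/-- the coordinate changes, powers of `(a, b) ↦ (ab, 1/a)` -/
noncomputable def TT (m : Fin 6) (q : ℂ × ℂ) : ℂ × ℂ :=
  ![(q.1, q.2), (q.1 * q.2, q.1⁻¹), (q.2, (q.1 * q.2)⁻¹), (q.1⁻¹, q.2⁻¹), ((q.1 * q.2)⁻¹, q.1),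
    (q.2⁻¹, q.1 * q.2)] m

/-- their domains -/
def TD (m : Fin 6) : Set (ℂ × ℂ) :=
  ![Set.univ, {q | q.1 ≠ 0}, {q | q.1 * q.2 ≠ 0}, {q | q.1 * q.2 ≠ 0}, {q | q.1 * q.2 ≠ 0},
    {q | q.2 ≠ 0}] m

/-! ## The metric -/

/-- the Hermitian matrix of `∂∂̄ f(|z₁|², |z₂|²)` from the derivatives of `f` -/
noncomputable def mat (A : D14 ℝ) (p : ℂ × ℂ) : Matrix (Fin 2) (Fin 2) ℂ :=
  !![((A.s + normSq p.1 * A.ss : ℝ) : ℂ), (starRingEnd ℂ) p.1 * p.2 * (A.st : ℂ);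
     p.1 * (starRingEnd ℂ) p.2 * (A.st : ℂ), ((A.t + normSq p.2 * A.tt : ℝ) : ℂ)]

/-- derivatives of the potential at `(|z₁|², |z₂|²)` -/
noncomputable def dFp (p : ℂ × ℂ) : D14 ℝ := dF rOps (normSq p.1) (normSq p.2)

/-- the metric, the same in all six charts; Kähler potential
`3 log(1+s+st) + 3 log(1+t+st) + log Q(s,t) + log Q(t,s)`, `s = |z₁|²`, `t = |z₂|²` -/
noncomputable def Gm (p : ℂ × ℂ) : Matrix (Fin 2) (Fin 2) ℂ := mat (dFp p) p


/-! ## Relations between two runs of the program -/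

structure RelOps {R S : Type} (o : Ops R) (o' : Ops S) (r : R → S → Prop) : Prop where
  add : ∀ x y x' y', r x x' → r y y' → r (o.add x y) (o'.add x' y')
  sub : ∀ x y x' y', r x x' → r y y' → r (o.sub x y) (o'.sub x' y')
  mul : ∀ x y x' y', r x x' → r y y' → r (o.mul x y) (o'.mul x' y')
  inv : ∀ x x', r x x' → r (o.inv x) (o'.inv x')
  nat : ∀ n, r (o.nat n) (o'.nat n)

structure RelD {R S : Type} (r : R → S → Prop) (A : D14 R) (B : D14 S) : Prop where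
  s : r A.s B.s
  t : r A.t B.t
  ss : r A.ss B.ss
  st : r A.st B.st
  tt : r A.tt B.tt
  sss : r A.sss B.sss
  sst : r A.sst B.sst
  stt : r A.stt B.stt
  ttt : r A.ttt B.ttt
  ssss : r A.ssss B.ssss
  ssst : r A.ssst B.ssst
  sstt : r A.sstt B.sstt
  sttt : r A.sttt B.sttt
  tttt : r A.tttt B.tttt

structure RelM {R S : Type} (r : R → S → Prop) (A : Mid R) (B : Mid S) : Prop where
  st : r A.st B.st
  g11 : r A.g11 B.g11
  g22 : r A.g22 B.g22
  g12 : r A.g12 B.g12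
  dt : r A.dt B.dt
  u1 : r A.u1 B.u1
  u2 : r A.u2 B.u2
  u3 : r A.u3 B.u3
  w1 : r A.w1 B.w1
  w2 : r A.w2 B.w2
  w3 : r A.w3 B.w3
  f1 : r A.f1 B.f1
  f2 : r A.f2 B.f2
  f3 : r A.f3 B.f3
  f4 : r A.f4 B.f4
  f5 : r A.f5 B.f5
  f6 : r A.f6 B.f6

structure RelQ {R S : Type} (r : R → S → Prop) (A : Q6 R) (B : Q6 S) : Prop where
  al : r A.al B.al
  be : r A.be B.be
  ga : r A.ga B.ga
  de : r A.de B.de
  ep : r A.ep B.ep
  ze : r A.ze B.ze

/-- the value of a Taylor model at `(σ, τ)`, in units of `2^-32` -/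
noncomputable def TM.val (X : TM) (σ τ : ℝ) : ℝ :=
  X.a00 + X.a10 * σ + X.a01 * τ + X.a20 * σ ^ 2 + X.a11 * (σ * τ) + X.a02 * τ ^ 2
    + X.a30 * σ ^ 3 + X.a21 * (σ ^ 2 * τ) + X.a12 * (σ * τ ^ 2) + X.a03 * τ ^ 3

/-- `x` is enclosed by `X` at `(σ, τ)` -/
def Enc (σ τ x : ℝ) (X : TM) : Prop :=
  X.ok = true → |x * 4294967296 - X.val σ τ| ≤ X.r

/-! ## Calculus -/

/-- `F` has at `p` the differential `v ↦ a₁ v₁ + a₂ v₂ + b₁ conj v₁ + b₂ conj v₂` -/
def HasW (F : ℂ × ℂ → ℂ) (a₁ a₂ b₁ b₂ : ℂ) (p : ℂ × ℂ) : Prop :=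
  DifferentiableAt ℝ F p ∧ ∀ v : ℂ × ℂ, fderiv ℝ F p v =
    a₁ * v.1 + a₂ * v.2 + b₁ * (starRingEnd ℂ) v.1 + b₂ * (starRingEnd ℂ) v.2

/-- `H : ℝ → ℝ → ℝ` has at `(s, t)` the partial derivatives `a, b` (total differentiability) -/
def HasP (H : ℝ → ℝ → ℝ) (a b s t : ℝ) : Prop :=
  DifferentiableAt ℝ (fun q : ℝ × ℝ => H q.1 q.2) (s, t) ∧
    ∀ u : ℝ × ℝ, fderiv ℝ (fun q : ℝ × ℝ => H q.1 q.2) (s, t) u = a * u.1 + b * u.2

/-- the derivatives of the potential -/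
noncomputable def dFr (s t : ℝ) : D14 ℝ := dF rOps s t

/-- the quadratic form -/
def qform (q : Q6 ℝ) (X Y W : ℝ) : ℝ :=
  q.al * X ^ 2 + q.be * (X * Y) + q.ga * Y ^ 2 + q.de * (X * W) + q.ep * (Y * W) + q.ze * W ^ 2

/-- the nine first-order derivative rules in the table `A` -/
structure HasPD (A : ℝ → ℝ → D14 ℝ) (s t : ℝ) : Prop where
  ps : HasP (fun x y => (A x y).s) (A s t).ss (A s t).st s t
  pt : HasP (fun x y => (A x y).t) (A s t).st (A s t).tt s t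
  pss : HasP (fun x y => (A x y).ss) (A s t).sss (A s t).sst s t
  pst : HasP (fun x y => (A x y).st) (A s t).sst (A s t).stt s t
  ptt : HasP (fun x y => (A x y).tt) (A s t).stt (A s t).ttt s t
  psss : HasP (fun x y => (A x y).sss) (A s t).ssss (A s t).ssst s t
  psst : HasP (fun x y => (A x y).sst) (A s t).ssst (A s t).sstt s t
  pstt : HasP (fun x y => (A x y).stt) (A s t).sstt (A s t).sttt s t
  pttt : HasP (fun x y => (A x y).ttt) (A s t).sttt (A s t).tttt s t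

/-- derivative rules of the ratios `m_ij = ∂_s^i ∂_t^j L / L` -/
structure IsRat (a b aa ab bb aab abb aabb : ℝ → ℝ → ℝ) (s t : ℝ) : Prop where
  ra : HasP a (aa s t - a s t * a s t) (ab s t - a s t * b s t) s t
  rb : HasP b (ab s t - b s t * a s t) (bb s t - b s t * b s t) s t
  raa : HasP aa (- (aa s t * a s t)) (aab s t - aa s t * b s t) s t
  rab : HasP ab (aab s t - ab s t * a s t) (abb s t - ab s t * b s t) s t
  rbb : HasP bb (abb s t - bb s t * a s t) (- (bb s t * b s t)) s t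
  raab : HasP aab (- (aab s t * a s t)) (aabb s t - aab s t * b s t) s t
  rabb : HasP abb (aabb s t - abb s t * a s t) (- (abb s t * b s t)) s t
  raabb : HasP aabb (- (aabb s t * a s t)) (- (aabb s t * b s t)) s t

/-- the intermediate quantities at `(|z₁|², |z₂|²)` -/
noncomputable def mF (p : ℂ × ℂ) : Mid ℝ := midF rOps (normSq p.1) (normSq p.2)

/-- `T` is an isometry at `q` -/
def Compat (T : ℂ × ℂ → ℂ × ℂ) (q : ℂ × ℂ) : Prop :=
  DifferentiableAt ℂ T q ∧ ∀ v w : ℂ × ℂ,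
    pair (Gm q) v w = pair (Gm (T q)) (fderiv ℂ T q v) (fderiv ℂ T q w)

end Pool.Agent.H320.HSC
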