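import Pool.Agent.H320.HSC.Defs

/-! Numerical part: order 3 Taylor models in fixed point arithmetic and the list of quantities to be
checked.  Everything is polymorphic in the operations, so that the same program is run on real
numbers and on Taylor models. -/

set_option autoImplicit false

open Complex
open scoped Manifold ContDiff ComplexOrder

namespace Pool.Agent.H320.HSC



def T_rule_R (s t κ : ℝ) (X Y : D14 ℝ) : Prop :=
    X.s = Y.t / s ∧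
    X.t = s * (t * Y.t - s * Y.s + κ) ∧
    X.ss = Y.tt / s ^ 2 ∧
    X.st = Y.t + t * Y.tt - s * Y.st ∧
    X.tt = s ^ 4 * (Y.ss + κ / s ^ 2 - t ^ 2 * X.ss
      + 2 * t * X.st / s ^ 2 - 2 * X.t / s ^ 3)

theorem T_rule_1 (s t : ℝ) (hs : 0 < s) (ht : 0 ≤ t) :
    T_rule_R s t 0 (dL1 rOps (s * t) s⁻¹) (dL2 rOps s t) := by
  have h2 : (1 + (t + s * t) : ℝ) ≠ 0 := by positivity
  have e1 : (1 + (s * t + s * t * s⁻¹) : ℝ) = 1 + (t + s * t) := by
    field_simp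
    ring
  unfold T_rule_R dL1 dL2 cum rOps
  simp only [Nat.cast_zero, Nat.cast_one, e1]
  refine ⟨?_, ?_, ?_, ?_, ?_⟩
  · field_simp; ring
  · field_simp; ring
  · field_simp; ring
  · field_simp; ring
  · field_simp; ring

theorem T_rule_2 (s t : ℝ) (hs : 0 < s) (ht : 0 ≤ t) :
    T_rule_R s t 1 (dL2 rOps (s * t) s⁻¹) (dL1 rOps s t) := by
  have h2 : (1 + (s + s * t) : ℝ) ≠ 0 := by positivity
  have e1 : (1 + (s⁻¹ + s * t * s⁻¹) : ℝ) = (1 + (s + s * t)) / s := by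
    field_simp
    ring
  unfold T_rule_R dL1 dL2 cum rOps
  simp only [Nat.cast_zero, Nat.cast_one, e1]
  refine ⟨?_, ?_, ?_, ?_, ?_⟩
  · field_simp
  · field_simp; ring
  · field_simp; ring
  · field_simp; ring
  · field_simp; ring

theorem T_rule_3 (s t : ℝ) (hs : 0 < s) (ht : 0 ≤ t) :
    T_rule_R s t 0 (dQ rOps (s * t) s⁻¹) (dP rOps s t) := by
  obtain ⟨q, hq⟩ : ∃ q, pQ rOps t s = q := ⟨_, rfl⟩
  have hq0 : q ≠ 0 := by
    rw [← hq]
    unfold pQ rOps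
    positivity
  have e1 : pQ rOps (s * t) s⁻¹ = q := by
    rw [← hq]
    unfold pQ rOps
    simp only [Nat.cast_ofNat, Nat.cast_one]
    field_simp
    ring
  have e2 : q = 1 + 4 * (t * (1 + (s + t * s))) + t * t * (1 + s * s) := by
    rw [← hq]
    unfold pQ rOps
    simp only [Nat.cast_ofNat, Nat.cast_one]
  unfold dQ dP
  rw [e1, hq]
  unfold T_rule_R dQ' dP' cum pQs pQt pQss pQst pQtt pQsst pQstt rOps
  simp only [Nat.cast_ofNat, Nat.cast_one]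
  refine ⟨?_, ?_, ?_, ?_, ?_⟩
  · field_simp; ring
  · field_simp; rw [e2]; ring
  · field_simp; rw [e2]; ring
  · field_simp; rw [e2]; ring
  · field_simp; rw [e2]; ring

theorem T_rule_4 (s t : ℝ) (hs : 0 < s) (ht : 0 ≤ t) :
    T_rule_R s t 2 (dP rOps (s * t) s⁻¹) (dQ rOps s t) := by
  obtain ⟨q, hq⟩ : ∃ q, pQ rOps s t = q := ⟨_, rfl⟩
  have hq0 : q ≠ 0 := by
    rw [← hq]
    unfold pQ rOps
    positivity
  have e1 : pQ rOps s⁻¹ (s * t) = q / s ^ 2 := by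
    rw [← hq]
    unfold pQ rOps
    simp only [Nat.cast_ofNat, Nat.cast_one]
    field_simp
    ring
  have e2 : q = 1 + 4 * (s * (1 + (t + s * t))) + s * s * (1 + t * t) := by
    rw [← hq]
    unfold pQ rOps
    simp only [Nat.cast_ofNat, Nat.cast_one]
  unfold dQ dP
  rw [e1, hq]
  unfold T_rule_R dQ' dP' cum pQs pQt pQss pQst pQtt pQsst pQstt rOps
  simp only [Nat.cast_ofNat, Nat.cast_one]
  refine ⟨?_, ?_, ?_, ?_, ?_⟩
  · field_simp; ring
  · field_simp; rw [e2]; ring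
  · field_simp; rw [e2]; ring
  · field_simp; rw [e2]; ring
  · field_simp; rw [e2]; ring

theorem T_rule (s t : ℝ) (hs : 0 < s) (ht : 0 ≤ t) :
    (dFr (s * t) s⁻¹).s = (dFr s t).t / s ∧
    (dFr (s * t) s⁻¹).t = s * (t * (dFr s t).t - s * (dFr s t).s + 5) ∧
    (dFr (s * t) s⁻¹).ss = (dFr s t).tt / s ^ 2 ∧
    (dFr (s * t) s⁻¹).st = (dFr s t).t + t * (dFr s t).tt - s * (dFr s t).st ∧
    (dFr (s * t) s⁻¹).tt = s ^ 4 * ((dFr s t).ss + 5 / s ^ 2 - t ^ 2 * (dFr (s * t) s⁻¹).ss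
      + 2 * t * (dFr (s * t) s⁻¹).st / s ^ 2 - 2 * (dFr (s * t) s⁻¹).t / s ^ 3) := by
  obtain ⟨a1, a2, a3, a4, a5⟩ := T_rule_1 s t hs ht
  obtain ⟨b1, b2, b3, b4, b5⟩ := T_rule_2 s t hs ht
  obtain ⟨c1, c2, c3, c4, c5⟩ := T_rule_3 s t hs ht
  obtain ⟨d1, d2, d3, d4, d5⟩ := T_rule_4 s t hs ht
  unfold dFr dF comb
  have ho : ∀ x y : ℝ, rOps.add x y = x + y := fun _ _ => rfl
  have hm : ∀ x y : ℝ, rOps.mul x y = x * y := fun _ _ => rfl
  have hn : ∀ n : ℕ, rOps.nat n = (n : ℝ) := fun _ => rfl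
  simp only [ho, hm, hn, Nat.cast_ofNat]
  refine ⟨?_, ?_, ?_, ?_, ?_⟩
  · rw [a1, b1, c1, d1]; ring
  · rw [a2, b2, c2, d2]; ring
  · rw [a3, b3, c3, d3]; ring
  · rw [a4, b4, c4, d4]; ring
  · rw [a5, b5, c5, d5]; ring

end Pool.Agent.H320.HSC
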