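import Pool.Agent.H320.HSC.Defs
import Pool.Agent.H320.HSC.P_T_rule

/-! Numerical part: order 3 Taylor models in fixed point arithmetic and the list of quantities to be
checked.  Everything is polymorphic in the operations, so that the same program is run on real
numbers and on Taylor models. -/

set_option autoImplicit false

open Complex
open scoped Manifold ContDiff ComplexOrder

namespace Pool.Agent.H320.HSC



theorem compat_T1_pair (A : D14 ℝ) (p v w : ℂ × ℂ) : pair (mat A p) v w =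
    ((A.s + normSq p.1 * A.ss : ℝ) : ℂ) * v.1 * (starRingEnd ℂ) w.1 +
    (starRingEnd ℂ) p.1 * p.2 * (A.st : ℂ) * v.1 * (starRingEnd ℂ) w.2 +
    p.1 * (starRingEnd ℂ) p.2 * (A.st : ℂ) * v.2 * (starRingEnd ℂ) w.1 +
    ((A.t + normSq p.2 * A.tt : ℝ) : ℂ) * v.2 * (starRingEnd ℂ) w.2 := by
  simp only [pair, mat, comp, Fin.sum_univ_two, Matrix.of_apply, Matrix.cons_val', Matrix.cons_val_zero,
    Matrix.cons_val_one, Matrix.cons_val_fin_one]
  ring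

theorem compat_T1_alg (a a' b b' v1 v2 w1 w2 P Q R : ℂ) (ha : a ≠ 0) (ha' : a' ≠ 0) :
    (b * b' * P - 2 * (b * b' / (a * a')) * Q + R / (a * a') ^ 2) * v1 * w1 +
      a' * b * (P - Q / (a * a')) * v1 * w2 + a * b' * (P - Q / (a * a')) * v2 * w1 +
      (a * a' * P) * v2 * w2 =
    P * (b * v1 + a * v2) * (b' * w1 + a' * w2) +
      a' * b' * a⁻¹ * Q * (b * v1 + a * v2) * (-w1 / a' ^ 2) +
      a * b * a'⁻¹ * Q * (-v1 / a ^ 2) * (b' * w1 + a' * w2) +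
      R * (-v1 / a ^ 2) * (-w1 / a' ^ 2) := by
  field_simp
  ring

theorem compat_T1_fderiv (q : ℂ × ℂ) (h : q.1 ≠ 0) : DifferentiableAt ℂ (TT 1) q ∧
    ∀ v : ℂ × ℂ, fderiv ℂ (TT 1) q v = (q.2 * v.1 + q.1 * v.2, -v.1 / q.1 ^ 2) := by
  have h1 : HasFDerivAt (fun q : ℂ × ℂ => q.1 * q.2)
      (q.1 • (ContinuousLinearMap.snd ℂ ℂ ℂ) + q.2 • (ContinuousLinearMap.fst ℂ ℂ ℂ)) q :=
    hasFDerivAt_fst.mul hasFDerivAt_snd
  have h2 : HasFDerivAt (fun q : ℂ × ℂ => q.1⁻¹)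
      ((-(q.1 ^ 2)⁻¹) • (ContinuousLinearMap.fst ℂ ℂ ℂ)) q :=
    (hasDerivAt_inv h).comp_hasFDerivAt q hasFDerivAt_fst
  have h3 := h1.prodMk h2
  have h4 : (TT 1 : ℂ × ℂ → ℂ × ℂ) = fun q : ℂ × ℂ => (q.1 * q.2, q.1⁻¹) := by
    funext q
    rfl
  rw [h4]
  refine ⟨h3.differentiableAt, ?_⟩
  intro v
  rw [h3.fderiv]
  simp only [ContinuousLinearMap.prod_apply, add_apply, smul_apply, ContinuousLinearMap.coe_fst',
    ContinuousLinearMap.coe_snd', smul_eq_mul]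
  refine Prod.ext ?_ ?_
  · simp only
    ring
  · simp only
    rw [neg_mul, neg_div, div_eq_mul_inv, mul_comm]

theorem compat_T1_real (s t As At Ass Ast Att Bs Bt Bss Bst Btt : ℝ) (hs : 0 < s)
    (h1 : Bs = At / s) (h2 : Bt = s * (t * At - s * As + 5)) (h3 : Bss = Att / s ^ 2)
    (h4 : Bst = At + t * Att - s * Ast)
    (h5 : Btt = s ^ 4 * (Ass + 5 / s ^ 2 - t ^ 2 * Bss + 2 * t * Bst / s ^ 2 - 2 * Bt / s ^ 3)) :
    As + s * Ass = t * (Bs + s * t * Bss) - 2 * (t / s) * Bst + (Bt + s⁻¹ * Btt) / s ^ 2 ∧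
    Ast = (Bs + s * t * Bss) - Bst / s ∧ At + t * Att = s * (Bs + s * t * Bss) := by
  refine ⟨?_, ?_, ?_⟩
  · rw [h5, h4, h3, h2, h1]
    field_simp
    ring
  · rw [h4, h3, h1]
    field_simp
    ring
  · rw [h3, h1]
    field_simp

theorem compat_T1 (q : ℂ × ℂ) (h : q.1 ≠ 0) : Compat (TT 1) q := by
  obtain ⟨hd, hf⟩ := compat_T1_fderiv q h
  refine ⟨hd, ?_⟩
  intro v w
  have hs : 0 < normSq q.1 := normSq_pos.2 h
  have ht : 0 ≤ normSq q.2 := normSq_nonneg _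
  obtain ⟨r1, r2, r3, r4, r5⟩ := T_rule (normSq q.1) (normSq q.2) hs ht
  obtain ⟨e1, e2, e3⟩ := compat_T1_real _ _ _ _ _ _ _ _ _ _ _ _ hs r1 r2 r3 r4 r5
  have hG : Gm q = mat (dFr (normSq q.1) (normSq q.2)) q := rfl
  have hG' : Gm (TT 1 q) = mat (dFr (normSq q.1 * normSq q.2) (normSq q.1)⁻¹) (q.1 * q.2, q.1⁻¹) := by
    have h6 : TT 1 q = (q.1 * q.2, q.1⁻¹) := rfl
    rw [h6]
    show mat (dF rOps (normSq (q.1 * q.2)) (normSq q.1⁻¹)) _ = _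
    rw [map_mul, normSq_inv]
    rfl
  rw [hG, hG', hf, hf, compat_T1_pair, compat_T1_pair]
  have n1 : normSq (q.1 * q.2) = normSq q.1 * normSq q.2 := map_mul _ _ _
  have n2 : normSq (q.1⁻¹) = (normSq q.1)⁻¹ := normSq_inv _
  simp only [n1, n2]
  rw [e1, e3]
  generalize dFr (normSq q.1 * normSq q.2) (normSq q.1)⁻¹ = B at *
  rw [e2]
  have hc1 : ((normSq q.1 : ℝ) : ℂ) = q.1 * (starRingEnd ℂ) q.1 := (mul_conj q.1).symm
  have hc2 : ((normSq q.2 : ℝ) : ℂ) = q.2 * (starRingEnd ℂ) q.2 := (mul_conj q.2).symm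
  have ha' : (starRingEnd ℂ) q.1 ≠ 0 := by
    intro h0
    apply h
    exact (map_eq_zero _).1 h0
  have key := compat_T1_alg q.1 ((starRingEnd ℂ) q.1) q.2 ((starRingEnd ℂ) q.2) v.1 v.2
    ((starRingEnd ℂ) w.1) ((starRingEnd ℂ) w.2)
    ((B.s + normSq q.1 * normSq q.2 * B.ss : ℝ) : ℂ) (B.st : ℂ)
    ((B.t + (normSq q.1)⁻¹ * B.tt : ℝ) : ℂ) h ha'
  simp only [map_mul, map_add, map_neg, map_div₀, map_inv₀, map_pow]
  rw [← hc1, ← hc2] at key
  refine Eq.trans ?_ (key.trans ?_)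
  · push_cast
    ring
  · ring

end Pool.Agent.H320.HSC
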