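import Pool.Agent.H320.HSC.Defs
import Pool.Agent.H320.HSC.P_compat_T1
import Pool.Agent.H320.HSC.P_compat_comp

/-! Numerical part: order 3 Taylor models in fixed point arithmetic and the list of quantities to be
checked.  Everything is polymorphic in the operations, so that the same program is run on real
numbers and on Taylor models. -/

set_option autoImplicit false

open Complex
open scoped Manifold ContDiff ComplexOrder

namespace Pool.Agent.H320.HSC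



theorem TT0 (q : ℂ × ℂ) : TT 0 q = (q.1, q.2) := rfl
theorem TT1 (q : ℂ × ℂ) : TT 1 q = (q.1 * q.2, q.1⁻¹) := rfl
theorem TT2 (q : ℂ × ℂ) : TT 2 q = (q.2, (q.1 * q.2)⁻¹) := rfl
theorem TT3 (q : ℂ × ℂ) : TT 3 q = (q.1⁻¹, q.2⁻¹) := rfl
theorem TT4 (q : ℂ × ℂ) : TT 4 q = ((q.1 * q.2)⁻¹, q.1) := rfl
theorem TT5 (q : ℂ × ℂ) : TT 5 q = (q.2⁻¹, q.1 * q.2) := rfl

theorem compat_congr (S T : ℂ × ℂ → ℂ × ℂ) (q : ℂ × ℂ) (hT : Compat T q)
    (h : S =ᶠ[nhds q] T) : Compat S q := by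
  refine ⟨hT.1.congr_of_eventuallyEq h, ?_⟩
  intro v w
  rw [h.fderiv_eq, h.eq_of_nhds]
  exact hT.2 v w

theorem compat_aux (q : ℂ × ℂ) (h : q.1 * q.2 ≠ 0) :
    Compat (TT 2) q ∧ Compat (TT 3) q ∧ Compat (TT 4) q := by
  have h1 : q.1 ≠ 0 := left_ne_zero_of_mul h
  have h2 : q.2 ≠ 0 := right_ne_zero_of_mul h
  have hopen : IsOpen {r : ℂ × ℂ | r.1 * r.2 ≠ 0} :=
    isOpen_ne_fun (by fun_prop) continuous_const
  have hev : ∀ᶠ r : ℂ × ℂ in nhds q, r.1 * r.2 ≠ 0 := hopen.mem_nhds h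
  have c2 : Compat (TT 2) q := by
    have hc := compat_comp (TT 1) (TT 1) q (compat_T1 q h1) (compat_T1 _ (by rw [TT1]; exact h))
    apply compat_congr _ _ q hc
    filter_upwards [hev] with r hr
    have hr1 : r.1 ≠ 0 := left_ne_zero_of_mul hr
    have hr2 : r.2 ≠ 0 := right_ne_zero_of_mul hr
    rw [TT1 r, TT1, TT2]
    refine Prod.ext ?_ rfl
    show r.2 = r.1 * r.2 * r.1⁻¹
    field_simp
  have c3 : Compat (TT 3) q := by
    have hc := compat_comp (TT 1) (TT 2) q c2 (compat_T1 _ (by rw [TT2]; exact h2))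
    apply compat_congr _ _ q hc
    filter_upwards [hev] with r hr
    have hr1 : r.1 ≠ 0 := left_ne_zero_of_mul hr
    have hr2 : r.2 ≠ 0 := right_ne_zero_of_mul hr
    rw [TT2 r, TT1, TT3]
    refine Prod.ext ?_ rfl
    show r.1⁻¹ = r.2 * (r.1 * r.2)⁻¹
    field_simp
  have c4 : Compat (TT 4) q := by
    have hc := compat_comp (TT 1) (TT 3) q c3 (compat_T1 _ (by rw [TT3]; exact inv_ne_zero h1))
    apply compat_congr _ _ q hc
    filter_upwards [hev] with r hr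
    have hr1 : r.1 ≠ 0 := left_ne_zero_of_mul hr
    have hr2 : r.2 ≠ 0 := right_ne_zero_of_mul hr
    rw [TT3 r, TT1, TT4]
    refine Prod.ext ?_ ?_
    · show (r.1 * r.2)⁻¹ = r.1⁻¹ * r.2⁻¹
      field_simp
    · show r.1 = (r.1⁻¹)⁻¹
      rw [inv_inv]
  exact ⟨c2, c3, c4⟩

theorem compat_five (q : ℂ × ℂ) (h : q.2 ≠ 0) : Compat (TT 5) q := by
  have hev : ∀ᶠ r : ℂ × ℂ in nhds q, r.2 ≠ 0 :=
    (isOpen_ne_fun (by fun_prop) continuous_const : IsOpen {r : ℂ × ℂ | r.2 ≠ 0}).mem_nhds h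
  have hd : DifferentiableAt ℂ (TT 5) q := by
    have h1 : TT 5 = fun q : ℂ × ℂ => (q.2⁻¹, q.1 * q.2) := rfl
    rw [h1]
    apply DifferentiableAt.prodMk
    · exact differentiableAt_snd.inv h
    · exact differentiableAt_fst.mul differentiableAt_snd
  have hc := compat_T1 (TT 5 q) (by rw [TT5]; exact inv_ne_zero h)
  have hcomp : ∀ r : ℂ × ℂ, r.2 ≠ 0 → TT 1 (TT 5 r) = r := by
    intro r hr
    rw [TT5, TT1]
    refine Prod.ext ?_ ?_
    · show r.2⁻¹ * (r.1 * r.2) = r.1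
      field_simp
    · show (r.2⁻¹)⁻¹ = r.2
      rw [inv_inv]
  have hfd : (fderiv ℂ (TT 1) (TT 5 q)).comp (fderiv ℂ (TT 5) q) =
      ContinuousLinearMap.id ℂ (ℂ × ℂ) := by
    rw [← fderiv_comp q hc.1 hd]
    have h1 : (TT 1 ∘ TT 5) =ᶠ[nhds q] id := by
      filter_upwards [hev] with r hr
      exact hcomp r hr
    rw [h1.fderiv_eq, fderiv_id]
  have hfd' : ∀ v, fderiv ℂ (TT 1) (TT 5 q) (fderiv ℂ (TT 5) q v) = v := by
    intro v
    have := congrArg (fun L : ℂ × ℂ →L[ℂ] ℂ × ℂ => L v) hfd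
    simpa using this
  refine ⟨hd, ?_⟩
  intro v w
  have h1 := hc.2 (fderiv ℂ (TT 5) q v) (fderiv ℂ (TT 5) q w)
  rw [hfd', hfd', hcomp q h] at h1
  exact h1.symm

theorem compat_TT (m : Fin 6) (q : ℂ × ℂ) (h : q ∈ TD m) : Compat (TT m) q := by
  fin_cases m
  · have h1 : TT 0 = fun q : ℂ × ℂ => q := rfl
    show Compat (TT 0) q
    rw [h1]
    refine ⟨differentiableAt_id, ?_⟩
    intro v w
    have h2 : fderiv ℂ (fun q : ℂ × ℂ => q) q = ContinuousLinearMap.id ℂ (ℂ × ℂ) := fderiv_id'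
    rw [h2]
    rfl
  · exact compat_T1 q h
  · exact (compat_aux q h).1
  · exact (compat_aux q h).2.1
  · exact (compat_aux q h).2.2
  · exact compat_five q h

end Pool.Agent.H320.HSC
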