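import Pool.Agent.H320.HSC.Defs

/-! Numerical part: order 3 Taylor models in fixed point arithmetic and the list of quantities to be
checked.  Everything is polymorphic in the operations, so that the same program is run on real
numbers and on Taylor models. -/

set_option autoImplicit false

open Complex
open scoped Manifold ContDiff ComplexOrder

namespace Pool.Agent.H320.HSC



theorem alg_id_re (x : ℂ) : ((2 * x.re : ℝ) : ℂ) = x + (starRingEnd ℂ) x := by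
  rw [Complex.add_conj]

theorem alg_id (z₁ z₂ v₁ v₂ : ℂ) (m : Mid ℝ) (hm : m.st = normSq z₁ * normSq z₂) :
    (m.g22 : ℂ) *
      (((starRingEnd ℂ) z₁ * m.u1 * v₁ ^ 2 + 2 * ((starRingEnd ℂ) z₂ * m.u2 * (v₁ * v₂))
        + z₁ * (starRingEnd ℂ) z₂ ^ 2 * m.u3 * v₂ ^ 2) *
       (z₁ * m.u1 * (starRingEnd ℂ) v₁ ^ 2
        + 2 * (z₂ * m.u2 * ((starRingEnd ℂ) v₁ * (starRingEnd ℂ) v₂))
        + (starRingEnd ℂ) z₁ * z₂ ^ 2 * m.u3 * (starRingEnd ℂ) v₂ ^ 2))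
    + (m.g11 : ℂ) *
      (((starRingEnd ℂ) z₁ ^ 2 * z₂ * m.w3 * v₁ ^ 2 + 2 * ((starRingEnd ℂ) z₁ * m.w2 * (v₁ * v₂))
        + (starRingEnd ℂ) z₂ * m.w1 * v₂ ^ 2) *
       (z₁ ^ 2 * (starRingEnd ℂ) z₂ * m.w3 * (starRingEnd ℂ) v₁ ^ 2
        + 2 * (z₁ * m.w2 * ((starRingEnd ℂ) v₁ * (starRingEnd ℂ) v₂))
        + z₂ * m.w1 * (starRingEnd ℂ) v₂ ^ 2))
    - ((starRingEnd ℂ) z₁ * z₂ * m.g12) *
      (((starRingEnd ℂ) z₁ * m.u1 * v₁ ^ 2 + 2 * ((starRingEnd ℂ) z₂ * m.u2 * (v₁ * v₂))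
        + z₁ * (starRingEnd ℂ) z₂ ^ 2 * m.u3 * v₂ ^ 2) *
       (z₁ ^ 2 * (starRingEnd ℂ) z₂ * m.w3 * (starRingEnd ℂ) v₁ ^ 2
        + 2 * (z₁ * m.w2 * ((starRingEnd ℂ) v₁ * (starRingEnd ℂ) v₂))
        + z₂ * m.w1 * (starRingEnd ℂ) v₂ ^ 2))
    - (z₁ * (starRingEnd ℂ) z₂ * m.g12) *
      (((starRingEnd ℂ) z₁ ^ 2 * z₂ * m.w3 * v₁ ^ 2 + 2 * ((starRingEnd ℂ) z₁ * m.w2 * (v₁ * v₂))
        + (starRingEnd ℂ) z₂ * m.w1 * v₂ ^ 2) *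
       (z₁ * m.u1 * (starRingEnd ℂ) v₁ ^ 2
        + 2 * (z₂ * m.u2 * ((starRingEnd ℂ) v₁ * (starRingEnd ℂ) v₂))
        + (starRingEnd ℂ) z₁ * z₂ ^ 2 * m.u3 * (starRingEnd ℂ) v₂ ^ 2))
    - (m.dt : ℂ) *
      (m.f1 * (v₁ * (starRingEnd ℂ) v₁) ^ 2 + 4 * (m.f2 * (v₁ * v₂ * ((starRingEnd ℂ) v₁ *
          (starRingEnd ℂ) v₂)))
        + m.f3 * (v₂ * (starRingEnd ℂ) v₂) ^ 2
        + 2 * (m.f4 * ((starRingEnd ℂ) z₁ * z₂ * (v₁ ^ 2 * (starRingEnd ℂ) v₁ * (starRingEnd ℂ) v₂)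
          + z₁ * (starRingEnd ℂ) z₂ * ((starRingEnd ℂ) v₁ ^ 2 * v₁ * v₂)))
        + 2 * (m.f5 * ((starRingEnd ℂ) z₁ * z₂ * (v₁ * v₂ * (starRingEnd ℂ) v₂ ^ 2)
          + z₁ * (starRingEnd ℂ) z₂ * ((starRingEnd ℂ) v₁ * (starRingEnd ℂ) v₂ * v₂ ^ 2)))
        + m.f6 * ((starRingEnd ℂ) z₁ ^ 2 * z₂ ^ 2 * (v₁ ^ 2 * (starRingEnd ℂ) v₂ ^ 2)
          + z₁ ^ 2 * (starRingEnd ℂ) z₂ ^ 2 * ((starRingEnd ℂ) v₁ ^ 2 * v₂ ^ 2)))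
    = ((qform (q6 rOps (normSq z₁) (normSq z₂) m) (normSq v₁) (normSq v₂)
        (2 * ((starRingEnd ℂ) z₁ * v₁ * (z₂ * (starRingEnd ℂ) v₂)).re) : ℝ) : ℂ) := by
  have h1 : ((normSq z₁ : ℝ) : ℂ) = z₁ * (starRingEnd ℂ) z₁ := (Complex.mul_conj z₁).symm
  have h2 : ((normSq z₂ : ℝ) : ℂ) = z₂ * (starRingEnd ℂ) z₂ := (Complex.mul_conj z₂).symm
  have h3 : ((normSq v₁ : ℝ) : ℂ) = v₁ * (starRingEnd ℂ) v₁ := (Complex.mul_conj v₁).symm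
  have h4 : ((normSq v₂ : ℝ) : ℂ) = v₂ * (starRingEnd ℂ) v₂ := (Complex.mul_conj v₂).symm
  have hst : ((m.st : ℝ) : ℂ) = z₁ * (starRingEnd ℂ) z₁ * (z₂ * (starRingEnd ℂ) z₂) := by
    rw [hm, Complex.ofReal_mul, h1, h2]
  have hW : ((2 * ((starRingEnd ℂ) z₁ * v₁ * (z₂ * (starRingEnd ℂ) v₂)).re : ℝ) : ℂ)
      = (starRingEnd ℂ) z₁ * v₁ * (z₂ * (starRingEnd ℂ) v₂)
        + z₁ * (starRingEnd ℂ) v₁ * ((starRingEnd ℂ) z₂ * v₂) := by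
    rw [alg_id_re]
    simp only [map_mul, Complex.conj_conj]
  generalize (2 * ((starRingEnd ℂ) z₁ * v₁ * (z₂ * (starRingEnd ℂ) v₂)).re : ℝ) = W at hW ⊢
  clear hm
  generalize normSq z₁ = s at *
  generalize normSq z₂ = t at *
  generalize normSq v₁ = X at *
  generalize normSq v₂ = Y at *
  generalize (starRingEnd ℂ) z₁ = c₁ at *
  generalize (starRingEnd ℂ) z₂ = c₂ at *
  generalize (starRingEnd ℂ) v₁ = d₁ at *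
  generalize (starRingEnd ℂ) v₂ = d₂ at *
  obtain ⟨mst, g11, g22, g12, dt, u1, u2, u3, w1, w2, w3, f1, f2, f3, f4, f5, f6⟩ := m
  simp only [qform, q6, rOps] at *
  push_cast
  rw [h1, h2, h3, h4, hst, hW]
  ring

end Pool.Agent.H320.HSC
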