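import Pool.Agent.H320.HSC.Defs

/-! Numerical part: order 3 Taylor models in fixed point arithmetic and the list of quantities to be
checked.  Everything is polymorphic in the operations, so that the same program is run on real
numbers and on Taylor models. -/

set_option autoImplicit false

open Complex
open scoped Manifold ContDiff ComplexOrder

namespace Pool.Agent.H320.HSC



theorem dt_psd2 (k a1 b1 c1 a2 b2 c2 : ℝ) (hk : 0 ≤ k) (ha1 : 0 ≤ a1) (hb1 : 0 ≤ b1)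
    (ha2 : 0 ≤ a2) (hb2 : 0 ≤ b2) (h1 : k * c1 ^ 2 ≤ a1 * b1) (h2 : k * c2 ^ 2 ≤ a2 * b2) :
    a1 * b1 - k * c1 ^ 2 + (a2 * b2 - k * c2 ^ 2) ≤
      (a1 + a2) * (b1 + b2) - k * (c1 + c2) ^ 2 := by
  have h3 : 0 ≤ a1 * b2 + a2 * b1 := by positivity
  have h4 : 2 * k * c1 * c2 ≤ a1 * b2 + a2 * b1 := by
    by_contra h
    push Not at h
    have h5 : (a1 * b2 + a2 * b1) ^ 2 < (2 * k * c1 * c2) ^ 2 :=
      pow_lt_pow_left₀ h h3 (by norm_num)
    have h6 : (k * c1 ^ 2) * (k * c2 ^ 2) ≤ (a1 * b1) * (a2 * b2) :=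
      mul_le_mul h1 h2 (by positivity) (by positivity)
    nlinarith [sq_nonneg (a1 * b2 - a2 * b1)]
  nlinarith

theorem dt_L1 (s t : ℝ) (hs : 0 ≤ s) (ht : 0 ≤ t) : ∃ x : ℝ, 0 < x ∧
    (dL1 rOps s t).s + s * (dL1 rOps s t).ss = (1 + t) * x ∧
    (dL1 rOps s t).t + t * (dL1 rOps s t).tt = s * (1 + s) * x ∧
    (dL1 rOps s t).st = x := by
  have hL : 0 < 1 + (s + s * t) := by positivity
  refine ⟨((1 + (s + s * t))⁻¹) ^ 2, by positivity, ?_, ?_, ?_⟩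
  · simp only [dL1, cum, rOps, Nat.cast_one, Nat.cast_zero]
    field_simp
    ring
  · simp only [dL1, cum, rOps, Nat.cast_one, Nat.cast_zero]
    field_simp
    ring
  · simp only [dL1, cum, rOps, Nat.cast_one, Nat.cast_zero]
    field_simp
    ring

theorem dt_L2 (s t : ℝ) (hs : 0 ≤ s) (ht : 0 ≤ t) : ∃ y : ℝ, 0 < y ∧
    (dL2 rOps s t).s + s * (dL2 rOps s t).ss = t * (1 + t) * y ∧
    (dL2 rOps s t).t + t * (dL2 rOps s t).tt = (1 + s) * y ∧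
    (dL2 rOps s t).st = y := by
  have hL : 0 < 1 + (t + s * t) := by positivity
  refine ⟨((1 + (t + s * t))⁻¹) ^ 2, by positivity, ?_, ?_, ?_⟩
  · simp only [dL2, cum, rOps, Nat.cast_one, Nat.cast_zero]
    field_simp
    ring
  · simp only [dL2, cum, rOps, Nat.cast_one, Nat.cast_zero]
    field_simp
    ring
  · simp only [dL2, cum, rOps, Nat.cast_one, Nat.cast_zero]
    field_simp
    ring

/-- numerators -/
def n11 (s t : ℝ) : ℝ := 4 + 4*t + 4*s + 16*s*t + 4*s*t^2 + 4*s^2 + 20*s^2*t + 20*s^2*t^2 +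
  4*s^2*t^3
def n22 (s t : ℝ) : ℝ := 4*s + 20*s^2 + 4*s^2*t + 20*s^3 + 16*s^3*t + 4*s^3*t^2 + 4*s^4 +
  4*s^4*t + 4*s^4*t^2
def n12 (s t : ℝ) : ℝ := 4 + 8*s + 4*s*t + 12*s^2 + 8*s^2*t + 4*s^2*t^2

theorem n_pos (s t : ℝ) (hs : 0 ≤ s) (ht : 0 ≤ t) : 0 ≤ n11 s t ∧ 0 ≤ n22 s t ∧
    s * t * (n12 s t) ^ 2 ≤ n11 s t * n22 s t := by
  refine ⟨by unfold n11; positivity, by unfold n22; positivity, ?_⟩
  have h : n11 s t * n22 s t - s * t * (n12 s t) ^ 2 =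
      (1 + 4 * s * (1 + (t + s * t)) + s * s * (1 + t * t)) *
      (16*s + 32*s^2 + 32*s^2*t + 32*s^3 + 80*s^3*t + 32*s^3*t^2 + 16*s^4 + 32*s^4*t +
        32*s^4*t^2 + 16*s^4*t^3) := by
    unfold n11 n22 n12
    ring
  have h2 : 0 ≤ (1 + 4 * s * (1 + (t + s * t)) + s * s * (1 + t * t)) *
      (16*s + 32*s^2 + 32*s^2*t + 32*s^3 + 80*s^3*t + 32*s^3*t^2 + 16*s^4 + 32*s^4*t +
        32*s^4*t^2 + 16*s^4*t^3) := by positivity
  linarith

theorem dt_Q (s t : ℝ) (hs : 0 ≤ s) (ht : 0 ≤ t) : ∃ x : ℝ, 0 ≤ x ∧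
    (dQ rOps s t).s + s * (dQ rOps s t).ss = n11 s t * x ∧
    (dQ rOps s t).t + t * (dQ rOps s t).tt = n22 s t * x ∧
    (dQ rOps s t).st = n12 s t * x := by
  have hQ : 0 < 1 + 4 * (s * (1 + (t + s * t))) + s * s * (1 + t * t) := by positivity
  refine ⟨((1 + 4 * (s * (1 + (t + s * t))) + s * s * (1 + t * t))⁻¹) ^ 2, by positivity,
    ?_, ?_, ?_⟩
  · simp only [dQ, dQ', cum, rOps, Nat.cast_one, Nat.cast_ofNat, pQ, pQs, pQss, n11]
    field_simp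
    ring
  · simp only [dQ, dQ', cum, rOps, Nat.cast_one, Nat.cast_ofNat, pQ, pQt, pQtt, n22]
    field_simp
    ring
  · simp only [dQ, dQ', cum, rOps, Nat.cast_one, Nat.cast_ofNat, pQ, pQs, pQt, pQst, n12]
    field_simp
    ring

theorem dt_P (s t : ℝ) (hs : 0 ≤ s) (ht : 0 ≤ t) : ∃ x : ℝ, 0 ≤ x ∧
    (dP rOps s t).s + s * (dP rOps s t).ss = n22 t s * x ∧
    (dP rOps s t).t + t * (dP rOps s t).tt = n11 t s * x ∧
    (dP rOps s t).st = n12 t s * x := by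
  have hQ : 0 < 1 + 4 * (t * (1 + (s + t * s))) + t * t * (1 + s * s) := by positivity
  refine ⟨((1 + 4 * (t * (1 + (s + t * s))) + t * t * (1 + s * s))⁻¹) ^ 2, by positivity,
    ?_, ?_, ?_⟩
  · simp only [dP, dP', cum, rOps, Nat.cast_one, Nat.cast_ofNat, pQ, pQt, pQtt, n22]
    field_simp
    ring
  · simp only [dP, dP', cum, rOps, Nat.cast_one, Nat.cast_ofNat, pQ, pQs, pQss, n11]
    field_simp
    ring
  · simp only [dP, dP', cum, rOps, Nat.cast_one, Nat.cast_ofNat, pQ, pQs, pQt, pQst, n12]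
    field_simp
    ring

theorem dt_final (s t x y u v : ℝ) (hs : 0 ≤ s) (ht : 0 ≤ t) (hx : 0 < x) (hy : 0 < y)
    (hu : 0 ≤ u) (hv : 0 ≤ v) (g11 g22 g12 : ℝ)
    (h11 : g11 = 3 * ((1 + t) * x + t * (1 + t) * y) + (n11 s t * u + n22 t s * v))
    (h22 : g22 = 3 * (s * (1 + s) * x + (1 + s) * y) + (n22 s t * u + n11 t s * v))
    (h12 : g12 = 3 * (x + y) + (n12 s t * u + n12 t s * v)) :
    0 < g11 * g22 - s * t * (g12 * g12) ∧ 0 < g11 := by
  obtain ⟨p1, p2, p3⟩ := n_pos s t hs ht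
  obtain ⟨q1, q2, q3⟩ := n_pos t s ht hs
  have hk : 0 ≤ s * t := mul_nonneg hs ht
  have r1 : s * t * (n12 s t * u) ^ 2 ≤ n11 s t * u * (n22 s t * u) := by
    have := mul_le_mul_of_nonneg_right p3 (sq_nonneg u)
    nlinarith
  have r2 : s * t * (n12 t s * v) ^ 2 ≤ n22 t s * v * (n11 t s * v) := by
    have := mul_le_mul_of_nonneg_right q3 (sq_nonneg v)
    nlinarith
  have r3 := dt_psd2 (s * t) (n11 s t * u) (n22 s t * u) (n12 s t * u) (n22 t s * v)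
    (n11 t s * v) (n12 t s * v) hk (mul_nonneg p1 hu) (mul_nonneg p2 hu) (mul_nonneg q2 hv)
    (mul_nonneg q1 hv) r1 r2
  have r4 : 3 * ((1 + t) * x + t * (1 + t) * y) * (3 * (s * (1 + s) * x + (1 + s) * y)) -
      s * t * (3 * (x + y)) ^ 2 = 9 * (x ^ 2 * (s * (1 + s + s * t)) +
        y ^ 2 * (t * (1 + t + s * t)) +
        x * y * (1 + s + t + s ^ 2 * t + s * t ^ 2 + s ^ 2 * t ^ 2)) := by
    ring
  have r5 : 0 < 9 * (x ^ 2 * (s * (1 + s + s * t)) +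
        y ^ 2 * (t * (1 + t + s * t)) +
        x * y * (1 + s + t + s ^ 2 * t + s * t ^ 2 + s ^ 2 * t ^ 2)) := by positivity
  have a1 : 0 ≤ 3 * ((1 + t) * x + t * (1 + t) * y) := by positivity
  have b1 : 0 ≤ 3 * (s * (1 + s) * x + (1 + s) * y) := by positivity
  have a2 : 0 ≤ n11 s t * u + n22 t s * v := by positivity
  have b2 : 0 ≤ n22 s t * u + n11 t s * v := by positivity
  have r6 := dt_psd2 (s * t) _ _ (3 * (x + y)) _ _ (n12 s t * u + n12 t s * v) hk a1 b1 a2 b2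
    (by linarith) (by linarith)
  constructor
  · rw [h11, h22, h12, ← sq]
    linarith
  · rw [h11]
    positivity

theorem dt_pos (s t : ℝ) (hs : 0 ≤ s) (ht : 0 ≤ t) : 0 < (midF rOps s t).dt ∧
    0 < (midF rOps s t).g11 := by
  obtain ⟨x, hx, x1, x2, x3⟩ := dt_L1 s t hs ht
  obtain ⟨y, hy, y1, y2, y3⟩ := dt_L2 s t hs ht
  obtain ⟨u, hu, u1, u2, u3⟩ := dt_Q s t hs ht
  obtain ⟨v, hv, v1, v2, v3⟩ := dt_P s t hs ht
  obtain ⟨A, hA⟩ : ∃ A, A = dL1 rOps s t := ⟨_, rfl⟩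
  obtain ⟨B, hB⟩ : ∃ B, B = dL2 rOps s t := ⟨_, rfl⟩
  obtain ⟨C, hC⟩ : ∃ C, C = dQ rOps s t := ⟨_, rfl⟩
  obtain ⟨D, hD⟩ : ∃ D, D = dP rOps s t := ⟨_, rfl⟩
  rw [← hA] at x1 x2 x3
  rw [← hB] at y1 y2 y3
  rw [← hC] at u1 u2 u3
  rw [← hD] at v1 v2 v3
  have hm : midF rOps s t = mid rOps s t (comb rOps A B C D) := by
    rw [hA, hB, hC, hD]
    rfl
  rw [hm]
  have e11 : (comb rOps A B C D).s + s * (comb rOps A B C D).ss =
      3 * ((1 + t) * x + t * (1 + t) * y) + (n11 s t * u + n22 t s * v) := by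
    simp only [comb, rOps, Nat.cast_ofNat]
    linear_combination 3 * x1 + 3 * y1 + u1 + v1
  have e22 : (comb rOps A B C D).t + t * (comb rOps A B C D).tt =
      3 * (s * (1 + s) * x + (1 + s) * y) + (n22 s t * u + n11 t s * v) := by
    simp only [comb, rOps, Nat.cast_ofNat]
    linear_combination 3 * x2 + 3 * y2 + u2 + v2
  have e12 : (comb rOps A B C D).st =
      3 * (x + y) + (n12 s t * u + n12 t s * v) := by
    simp only [comb, rOps, Nat.cast_ofNat]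
    linear_combination 3 * x3 + 3 * y3 + u3 + v3
  exact dt_final s t x y u v hs ht hx hy hu hv _ _ _ e11 e22 e12

end Pool.Agent.H320.HSC
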