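import Pool.Agent.H320.HSC.Defs

/-! Numerical part: order 3 Taylor models in fixed point arithmetic and the list of quantities to be
checked.  Everything is polymorphic in the operations, so that the same program is run on real
numbers and on Taylor models. -/

set_option autoImplicit false

open Complex
open scoped Manifold ContDiff ComplexOrder

namespace Pool.Agent.H320.HSC


theorem inv_Gm_aux (A : D14 ℝ) (p : ℂ × ℂ) :
    (mat A p)⁻¹ 0 0 = (mid rOps (normSq p.1) (normSq p.2) A).g22 / (mid rOps (normSq p.1) (normSq p.2) A).dt ∧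
    (mat A p)⁻¹ 0 1 = - ((starRingEnd ℂ) p.1 * p.2 * (mid rOps (normSq p.1) (normSq p.2) A).g12) /
      (mid rOps (normSq p.1) (normSq p.2) A).dt ∧
    (mat A p)⁻¹ 1 0 = - (p.1 * (starRingEnd ℂ) p.2 * (mid rOps (normSq p.1) (normSq p.2) A).g12) /
      (mid rOps (normSq p.1) (normSq p.2) A).dt ∧
    (mat A p)⁻¹ 1 1 = (mid rOps (normSq p.1) (normSq p.2) A).g11 /
      (mid rOps (normSq p.1) (normSq p.2) A).dt := by
  obtain ⟨D, hD⟩ : ∃ D : ℝ, D = (mid rOps (normSq p.1) (normSq p.2) A).dt := ⟨_, rfl⟩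
  have hdet : (mat A p).det = (D : ℂ) := by
    have e1 : D = (A.s + normSq p.1 * A.ss) * (A.t + normSq p.2 * A.tt) -
        (normSq p.1 * normSq p.2) * (A.st * A.st) := hD
    unfold mat
    rw [Matrix.det_fin_two_of, e1]
    push_cast
    rw [← Complex.mul_conj p.1, ← Complex.mul_conj p.2]
    ring
  have hinv : (mat A p)⁻¹ = (D : ℂ)⁻¹ • !![((A.t + normSq p.2 * A.tt : ℝ) : ℂ),
      - ((starRingEnd ℂ) p.1 * p.2 * (A.st : ℂ)); - (p.1 * (starRingEnd ℂ) p.2 * (A.st : ℂ)),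
      ((A.s + normSq p.1 * A.ss : ℝ) : ℂ)] := by
    rw [Matrix.inv_def, hdet, Ring.inverse_eq_inv']
    unfold mat
    rw [Matrix.adjugate_fin_two_of]
  rw [hinv, ← hD]
  refine ⟨?_, ?_, ?_, ?_⟩
  · rw [Matrix.smul_apply, smul_eq_mul, div_eq_inv_mul]
    rfl
  · rw [Matrix.smul_apply, smul_eq_mul, div_eq_inv_mul]
    rfl
  · rw [Matrix.smul_apply, smul_eq_mul, div_eq_inv_mul]
    rfl
  · rw [Matrix.smul_apply, smul_eq_mul, div_eq_inv_mul]
    rfl

theorem inv_Gm (p : ℂ × ℂ) :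
    (Gm p)⁻¹ 0 0 = (mF p).g22 / (mF p).dt ∧
    (Gm p)⁻¹ 0 1 = - ((starRingEnd ℂ) p.1 * p.2 * (mF p).g12) / (mF p).dt ∧
    (Gm p)⁻¹ 1 0 = - (p.1 * (starRingEnd ℂ) p.2 * (mF p).g12) / (mF p).dt ∧
    (Gm p)⁻¹ 1 1 = (mF p).g11 / (mF p).dt := by
  exact inv_Gm_aux (dFp p) p

end Pool.Agent.H320.HSC
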