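import Pool.Agent.H320.HSC.Defs
import Pool.Agent.H320.HSC.P_hasP_basic
import Pool.Agent.H320.HSC.P_hasP_add
import Pool.Agent.H320.HSC.P_hasP_mul
import Pool.Agent.H320.HSC.P_hasP_inv

/-! Numerical part: order 3 Taylor models in fixed point arithmetic and the list of quantities to be
checked.  Everything is polymorphic in the operations, so that the same program is run on real
numbers and on Taylor models. -/

set_option autoImplicit false

open Complex
open scoped Manifold ContDiff ComplexOrder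

namespace Pool.Agent.H320.HSC



theorem L1_rat (s t : ℝ) (hs : 0 ≤ s) (ht : 0 ≤ t) : IsRat (fun x y => (1 + y) * (1 + (x + x * y))⁻¹)
    (fun x y => x * (1 + (x + x * y))⁻¹) (fun _ _ => 0) (fun x y => (1 + (x + x * y))⁻¹)
    (fun _ _ => 0) (fun _ _ => 0) (fun _ _ => 0) (fun _ _ => 0) s t := by
  have hcg : ∀ (H : ℝ → ℝ → ℝ) (a b a' b' : ℝ), HasP H a b s t → a = a' → b = b' → HasP H a' b' s t := by
    intro H a b a' b' h h1 h2
    rw [← h1, ← h2]
    exact h
  obtain ⟨hc, hx, hy⟩ := hasP_basic s t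
  have hL : HasP (fun x y => 1 + (x + x * y)) (1 + t) s s t := by
    have h1 := hasP_mul _ _ _ _ _ _ s t hx hy
    have h2 := (hasP_add _ _ _ _ _ _ s t hx h1).1
    have h3 := (hasP_add _ _ _ _ _ _ s t (hc 1) h2).1
    exact hcg _ _ _ _ _ h3 (by ring) (by ring)
  have hL0 : (1 + (s + s * t)) ≠ 0 := by positivity
  have hI := hasP_inv _ _ _ s t hL hL0
  obtain ⟨i, hi⟩ : ∃ i, i = (1 + (s + s * t))⁻¹ := ⟨_, rfl⟩
  have hI' : HasP (fun x y => (1 + (x + x * y))⁻¹) (- (1 + t) * (i * i)) (- s * (i * i)) s t := by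
    rw [hi]; exact hI
  have h1y : HasP (fun _ y => 1 + y) 0 1 s t := by
    have := (hasP_add _ _ _ _ _ _ s t (hc 1) hy).1
    exact hcg _ _ _ _ _ this (by ring) (by ring)
  have hA := hasP_mul _ _ _ _ _ _ s t h1y hI'
  have hB := hasP_mul _ _ _ _ _ _ s t hx hI'
  refine ⟨?_, ?_, ?_, ?_, ?_, ?_, ?_, ?_⟩
  · apply hcg _ _ _ _ _ hA
    · simp only [← hi]; ring
    · simp only [← hi]; ring
  · apply hcg _ _ _ _ _ hB
    · simp only [← hi]; ring
    · simp only [← hi]; ring
  · apply hcg _ _ _ _ _ (hc 0)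
    · simp
    · simp
  · apply hcg _ _ _ _ _ hI'
    · simp only [← hi]; ring
    · simp only [← hi]; ring
  · apply hcg _ _ _ _ _ (hc 0)
    · simp
    · simp
  · apply hcg _ _ _ _ _ (hc 0)
    · simp
    · simp
  · apply hcg _ _ _ _ _ (hc 0)
    · simp
    · simp
  · apply hcg _ _ _ _ _ (hc 0)
    · simp
    · simp

end Pool.Agent.H320.HSC
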