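import Pool.Agent.H320.HSC.Defs
import Pool.Agent.H320.HSC.P_hasP_basic
import Pool.Agent.H320.HSC.P_hasP_add
import Pool.Agent.H320.HSC.P_hasP_mul
import Pool.Agent.H320.HSC.P_hasP_inv

/-! Numerical part: order 3 Taylor models in fixed point arithmetic and the list of quantities to be
checked.  Everything is polymorphic in the operations, so that the same program is run on real
numbers and on Taylor models. -/

set_option autoImplicit false

open Complex
open scoped Manifold ContDiff ComplexOrder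

namespace Pool.Agent.H320.HSC



theorem L2_rat_congr {F : ℝ → ℝ → ℝ} {a b a' b' s t : ℝ} (h : HasP F a b s t) (ha : a' = a)
    (hb : b' = b) : HasP F a' b' s t := by
  rw [ha, hb]; exact h

theorem L2_rat (s t : ℝ) (hs : 0 ≤ s) (ht : 0 ≤ t) : IsRat (fun x y => y * (1 + (y + x * y))⁻¹)
    (fun x y => (1 + x) * (1 + (y + x * y))⁻¹) (fun _ _ => 0) (fun x y => (1 + (y + x * y))⁻¹)
    (fun _ _ => 0) (fun _ _ => 0) (fun _ _ => 0) (fun _ _ => 0) s t := by
  obtain ⟨hc, hx, hy⟩ := hasP_basic s t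
  have hst : 0 ≤ s * t := mul_nonneg hs ht
  have h0 : (1 + (t + s * t)) ≠ 0 := by linarith
  have hD : HasP (fun x y => 1 + (y + x * y)) t (1 + s) s t := by
    have h1 := hasP_mul _ _ _ _ _ _ s t hx hy
    have h2 := (hasP_add _ _ _ _ _ _ s t hy h1).1
    have h3 := (hasP_add _ _ _ _ _ _ s t (hc 1) h2).1
    exact L2_rat_congr h3 (by ring) (by ring)
  have hi : HasP (fun x y => (1 + (y + x * y))⁻¹)
      (- t * ((1 + (t + s * t))⁻¹ * (1 + (t + s * t))⁻¹))
      (- (1 + s) * ((1 + (t + s * t))⁻¹ * (1 + (t + s * t))⁻¹)) s t :=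
    hasP_inv _ _ _ s t hD h0
  have hx1 := (hasP_add _ _ _ _ _ _ s t (hc 1) hx).1
  have hz : HasP (fun _ _ => 0) 0 0 s t := hc 0
  refine ⟨?_, ?_, ?_, ?_, ?_, ?_, ?_, ?_⟩
  · exact L2_rat_congr (hasP_mul _ _ _ _ _ _ s t hy hi) (by ring) (by ring)
  · exact L2_rat_congr (hasP_mul _ _ _ _ _ _ s t hx1 hi) (by ring) (by ring)
  · exact L2_rat_congr hz (by ring) (by ring)
  · exact L2_rat_congr hi (by ring) (by ring)
  · exact L2_rat_congr hz (by ring) (by ring)
  · exact L2_rat_congr hz (by ring) (by ring)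
  · exact L2_rat_congr hz (by ring) (by ring)
  · exact L2_rat_congr hz (by ring) (by ring)

end Pool.Agent.H320.HSC
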