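import Pool.Agent.H320.HSC.Defs
import Pool.Agent.H320.HSC.P_hasP_basic
import Pool.Agent.H320.HSC.P_hasP_add
import Pool.Agent.H320.HSC.P_hasP_mul
import Pool.Agent.H320.HSC.P_hasP_inv

/-! Numerical part: order 3 Taylor models in fixed point arithmetic and the list of quantities to be
checked.  Everything is polymorphic in the operations, so that the same program is run on real
numbers and on Taylor models. -/

set_option autoImplicit false

open Complex
open scoped Manifold ContDiff ComplexOrder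

namespace Pool.Agent.H320.HSC



theorem P_rat_add {H K : ℝ → ℝ → ℝ} {a b c d s t : ℝ} (h : HasP H a b s t) (k : HasP K c d s t) :
    HasP (fun x y => H x y + K x y) (a + c) (b + d) s t := (hasP_add H K a b c d s t h k).1

theorem P_rat_mul {H K : ℝ → ℝ → ℝ} {a b c d s t : ℝ} (h : HasP H a b s t) (k : HasP K c d s t) :
    HasP (fun x y => H x y * K x y) (a * K s t + H s t * c) (b * K s t + H s t * d) s t :=
  hasP_mul H K a b c d s t h k

theorem P_rat_congr {H : ℝ → ℝ → ℝ} {a b a' b' s t : ℝ} (h : HasP H a b s t) (ha : a' = a)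
    (hb : b' = b) : HasP H a' b' s t := by
  rw [ha, hb]
  exact h

theorem P_rat_div {N L : ℝ → ℝ → ℝ} {n1 n2 l1 l2 s t : ℝ} (hN : HasP N n1 n2 s t)
    (hL : HasP L l1 l2 s t) (h0 : L s t ≠ 0) {a b : ℝ}
    (ha : a = n1 * (L s t)⁻¹ - N s t * (L s t)⁻¹ * (l1 * (L s t)⁻¹))
    (hb : b = n2 * (L s t)⁻¹ - N s t * (L s t)⁻¹ * (l2 * (L s t)⁻¹)) :
    HasP (fun x y => N x y * (L x y)⁻¹) a b s t := by
  have h1 := hasP_mul N (fun x y => (L x y)⁻¹) _ _ _ _ s t hN (hasP_inv L _ _ s t hL h0)
  refine P_rat_congr h1 ?_ ?_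
  · rw [ha]
    ring
  · rw [hb]
    ring

theorem P_rat (s t : ℝ) (hs : 0 ≤ s) (ht : 0 ≤ t) :
    IsRat (fun x y => pQt rOps y x * (pQ rOps y x)⁻¹) (fun x y => pQs rOps y x * (pQ rOps y x)⁻¹)
      (fun x y => pQtt rOps y * (pQ rOps y x)⁻¹) (fun x y => pQst rOps y x * (pQ rOps y x)⁻¹)
      (fun x y => pQss rOps x * (pQ rOps y x)⁻¹) (fun x y => pQstt rOps y * (pQ rOps y x)⁻¹)
      (fun x y => pQsst rOps x * (pQ rOps y x)⁻¹) (fun x y => 4 * (pQ rOps y x)⁻¹) s t := by
  have c : ∀ c : ℝ, HasP (fun _ _ => c) 0 0 s t := (hasP_basic s t).1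
  have X : HasP (fun x _ => x) 1 0 s t := (hasP_basic s t).2.1
  have Y : HasP (fun _ y => y) 0 1 s t := (hasP_basic s t).2.2
  have n1 := c ((1 : ℕ) : ℝ)
  have n2 := c ((2 : ℕ) : ℝ)
  have n4 := c ((4 : ℕ) : ℝ)
  have hL : HasP (fun x y => pQ rOps y x) (pQt rOps t s) (pQs rOps t s) s t := by
    have := P_rat_add (P_rat_add n1 (P_rat_mul n4 (P_rat_mul Y (P_rat_add n1 (P_rat_add X
      (P_rat_mul Y X)))))) (P_rat_mul (P_rat_mul Y Y) (P_rat_add n1 (P_rat_mul X X)))
    refine P_rat_congr this ?_ ?_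
    · simp only [pQt, rOps]
      push_cast
      ring
    · simp only [pQs, rOps]
      push_cast
      ring
  have hQt : HasP (fun x y => pQt rOps y x) (pQtt rOps t) (pQst rOps t s) s t := by
    have := P_rat_add (P_rat_mul n4 Y) (P_rat_mul n2 (P_rat_mul (P_rat_mul Y Y) (P_rat_add n2 X)))
    refine P_rat_congr this ?_ ?_
    · simp only [pQtt, rOps]
      push_cast
      ring
    · simp only [pQst, rOps]
      push_cast
      ring
  have hQs : HasP (fun x y => pQs rOps y x) (pQst rOps t s) (pQss rOps s) s t := by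
    have := P_rat_add (P_rat_mul n4 (P_rat_add n1 X)) (P_rat_mul n2 (P_rat_mul Y (P_rat_add
      (P_rat_add n1 (P_rat_mul n4 X)) (P_rat_mul X X))))
    refine P_rat_congr this ?_ ?_
    · simp only [pQst, rOps]
      push_cast
      ring
    · simp only [pQss, rOps]
      push_cast
      ring
  have hQtt : HasP (fun _ y => pQtt rOps y) 0 (pQstt rOps t) s t := by
    have := P_rat_mul n2 (P_rat_mul Y Y)
    refine P_rat_congr this ?_ ?_
    · ring
    · simp only [pQstt, rOps]
      push_cast
      ring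
  have hQst : HasP (fun x y => pQst rOps y x) (pQstt rOps t) (pQsst rOps s) s t := by
    have := P_rat_mul n4 (P_rat_add n1 (P_rat_mul Y (P_rat_add n2 X)))
    refine P_rat_congr this ?_ ?_
    · simp only [pQstt, rOps]
      push_cast
      ring
    · simp only [pQsst, rOps]
      push_cast
      ring
  have hQss : HasP (fun x _ => pQss rOps x) (pQsst rOps s) 0 s t := by
    have := P_rat_mul n2 (P_rat_add (P_rat_add n1 (P_rat_mul n4 X)) (P_rat_mul X X))
    refine P_rat_congr this ?_ ?_
    · simp only [pQsst, rOps]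
      push_cast
      ring
    · ring
  have hQstt : HasP (fun _ y => pQstt rOps y) 0 4 s t := by
    have := P_rat_mul n4 Y
    refine P_rat_congr this ?_ ?_
    · ring
    · push_cast
      ring
  have hQsst : HasP (fun x _ => pQsst rOps x) 4 0 s t := by
    have := P_rat_mul n4 (P_rat_add n2 X)
    refine P_rat_congr this ?_ ?_
    · push_cast
      ring
    · ring
  have h0 : pQ rOps t s ≠ 0 := by
    have h1 : 0 < pQ rOps t s := by
      simp only [pQ, rOps]
      push_cast
      positivity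
    exact h1.ne'
  constructor
  · exact P_rat_div hQt hL h0 (by ring) (by ring)
  · exact P_rat_div hQs hL h0 (by ring) (by ring)
  · exact P_rat_div hQtt hL h0 (by ring) (by ring)
  · exact P_rat_div hQst hL h0 (by ring) (by ring)
  · exact P_rat_div hQss hL h0 (by ring) (by ring)
  · exact P_rat_div hQstt hL h0 (by ring) (by ring)
  · exact P_rat_div hQsst hL h0 (by ring) (by ring)
  · exact P_rat_div (c 4) hL h0 (by ring) (by ring)

end Pool.Agent.H320.HSC
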