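import Pool.Agent.H320.HSC.Defs
import Pool.Agent.H320.HSC.P_hasP_basic
import Pool.Agent.H320.HSC.P_hasP_add
import Pool.Agent.H320.HSC.P_hasP_mul
import Pool.Agent.H320.HSC.P_hasP_inv

/-! Numerical part: order 3 Taylor models in fixed point arithmetic and the list of quantities to be
checked.  Everything is polymorphic in the operations, so that the same program is run on real
numbers and on Taylor models. -/

set_option autoImplicit false

open Complex
open scoped Manifold ContDiff ComplexOrder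

namespace Pool.Agent.H320.HSC



theorem Q_rat_congr {H K : ℝ → ℝ → ℝ} {a b a' b' s t : ℝ} (h : HasP H a b s t)
    (hH : ∀ x y, K x y = H x y) (ha : a' = a) (hb : b' = b) : HasP K a' b' s t := by
  have h1 : K = H := by
    funext x y
    exact hH x y
  rw [h1, ha, hb]
  exact h

theorem Q_rat_div {N D : ℝ → ℝ → ℝ} {n1 n2 d1 d2 s t : ℝ} (hN : HasP N n1 n2 s t)
    (hD : HasP D d1 d2 s t) (h0 : D s t ≠ 0) :
    HasP (fun x y => N x y * (D x y)⁻¹)
      (n1 * (D s t)⁻¹ - (N s t * (D s t)⁻¹) * (d1 * (D s t)⁻¹))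
      (n2 * (D s t)⁻¹ - (N s t * (D s t)⁻¹) * (d2 * (D s t)⁻¹)) s t := by
  refine Q_rat_congr (hasP_mul N (fun x y => (D x y)⁻¹) _ _ _ _ s t hN
    (hasP_inv D _ _ s t hD h0)) (fun _ _ => rfl) ?_ ?_
  · ring
  · ring

theorem Q_rat_poly (s t c00 c10 c01 c20 c11 c02 c21 c12 c22 : ℝ) :
    HasP (fun x y => c00 + c10 * x + c01 * y + c20 * (x * x) + c11 * (x * y) + c02 * (y * y) +
        c21 * (x * x * y) + c12 * (x * (y * y)) + c22 * (x * x * (y * y)))
      (c10 + 2 * c20 * s + c11 * t + 2 * c21 * s * t + c12 * t ^ 2 + 2 * c22 * s * t ^ 2)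
      (c01 + c11 * s + 2 * c02 * t + c21 * s ^ 2 + 2 * c12 * s * t + 2 * c22 * s ^ 2 * t) s t := by
  obtain ⟨hc, hx, hy⟩ := hasP_basic s t
  have hxx := hasP_mul _ _ _ _ _ _ s t hx hx
  have hxy := hasP_mul _ _ _ _ _ _ s t hx hy
  have hyy := hasP_mul _ _ _ _ _ _ s t hy hy
  have hxxy := hasP_mul _ _ _ _ _ _ s t hxx hy
  have hxyy := hasP_mul _ _ _ _ _ _ s t hx hyy
  have hxxyy := hasP_mul _ _ _ _ _ _ s t hxx hyy
  have e1 := (hasP_add _ _ _ _ _ _ s t (hc c00) (hasP_mul _ _ _ _ _ _ s t (hc c10) hx)).1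
  have e2 := (hasP_add _ _ _ _ _ _ s t e1 (hasP_mul _ _ _ _ _ _ s t (hc c01) hy)).1
  have e3 := (hasP_add _ _ _ _ _ _ s t e2 (hasP_mul _ _ _ _ _ _ s t (hc c20) hxx)).1
  have e4 := (hasP_add _ _ _ _ _ _ s t e3 (hasP_mul _ _ _ _ _ _ s t (hc c11) hxy)).1
  have e5 := (hasP_add _ _ _ _ _ _ s t e4 (hasP_mul _ _ _ _ _ _ s t (hc c02) hyy)).1
  have e6 := (hasP_add _ _ _ _ _ _ s t e5 (hasP_mul _ _ _ _ _ _ s t (hc c21) hxxy)).1
  have e7 := (hasP_add _ _ _ _ _ _ s t e6 (hasP_mul _ _ _ _ _ _ s t (hc c12) hxyy)).1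
  have e8 := (hasP_add _ _ _ _ _ _ s t e7 (hasP_mul _ _ _ _ _ _ s t (hc c22) hxxyy)).1
  refine Q_rat_congr e8 (fun x y => rfl) ?_ ?_
  · ring
  · ring

theorem Q_rat (s t : ℝ) (hs : 0 ≤ s) (ht : 0 ≤ t) :
    IsRat (fun x y => pQs rOps x y * (pQ rOps x y)⁻¹) (fun x y => pQt rOps x y * (pQ rOps x y)⁻¹)
      (fun x y => pQss rOps y * (pQ rOps x y)⁻¹) (fun x y => pQst rOps x y * (pQ rOps x y)⁻¹)
      (fun x y => pQtt rOps x * (pQ rOps x y)⁻¹) (fun x y => pQsst rOps y * (pQ rOps x y)⁻¹)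
      (fun x y => pQstt rOps x * (pQ rOps x y)⁻¹) (fun x y => 4 * (pQ rOps x y)⁻¹) s t := by
  have h0 : pQ rOps s t ≠ 0 := by
    have : 0 < pQ rOps s t := by
      simp only [pQ, rOps]
      push_cast
      positivity
    exact this.ne'
  have hQ : HasP (fun x y => pQ rOps x y) (pQs rOps s t) (pQt rOps s t) s t := by
    refine Q_rat_congr (Q_rat_poly s t 1 4 0 1 4 0 4 0 1) (fun x y => ?_) ?_ ?_
    · simp only [pQ, rOps]; push_cast; ring
    · simp only [pQs, rOps]; push_cast; ring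
    · simp only [pQt, rOps]; push_cast; ring
  have hQs : HasP (fun x y => pQs rOps x y) (pQss rOps t) (pQst rOps s t) s t := by
    refine Q_rat_congr (Q_rat_poly s t 4 2 4 0 8 0 0 2 0) (fun x y => ?_) ?_ ?_
    · simp only [pQs, rOps]; push_cast; ring
    · simp only [pQss, rOps]; push_cast; ring
    · simp only [pQst, rOps]; push_cast; ring
  have hQt : HasP (fun x y => pQt rOps x y) (pQst rOps s t) (pQtt rOps s) s t := by
    refine Q_rat_congr (Q_rat_poly s t 0 4 0 4 0 0 2 0 0) (fun x y => ?_) ?_ ?_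
    · simp only [pQt, rOps]; push_cast; ring
    · simp only [pQst, rOps]; push_cast; ring
    · simp only [pQtt, rOps]; push_cast; ring
  have hQss : HasP (fun _ y => pQss rOps y) 0 (pQsst rOps t) s t := by
    refine Q_rat_congr (Q_rat_poly s t 2 0 8 0 0 2 0 0 0) (fun x y => ?_) ?_ ?_
    · simp only [pQss, rOps]; push_cast; ring
    · ring
    · simp only [pQsst, rOps]; push_cast; ring
  have hQst : HasP (fun x y => pQst rOps x y) (pQsst rOps t) (pQstt rOps s) s t := by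
    refine Q_rat_congr (Q_rat_poly s t 4 8 0 0 4 0 0 0 0) (fun x y => ?_) ?_ ?_
    · simp only [pQst, rOps]; push_cast; ring
    · simp only [pQsst, rOps]; push_cast; ring
    · simp only [pQstt, rOps]; push_cast; ring
  have hQtt : HasP (fun x _ => pQtt rOps x) (pQstt rOps s) 0 s t := by
    refine Q_rat_congr (Q_rat_poly s t 0 0 0 2 0 0 0 0 0) (fun x y => ?_) ?_ ?_
    · simp only [pQtt, rOps]; push_cast; ring
    · simp only [pQstt, rOps]; push_cast; ring
    · ring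
  have hQsst : HasP (fun _ y => pQsst rOps y) 0 4 s t := by
    refine Q_rat_congr (Q_rat_poly s t 8 0 4 0 0 0 0 0 0) (fun x y => ?_) ?_ ?_
    · simp only [pQsst, rOps]; push_cast; ring
    · ring
    · ring
  have hQstt : HasP (fun x _ => pQstt rOps x) 4 0 s t := by
    refine Q_rat_congr (Q_rat_poly s t 0 4 0 0 0 0 0 0 0) (fun x y => ?_) ?_ ?_
    · simp only [pQstt, rOps]; push_cast; ring
    · ring
    · ring
  have h4 : HasP (fun _ _ => (4 : ℝ)) 0 0 s t := (hasP_basic s t).1 4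
  constructor
  · exact Q_rat_div hQs hQ h0
  · exact Q_rat_div hQt hQ h0
  · exact Q_rat_congr (Q_rat_div hQss hQ h0) (fun _ _ => rfl) (by ring) rfl
  · exact Q_rat_div hQst hQ h0
  · exact Q_rat_congr (Q_rat_div hQtt hQ h0) (fun _ _ => rfl) rfl (by ring)
  · exact Q_rat_congr (Q_rat_div hQsst hQ h0) (fun _ _ => rfl) (by ring) rfl
  · exact Q_rat_congr (Q_rat_div hQstt hQ h0) (fun _ _ => rfl) rfl (by ring)
  · exact Q_rat_congr (Q_rat_div h4 hQ h0) (fun _ _ => rfl) (by ring) (by ring)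

end Pool.Agent.H320.HSC
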