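import Pool.Agent.H320.HSC.Defs
import Pool.Agent.H320.HSC.P_hasP_basic
import Pool.Agent.H320.HSC.P_hasP_add
import Pool.Agent.H320.HSC.P_hasP_mul

/-! Numerical part: order 3 Taylor models in fixed point arithmetic and the list of quantities to be
checked.  Everything is polymorphic in the operations, so that the same program is run on real
numbers and on Taylor models. -/

set_option autoImplicit false

open Complex
open scoped Manifold ContDiff ComplexOrder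

namespace Pool.Agent.H320.HSC



theorem comb_PD_aux (a b c d : ℝ → ℝ → ℝ) (a1 a2 b1 b2 c1 c2 d1 d2 s t : ℝ)
    (ha : HasP a a1 a2 s t) (hb : HasP b b1 b2 s t) (hc : HasP c c1 c2 s t)
    (hd : HasP d d1 d2 s t) :
    HasP (fun x y => ((3 : ℕ) : ℝ) * (a x y + b x y) + (c x y + d x y))
      (((3 : ℕ) : ℝ) * (a1 + b1) + (c1 + d1)) (((3 : ℕ) : ℝ) * (a2 + b2) + (c2 + d2)) s t := by
  have h1 := (hasP_add a b a1 a2 b1 b2 s t ha hb).1
  have h2 := (hasP_add c d c1 c2 d1 d2 s t hc hd).1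
  have h3 := hasP_mul (fun _ _ => ((3 : ℕ) : ℝ)) (fun x y => a x y + b x y) 0 0 (a1 + b1)
    (a2 + b2) s t ((hasP_basic s t).1 _) h1
  rw [zero_mul, zero_add, zero_add] at h3
  exact (hasP_add _ _ _ _ _ _ s t h3 h2).1

theorem comb_PD (A B C D : ℝ → ℝ → D14 ℝ) (s t : ℝ) (hA : HasPD A s t) (hB : HasPD B s t)
    (hC : HasPD C s t) (hD : HasPD D s t) :
    HasPD (fun x y => comb rOps (A x y) (B x y) (C x y) (D x y)) s t where
  ps := comb_PD_aux _ _ _ _ _ _ _ _ _ _ _ _ s t hA.ps hB.ps hC.ps hD.ps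
  pt := comb_PD_aux _ _ _ _ _ _ _ _ _ _ _ _ s t hA.pt hB.pt hC.pt hD.pt
  pss := comb_PD_aux _ _ _ _ _ _ _ _ _ _ _ _ s t hA.pss hB.pss hC.pss hD.pss
  pst := comb_PD_aux _ _ _ _ _ _ _ _ _ _ _ _ s t hA.pst hB.pst hC.pst hD.pst
  ptt := comb_PD_aux _ _ _ _ _ _ _ _ _ _ _ _ s t hA.ptt hB.ptt hC.ptt hD.ptt
  psss := comb_PD_aux _ _ _ _ _ _ _ _ _ _ _ _ s t hA.psss hB.psss hC.psss hD.psss
  psst := comb_PD_aux _ _ _ _ _ _ _ _ _ _ _ _ s t hA.psst hB.psst hC.psst hD.psst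
  pstt := comb_PD_aux _ _ _ _ _ _ _ _ _ _ _ _ s t hA.pstt hB.pstt hC.pstt hD.pstt
  pttt := comb_PD_aux _ _ _ _ _ _ _ _ _ _ _ _ s t hA.pttt hB.pttt hC.pttt hD.pttt

end Pool.Agent.H320.HSC
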