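import Pool.Agent.H320.HSC.Defs
import Pool.Agent.H320.HSC.P_hasP_basic
import Pool.Agent.H320.HSC.P_hasP_add
import Pool.Agent.H320.HSC.P_hasP_mul

/-! Numerical part: order 3 Taylor models in fixed point arithmetic and the list of quantities to be
checked.  Everything is polymorphic in the operations, so that the same program is run on real
numbers and on Taylor models. -/

set_option autoImplicit false

open Complex
open scoped Manifold ContDiff ComplexOrder

namespace Pool.Agent.H320.HSC



theorem hP_congr {H : ℝ → ℝ → ℝ} {a b a' b' s t : ℝ} (h : HasP H a b s t) (ha : a = a')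
    (hb : b = b') : HasP H a' b' s t := by
  subst ha; subst hb; exact h

theorem hP_add {H K : ℝ → ℝ → ℝ} {a b c d s t : ℝ} (h : HasP H a b s t) (k : HasP K c d s t) :
    HasP (fun x y => H x y + K x y) (a + c) (b + d) s t := (hasP_add H K a b c d s t h k).1

theorem hP_sub {H K : ℝ → ℝ → ℝ} {a b c d s t : ℝ} (h : HasP H a b s t) (k : HasP K c d s t) :
    HasP (fun x y => H x y - K x y) (a - c) (b - d) s t := (hasP_add H K a b c d s t h k).2

theorem hP_mul {H K : ℝ → ℝ → ℝ} {a b c d s t : ℝ} (h : HasP H a b s t) (k : HasP K c d s t) :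
    HasP (fun x y => H x y * K x y) (a * K s t + H s t * c) (b * K s t + H s t * d) s t :=
  hasP_mul H K a b c d s t h k

theorem hP_c (n : ℕ) (s t : ℝ) : HasP (fun _ _ => (n : ℝ)) 0 0 s t := (hasP_basic s t).1 _

theorem cum_PD (a b aa ab bb aab abb aabb : ℝ → ℝ → ℝ) (s t : ℝ)
    (h : IsRat a b aa ab bb aab abb aabb s t) :
    HasPD (fun x y => cum rOps (a x y) (b x y) (aa x y) (ab x y) (bb x y) (aab x y) (abb x y)
      (aabb x y)) s t := by
  obtain ⟨A, B, AA, AB, BB, AAB, ABB, AABB⟩ := h
  have c2 := hP_c 2 s t
  have c3 := hP_c 3 s t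
  constructor
  · exact hP_congr A (by simp only [cum, rOps]) (by simp only [cum, rOps])
  · exact hP_congr B (by simp only [cum, rOps]; ring) (by simp only [cum, rOps])
  · have e := hP_sub AA (hP_mul A A)
    exact hP_congr e (by simp only [cum, rOps]; push_cast; ring) (by simp only [cum, rOps]; push_cast; ring)
  · have e := hP_sub AB (hP_mul A B)
    exact hP_congr e (by simp only [cum, rOps]; push_cast; ring) (by simp only [cum, rOps]; push_cast; ring)
  · have e := hP_sub BB (hP_mul B B)
    exact hP_congr e (by simp only [cum, rOps]; push_cast; ring) (by simp only [cum, rOps]; push_cast; ring)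
  · have e := hP_sub (hP_mul c2 (hP_mul A (hP_mul A A))) (hP_mul c3 (hP_mul AA A))
    exact hP_congr e (by simp only [cum, rOps]; push_cast; ring) (by simp only [cum, rOps]; push_cast; ring)
  · have e := hP_sub (hP_add AAB (hP_mul c2 (hP_mul A (hP_mul A B))))
      (hP_add (hP_mul AA B) (hP_mul c2 (hP_mul AB A)))
    exact hP_congr e (by simp only [cum, rOps]; push_cast; ring) (by simp only [cum, rOps]; push_cast; ring)
  · have e := hP_sub (hP_add ABB (hP_mul c2 (hP_mul B (hP_mul A B))))
      (hP_add (hP_mul BB A) (hP_mul c2 (hP_mul AB B)))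
    exact hP_congr e (by simp only [cum, rOps]; push_cast; ring) (by simp only [cum, rOps]; push_cast; ring)
  · have e := hP_sub (hP_mul c2 (hP_mul B (hP_mul B B))) (hP_mul c3 (hP_mul BB B))
    exact hP_congr e (by simp only [cum, rOps]; push_cast; ring) (by simp only [cum, rOps]; push_cast; ring)

end Pool.Agent.H320.HSC
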