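import Pool.Agent.H320.HSC.Defs
import Pool.Agent.H320.HSC.P_cum_PD
import Pool.Agent.H320.HSC.P_comb_PD
import Pool.Agent.H320.HSC.P_L1_rat
import Pool.Agent.H320.HSC.P_L2_rat
import Pool.Agent.H320.HSC.P_Q_rat
import Pool.Agent.H320.HSC.P_P_rat

/-! Numerical part: order 3 Taylor models in fixed point arithmetic and the list of quantities to be
checked.  Everything is polymorphic in the operations, so that the same program is run on real
numbers and on Taylor models. -/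

set_option autoImplicit false

open Complex
open scoped Manifold ContDiff ComplexOrder

namespace Pool.Agent.H320.HSC



theorem dF_PD (s t : ℝ) (hs : 0 ≤ s) (ht : 0 ≤ t) : HasPD dFr s t := by
  have n0 : rOps.nat 0 = (0:ℝ) := by simp [rOps]
  have n1 : rOps.nat 1 = (1:ℝ) := by simp [rOps]
  have n4 : rOps.nat 4 = (4:ℝ) := by simp [rOps]
  have h1 := cum_PD _ _ _ _ _ _ _ _ s t (L1_rat s t hs ht)
  have h2 := cum_PD _ _ _ _ _ _ _ _ s t (L2_rat s t hs ht)
  have h3 := cum_PD _ _ _ _ _ _ _ _ s t (Q_rat s t hs ht)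
  have h4 := cum_PD _ _ _ _ _ _ _ _ s t (P_rat s t hs ht)
  have e1 : (fun x y => dL1 rOps x y) = fun x y => cum rOps ((1 + y) * (1 + (x + x * y))⁻¹)
      (x * (1 + (x + x * y))⁻¹) 0 ((1 + (x + x * y))⁻¹) 0 0 0 0 := by
    funext x y
    unfold dL1
    rw [n0, n1]
    rfl
  have e2 : (fun x y => dL2 rOps x y) = fun x y => cum rOps (y * (1 + (y + x * y))⁻¹)
      ((1 + x) * (1 + (y + x * y))⁻¹) 0 ((1 + (y + x * y))⁻¹) 0 0 0 0 := by
    funext x y
    unfold dL2
    rw [n0, n1]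
    rfl
  have e3 : (fun x y => dQ rOps x y) = fun x y => cum rOps (pQs rOps x y * (pQ rOps x y)⁻¹)
      (pQt rOps x y * (pQ rOps x y)⁻¹) (pQss rOps y * (pQ rOps x y)⁻¹) (pQst rOps x y * (pQ rOps x y)⁻¹)
      (pQtt rOps x * (pQ rOps x y)⁻¹) (pQsst rOps y * (pQ rOps x y)⁻¹) (pQstt rOps x * (pQ rOps x y)⁻¹)
      (4 * (pQ rOps x y)⁻¹) := by
    funext x y
    unfold dQ dQ'
    rw [n4]
    rfl
  have e4 : (fun x y => dP rOps x y) = fun x y => cum rOps (pQt rOps y x * (pQ rOps y x)⁻¹)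
      (pQs rOps y x * (pQ rOps y x)⁻¹) (pQtt rOps y * (pQ rOps y x)⁻¹) (pQst rOps y x * (pQ rOps y x)⁻¹)
      (pQss rOps x * (pQ rOps y x)⁻¹) (pQstt rOps y * (pQ rOps y x)⁻¹) (pQsst rOps x * (pQ rOps y x)⁻¹)
      (4 * (pQ rOps y x)⁻¹) := by
    funext x y
    unfold dP dP'
    rw [n4]
    rfl
  exact comb_PD (fun x y => dL1 rOps x y) (fun x y => dL2 rOps x y) (fun x y => dQ rOps x y)
    (fun x y => dP rOps x y) s t (by rw [e1]; exact h1) (by rw [e2]; exact h2) (by rw [e3]; exact h3)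
    (by rw [e4]; exact h4)

end Pool.Agent.H320.HSC
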