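import Pool.Agent.H320.HSC.Defs
import Pool.Agent.H320.HSC.P_hasP_basic
import Pool.Agent.H320.HSC.P_hasP_add
import Pool.Agent.H320.HSC.P_hasP_mul
import Pool.Agent.H320.HSC.P_dF_PD

/-! Numerical part: order 3 Taylor models in fixed point arithmetic and the list of quantities to be
checked.  Everything is polymorphic in the operations, so that the same program is run on real
numbers and on Taylor models. -/

set_option autoImplicit false

open Complex
open scoped Manifold ContDiff ComplexOrder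

namespace Pool.Agent.H320.HSC



theorem hasP_mid_cg {H : ℝ → ℝ → ℝ} {a b a' b' s t : ℝ} (h : HasP H a b s t) (ha : a = a')
    (hb : b = b') : HasP H a' b' s t := by
  subst ha hb
  exact h

theorem hasP_mid (s t : ℝ) (hs : 0 ≤ s) (ht : 0 ≤ t) :
    (∃ c, HasP (fun x y => (midF rOps x y).u1) c (midF rOps s t).f4 s t ∧
      (midF rOps s t).u1 + s * c = (midF rOps s t).f1) ∧
    (∃ c, HasP (fun x y => (midF rOps x y).u2) (midF rOps s t).f4 c s t ∧
      (midF rOps s t).u2 + t * c = (midF rOps s t).f2) ∧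
    (∃ c, HasP (fun x y => (midF rOps x y).u3) (midF rOps s t).f6 c s t ∧
      2 * (midF rOps s t).u3 + t * c = (midF rOps s t).f5) ∧
    (∃ c, HasP (fun x y => (midF rOps x y).w1) (midF rOps s t).f5 c s t ∧
      (midF rOps s t).w1 + t * c = (midF rOps s t).f3) ∧
    (∃ c, HasP (fun x y => (midF rOps x y).w2) c (midF rOps s t).f5 s t ∧
      (midF rOps s t).w2 + s * c = (midF rOps s t).f2) ∧
    (∃ c, HasP (fun x y => (midF rOps x y).w3) c (midF rOps s t).f6 s t ∧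
      2 * (midF rOps s t).w3 + s * c = (midF rOps s t).f4) := by
  have hD0 := dF_PD s t hs ht
  obtain ⟨hc, hx, hy⟩ := hasP_basic s t
  obtain ⟨ps, pt, pss, pst, ptt, psss, psst, pstt, pttt⟩ := hD0
  obtain ⟨D, hD⟩ : ∃ D, D = dFr s t := ⟨_, rfl⟩
  have hm : midF rOps s t = mid rOps s t D := by rw [hD]; rfl
  rw [hm]
  have h1 := (hasP_add _ _ _ _ _ _ s t (hasP_mul _ _ _ _ _ _ s t (hc ((2 : ℕ) : ℝ)) pss)
    (hasP_mul _ _ _ _ _ _ s t hx psss)).1
  have h2 := (hasP_add _ _ _ _ _ _ s t pst (hasP_mul _ _ _ _ _ _ s t hx psst)).1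
  have h4 := (hasP_add _ _ _ _ _ _ s t (hasP_mul _ _ _ _ _ _ s t (hc ((2 : ℕ) : ℝ)) ptt)
    (hasP_mul _ _ _ _ _ _ s t hy pttt)).1
  have h5 := (hasP_add _ _ _ _ _ _ s t pst (hasP_mul _ _ _ _ _ _ s t hy pstt)).1
  rw [← hD] at h1 h2 h4 h5 pstt psst
  refine ⟨⟨3 * D.sss + s * D.ssss, hasP_mid_cg h1 ?_ ?_, ?_⟩,
    ⟨D.stt + s * D.sstt, hasP_mid_cg h2 ?_ ?_, ?_⟩,
    ⟨D.sttt, hasP_mid_cg pstt ?_ ?_, ?_⟩,
    ⟨3 * D.ttt + t * D.tttt, hasP_mid_cg h4 ?_ ?_, ?_⟩,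
    ⟨D.sst + t * D.sstt, hasP_mid_cg h5 ?_ ?_, ?_⟩,
    ⟨D.ssst, hasP_mid_cg psst ?_ ?_, ?_⟩⟩
  all_goals
    try simp only [mid, rOps]
    try push_cast
    try ring

end Pool.Agent.H320.HSC
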