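import Pool.Agent.H320.HSC.Defs

/-! Numerical part: order 3 Taylor models in fixed point arithmetic and the list of quantities to be
checked.  Everything is polymorphic in the operations, so that the same program is run on real
numbers and on Taylor models. -/

set_option autoImplicit false

open Complex
open scoped Manifold ContDiff ComplexOrder

namespace Pool.Agent.H320.HSC



theorem hasW_basic_of {F : ℂ × ℂ → ℂ} {L : ℂ × ℂ →L[ℝ] ℂ} {a₁ a₂ b₁ b₂ : ℂ} {p : ℂ × ℂ}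
    (h : HasFDerivAt F L p) (h2 : ∀ v : ℂ × ℂ, L v =
      a₁ * v.1 + a₂ * v.2 + b₁ * (starRingEnd ℂ) v.1 + b₂ * (starRingEnd ℂ) v.2) :
    HasW F a₁ a₂ b₁ b₂ p :=
  ⟨h.differentiableAt, fun v => by rw [h.fderiv]; exact h2 v⟩

theorem hasW_basic (p : ℂ × ℂ) : (∀ c : ℂ, HasW (fun _ => c) 0 0 0 0 p) ∧
    HasW (fun q => q.1) 1 0 0 0 p ∧ HasW (fun q => q.2) 0 1 0 0 p ∧
    HasW (fun q => (starRingEnd ℂ) q.1) 0 0 1 0 p ∧ HasW (fun q => (starRingEnd ℂ) q.2) 0 0 0 1 p := by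
  have h1 : HasFDerivAt (𝕜 := ℝ) (fun q : ℂ × ℂ => q.1) (ContinuousLinearMap.fst ℝ ℂ ℂ) p :=
    hasFDerivAt_fst
  have h2 : HasFDerivAt (𝕜 := ℝ) (fun q : ℂ × ℂ => q.2) (ContinuousLinearMap.snd ℝ ℂ ℂ) p :=
    hasFDerivAt_snd
  refine ⟨fun c => ?_, ?_, ?_, ?_, ?_⟩
  · refine hasW_basic_of (hasFDerivAt_const c p) fun v => ?_
    simp
  · refine hasW_basic_of h1 fun v => ?_
    simp
  · refine hasW_basic_of h2 fun v => ?_
    simp
  · have h3 : HasFDerivAt (𝕜 := ℝ) (fun q : ℂ × ℂ => (starRingEnd ℂ) q.1)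
        ((conjCLE : ℂ →L[ℝ] ℂ).comp (ContinuousLinearMap.fst ℝ ℂ ℂ)) p :=
      (conjCLE : ℂ →L[ℝ] ℂ).hasFDerivAt.comp p h1
    refine hasW_basic_of h3 fun v => ?_
    simp
  · have h3 : HasFDerivAt (𝕜 := ℝ) (fun q : ℂ × ℂ => (starRingEnd ℂ) q.2)
        ((conjCLE : ℂ →L[ℝ] ℂ).comp (ContinuousLinearMap.snd ℝ ℂ ℂ)) p :=
      (conjCLE : ℂ →L[ℝ] ℂ).hasFDerivAt.comp p h2
    refine hasW_basic_of h3 fun v => ?_
    simp

end Pool.Agent.H320.HSC
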