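import Pool.Agent.H320.HSC.Defs

/-! Numerical part: order 3 Taylor models in fixed point arithmetic and the list of quantities to be
checked.  Everything is polymorphic in the operations, so that the same program is run on real
numbers and on Taylor models. -/

set_option autoImplicit false

open Complex
open scoped Manifold ContDiff ComplexOrder

namespace Pool.Agent.H320.HSC



/-- the real derivative of `q ↦ |q.1|^2` -/
theorem hasW_comp_d1 (p : ℂ × ℂ) : HasFDerivAt (fun q : ℂ × ℂ => normSq q.1)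
    ((2 * p.1.re) • (Complex.reCLM.comp (ContinuousLinearMap.fst ℝ ℂ ℂ)) +
      (2 * p.1.im) • (Complex.imCLM.comp (ContinuousLinearMap.fst ℝ ℂ ℂ))) p := by
  have hr : HasFDerivAt (fun q : ℂ × ℂ => q.1.re)
      (Complex.reCLM.comp (ContinuousLinearMap.fst ℝ ℂ ℂ)) p :=
    (Complex.reCLM.comp (ContinuousLinearMap.fst ℝ ℂ ℂ)).hasFDerivAt
  have hi : HasFDerivAt (fun q : ℂ × ℂ => q.1.im)
      (Complex.imCLM.comp (ContinuousLinearMap.fst ℝ ℂ ℂ)) p :=
    (Complex.imCLM.comp (ContinuousLinearMap.fst ℝ ℂ ℂ)).hasFDerivAt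
  have h := (hr.mul hr).add (hi.mul hi)
  have h2 : HasFDerivAt (fun q : ℂ × ℂ => normSq q.1) _ p :=
    h.congr_of_eventuallyEq (Filter.Eventually.of_forall (fun q => Complex.normSq_apply q.1))
  refine h2.congr_fderiv ?_
  ext v
  · simp
    ring
  · simp

/-- the real derivative of `q ↦ |q.2|^2` -/
theorem hasW_comp_d2 (p : ℂ × ℂ) : HasFDerivAt (fun q : ℂ × ℂ => normSq q.2)
    ((2 * p.2.re) • (Complex.reCLM.comp (ContinuousLinearMap.snd ℝ ℂ ℂ)) +
      (2 * p.2.im) • (Complex.imCLM.comp (ContinuousLinearMap.snd ℝ ℂ ℂ))) p := by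
  have hr : HasFDerivAt (fun q : ℂ × ℂ => q.2.re)
      (Complex.reCLM.comp (ContinuousLinearMap.snd ℝ ℂ ℂ)) p :=
    (Complex.reCLM.comp (ContinuousLinearMap.snd ℝ ℂ ℂ)).hasFDerivAt
  have hi : HasFDerivAt (fun q : ℂ × ℂ => q.2.im)
      (Complex.imCLM.comp (ContinuousLinearMap.snd ℝ ℂ ℂ)) p :=
    (Complex.imCLM.comp (ContinuousLinearMap.snd ℝ ℂ ℂ)).hasFDerivAt
  have h := (hr.mul hr).add (hi.mul hi)
  have h2 : HasFDerivAt (fun q : ℂ × ℂ => normSq q.2) _ p :=
    h.congr_of_eventuallyEq (Filter.Eventually.of_forall (fun q => Complex.normSq_apply q.2))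
  refine h2.congr_fderiv ?_
  ext v
  · simp
  · simp
    ring

theorem hasW_comp (H : ℝ → ℝ → ℝ) (a b : ℝ) (p : ℂ × ℂ)
    (h : HasP H a b (normSq p.1) (normSq p.2)) :
    HasW (fun q => ((H (normSq q.1) (normSq q.2) : ℝ) : ℂ)) ((starRingEnd ℂ) p.1 * a)
      ((starRingEnd ℂ) p.2 * b) (p.1 * a) (p.2 * b) p := by
  obtain ⟨hd, hf⟩ := h
  have hN := (hasW_comp_d1 p).prodMk (hasW_comp_d2 p)
  have hG : HasFDerivAt (fun q : ℂ × ℂ => H (normSq q.1) (normSq q.2)) _ p :=
    HasFDerivAt.comp (g := fun q : ℝ × ℝ => H q.1 q.2)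
      (f := fun q : ℂ × ℂ => (normSq q.1, normSq q.2)) p hd.hasFDerivAt hN
  have hC : HasFDerivAt (fun q : ℂ × ℂ => ((H (normSq q.1) (normSq q.2) : ℝ) : ℂ)) _ p :=
    HasFDerivAt.comp (g := fun x : ℝ => (x : ℂ))
      (f := fun q : ℂ × ℂ => H (normSq q.1) (normSq q.2)) p Complex.ofRealCLM.hasFDerivAt hG
  refine ⟨hC.differentiableAt, ?_⟩
  intro v
  rw [hC.fderiv]
  simp only [ContinuousLinearMap.comp_apply, hf]
  simp only [ContinuousLinearMap.prod_apply, ContinuousLinearMap.add_apply,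
    ContinuousLinearMap.smul_apply, ContinuousLinearMap.comp_apply,
    ContinuousLinearMap.coe_fst', ContinuousLinearMap.coe_snd', Complex.reCLM_apply,
    Complex.imCLM_apply, Complex.ofRealCLM_apply, smul_eq_mul]
  apply Complex.ext
  · simp
    ring
  · simp
    ring

end Pool.Agent.H320.HSC
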