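import Pool.Agent.H320.HSC.Defs
import Pool.Agent.H320.HSC.P_hasW_basic
import Pool.Agent.H320.HSC.P_hasW_mul
import Pool.Agent.H320.HSC.P_hasW_comp
import Pool.Agent.H320.HSC.P_hasP_mid

/-! Numerical part: order 3 Taylor models in fixed point arithmetic and the list of quantities to be
checked.  Everything is polymorphic in the operations, so that the same program is run on real
numbers and on Taylor models. -/

set_option autoImplicit false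

open Complex
open scoped Manifold ContDiff ComplexOrder

namespace Pool.Agent.H320.HSC



theorem hasW2_to {F : ℂ × ℂ → ℂ} {a₁ a₂ b₁ b₂ a₁' a₂' : ℂ} {p : ℂ × ℂ} (h : HasW F a₁ a₂ b₁ b₂ p)
    (h1 : a₁ = a₁') (h2 : a₂ = a₂') : ∃ b₁ b₂, HasW F a₁' a₂' b₁ b₂ p :=
  ⟨b₁, b₂, h1 ▸ h2 ▸ h⟩

theorem hasW2 (p : ℂ × ℂ) :
    (∃ b₁ b₂, HasW (fun r => r.1 * ((mF r).u1 : ℂ)) (mF p).f1
      (p.1 * (starRingEnd ℂ) p.2 * (mF p).f4) b₁ b₂ p) ∧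
    (∃ b₁ b₂, HasW (fun r => r.2 * ((mF r).u2 : ℂ)) ((starRingEnd ℂ) p.1 * p.2 * (mF p).f4)
      (mF p).f2 b₁ b₂ p) ∧
    (∃ b₁ b₂, HasW (fun r => (starRingEnd ℂ) r.1 * r.2 ^ 2 * ((mF r).u3 : ℂ))
      ((starRingEnd ℂ) p.1 ^ 2 * p.2 ^ 2 * (mF p).f6) ((starRingEnd ℂ) p.1 * p.2 * (mF p).f5)
      b₁ b₂ p) ∧
    (∃ b₁ b₂, HasW (fun r => r.1 ^ 2 * (starRingEnd ℂ) r.2 * ((mF r).w3 : ℂ))
      (p.1 * (starRingEnd ℂ) p.2 * (mF p).f4) (p.1 ^ 2 * (starRingEnd ℂ) p.2 ^ 2 * (mF p).f6)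
      b₁ b₂ p) ∧
    (∃ b₁ b₂, HasW (fun r => r.1 * ((mF r).w2 : ℂ)) (mF p).f2
      (p.1 * (starRingEnd ℂ) p.2 * (mF p).f5) b₁ b₂ p) ∧
    (∃ b₁ b₂, HasW (fun r => r.2 * ((mF r).w1 : ℂ)) ((starRingEnd ℂ) p.1 * p.2 * (mF p).f5)
      (mF p).f3 b₁ b₂ p) := by
  obtain ⟨⟨c1, P1, e1⟩, ⟨c2, P2, e2⟩, ⟨c3, P3, e3⟩, ⟨c4, P4, e4⟩, ⟨c5, P5, e5⟩, ⟨c6, P6, e6⟩⟩ :=
    hasP_mid (normSq p.1) (normSq p.2) (normSq_nonneg _) (normSq_nonneg _)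
  obtain ⟨-, B1, B2, B3, B4⟩ := hasW_basic p
  have hs : ((normSq p.1 : ℝ) : ℂ) = p.1 * (starRingEnd ℂ) p.1 := (Complex.mul_conj _).symm
  have ht : ((normSq p.2 : ℝ) : ℂ) = p.2 * (starRingEnd ℂ) p.2 := (Complex.mul_conj _).symm
  have E1 : ((mF p).u1 : ℂ) + p.1 * (starRingEnd ℂ) p.1 * c1 = (mF p).f1 := by
    rw [← hs]; exact_mod_cast e1
  have E2 : ((mF p).u2 : ℂ) + p.2 * (starRingEnd ℂ) p.2 * c2 = (mF p).f2 := by
    rw [← ht]; exact_mod_cast e2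
  have E3 : 2 * ((mF p).u3 : ℂ) + p.2 * (starRingEnd ℂ) p.2 * c3 = (mF p).f5 := by
    rw [← ht]; exact_mod_cast e3
  have E4 : ((mF p).w1 : ℂ) + p.2 * (starRingEnd ℂ) p.2 * c4 = (mF p).f3 := by
    rw [← ht]; exact_mod_cast e4
  have E5 : ((mF p).w2 : ℂ) + p.1 * (starRingEnd ℂ) p.1 * c5 = (mF p).f2 := by
    rw [← hs]; exact_mod_cast e5
  have E6 : 2 * ((mF p).w3 : ℂ) + p.1 * (starRingEnd ℂ) p.1 * c6 = (mF p).f4 := by
    rw [← hs]; exact_mod_cast e6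
  have W1 := hasW_comp (fun x y => (midF rOps x y).u1) _ _ p P1
  have W2 := hasW_comp (fun x y => (midF rOps x y).u2) _ _ p P2
  have W3 := hasW_comp (fun x y => (midF rOps x y).u3) _ _ p P3
  have W4 := hasW_comp (fun x y => (midF rOps x y).w1) _ _ p P4
  have W5 := hasW_comp (fun x y => (midF rOps x y).w2) _ _ p P5
  have W6 := hasW_comp (fun x y => (midF rOps x y).w3) _ _ p P6
  refine ⟨?_, ?_, ?_, ?_, ?_, ?_⟩
  · refine hasW2_to (hasW_mul _ _ _ _ _ _ _ _ _ _ p B1 W1) ?_ ?_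
    · rw [← E1]; simp only [mF]; ring
    · simp only [mF]; ring
  · refine hasW2_to (hasW_mul _ _ _ _ _ _ _ _ _ _ p B2 W2) ?_ ?_
    · simp only [mF]; ring
    · rw [← E2]; simp only [mF]; ring
  · have hf : (fun r : ℂ × ℂ => (starRingEnd ℂ) r.1 * r.2 ^ 2 * ((mF r).u3 : ℂ)) =
        fun r => ((starRingEnd ℂ) r.1 * (r.2 * r.2)) * ((mF r).u3 : ℂ) := by
      funext r; ring
    rw [hf]
    refine hasW2_to (hasW_mul _ _ _ _ _ _ _ _ _ _ p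
      (hasW_mul _ _ _ _ _ _ _ _ _ _ p B3 (hasW_mul _ _ _ _ _ _ _ _ _ _ p B2 B2)) W3) ?_ ?_
    · simp only [mF]; ring
    · rw [← E3]; simp only [mF]; ring
  · have hf : (fun r : ℂ × ℂ => r.1 ^ 2 * (starRingEnd ℂ) r.2 * ((mF r).w3 : ℂ)) =
        fun r => ((starRingEnd ℂ) r.2 * (r.1 * r.1)) * ((mF r).w3 : ℂ) := by
      funext r; ring
    rw [hf]
    refine hasW2_to (hasW_mul _ _ _ _ _ _ _ _ _ _ p
      (hasW_mul _ _ _ _ _ _ _ _ _ _ p B4 (hasW_mul _ _ _ _ _ _ _ _ _ _ p B1 B1)) W6) ?_ ?_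
    · rw [← E6]; simp only [mF]; ring
    · simp only [mF]; ring
  · refine hasW2_to (hasW_mul _ _ _ _ _ _ _ _ _ _ p B1 W5) ?_ ?_
    · rw [← E5]; simp only [mF]; ring
    · simp only [mF]; ring
  · refine hasW2_to (hasW_mul _ _ _ _ _ _ _ _ _ _ p B2 W4) ?_ ?_
    · simp only [mF]; ring
    · rw [← E4]; simp only [mF]; ring

end Pool.Agent.H320.HSC
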