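import Pool.Agent.H320.HSC.Defs

/-! Numerical part: order 3 Taylor models in fixed point arithmetic and the list of quantities to be
checked.  Everything is polymorphic in the operations, so that the same program is run on real
numbers and on Taylor models. -/

set_option autoImplicit false

open Complex
open scoped Manifold ContDiff ComplexOrder

namespace Pool.Agent.H320.HSC



theorem wz_of_hasW (F : ℂ × ℂ → ℂ) (a₁ a₂ b₁ b₂ : ℂ) (p : ℂ × ℂ) (h : HasW F a₁ a₂ b₁ b₂ p)
    (v : ℂ × ℂ) : Wz v F p = a₁ * v.1 + a₂ * v.2 ∧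
      Wzb v F p = b₁ * (starRingEnd ℂ) v.1 + b₂ * (starRingEnd ℂ) v.2 := by
  have h1 := h.2 v
  have h2 := h.2 (I • v)
  have hI : I * I = -1 := I_mul_I
  have hc1 : (starRingEnd ℂ) (I * v.1) = -(I * (starRingEnd ℂ) v.1) := by
    rw [map_mul, conj_I]; ring
  have hc2 : (starRingEnd ℂ) (I * v.2) = -(I * (starRingEnd ℂ) v.2) := by
    rw [map_mul, conj_I]; ring
  have e1 : (I • v).1 = I * v.1 := rfl
  have e2 : (I • v).2 = I * v.2 := rfl
  rw [e1, e2, hc1, hc2] at h2
  constructor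
  · unfold Wz
    rw [h1, h2]
    linear_combination (-(a₁ * v.1 + a₂ * v.2) / 2
      + (b₁ * (starRingEnd ℂ) v.1 + b₂ * (starRingEnd ℂ) v.2) / 2) * hI
  · unfold Wzb
    rw [h1, h2]
    linear_combination ((a₁ * v.1 + a₂ * v.2) / 2
      - (b₁ * (starRingEnd ℂ) v.1 + b₂ * (starRingEnd ℂ) v.2) / 2) * hI

end Pool.Agent.H320.HSC
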