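import Pool.Agent.H320.HSC.Defs
import Pool.Agent.H320.HSC.P_hasW_basic
import Pool.Agent.H320.HSC.P_hasW_mul
import Pool.Agent.H320.HSC.P_hasW_comp
import Pool.Agent.H320.HSC.P_hasP_basic
import Pool.Agent.H320.HSC.P_hasP_add
import Pool.Agent.H320.HSC.P_hasP_mul
import Pool.Agent.H320.HSC.P_dF_PD

/-! Numerical part: order 3 Taylor models in fixed point arithmetic and the list of quantities to be
checked.  Everything is polymorphic in the operations, so that the same program is run on real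
numbers and on Taylor models. -/

set_option autoImplicit false

open Complex
open scoped Manifold ContDiff ComplexOrder

namespace Pool.Agent.H320.HSC



theorem hasW_Gm_congr {F G : ℂ × ℂ → ℂ} {a₁ a₂ b₁ b₂ c₁ c₂ d₁ d₂ : ℂ} {p : ℂ × ℂ}
    (h : HasW F a₁ a₂ b₁ b₂ p) (hF : ∀ q, F q = G q) (h1 : a₁ = c₁) (h2 : a₂ = c₂) (h3 : b₁ = d₁)
    (h4 : b₂ = d₂) : HasW G c₁ c₂ d₁ d₂ p := by
  have : F = G := funext hF
  subst this h1 h2 h3 h4
  exact h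

theorem hasW_Gm (p : ℂ × ℂ) :
    HasW (fun r => Gm r 0 0) ((starRingEnd ℂ) p.1 * (mF p).u1) ((starRingEnd ℂ) p.2 * (mF p).u2)
      (p.1 * (mF p).u1) (p.2 * (mF p).u2) p ∧
    HasW (fun r => Gm r 0 1) ((starRingEnd ℂ) p.1 ^ 2 * p.2 * (mF p).w3)
      ((starRingEnd ℂ) p.1 * (mF p).w2) (p.2 * (mF p).u2)
      ((starRingEnd ℂ) p.1 * p.2 ^ 2 * (mF p).u3) p ∧
    HasW (fun r => Gm r 1 0) ((starRingEnd ℂ) p.2 * (mF p).u2)
      (p.1 * (starRingEnd ℂ) p.2 ^ 2 * (mF p).u3) (p.1 ^ 2 * (starRingEnd ℂ) p.2 * (mF p).w3)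
      (p.1 * (mF p).w2) p ∧
    HasW (fun r => Gm r 1 1) ((starRingEnd ℂ) p.1 * (mF p).w2) ((starRingEnd ℂ) p.2 * (mF p).w1)
      (p.1 * (mF p).w2) (p.2 * (mF p).w1) p := by
  have hD := dF_PD (normSq p.1) (normSq p.2) (normSq_nonneg _) (normSq_nonneg _)
  obtain ⟨hb0, hb1, hb2⟩ := hasP_basic (normSq p.1) (normSq p.2)
  obtain ⟨_, w1, w2, w3, w4⟩ := hasW_basic p
  have H1 := (hasP_add _ _ _ _ _ _ _ _ hD.ps (hasP_mul _ _ _ _ _ _ _ _ hb1 hD.pss)).1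
  have H4 := (hasP_add _ _ _ _ _ _ _ _ hD.pt (hasP_mul _ _ _ _ _ _ _ _ hb2 hD.ptt)).1
  have W1 := hasW_comp _ _ _ p H1
  have W4 := hasW_comp _ _ _ p H4
  have Wst := hasW_comp _ _ _ p hD.pst
  have hu1 : (mF p).u1 = (2 : ℕ) * (dFr (normSq p.1) (normSq p.2)).ss +
    normSq p.1 * (dFr (normSq p.1) (normSq p.2)).sss := rfl
  have hu2 : (mF p).u2 = (dFr (normSq p.1) (normSq p.2)).st +
    normSq p.1 * (dFr (normSq p.1) (normSq p.2)).sst := rfl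
  have hu3 : (mF p).u3 = (dFr (normSq p.1) (normSq p.2)).stt := rfl
  have hw1 : (mF p).w1 = (2 : ℕ) * (dFr (normSq p.1) (normSq p.2)).tt +
    normSq p.2 * (dFr (normSq p.1) (normSq p.2)).ttt := rfl
  have hw2 : (mF p).w2 = (dFr (normSq p.1) (normSq p.2)).st +
    normSq p.2 * (dFr (normSq p.1) (normSq p.2)).stt := rfl
  have hw3 : (mF p).w3 = (dFr (normSq p.1) (normSq p.2)).sst := rfl
  have hn1 : ((normSq p.1 : ℝ) : ℂ) = p.1 * (starRingEnd ℂ) p.1 := (Complex.mul_conj p.1).symm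
  have hn2 : ((normSq p.2 : ℝ) : ℂ) = p.2 * (starRingEnd ℂ) p.2 := (Complex.mul_conj p.2).symm
  rw [hu1, hu2, hu3, hw1, hw2, hw3]
  generalize hDD : dFr (normSq p.1) (normSq p.2) = D at *
  refine ⟨?_, ?_, ?_, ?_⟩
  · refine hasW_Gm_congr W1 (fun q => rfl) ?_ ?_ ?_ ?_ <;> push_cast <;> ring
  · refine hasW_Gm_congr (hasW_mul _ _ _ _ _ _ _ _ _ _ p
      (hasW_mul _ _ _ _ _ _ _ _ _ _ p w3 w2) Wst) (fun q => rfl) ?_ ?_ ?_ ?_ <;>
      simp only [hDD] <;> push_cast <;> (try rw [hn1]) <;> (try rw [hn2]) <;> ring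
  · refine hasW_Gm_congr (hasW_mul _ _ _ _ _ _ _ _ _ _ p
      (hasW_mul _ _ _ _ _ _ _ _ _ _ p w1 w4) Wst) (fun q => rfl) ?_ ?_ ?_ ?_ <;>
      simp only [hDD] <;> push_cast <;> (try rw [hn1]) <;> (try rw [hn2]) <;> ring
  · refine hasW_Gm_congr W4 (fun q => rfl) ?_ ?_ ?_ ?_ <;> push_cast <;> ring

end Pool.Agent.H320.HSC
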