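import Pool.Agent.H320.HSC.Defs
import Pool.Agent.H320.HSC.P_wz_of_hasW
import Pool.Agent.H320.HSC.P_hasW_Gm

/-! Numerical part: order 3 Taylor models in fixed point arithmetic and the list of quantities to be
checked.  Everything is polymorphic in the operations, so that the same program is run on real
numbers and on Taylor models. -/

set_option autoImplicit false

open Complex
open scoped Manifold ContDiff ComplexOrder

namespace Pool.Agent.H320.HSC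



theorem wzb_tab_bas0 : bas 0 = ((1 : ℂ), (0 : ℂ)) := rfl

theorem wzb_tab_bas1 : bas 1 = ((0 : ℂ), (1 : ℂ)) := rfl

theorem wzb_tab (p : ℂ × ℂ) :
    Wzb (bas 0) (fun r => Gm r 0 0) p = p.1 * (mF p).u1 ∧
    Wzb (bas 1) (fun r => Gm r 0 0) p = p.2 * (mF p).u2 ∧
    Wzb (bas 0) (fun r => Gm r 0 1) p = p.2 * (mF p).u2 ∧
    Wzb (bas 1) (fun r => Gm r 0 1) p = (starRingEnd ℂ) p.1 * p.2 ^ 2 * (mF p).u3 ∧
    Wzb (bas 0) (fun r => Gm r 1 0) p = p.1 ^ 2 * (starRingEnd ℂ) p.2 * (mF p).w3 ∧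
    Wzb (bas 1) (fun r => Gm r 1 0) p = p.1 * (mF p).w2 ∧
    Wzb (bas 0) (fun r => Gm r 1 1) p = p.1 * (mF p).w2 ∧
    Wzb (bas 1) (fun r => Gm r 1 1) p = p.2 * (mF p).w1 := by
  obtain ⟨h00, h01, h10, h11⟩ := hasW_Gm p
  rw [wzb_tab_bas0, wzb_tab_bas1]
  have k00a := (wz_of_hasW _ _ _ _ _ p h00 ((1 : ℂ), (0 : ℂ))).2
  have k00b := (wz_of_hasW _ _ _ _ _ p h00 ((0 : ℂ), (1 : ℂ))).2
  have k01a := (wz_of_hasW _ _ _ _ _ p h01 ((1 : ℂ), (0 : ℂ))).2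
  have k01b := (wz_of_hasW _ _ _ _ _ p h01 ((0 : ℂ), (1 : ℂ))).2
  have k10a := (wz_of_hasW _ _ _ _ _ p h10 ((1 : ℂ), (0 : ℂ))).2
  have k10b := (wz_of_hasW _ _ _ _ _ p h10 ((0 : ℂ), (1 : ℂ))).2
  have k11a := (wz_of_hasW _ _ _ _ _ p h11 ((1 : ℂ), (0 : ℂ))).2
  have k11b := (wz_of_hasW _ _ _ _ _ p h11 ((0 : ℂ), (1 : ℂ))).2
  simp only [map_one, map_zero, mul_one, mul_zero, add_zero, zero_add] at k00a k00b k01a k01b k10a k10b k11a k11b
  exact ⟨k00a, k00b, k01a, k01b, k10a, k10b, k11a, k11b⟩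

end Pool.Agent.H320.HSC
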