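import Pool.Agent.H320.HSC.Defs
import Pool.Agent.H320.HSC.P_wz_of_hasW
import Pool.Agent.H320.HSC.P_hasW2
import Pool.Agent.H320.HSC.P_wzb_tab

/-! Numerical part: order 3 Taylor models in fixed point arithmetic and the list of quantities to be
checked.  Everything is polymorphic in the operations, so that the same program is run on real
numbers and on Taylor models. -/

set_option autoImplicit false

open Complex
open scoped Manifold ContDiff ComplexOrder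

namespace Pool.Agent.H320.HSC



theorem wz0_aux {F : ℂ × ℂ → ℂ} {a₁ a₂ : ℂ} {p : ℂ × ℂ} (h : ∃ b₁ b₂, HasW F a₁ a₂ b₁ b₂ p) :
    Wz (bas 0) F p = a₁ := by
  obtain ⟨b₁, b₂, h⟩ := h
  rw [(wz_of_hasW F a₁ a₂ b₁ b₂ p h (bas 0)).1]
  simp [bas]

theorem wz1_aux {F : ℂ × ℂ → ℂ} {a₁ a₂ : ℂ} {p : ℂ × ℂ} (h : ∃ b₁ b₂, HasW F a₁ a₂ b₁ b₂ p) :
    Wz (bas 1) F p = a₂ := by
  obtain ⟨b₁, b₂, h⟩ := h
  rw [(wz_of_hasW F a₁ a₂ b₁ b₂ p h (bas 1)).1]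
  simp [bas]
theorem wz2_tab (p : ℂ × ℂ) :
    (Wz (bas 0) (fun q => Wzb (bas 0) (fun r => Gm r 0 0) q) p = (mF p).f1 ∧
     Wz (bas 1) (fun q => Wzb (bas 0) (fun r => Gm r 0 0) q) p =
      p.1 * (starRingEnd ℂ) p.2 * (mF p).f4 ∧
     Wz (bas 0) (fun q => Wzb (bas 1) (fun r => Gm r 0 0) q) p =
      (starRingEnd ℂ) p.1 * p.2 * (mF p).f4 ∧
     Wz (bas 1) (fun q => Wzb (bas 1) (fun r => Gm r 0 0) q) p = (mF p).f2) ∧
    (Wz (bas 0) (fun q => Wzb (bas 0) (fun r => Gm r 0 1) q) p =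
      (starRingEnd ℂ) p.1 * p.2 * (mF p).f4 ∧
     Wz (bas 1) (fun q => Wzb (bas 0) (fun r => Gm r 0 1) q) p = (mF p).f2 ∧
     Wz (bas 0) (fun q => Wzb (bas 1) (fun r => Gm r 0 1) q) p =
      (starRingEnd ℂ) p.1 ^ 2 * p.2 ^ 2 * (mF p).f6 ∧
     Wz (bas 1) (fun q => Wzb (bas 1) (fun r => Gm r 0 1) q) p =
      (starRingEnd ℂ) p.1 * p.2 * (mF p).f5) ∧
    (Wz (bas 0) (fun q => Wzb (bas 0) (fun r => Gm r 1 0) q) p =
      p.1 * (starRingEnd ℂ) p.2 * (mF p).f4 ∧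
     Wz (bas 1) (fun q => Wzb (bas 0) (fun r => Gm r 1 0) q) p =
      p.1 ^ 2 * (starRingEnd ℂ) p.2 ^ 2 * (mF p).f6 ∧
     Wz (bas 0) (fun q => Wzb (bas 1) (fun r => Gm r 1 0) q) p = (mF p).f2 ∧
     Wz (bas 1) (fun q => Wzb (bas 1) (fun r => Gm r 1 0) q) p =
      p.1 * (starRingEnd ℂ) p.2 * (mF p).f5) ∧
    (Wz (bas 0) (fun q => Wzb (bas 0) (fun r => Gm r 1 1) q) p = (mF p).f2 ∧
     Wz (bas 1) (fun q => Wzb (bas 0) (fun r => Gm r 1 1) q) p =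
      p.1 * (starRingEnd ℂ) p.2 * (mF p).f5 ∧
     Wz (bas 0) (fun q => Wzb (bas 1) (fun r => Gm r 1 1) q) p =
      (starRingEnd ℂ) p.1 * p.2 * (mF p).f5 ∧
     Wz (bas 1) (fun q => Wzb (bas 1) (fun r => Gm r 1 1) q) p = (mF p).f3) := by
  have e1 : (fun q => Wzb (bas 0) (fun r => Gm r 0 0) q) = fun q => q.1 * ((mF q).u1 : ℂ) :=
    funext fun q => (wzb_tab q).1
  have e2 : (fun q => Wzb (bas 1) (fun r => Gm r 0 0) q) = fun q => q.2 * ((mF q).u2 : ℂ) :=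
    funext fun q => (wzb_tab q).2.1
  have e3 : (fun q => Wzb (bas 0) (fun r => Gm r 0 1) q) = fun q => q.2 * ((mF q).u2 : ℂ) :=
    funext fun q => (wzb_tab q).2.2.1
  have e4 : (fun q => Wzb (bas 1) (fun r => Gm r 0 1) q) =
      fun q => (starRingEnd ℂ) q.1 * q.2 ^ 2 * ((mF q).u3 : ℂ) :=
    funext fun q => (wzb_tab q).2.2.2.1
  have e5 : (fun q => Wzb (bas 0) (fun r => Gm r 1 0) q) =
      fun q => q.1 ^ 2 * (starRingEnd ℂ) q.2 * ((mF q).w3 : ℂ) :=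
    funext fun q => (wzb_tab q).2.2.2.2.1
  have e6 : (fun q => Wzb (bas 1) (fun r => Gm r 1 0) q) = fun q => q.1 * ((mF q).w2 : ℂ) :=
    funext fun q => (wzb_tab q).2.2.2.2.2.1
  have e7 : (fun q => Wzb (bas 0) (fun r => Gm r 1 1) q) = fun q => q.1 * ((mF q).w2 : ℂ) :=
    funext fun q => (wzb_tab q).2.2.2.2.2.2.1
  have e8 : (fun q => Wzb (bas 1) (fun r => Gm r 1 1) q) = fun q => q.2 * ((mF q).w1 : ℂ) :=
    funext fun q => (wzb_tab q).2.2.2.2.2.2.2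
  rw [e1, e2, e3, e4, e5, e6, e7, e8]
  obtain ⟨h1, h2, h3, h4, h5, h6⟩ := hasW2 p
  exact ⟨⟨wz0_aux h1, wz1_aux h1, wz0_aux h2, wz1_aux h2⟩,
    ⟨wz0_aux h2, wz1_aux h2, wz0_aux h3, wz1_aux h3⟩,
    ⟨wz0_aux h4, wz1_aux h4, wz0_aux h5, wz1_aux h5⟩,
    ⟨wz0_aux h5, wz1_aux h5, wz0_aux h6, wz1_aux h6⟩⟩

end Pool.Agent.H320.HSC
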