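import Pool.Agent.H320.HSC.Defs
import Pool.Agent.H320.HSC.P_wz_of_hasW
import Pool.Agent.H320.HSC.P_hasW_Gm

/-! Numerical part: order 3 Taylor models in fixed point arithmetic and the list of quantities to be
checked.  Everything is polymorphic in the operations, so that the same program is run on real
numbers and on Taylor models. -/

set_option autoImplicit false

open Complex
open scoped Manifold ContDiff ComplexOrder

namespace Pool.Agent.H320.HSC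



theorem j27168_a (F : ℂ × ℂ → ℂ) (a₁ a₂ b₁ b₂ : ℂ) (p : ℂ × ℂ) (h : HasW F a₁ a₂ b₁ b₂ p) :
    Wz (bas 0) F p = a₁ ∧ Wz (bas 1) F p = a₂ := by
  refine ⟨(wz_of_hasW F a₁ a₂ b₁ b₂ p h (bas 0)).1.trans ?_,
    (wz_of_hasW F a₁ a₂ b₁ b₂ p h (bas 1)).1.trans ?_⟩
  · simp [bas]
  · simp [bas]

theorem wz_tab (p : ℂ × ℂ) :
    Wz (bas 0) (fun r => Gm r 0 0) p = (starRingEnd ℂ) p.1 * (mF p).u1 ∧
    Wz (bas 1) (fun r => Gm r 0 0) p = (starRingEnd ℂ) p.2 * (mF p).u2 ∧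
    Wz (bas 0) (fun r => Gm r 0 1) p = (starRingEnd ℂ) p.1 ^ 2 * p.2 * (mF p).w3 ∧
    Wz (bas 1) (fun r => Gm r 0 1) p = (starRingEnd ℂ) p.1 * (mF p).w2 ∧
    Wz (bas 0) (fun r => Gm r 1 0) p = (starRingEnd ℂ) p.2 * (mF p).u2 ∧
    Wz (bas 1) (fun r => Gm r 1 0) p = p.1 * (starRingEnd ℂ) p.2 ^ 2 * (mF p).u3 ∧
    Wz (bas 0) (fun r => Gm r 1 1) p = (starRingEnd ℂ) p.1 * (mF p).w2 ∧
    Wz (bas 1) (fun r => Gm r 1 1) p = (starRingEnd ℂ) p.2 * (mF p).w1 := by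
  obtain ⟨h1, h2, h3, h4⟩ := hasW_Gm p
  exact ⟨(j27168_a _ _ _ _ _ _ h1).1, (j27168_a _ _ _ _ _ _ h1).2,
    (j27168_a _ _ _ _ _ _ h2).1, (j27168_a _ _ _ _ _ _ h2).2,
    (j27168_a _ _ _ _ _ _ h3).1, (j27168_a _ _ _ _ _ _ h3).2,
    (j27168_a _ _ _ _ _ _ h4).1, (j27168_a _ _ _ _ _ _ h4).2⟩

end Pool.Agent.H320.HSC
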