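import Pool.Agent.H320.HSC.Defs
import Pool.Agent.H320.HSC.P_wz_tab
import Pool.Agent.H320.HSC.P_wzb_tab
import Pool.Agent.H320.HSC.P_wz2_tab
import Pool.Agent.H320.HSC.P_dt_pos
import Pool.Agent.H320.HSC.P_inv_Gm
import Pool.Agent.H320.HSC.P_alg_id

/-! Numerical part: order 3 Taylor models in fixed point arithmetic and the list of quantities to be
checked.  Everything is polymorphic in the operations, so that the same program is run on real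
numbers and on Taylor models. -/

set_option autoImplicit false

open Complex
open scoped Manifold ContDiff ComplexOrder

namespace Pool.Agent.H320.HSC



theorem hsc_formula (p v : ℂ × ℂ) :
    hsc Gm p v = ((qform (q6F rOps (normSq p.1) (normSq p.2)) (normSq v.1) (normSq v.2)
        (2 * ((starRingEnd ℂ) p.1 * v.1 * (p.2 * (starRingEnd ℂ) v.2)).re) / (mF p).dt : ℝ) : ℂ) /
      (pair (Gm p) v v) ^ 2 := by
  have hdt0 : (mF p).dt ≠ 0 := (dt_pos _ _ (normSq_nonneg p.1) (normSq_nonneg p.2)).1.ne'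
  have hdt : ((mF p).dt : ℂ) ≠ 0 := by exact_mod_cast hdt0
  have hm : (mF p).st = normSq p.1 * normSq p.2 := rfl
  have halg := alg_id p.1 p.2 v.1 v.2 (mF p) hm
  obtain ⟨a1, a2, a3, a4, a5, a6, a7, a8⟩ := wz_tab p
  obtain ⟨b1, b2, b3, b4, b5, b6, b7, b8⟩ := wzb_tab p
  obtain ⟨⟨c1, c2, c3, c4⟩, ⟨c5, c6, c7, c8⟩, ⟨c9, c10, c11, c12⟩, ⟨c13, c14, c15, c16⟩⟩ := wz2_tab p
  obtain ⟨d1, d2, d3, d4⟩ := inv_Gm p
  have hq : q6F rOps (normSq p.1) (normSq p.2) = q6 rOps (normSq p.1) (normSq p.2) (mF p) := rfl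
  rw [hq, Complex.ofReal_div]
  unfold hsc
  congr 1
  rw [← halg]
  rw [eq_div_iff hdt]
  have hv0 : comp v 0 = v.1 := rfl
  have hv1 : comp v 1 = v.2 := rfl
  have hD : ((mF p).dt : ℂ) * ((mF p).dt : ℂ)⁻¹ = 1 := mul_inv_cancel₀ hdt
  simp only [div_eq_mul_inv] at d1 d2 d3 d4
  simp only [Fin.sum_univ_two, curvT, hv0, hv1, a1, a2, a3, a4, a5, a6, a7, a8,
    b1, b2, b3, b4, b5, b6, b7, b8, c1, c2, c3, c4, c5, c6, c7, c8, c9, c10, c11, c12, c13, c14,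
    c15, c16, d1, d2, d3, d4]
  clear a1 a2 a3 a4 a5 a6 a7 a8 b1 b2 b3 b4 b5 b6 b7 b8 c1 c2 c3 c4 c5 c6 c7 c8 c9 c10 c11 c12 c13
    c14 c15 c16 d1 d2 d3 d4 halg hq hv0 hv1 hm
  generalize ((mF p).dt : ℂ)⁻¹ = D at *
  generalize ((mF p).dt : ℂ) = dt at *
  generalize ((mF p).u1 : ℂ) = u1 at *
  generalize ((mF p).u2 : ℂ) = u2 at *
  generalize ((mF p).u3 : ℂ) = u3 at *
  generalize ((mF p).w1 : ℂ) = w1 at *
  generalize ((mF p).w2 : ℂ) = w2 at *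
  generalize ((mF p).w3 : ℂ) = w3 at *
  generalize ((mF p).f1 : ℂ) = f1 at *
  generalize ((mF p).f2 : ℂ) = f2 at *
  generalize ((mF p).f3 : ℂ) = f3 at *
  generalize ((mF p).f4 : ℂ) = f4 at *
  generalize ((mF p).f5 : ℂ) = f5 at *
  generalize ((mF p).f6 : ℂ) = f6 at *
  generalize ((mF p).g11 : ℂ) = g11 at *
  generalize ((mF p).g22 : ℂ) = g22 at *
  generalize ((mF p).g12 : ℂ) = g12 at *
  generalize (starRingEnd ℂ) p.1 = A1 at *
  generalize (starRingEnd ℂ) p.2 = A2 at *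
  generalize (starRingEnd ℂ) v.1 = V1 at *
  generalize (starRingEnd ℂ) v.2 = V2 at *
  generalize p.1 = a1 at *
  generalize p.2 = a2 at *
  generalize v.1 = v1 at *
  generalize v.2 = v2 at *
  linear_combination (g22 * ((A1 * u1 * v1 ^ 2 + 2 * (A2 * u2 * (v1 * v2))
        + a1 * A2 ^ 2 * u3 * v2 ^ 2) *
       (a1 * u1 * V1 ^ 2
        + 2 * (a2 * u2 * (V1 * V2))
        + A1 * a2 ^ 2 * u3 * V2 ^ 2))
    + g11 *
      ((A1 ^ 2 * a2 * w3 * v1 ^ 2 + 2 * (A1 * w2 * (v1 * v2))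
        + A2 * w1 * v2 ^ 2) *
       (a1 ^ 2 * A2 * w3 * V1 ^ 2
        + 2 * (a1 * w2 * (V1 * V2))
        + a2 * w1 * V2 ^ 2))
    - (A1 * a2 * g12) *
      ((A1 * u1 * v1 ^ 2 + 2 * (A2 * u2 * (v1 * v2))
        + a1 * A2 ^ 2 * u3 * v2 ^ 2) *
       (a1 ^ 2 * A2 * w3 * V1 ^ 2
        + 2 * (a1 * w2 * (V1 * V2))
        + a2 * w1 * V2 ^ 2))
    - (a1 * A2 * g12) *
      ((A1 ^ 2 * a2 * w3 * v1 ^ 2 + 2 * (A1 * w2 * (v1 * v2))
        + A2 * w1 * v2 ^ 2) *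
       (a1 * u1 * V1 ^ 2
        + 2 * (a2 * u2 * (V1 * V2))
        + A1 * a2 ^ 2 * u3 * V2 ^ 2))) * hD

end Pool.Agent.H320.HSC
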