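import Pool.Agent.H320.HSC.Defs
import Pool.Agent.H320.HSC.P_dt_pos

/-! Numerical part: order 3 Taylor models in fixed point arithmetic and the list of quantities to be
checked.  Everything is polymorphic in the operations, so that the same program is run on real
numbers and on Taylor models. -/

set_option autoImplicit false

open Complex
open scoped Manifold ContDiff ComplexOrder

namespace Pool.Agent.H320.HSC



theorem posDef_Gm_aux (a d : ℝ) (b : ℂ) (ha : 0 < a) (hdet : 0 < a * d - normSq b) :
    (!![(a : ℂ), b; (starRingEnd ℂ) b, (d : ℂ)] : Matrix (Fin 2) (Fin 2) ℂ).PosDef := by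
  refine Matrix.PosDef.of_dotProduct_mulVec_pos ?_ ?_
  · apply Matrix.IsHermitian.ext
    intro i j
    fin_cases i <;> fin_cases j <;> simp
  · intro x hx
    have hq : dotProduct (star x) (Matrix.mulVec (!![(a : ℂ), b; (starRingEnd ℂ) b, (d : ℂ)] : Matrix (Fin 2) (Fin 2) ℂ) x)
        = ((a * normSq (x 0) + 2 * ((starRingEnd ℂ) (x 0) * b * x 1).re + d * normSq (x 1) : ℝ) : ℂ) := by
      apply Complex.ext
      · simp [Matrix.mulVec, dotProduct, Fin.sum_univ_two, normSq_apply]; ring
      · simp [Matrix.mulVec, dotProduct, Fin.sum_univ_two]; ring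
    rw [hq]
    have key : a * (a * normSq (x 0) + 2 * ((starRingEnd ℂ) (x 0) * b * x 1).re + d * normSq (x 1)) =
        normSq ((a : ℂ) * x 0 + b * x 1) + (a * d - normSq b) * normSq (x 1) := by
      simp [normSq_apply]; ring
    have hpos : 0 < a * normSq (x 0) + 2 * ((starRingEnd ℂ) (x 0) * b * x 1).re + d * normSq (x 1) := by
      refine pos_of_mul_pos_right (a := a) ?_ ha.le
      rw [key]
      by_cases h1 : x 1 = 0
      · have h0 : x 0 ≠ 0 := by
          intro h0
          apply hx
          funext i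
          fin_cases i
          · exact h0
          · exact h1
        rw [h1]
        simp only [mul_zero, add_zero, map_zero]
        exact normSq_pos.2 (mul_ne_zero (by exact_mod_cast ha.ne') h0)
      · have := mul_pos hdet (normSq_pos.2 h1)
        have := normSq_nonneg ((a : ℂ) * x 0 + b * x 1)
        linarith
    exact_mod_cast hpos

theorem posDef_Gm (p : ℂ × ℂ) : (Gm p).PosDef := by
  obtain ⟨h1, h2⟩ := dt_pos (normSq p.1) (normSq p.2) (normSq_nonneg _) (normSq_nonneg _)
  have h := posDef_Gm_aux ((dFp p).s + normSq p.1 * (dFp p).ss) ((dFp p).t + normSq p.2 * (dFp p).tt)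
    ((starRingEnd ℂ) p.1 * p.2 * ((dFp p).st : ℂ)) h2 (by
      have e : normSq ((starRingEnd ℂ) p.1 * p.2 * ((dFp p).st : ℂ)) =
          (normSq p.1 * normSq p.2) * ((dFp p).st * (dFp p).st) := by
        rw [map_mul, map_mul, normSq_conj, normSq_ofReal]
      rw [e]
      exact h1)
  have e2 : Gm p = !![(((dFp p).s + normSq p.1 * (dFp p).ss : ℝ) : ℂ),
      (starRingEnd ℂ) p.1 * p.2 * ((dFp p).st : ℂ);
      (starRingEnd ℂ) ((starRingEnd ℂ) p.1 * p.2 * ((dFp p).st : ℂ)),
      (((dFp p).t + normSq p.2 * (dFp p).tt : ℝ) : ℂ)] := by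
    unfold Gm mat
    congr 1
    simp
  rw [e2]
  exact h

end Pool.Agent.H320.HSC
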