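import Pool.Agent.H320.HSC.Defs

/-! Numerical part: order 3 Taylor models in fixed point arithmetic and the list of quantities to be
checked.  Everything is polymorphic in the operations, so that the same program is run on real
numbers and on Taylor models. -/

set_option autoImplicit false

open Complex
open scoped Manifold ContDiff ComplexOrder

namespace Pool.Agent.H320.HSC



theorem qform_pos (q : Q6 ℝ) (h1 : 0 < q.al) (h2 : 0 < m2 rOps q) (h3 : 0 < det4 rOps q)
    (X Y W : ℝ) (h : ¬ (X = 0 ∧ Y = 0)) : 0 < qform q X Y W := by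
  obtain ⟨al, be, ga, de, ep, ze⟩ := q
  have e2 : m2 rOps ⟨al, be, ga, de, ep, ze⟩ = 4 * (al * ga) - be * be := by
    simp [m2, rOps]
  have e3 : det4 rOps ⟨al, be, ga, de, ep, ze⟩ = ze * (4 * (al * ga) - be * be) +
      be * (de * ep) - (al * (ep * ep) + ga * (de * de)) := by
    simp [det4, m2, rOps]
  rw [e2] at h2
  rw [e3] at h3
  unfold qform
  simp only at h1 ⊢
  set m : ℝ := 4 * (al * ga) - be * be with hm
  set D : ℝ := ze * m + be * (de * ep) - (al * (ep * ep) + ga * (de * de)) with hD
  have key : 4 * al * m * (al * X ^ 2 + be * (X * Y) + ga * Y ^ 2 + de * (X * W) + ep * (Y * W) +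
      ze * W ^ 2) = m * (2 * al * X + be * Y + de * W) ^ 2 +
        (m * Y + (2 * al * ep - be * de) * W) ^ 2 + 4 * al * D * W ^ 2 := by
    rw [hD, hm]
    ring
  have hpos : 0 < m * (2 * al * X + be * Y + de * W) ^ 2 +
        (m * Y + (2 * al * ep - be * de) * W) ^ 2 + 4 * al * D * W ^ 2 := by
    have t1 : 0 ≤ m * (2 * al * X + be * Y + de * W) ^ 2 := by positivity
    have t2 : 0 ≤ (m * Y + (2 * al * ep - be * de) * W) ^ 2 := by positivity
    have t3 : 0 ≤ 4 * al * D * W ^ 2 := by positivity
    by_cases hW : W = 0
    · by_cases hY : Y = 0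
      · have hX : X ≠ 0 := fun hX => h ⟨hX, hY⟩
        have t4 : 0 < m * (2 * al * X + be * Y + de * W) ^ 2 := by
          have : 2 * al * X + be * Y + de * W ≠ 0 := by
            rw [hW, hY, mul_zero, mul_zero, add_zero, add_zero]
            exact mul_ne_zero (by positivity) hX
          positivity
        linarith
      · have t4 : 0 < (m * Y + (2 * al * ep - be * de) * W) ^ 2 := by
          have : m * Y + (2 * al * ep - be * de) * W ≠ 0 := by
            rw [hW, mul_zero, add_zero]
            exact mul_ne_zero h2.ne' hY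
          positivity
        linarith
    · have t4 : 0 < 4 * al * D * W ^ 2 := by positivity
      linarith
  rw [← key] at hpos
  exact pos_of_mul_pos_right hpos (by positivity)

end Pool.Agent.H320.HSC
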