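import Pool.Agent.H320.HSC.Defs
import Pool.Agent.H320.HSC.P_qform_pos
import Pool.Agent.H320.HSC.P_posDef_Gm
import Pool.Agent.H320.HSC.P_hsc_formula

/-! Numerical part: order 3 Taylor models in fixed point arithmetic and the list of quantities to be
checked.  Everything is polymorphic in the operations, so that the same program is run on real
numbers and on Taylor models. -/

set_option autoImplicit false

open Complex
open scoped Manifold ContDiff ComplexOrder

namespace Pool.Agent.H320.HSC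



theorem hsc_pos_pair (p v : ℂ × ℂ) (hv : v ≠ 0) : ∃ r : ℝ, 0 < r ∧ pair (Gm p) v v = (r : ℂ) := by
  have hx : star (comp v) ≠ 0 := by
    intro h
    apply hv
    have h1 := congrFun h 0
    have h2 := congrFun h 1
    simp [comp] at h1 h2
    exact Prod.ext h1 h2
  have h1 := (posDef_Gm p).dotProduct_mulVec_pos hx
  have h2 : pair (Gm p) v v = star (star (comp v)) ⬝ᵥ (Matrix.mulVec (Gm p) (star (comp v))) := by
    unfold pair
    simp only [dotProduct, Matrix.mulVec, star_star, Finset.mul_sum, Pi.star_apply]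
    refine Finset.sum_congr rfl fun i _ => Finset.sum_congr rfl fun j _ => ?_
    rw [Complex.star_def]
    ring
  rw [← h2] at h1
  rw [Complex.lt_def] at h1
  refine ⟨(pair (Gm p) v v).re, h1.1, ?_⟩
  apply Complex.ext
  · simp
  · simpa using h1.2.symm

theorem hsc_pos (p v : ℂ × ℂ) (hv : v ≠ 0) (hg : Good (normSq p.1) (normSq p.2)) :
    ∃ r : ℝ, 0 < r ∧ hsc Gm p v = (r : ℂ) := by
  obtain ⟨r, hr, hp⟩ := hsc_pos_pair p v hv
  have hne : ¬ (normSq v.1 = 0 ∧ normSq v.2 = 0) := by
    rintro ⟨h1, h2⟩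
    exact hv (Prod.ext (Complex.normSq_eq_zero.1 h1) (Complex.normSq_eq_zero.1 h2))
  have hq := qform_pos _ hg.2.1 hg.2.2.1 hg.2.2.2 (normSq v.1) (normSq v.2)
    (2 * ((starRingEnd ℂ) p.1 * v.1 * (p.2 * (starRingEnd ℂ) v.2)).re) hne
  refine ⟨_, div_pos (div_pos hq hg.1) (pow_pos hr 2), ?_⟩
  rw [hsc_formula, hp]
  push_cast
  rfl

end Pool.Agent.H320.HSC
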