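import Pool.Agent.H320.HSC.Defs

/-! Numerical part: order 3 Taylor models in fixed point arithmetic and the list of quantities to be
checked.  Everything is polymorphic in the operations, so that the same program is run on real
numbers and on Taylor models. -/

set_option autoImplicit false

open Complex
open scoped Manifold ContDiff ComplexOrder

namespace Pool.Agent.H320.HSC



theorem smooth_Gm_s {s t : ℂ × ℂ → ℝ} (hs : ContDiff ℝ ∞ s) (ht : ContDiff ℝ ∞ t)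
    (hs0 : ∀ p, 0 ≤ s p) (ht0 : ∀ p, 0 ≤ t p) :
    ContDiff ℝ ∞ (fun p => (dF rOps (s p) (t p)).s) := by
  simp only [dF, comb, dL1, dL2, dQ, dP, dQ', dP', cum, pQ, pQs, pQt, pQss, pQst, pQtt, rOps]
  fun_prop (disch := (intro x; have h1 := hs0 x; have h2 := ht0 x; positivity))

theorem smooth_Gm_t {s t : ℂ × ℂ → ℝ} (hs : ContDiff ℝ ∞ s) (ht : ContDiff ℝ ∞ t)
    (hs0 : ∀ p, 0 ≤ s p) (ht0 : ∀ p, 0 ≤ t p) :
    ContDiff ℝ ∞ (fun p => (dF rOps (s p) (t p)).t) := by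
  simp only [dF, comb, dL1, dL2, dQ, dP, dQ', dP', cum, pQ, pQs, pQt, pQss, pQst, pQtt, rOps]
  fun_prop (disch := (intro x; have h1 := hs0 x; have h2 := ht0 x; positivity))

theorem smooth_Gm_ss {s t : ℂ × ℂ → ℝ} (hs : ContDiff ℝ ∞ s) (ht : ContDiff ℝ ∞ t)
    (hs0 : ∀ p, 0 ≤ s p) (ht0 : ∀ p, 0 ≤ t p) :
    ContDiff ℝ ∞ (fun p => (dF rOps (s p) (t p)).ss) := by
  simp only [dF, comb, dL1, dL2, dQ, dP, dQ', dP', cum, pQ, pQs, pQt, pQss, pQst, pQtt, rOps]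
  fun_prop (disch := (intro x; have h1 := hs0 x; have h2 := ht0 x; positivity))

theorem smooth_Gm_st {s t : ℂ × ℂ → ℝ} (hs : ContDiff ℝ ∞ s) (ht : ContDiff ℝ ∞ t)
    (hs0 : ∀ p, 0 ≤ s p) (ht0 : ∀ p, 0 ≤ t p) :
    ContDiff ℝ ∞ (fun p => (dF rOps (s p) (t p)).st) := by
  simp only [dF, comb, dL1, dL2, dQ, dP, dQ', dP', cum, pQ, pQs, pQt, pQss, pQst, pQtt, rOps]
  fun_prop (disch := (intro x; have h1 := hs0 x; have h2 := ht0 x; positivity))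

theorem smooth_Gm_tt {s t : ℂ × ℂ → ℝ} (hs : ContDiff ℝ ∞ s) (ht : ContDiff ℝ ∞ t)
    (hs0 : ∀ p, 0 ≤ s p) (ht0 : ∀ p, 0 ≤ t p) :
    ContDiff ℝ ∞ (fun p => (dF rOps (s p) (t p)).tt) := by
  simp only [dF, comb, dL1, dL2, dQ, dP, dQ', dP', cum, pQ, pQs, pQt, pQss, pQst, pQtt, rOps]
  fun_prop (disch := (intro x; have h1 := hs0 x; have h2 := ht0 x; positivity))

theorem smooth_Gm_normSq : ContDiff ℝ ∞ (fun z : ℂ => normSq z) := by
  have : (fun z : ℂ => normSq z) = fun z => reCLM z * reCLM z + imCLM z * imCLM z := by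
    funext z
    rw [normSq_apply]
    rfl
  rw [this]
  exact (reCLM.contDiff.mul reCLM.contDiff).add (imCLM.contDiff.mul imCLM.contDiff)

theorem smooth_Gm (i j : Fin 2) : ContDiff ℝ ∞ (fun p => Gm p i j) := by
  have h1 : ContDiff ℝ ∞ (fun p : ℂ × ℂ => normSq p.1) := smooth_Gm_normSq.comp contDiff_fst
  have h2 : ContDiff ℝ ∞ (fun p : ℂ × ℂ => normSq p.2) := smooth_Gm_normSq.comp contDiff_snd
  have p1 : ∀ p : ℂ × ℂ, 0 ≤ normSq p.1 := fun p => normSq_nonneg _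
  have p2 : ∀ p : ℂ × ℂ, 0 ≤ normSq p.2 := fun p => normSq_nonneg _
  have fs : ContDiff ℝ ∞ (fun p : ℂ × ℂ => (dFp p).s) := smooth_Gm_s h1 h2 p1 p2
  have ft : ContDiff ℝ ∞ (fun p : ℂ × ℂ => (dFp p).t) := smooth_Gm_t h1 h2 p1 p2
  have fss : ContDiff ℝ ∞ (fun p : ℂ × ℂ => (dFp p).ss) := smooth_Gm_ss h1 h2 p1 p2
  have fst : ContDiff ℝ ∞ (fun p : ℂ × ℂ => (dFp p).st) := smooth_Gm_st h1 h2 p1 p2
  have ftt : ContDiff ℝ ∞ (fun p : ℂ × ℂ => (dFp p).tt) := smooth_Gm_tt h1 h2 p1 p2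
  have fstC : ContDiff ℝ ∞ (fun p : ℂ × ℂ => ((dFp p).st : ℂ)) :=
    ofRealCLM.contDiff.comp fst
  have c1 : ContDiff ℝ ∞ (fun p : ℂ × ℂ => (starRingEnd ℂ) p.1) :=
    conjCLE.contDiff.comp contDiff_fst
  have c2 : ContDiff ℝ ∞ (fun p : ℂ × ℂ => (starRingEnd ℂ) p.2) :=
    conjCLE.contDiff.comp contDiff_snd
  fin_cases i <;> fin_cases j
  · show ContDiff ℝ ∞ (fun p : ℂ × ℂ => (((dFp p).s + normSq p.1 * (dFp p).ss : ℝ) : ℂ))
    exact ofRealCLM.contDiff.comp (fs.add (h1.mul fss))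
  · show ContDiff ℝ ∞ (fun p : ℂ × ℂ => (starRingEnd ℂ) p.1 * p.2 * ((dFp p).st : ℂ))
    exact (c1.mul contDiff_snd).mul fstC
  · show ContDiff ℝ ∞ (fun p : ℂ × ℂ => p.1 * (starRingEnd ℂ) p.2 * ((dFp p).st : ℂ))
    exact (contDiff_fst.mul c2).mul fstC
  · show ContDiff ℝ ∞ (fun p : ℂ × ℂ => (((dFp p).t + normSq p.2 * (dFp p).tt : ℝ) : ℂ))
    exact ofRealCLM.contDiff.comp (ft.add (h2.mul ftt))

end Pool.Agent.H320.HSC
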