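import Pool.Agent.H320.HSC.Chart
import Pool.Agent.H320.HSC.P_hsc_pos
import Pool.Agent.H320.HSC.P_smooth_Gm
import Pool.Agent.H320.HSC.P_compat_TT
import Pool.Agent.H320.HSC.P_wz_tab
set_option autoImplicit false
open Complex
open scoped Manifold ContDiff ComplexOrder
namespace Pool.Agent.H320.HSC

/-- the Kähler metric on the surface -/
noncomputable def KX : KahlerMetric XS where
  g := fun _ => Gm
  smooth := fun _ _ i j => (smooth_Gm i j).contDiffOn
  posDef := fun _ _ p _ => posDef_Gm p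
  kahler := by
    intro e _ p _ i j k
    obtain ⟨h1, h2, h3, h4, h5, h6, h7, h8⟩ := wz_tab p
    fin_cases i <;> fin_cases j <;> fin_cases k <;>
      first
      | rfl
      | exact h5.trans h2.symm
      | exact h2.trans h5.symm
      | exact h7.trans h4.symm
      | exact h4.trans h7.symm
  compat := by
    rintro e ⟨i, rfl⟩ e' ⟨j, rfl⟩ p hp v w
    have hs := trans_source i j
    have hp' : p ∈ TD (j - i) := by rw [← hs]; exact hp
    have h1 : ((E i).symm.trans (E j)) p = TT (j - i) p := trans_apply i j p hp'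
    have h2 : (((E i).symm.trans (E j)) : ℂ × ℂ → ℂ × ℂ) =ᶠ[nhds p] TT (j - i) := by
      filter_upwards [(open_TD (j - i)).mem_nhds hp'] with q hq
      exact trans_apply i j q hq
    rw [h1, h2.fderiv_eq]
    exact (compat_TT (j - i) p hp').2 v w

theorem pos_KX (hg : ∀ s t : ℝ, 0 ≤ s → s ≤ 1 → 0 ≤ t → t ≤ 1 → Good s t) : PositiveHSC KX := by
  intro x v hv
  obtain ⟨h1, h2⟩ := chartAt_le x
  have key : ∀ z : ℂ, ‖z‖ ≤ 1 → normSq z ≤ 1 := by
    intro z hz
    rw [Complex.normSq_eq_norm_sq]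
    nlinarith [norm_nonneg z]
  exact hsc_pos _ v hv (hg _ _ (normSq_nonneg _) (key _ h1) (normSq_nonneg _) (key _ h2))

end Pool.Agent.H320.HSC
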