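import Pool.Agent.H320.HSC.Nbase
set_option autoImplicit false
set_option maxRecDepth 100000
namespace Pool.Agent.H320.HSC

theorem c_384_128_640_128 : chkB 384 128 640 128 = true := by decide +kernel
theorem c_640_128_640_128 : chkB 640 128 640 128 = true := by decide +kernel
theorem c_896_128_640_128 : chkB 896 128 640 128 = true := by decide +kernel
theorem c_640_128_896_128 : chkB 640 128 896 128 = true := by decide +kernel
theorem c_896_128_896_128 : chkB 896 128 896 128 = true := by decide +kernel
theorem c_1152_128_64_64 : chkB 1152 128 64 64 = true := by decide +kernel
theorem c_1152_128_192_64 : chkB 1152 128 192 64 = true := by decide +kernel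
theorem c_1408_128_64_64 : chkB 1408 128 64 64 = true := by decide +kernel
theorem c_1408_128_192_64 : chkB 1408 128 192 64 = true := by decide +kernel
theorem c_1152_128_384_128 : chkB 1152 128 384 128 = true := by decide +kernel
theorem c_1408_128_384_128 : chkB 1408 128 384 128 = true := by decide +kernel
theorem c_1664_128_64_64 : chkB 1664 128 64 64 = true := by decide +kernel

end Pool.Agent.H320.HSC
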