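import Pool.Agent.H320.HSC.Nbase
set_option autoImplicit false
set_option maxRecDepth 100000
namespace Pool.Agent.H320.HSC

theorem c_3456_128_64_64 : chkB 3456 128 64 64 = true := by decide +kernel
theorem c_3456_128_192_64 : chkB 3456 128 192 64 = true := by decide +kernel
theorem c_3200_128_384_128 : chkB 3200 128 384 128 = true := by decide +kernel
theorem c_3456_128_384_128 : chkB 3456 128 384 128 = true := by decide +kernel
theorem c_3712_128_64_64 : chkB 3712 128 64 64 = true := by decide +kernel
theorem c_3712_128_192_64 : chkB 3712 128 192 64 = true := by decide +kernel
theorem c_3968_128_64_64 : chkB 3968 128 64 64 = true := by decide +kernel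
theorem c_3968_128_192_64 : chkB 3968 128 192 64 = true := by decide +kernel
theorem c_3712_128_320_64 : chkB 3712 128 320 64 = true := by decide +kernel
theorem c_3712_128_448_64 : chkB 3712 128 448 64 = true := by decide +kernel
theorem c_3968_128_320_64 : chkB 3968 128 320 64 = true := by decide +kernel
theorem c_3968_128_448_64 : chkB 3968 128 448 64 = true := by decide +kernel

end Pool.Agent.H320.HSC
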