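import Pool.Agent.H320.HSC.Nbase
set_option autoImplicit false
set_option maxRecDepth 100000
namespace Pool.Agent.H320.HSC

theorem c_3200_128_640_128 : chkB 3200 128 640 128 = true := by decide +kernel
theorem c_3456_128_640_128 : chkB 3456 128 640 128 = true := by decide +kernel
theorem c_3328_256_896_128 : chkB 3328 256 896 128 = true := by decide +kernel
theorem c_3712_128_640_128 : chkB 3712 128 640 128 = true := by decide +kernel
theorem c_3968_128_640_128 : chkB 3968 128 640 128 = true := by decide +kernel
theorem c_3840_256_896_128 : chkB 3840 256 896 128 = true := by decide +kernel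
theorem c_2304_256_1152_128 : chkB 2304 256 1152 128 = true := by decide +kernel
theorem c_2304_256_1408_128 : chkB 2304 256 1408 128 = true := by decide +kernel
theorem c_2816_256_1152_128 : chkB 2816 256 1152 128 = true := by decide +kernel
theorem c_2816_256_1408_128 : chkB 2816 256 1408 128 = true := by decide +kernel
theorem c_2304_256_1664_128 : chkB 2304 256 1664 128 = true := by decide +kernel
theorem c_2304_256_1920_128 : chkB 2304 256 1920 128 = true := by decide +kernel

end Pool.Agent.H320.HSC
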