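import Pool.Agent.H320.HSC.Nbase
set_option autoImplicit false
set_option maxRecDepth 100000
namespace Pool.Agent.H320.HSC

theorem c_4992_128_320_64 : chkB 4992 128 320 64 = true := by decide +kernel
theorem c_4992_128_448_64 : chkB 4992 128 448 64 = true := by decide +kernel
theorem c_4224_128_640_128 : chkB 4224 128 640 128 = true := by decide +kernel
theorem c_4480_128_640_128 : chkB 4480 128 640 128 = true := by decide +kernel
theorem c_4352_256_896_128 : chkB 4352 256 896 128 = true := by decide +kernel
theorem c_4736_128_640_128 : chkB 4736 128 640 128 = true := by decide +kernel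
theorem c_4992_128_640_128 : chkB 4992 128 640 128 = true := by decide +kernel
theorem c_4864_256_896_128 : chkB 4864 256 896 128 = true := by decide +kernel
theorem c_5248_128_64_64 : chkB 5248 128 64 64 = true := by decide +kernel
theorem c_5248_128_192_64 : chkB 5248 128 192 64 = true := by decide +kernel
theorem c_5504_128_64_64 : chkB 5504 128 64 64 = true := by decide +kernel
theorem c_5504_128_192_64 : chkB 5504 128 192 64 = true := by decide +kernel

end Pool.Agent.H320.HSC
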