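import Pool.Agent.H320.HSC.Nbase
set_option autoImplicit false
set_option maxRecDepth 100000
namespace Pool.Agent.H320.HSC

theorem c_4352_256_1920_128 : chkB 4352 256 1920 128 = true := by decide +kernel
theorem c_4864_256_1664_128 : chkB 4864 256 1664 128 = true := by decide +kernel
theorem c_4864_256_1920_128 : chkB 4864 256 1920 128 = true := by decide +kernel
theorem c_5376_256_1152_128 : chkB 5376 256 1152 128 = true := by decide +kernel
theorem c_5376_256_1408_128 : chkB 5376 256 1408 128 = true := by decide +kernel
theorem c_5888_256_1152_128 : chkB 5888 256 1152 128 = true := by decide +kernel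
theorem c_5888_256_1408_128 : chkB 5888 256 1408 128 = true := by decide +kernel
theorem c_5376_256_1664_128 : chkB 5376 256 1664 128 = true := by decide +kernel
theorem c_5376_256_1920_128 : chkB 5376 256 1920 128 = true := by decide +kernel
theorem c_5888_256_1664_128 : chkB 5888 256 1664 128 = true := by decide +kernel
theorem c_5888_256_1920_128 : chkB 5888 256 1920 128 = true := by decide +kernel
theorem c_6272_128_64_64 : chkB 6272 128 64 64 = true := by decide +kernel

end Pool.Agent.H320.HSC
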