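import Pool.Agent.H320.HSC.Nbase
set_option autoImplicit false
set_option maxRecDepth 100000
namespace Pool.Agent.H320.HSC

theorem c_7040_128_192_64 : chkB 7040 128 192 64 = true := by decide +kernel
theorem c_6784_128_320_64 : chkB 6784 128 320 64 = true := by decide +kernel
theorem c_6784_128_448_64 : chkB 6784 128 448 64 = true := by decide +kernel
theorem c_7040_128_320_64 : chkB 7040 128 320 64 = true := by decide +kernel
theorem c_7040_128_448_64 : chkB 7040 128 448 64 = true := by decide +kernel
theorem c_6272_128_576_64 : chkB 6272 128 576 64 = true := by decide +kernel
theorem c_6272_128_704_64 : chkB 6272 128 704 64 = true := by decide +kernel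
theorem c_6528_128_576_64 : chkB 6528 128 576 64 = true := by decide +kernel
theorem c_6528_128_704_64 : chkB 6528 128 704 64 = true := by decide +kernel
theorem c_6272_128_896_128 : chkB 6272 128 896 128 = true := by decide +kernel
theorem c_6528_128_896_128 : chkB 6528 128 896 128 = true := by decide +kernel
theorem c_6784_128_576_64 : chkB 6784 128 576 64 = true := by decide +kernel

end Pool.Agent.H320.HSC
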