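import Pool.Agent.H320.HSC.Nbase
set_option autoImplicit false
set_option maxRecDepth 100000
namespace Pool.Agent.H320.HSC

theorem c_7616_64_32_32 : chkB 7616 64 32 32 = true := by decide +kernel
theorem c_7616_64_96_32 : chkB 7616 64 96 32 = true := by decide +kernel
theorem c_7552_128_192_64 : chkB 7552 128 192 64 = true := by decide +kernel
theorem c_7296_128_320_64 : chkB 7296 128 320 64 = true := by decide +kernel
theorem c_7296_128_448_64 : chkB 7296 128 448 64 = true := by decide +kernel
theorem c_7552_128_320_64 : chkB 7552 128 320 64 = true := by decide +kernel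
theorem c_7552_128_448_64 : chkB 7552 128 448 64 = true := by decide +kernel
theorem c_7744_64_32_32 : chkB 7744 64 32 32 = true := by decide +kernel
theorem c_7744_64_96_32 : chkB 7744 64 96 32 = true := by decide +kernel
theorem c_7872_64_32_32 : chkB 7872 64 32 32 = true := by decide +kernel
theorem c_7872_64_96_32 : chkB 7872 64 96 32 = true := by decide +kernel
theorem c_7808_128_192_64 : chkB 7808 128 192 64 = true := by decide +kernel

end Pool.Agent.H320.HSC
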