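import Pool.Agent.H320.HSC.Nbase
set_option autoImplicit false
set_option maxRecDepth 100000
namespace Pool.Agent.H320.HSC

theorem c_7552_128_704_64 : chkB 7552 128 704 64 = true := by decide +kernel
theorem c_7296_128_896_128 : chkB 7296 128 896 128 = true := by decide +kernel
theorem c_7552_128_896_128 : chkB 7552 128 896 128 = true := by decide +kernel
theorem c_7808_128_576_64 : chkB 7808 128 576 64 = true := by decide +kernel
theorem c_7808_128_704_64 : chkB 7808 128 704 64 = true := by decide +kernel
theorem c_8064_128_576_64 : chkB 8064 128 576 64 = true := by decide +kernel
theorem c_8064_128_704_64 : chkB 8064 128 704 64 = true := by decide +kernel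
theorem c_7808_128_896_128 : chkB 7808 128 896 128 = true := by decide +kernel
theorem c_8064_128_896_128 : chkB 8064 128 896 128 = true := by decide +kernel
theorem c_6400_256_1152_128 : chkB 6400 256 1152 128 = true := by decide +kernel
theorem c_6400_256_1408_128 : chkB 6400 256 1408 128 = true := by decide +kernel
theorem c_6912_256_1152_128 : chkB 6912 256 1152 128 = true := by decide +kernel

end Pool.Agent.H320.HSC
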