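import Pool.Agent.H320.HSC.Nbase
set_option autoImplicit false
set_option maxRecDepth 100000
namespace Pool.Agent.H320.HSC

theorem c_5888_256_2432_128 : chkB 5888 256 2432 128 = true := by decide +kernel
theorem c_5376_256_2688_128 : chkB 5376 256 2688 128 = true := by decide +kernel
theorem c_5376_256_2944_128 : chkB 5376 256 2944 128 = true := by decide +kernel
theorem c_5888_256_2688_128 : chkB 5888 256 2688 128 = true := by decide +kernel
theorem c_5888_256_2944_128 : chkB 5888 256 2944 128 = true := by decide +kernel
theorem c_4352_256_3200_128 : chkB 4352 256 3200 128 = true := by decide +kernel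
theorem c_4352_256_3456_128 : chkB 4352 256 3456 128 = true := by decide +kernel
theorem c_4864_256_3200_128 : chkB 4864 256 3200 128 = true := by decide +kernel
theorem c_4864_256_3456_128 : chkB 4864 256 3456 128 = true := by decide +kernel
theorem c_4352_256_3712_128 : chkB 4352 256 3712 128 = true := by decide +kernel
theorem c_4352_256_3968_128 : chkB 4352 256 3968 128 = true := by decide +kernel
theorem c_4864_256_3712_128 : chkB 4864 256 3712 128 = true := by decide +kernel

end Pool.Agent.H320.HSC
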