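import Pool.Agent.H320.HSC.Nbase
set_option autoImplicit false
set_option maxRecDepth 100000
namespace Pool.Agent.H320.HSC

theorem c_7936_256_2944_128 : chkB 7936 256 2944 128 = true := by decide +kernel
theorem c_6400_256_3200_128 : chkB 6400 256 3200 128 = true := by decide +kernel
theorem c_6400_256_3456_128 : chkB 6400 256 3456 128 = true := by decide +kernel
theorem c_6912_256_3200_128 : chkB 6912 256 3200 128 = true := by decide +kernel
theorem c_6912_256_3456_128 : chkB 6912 256 3456 128 = true := by decide +kernel
theorem c_6400_256_3712_128 : chkB 6400 256 3712 128 = true := by decide +kernel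
theorem c_6400_256_3968_128 : chkB 6400 256 3968 128 = true := by decide +kernel
theorem c_6912_256_3712_128 : chkB 6912 256 3712 128 = true := by decide +kernel
theorem c_6912_256_3968_128 : chkB 6912 256 3968 128 = true := by decide +kernel
theorem c_7424_256_3200_128 : chkB 7424 256 3200 128 = true := by decide +kernel
theorem c_7424_256_3456_128 : chkB 7424 256 3456 128 = true := by decide +kernel
theorem c_7936_256_3200_128 : chkB 7936 256 3200 128 = true := by decide +kernel

end Pool.Agent.H320.HSC
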