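import Pool.Agent.H320.HSC.Nbase
set_option autoImplicit false
set_option maxRecDepth 100000
namespace Pool.Agent.H320.HSC

theorem c_7936_256_3456_128 : chkB 7936 256 3456 128 = true := by decide +kernel
theorem c_7424_256_3712_128 : chkB 7424 256 3712 128 = true := by decide +kernel
theorem c_7424_256_3968_128 : chkB 7424 256 3968 128 = true := by decide +kernel
theorem c_7936_256_3712_128 : chkB 7936 256 3712 128 = true := by decide +kernel
theorem c_7936_256_3968_128 : chkB 7936 256 3968 128 = true := by decide +kernel
theorem c_3968_128_4352_256 : chkB 3968 128 4352 256 = true := by decide +kernel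
theorem c_4352_256_4224_128 : chkB 4352 256 4224 128 = true := by decide +kernel
theorem c_4352_256_4480_128 : chkB 4352 256 4480 128 = true := by decide +kernel
theorem c_4864_256_4224_128 : chkB 4864 256 4224 128 = true := by decide +kernel
theorem c_4864_256_4480_128 : chkB 4864 256 4480 128 = true := by decide +kernel
theorem c_4480_128_4864_256 : chkB 4480 128 4864 256 = true := by decide +kernel
theorem c_4864_256_4736_128 : chkB 4864 256 4736 128 = true := by decide +kernel

end Pool.Agent.H320.HSC
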