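import Pool.Agent.H320.HSC.Nbase
set_option autoImplicit false
set_option maxRecDepth 100000
namespace Pool.Agent.H320.HSC

theorem c_7936_256_6016_128 : chkB 7936 256 6016 128 = true := by decide +kernel
theorem c_6016_128_6400_256 : chkB 6016 128 6400 256 = true := by decide +kernel
theorem c_6400_256_6272_128 : chkB 6400 256 6272 128 = true := by decide +kernel
theorem c_6400_256_6528_128 : chkB 6400 256 6528 128 = true := by decide +kernel
theorem c_6912_256_6272_128 : chkB 6912 256 6272 128 = true := by decide +kernel
theorem c_6912_256_6528_128 : chkB 6912 256 6528 128 = true := by decide +kernel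
theorem c_6528_128_6912_256 : chkB 6528 128 6912 256 = true := by decide +kernel
theorem c_6912_256_6784_128 : chkB 6912 256 6784 128 = true := by decide +kernel
theorem c_6912_256_7040_128 : chkB 6912 256 7040 128 = true := by decide +kernel
theorem c_7424_256_6272_128 : chkB 7424 256 6272 128 = true := by decide +kernel
theorem c_7424_256_6528_128 : chkB 7424 256 6528 128 = true := by decide +kernel
theorem c_7936_256_6272_128 : chkB 7936 256 6272 128 = true := by decide +kernel

end Pool.Agent.H320.HSC
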