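import Pool.Agent.H320.HSC.Nbase
set_option autoImplicit false
set_option maxRecDepth 100000
namespace Pool.Agent.H320.HSC

theorem c_7936_256_8064_128 : chkB 7936 256 8064 128 = true := by decide +kernel

end Pool.Agent.H320.HSC
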