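import Pool.Agent.H320.HSC.Defs

/-! Numerical part: order 3 Taylor models in fixed point arithmetic and the list of quantities to be
checked.  Everything is polymorphic in the operations, so that the same program is run on real
numbers and on Taylor models. -/

set_option autoImplicit false

open Complex
open scoped Manifold ContDiff ComplexOrder

namespace Pool.Agent.H320.HSC



/-- swap the two variables -/
def swD (A : D14 ℝ) : D14 ℝ where
  s := A.t
  t := A.s
  ss := A.tt
  st := A.st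
  tt := A.ss
  sss := A.ttt
  sst := A.stt
  stt := A.sst
  ttt := A.sss
  ssss := A.tttt
  ssst := A.sttt
  sstt := A.sstt
  sttt := A.ssst
  tttt := A.ssss

/-- swap the two variables -/
def swM (m : Mid ℝ) : Mid ℝ where
  st := m.st
  g11 := m.g22
  g22 := m.g11
  g12 := m.g12
  dt := m.dt
  u1 := m.w1
  u2 := m.w2
  u3 := m.w3
  w1 := m.u1
  w2 := m.u2
  w3 := m.u3
  f1 := m.f3
  f2 := m.f2
  f3 := m.f1
  f4 := m.f5
  f5 := m.f4
  f6 := m.f6

/-- swap the two variables -/
def swQ (q : Q6 ℝ) : Q6 ℝ where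
  al := q.ga
  be := q.be
  ga := q.al
  de := q.ep
  ep := q.de
  ze := q.ze

theorem cum_sw (a b aa ab bb aab abb aabb : ℝ) :
    cum rOps b a bb ab aa abb aab aabb = swD (cum rOps a b aa ab bb aab abb aabb) := by
  simp only [cum, swD, rOps, D14.mk.injEq]
  and_intros <;> first | trivial | ring

theorem comb_sw (A B C D : D14 ℝ) :
    comb rOps (swD B) (swD A) (swD D) (swD C) = swD (comb rOps A B C D) := by
  simp only [comb, swD, rOps, D14.mk.injEq]
  and_intros <;> first | trivial | ring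

theorem dL1_sw (s t : ℝ) : dL1 rOps t s = swD (dL2 rOps s t) := by
  unfold dL1 dL2
  rw [← cum_sw]
  have e : rOps.mul t s = rOps.mul s t := mul_comm t s
  rw [e]

theorem dL2_sw (s t : ℝ) : dL2 rOps t s = swD (dL1 rOps s t) := by
  unfold dL1 dL2
  rw [← cum_sw]
  have e : rOps.mul t s = rOps.mul s t := mul_comm t s
  rw [e]

theorem dQ_sw (s t : ℝ) : dQ rOps t s = swD (dP rOps s t) := by
  unfold dQ dP dQ' dP'
  rw [← cum_sw]

theorem dP_sw (s t : ℝ) : dP rOps t s = swD (dQ rOps s t) := by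
  unfold dQ dP dQ' dP'
  rw [← cum_sw]

theorem dF_sw (s t : ℝ) : dF rOps t s = swD (dF rOps s t) := by
  unfold dF
  rw [dL1_sw s t, dL2_sw s t, dQ_sw s t, dP_sw s t, comb_sw]

theorem mid_sw (s t : ℝ) (A : D14 ℝ) : mid rOps t s (swD A) = swM (mid rOps s t A) := by
  simp only [mid, swD, swM, rOps, Mid.mk.injEq]
  and_intros <;> first | trivial | ring

theorem midF_sw (s t : ℝ) : midF rOps t s = swM (midF rOps s t) := by
  unfold midF
  rw [dF_sw s t, mid_sw]

theorem q6_sw (s t : ℝ) (m : Mid ℝ) : q6 rOps t s (swM m) = swQ (q6 rOps s t m) := by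
  simp only [q6, swM, swQ, rOps, Q6.mk.injEq]
  and_intros <;> first | trivial | ring

theorem q6F_sw (s t : ℝ) : q6F rOps t s = swQ (q6F rOps s t) := by
  unfold q6F
  rw [midF_sw s t, q6_sw]

theorem m2_sw (q : Q6 ℝ) : m2 rOps (swQ q) = m2 rOps q := by
  simp only [m2, swQ, rOps]
  ring

theorem det4_sw (q : Q6 ℝ) : det4 rOps (swQ q) = det4 rOps q := by
  simp only [det4, m2, swQ, rOps]
  ring

theorem q6_symm (s t : ℝ) : (midF rOps t s).dt = (midF rOps s t).dt ∧
    (q6F rOps t s).al = (q6F rOps s t).ga ∧ (q6F rOps t s).ga = (q6F rOps s t).al ∧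
    m2 rOps (q6F rOps t s) = m2 rOps (q6F rOps s t) ∧
    det4 rOps (q6F rOps t s) = det4 rOps (q6F rOps s t) := by
  rw [midF_sw s t, q6F_sw s t, m2_sw, det4_sw]
  exact ⟨rfl, rfl, rfl, rfl, rfl⟩

end Pool.Agent.H320.HSC
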