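import Pool.Agent.H320.HSC.Defs
import Pool.Agent.H320.HSC.P_q6_symm

/-! Numerical part: order 3 Taylor models in fixed point arithmetic and the list of quantities to be
checked.  Everything is polymorphic in the operations, so that the same program is run on real
numbers and on Taylor models. -/

set_option autoImplicit false

open Complex
open scoped Manifold ContDiff ComplexOrder

namespace Pool.Agent.H320.HSC



theorem good_symm (s t : ℝ) (h : Good t s) : Good s t := by
  obtain ⟨e1, e2, e3, e4, e5⟩ := q6_symm s t
  obtain ⟨h1, h2, h3, h4⟩ := h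
  rw [e1] at h1
  rw [e2] at h2
  rw [e4] at h3
  rw [e5] at h4
  refine ⟨h1, ?_, h3, h4⟩
  have h5 : m2 rOps (q6F rOps s t) = 4 * ((q6F rOps s t).al * (q6F rOps s t).ga) -
      (q6F rOps s t).be * (q6F rOps s t).be := by
    simp only [m2, rOps]
    norm_num
  rw [h5] at h3
  have h6 : 0 < (q6F rOps s t).al * (q6F rOps s t).ga := by
    nlinarith [mul_self_nonneg (q6F rOps s t).be]
  exact pos_of_mul_pos_left h6 h2.le

end Pool.Agent.H320.HSC
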