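import Pool.Agent.H320.HSC.P_chk_good
import Pool.Agent.H320.HSC.P_good_symm
set_option autoImplicit false
namespace Pool.Agent.H320.HSC

/-- the four inequalities hold on the part `t ≤ s` of the box -/
def Cov (a h b k : ℕ) : Prop :=
  ∀ s t : ℝ, |s * 8192 - a| ≤ h → |t * 8192 - b| ≤ k → t ≤ s → Good s t

theorem cov_leaf (a h b k : ℕ) (hc : chkB a h b k = true) : Cov a h b k :=
  fun s t hs ht _ => chk_good a h b k hc s t hs ht

theorem cov_skip (a h b k : ℕ) (hlt : a + h + k < b) : Cov a h b k := by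
  intro s t hs ht hts
  exfalso
  have h1 : ((a + h + k : ℕ) : ℝ) < b := by exact_mod_cast hlt
  push_cast at h1
  have h2 := (abs_le.1 hs).2
  have h3 := (abs_le.1 ht).1
  linarith

theorem cov_a (c h b k : ℕ) (h1 : Cov c h b k) (h2 : Cov (c + 2 * h) h b k) :
    Cov (c + h) (2 * h) b k := by
  intro s t hs ht hts
  push_cast at hs
  rcases le_total (s * 8192) ((c : ℝ) + h) with hh | hh
  · refine h1 s t (abs_le.2 ⟨?_, ?_⟩) ht hts
    · linarith [(abs_le.1 hs).1]
    · linarith
  · refine h2 s t (abs_le.2 ⟨?_, ?_⟩) ht hts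
    · push_cast; linarith
    · push_cast; linarith [(abs_le.1 hs).2]

theorem cov_b (a h c k : ℕ) (h1 : Cov a h c k) (h2 : Cov a h (c + 2 * k) k) :
    Cov a h (c + k) (2 * k) := by
  intro s t hs ht hts
  push_cast at ht
  rcases le_total (t * 8192) ((c : ℝ) + k) with hh | hh
  · refine h1 s t hs (abs_le.2 ⟨?_, ?_⟩) hts
    · linarith [(abs_le.1 ht).1]
    · linarith
  · refine h2 s t hs (abs_le.2 ⟨?_, ?_⟩) hts
    · push_cast; linarith
    · push_cast; linarith [(abs_le.1 ht).2]

end Pool.Agent.H320.HSC
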