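import Pool.Agent.H320.HSC.Defs
import Pool.Agent.H320.HSC.P_sinv_facts
import Pool.Agent.H320.HSC.P_cont_sinv

/-! Numerical part: order 3 Taylor models in fixed point arithmetic and the list of quantities to be
checked.  Everything is polymorphic in the operations, so that the same program is run on real
numbers and on Taylor models. -/

set_option autoImplicit false

open Complex
open scoped Manifold ContDiff ComplexOrder

namespace Pool.Agent.H320.HSC



theorem rho_facts_six (p : Amb) : rhoA^[6] p = p := by
  show rhoA (rhoA (rhoA (rhoA (rhoA (rhoA p))))) = p
  simp only [rhoA, sinv_facts.2.2.2]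

theorem rho_facts : Continuous rhoA ∧ Continuous kap ∧ (∀ p, rhoA^[6] p = p) ∧
    (∀ (n : ℕ) (p : Amb), rhoA^[n] p = rhoA^[n % 6] p) := by
  refine ⟨?_, ?_, rho_facts_six, fun n p => ?_⟩
  · have h := cont_sinv
    unfold rhoA
    exact (continuous_fst.comp continuous_snd).prodMk
      ((continuous_snd.comp continuous_snd).prodMk (h.comp continuous_fst))
  · unfold kap
    refine (OnePoint.continuous_coe.comp continuous_fst).prodMk
      ((OnePoint.continuous_coe.comp (continuous_fst.mul continuous_snd)).prodMk
        (OnePoint.continuous_coe.comp continuous_snd))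
  · have h6 : rhoA^[6] = id := funext rho_facts_six
    conv_lhs => rw [← Nat.mod_add_div n 6]
    rw [Function.iterate_add, Function.iterate_mul, h6, Function.iterate_id, Function.comp_id]

end Pool.Agent.H320.HSC
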