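import Pool.Agent.H320.HSC.Defs
import Pool.Agent.H320.HSC.P_sinv_facts
import Pool.Agent.H320.HSC.P_fin_facts
import Pool.Agent.H320.HSC.P_rho_facts
import Pool.Agent.H320.HSC.P_trans_iff
import Pool.Agent.H320.HSC.P_trans_eq

/-! Numerical part: order 3 Taylor models in fixed point arithmetic and the list of quantities to be
checked.  Everything is polymorphic in the operations, so that the same program is run on real
numbers and on Taylor models. -/

set_option autoImplicit false

open Complex
open scoped Manifold ContDiff ComplexOrder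

namespace Pool.Agent.H320.HSC



theorem mem_kap (p : Amb) (hp : p ∈ XSet) (h1 : p.1 ≠ OnePoint.infty)
    (h2 : p.2.2 ≠ OnePoint.infty) : p = kap (fin p.1, fin p.2.2) := by
  obtain ⟨k, q, hk⟩ := hp
  have hj : (6 - k % 6) % 6 < 6 := Nat.mod_lt _ (by norm_num)
  obtain ⟨m, hm⟩ : ∃ m : Fin 6, (m : ℕ) = (6 - k % 6) % 6 := ⟨⟨(6 - k % 6) % 6, hj⟩, rfl⟩
  have hp : rhoA^[(m : ℕ)] (kap q) = p := by
    rw [← hk, ← Function.iterate_add_apply, rho_facts.2.2.2, hm]
    have : ((6 - k % 6) % 6 + k) % 6 = 0 := by omega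
    rw [this]
    rfl
  have h3 : q ∈ TD m := by
    rw [← trans_iff, hp]
    exact ⟨h1, h2⟩
  have h4 : p = kap (TT m q) := by
    rw [← trans_eq m q h3, hp]
  have h5 : fin p.1 = (TT m q).1 := by
    rw [h4]
    exact fin_facts.1 _
  have h6 : fin p.2.2 = (TT m q).2 := by
    rw [h4]
    exact fin_facts.1 _
  rw [h5, h6]
  exact h4

end Pool.Agent.H320.HSC
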