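import Pool.Agent.H320.HSC.Defs
import Pool.Agent.H320.HSC.P_sinv_facts
import Pool.Agent.H320.HSC.P_fin_facts
import Pool.Agent.H320.HSC.P_rho_facts
import Pool.Agent.H320.HSC.P_mem_kap
import Pool.Agent.H320.HSC.P_rho_mem

/-! Numerical part: order 3 Taylor models in fixed point arithmetic and the list of quantities to be
checked.  Everything is polymorphic in the operations, so that the same program is run on real
numbers and on Taylor models. -/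

set_option autoImplicit false

open Complex
open scoped Manifold ContDiff ComplexOrder

namespace Pool.Agent.H320.HSC



theorem bij_XS_fin (y₀ y₂ : Sph) (h0 : y₀ ≠ OnePoint.infty) (h2 : y₂ ≠ OnePoint.infty) :
    ∃! x : Amb, x ∈ XSet ∧ x.1 = y₀ ∧ x.2.2 = y₂ := by
  refine ⟨kap (fin y₀, fin y₂), ⟨⟨0, _, rfl⟩, fin_facts.2.1 _ h0, fin_facts.2.1 _ h2⟩, ?_⟩
  rintro p ⟨hp, hp0, hp2⟩
  have := mem_kap p hp (by rw [hp0]; exact h0) (by rw [hp2]; exact h2)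
  rw [hp0, hp2] at this
  exact this

theorem bij_XS_rho3 (p : Amb) : rhoA^[3] p = (sinv p.1, sinv p.2.1, sinv p.2.2) := rfl

theorem bij_XS_sinv (y : Sph) (h : y ≠ ((0 : ℂ) : Sph)) : sinv y ≠ OnePoint.infty := by
  intro h'
  apply h
  rw [← sinv_facts.2.2.2 y, h', sinv_facts.2.2.1]

theorem bij_XS (y₀ y₂ : Sph) (h1 : ¬ (y₀ = ((0 : ℂ) : Sph) ∧ y₂ = OnePoint.infty))
    (h2 : ¬ (y₀ = OnePoint.infty ∧ y₂ = ((0 : ℂ) : Sph))) :
    ∃! x : Amb, x ∈ XSet ∧ x.1 = y₀ ∧ x.2.2 = y₂ := by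
  have hne : (OnePoint.infty : Sph) ≠ ((0 : ℂ) : Sph) := OnePoint.infty_ne_coe _
  by_cases hf : y₀ ≠ OnePoint.infty ∧ y₂ ≠ OnePoint.infty
  · exact bij_XS_fin y₀ y₂ hf.1 hf.2
  have h3 : y₀ ≠ ((0 : ℂ) : Sph) ∧ y₂ ≠ ((0 : ℂ) : Sph) := by
    by_cases h : y₀ = OnePoint.infty
    · refine ⟨by rw [h]; exact hne, fun h' => h2 ⟨h, h'⟩⟩
    · have h' : y₂ = OnePoint.infty := by
        by_contra h'
        exact hf ⟨h, h'⟩
      exact ⟨fun h'' => h1 ⟨h'', h'⟩, by rw [h']; exact hne⟩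
  obtain ⟨x, ⟨hx, hx0, hx2⟩, hu⟩ := bij_XS_fin (sinv y₀) (sinv y₂) (bij_XS_sinv _ h3.1) (bij_XS_sinv _ h3.2)
  refine ⟨rhoA^[3] x, ⟨(rho_mem 3 x).2 hx, ?_, ?_⟩, ?_⟩
  · rw [bij_XS_rho3]
    change sinv x.1 = y₀
    rw [hx0, sinv_facts.2.2.2]
  · rw [bij_XS_rho3]
    change sinv x.2.2 = y₂
    rw [hx2, sinv_facts.2.2.2]
  · rintro z ⟨hz, hz0, hz2⟩
    have h4 : rhoA^[3] z = x := by
      apply hu
      refine ⟨(rho_mem 3 z).2 hz, ?_, ?_⟩
      · rw [bij_XS_rho3]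
        change sinv z.1 = sinv y₀
        rw [hz0]
      · rw [bij_XS_rho3]
        change sinv z.2.2 = sinv y₂
        rw [hz2]
    rw [← h4]
    exact (rho_facts.2.2.1 z).symm

end Pool.Agent.H320.HSC
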