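import Pool.Agent.H320.HSC.Defs

/-! Numerical part: order 3 Taylor models in fixed point arithmetic and the list of quantities to be
checked.  Everything is polymorphic in the operations, so that the same program is run on real
numbers and on Taylor models. -/

set_option autoImplicit false

open Complex
open scoped Manifold ContDiff ComplexOrder

namespace Pool.Agent.H320.HSC



theorem enc_add (σ τ : ℝ) (hs : |σ| ≤ 1) (ht : |τ| ≤ 1) (x y : ℝ) (X Y : TM) (hx : Enc σ τ x X)
    (hy : Enc σ τ y Y) : Enc σ τ (x + y) (TM.add X Y) := by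
  intro hok
  have hok' : (X.ok && Y.ok) = true := hok
  rw [Bool.and_eq_true] at hok'
  have h1 := hx hok'.1
  have h2 := hy hok'.2
  have hv : (TM.add X Y).val σ τ = X.val σ τ + Y.val σ τ := by
    have e : TM.add X Y = ⟨X.a00 + Y.a00, X.a10 + Y.a10, X.a01 + Y.a01, X.a20 + Y.a20,
      X.a11 + Y.a11, X.a02 + Y.a02, X.a30 + Y.a30, X.a21 + Y.a21,
      X.a12 + Y.a12, X.a03 + Y.a03, X.r + Y.r, X.ok && Y.ok⟩ := rfl
    rw [e]
    unfold TM.val
    push_cast
    ring
  have hr : ((TM.add X Y).r : ℝ) = X.r + Y.r := by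
    have e : (TM.add X Y).r = X.r + Y.r := rfl
    rw [e]
    push_cast
    ring
  rw [hv, hr]
  calc |(x + y) * 4294967296 - (X.val σ τ + Y.val σ τ)|
      = |(x * 4294967296 - X.val σ τ) + (y * 4294967296 - Y.val σ τ)| := by
        congr 1
        ring
    _ ≤ |x * 4294967296 - X.val σ τ| + |y * 4294967296 - Y.val σ τ| := abs_add_le _ _
    _ ≤ X.r + Y.r := add_le_add h1 h2

end Pool.Agent.H320.HSC
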