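import Pool.Agent.H320.HSC.Defs

/-! Numerical part: order 3 Taylor models in fixed point arithmetic and the list of quantities to be
checked.  Everything is polymorphic in the operations, so that the same program is run on real
numbers and on Taylor models. -/

set_option autoImplicit false

open Complex
open scoped Manifold ContDiff ComplexOrder

namespace Pool.Agent.H320.HSC



theorem enc_boxS (σ τ : ℝ) (a h : ℕ) :
    Enc σ τ ((a + h * σ) / 8192) (boxS (Nat.mul a 524288) (Nat.mul h 524288)) := by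
  intro _
  have h1 : TM.val (boxS (Nat.mul a 524288) (Nat.mul h 524288)) σ τ =
      (a : ℝ) * 524288 + (h : ℝ) * 524288 * σ := by
    have e1 : ((Int.ofNat (Nat.mul a 524288) : ℤ) : ℝ) = (a : ℝ) * 524288 := by
      have : (Int.ofNat (Nat.mul a 524288) : ℤ) = ((a * 524288 : ℕ) : ℤ) := rfl
      rw [this]
      push_cast
      ring
    have e2 : ((Int.ofNat (Nat.mul h 524288) : ℤ) : ℝ) = (h : ℝ) * 524288 := by
      have : (Int.ofNat (Nat.mul h 524288) : ℤ) = ((h * 524288 : ℕ) : ℤ) := rfl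
      rw [this]
      push_cast
      ring
    unfold TM.val
    change ((Int.ofNat (Nat.mul a 524288) : ℤ) : ℝ) + ((Int.ofNat (Nat.mul h 524288) : ℤ) : ℝ) * σ
      + ((0 : ℤ) : ℝ) * τ + ((0 : ℤ) : ℝ) * σ ^ 2 + ((0 : ℤ) : ℝ) * (σ * τ) + ((0 : ℤ) : ℝ) * τ ^ 2
      + ((0 : ℤ) : ℝ) * σ ^ 3 + ((0 : ℤ) : ℝ) * (σ ^ 2 * τ) + ((0 : ℤ) : ℝ) * (σ * τ ^ 2)
      + ((0 : ℤ) : ℝ) * τ ^ 3 = _
    rw [e1, e2, Int.cast_zero]
    ring
  have h2 : (((boxS (Nat.mul a 524288) (Nat.mul h 524288)).r : ℕ) : ℝ) = 0 := by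
    change ((0 : ℕ) : ℝ) = 0
    exact Nat.cast_zero
  rw [h1, h2]
  have h3 : ((a : ℝ) + h * σ) / 8192 * 4294967296 - ((a : ℝ) * 524288 + (h : ℝ) * 524288 * σ) = 0 := by
    ring
  rw [h3, abs_zero]

end Pool.Agent.H320.HSC
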