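import Pool.Agent.H320.HSC.Defs

/-! Numerical part: order 3 Taylor models in fixed point arithmetic and the list of quantities to be
checked.  Everything is polymorphic in the operations, so that the same program is run on real
numbers and on Taylor models. -/

set_option autoImplicit false

open Complex
open scoped Manifold ContDiff ComplexOrder

namespace Pool.Agent.H320.HSC



theorem enc_boxT (σ τ : ℝ) (a h : ℕ) :
    Enc σ τ ((a + h * τ) / 8192) (boxT (Nat.mul a 524288) (Nat.mul h 524288)) := by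
  intro _
  have h0 : (boxT (Nat.mul a 524288) (Nat.mul h 524288)).val σ τ =
      (((Int.ofNat (a * 524288) : ℤ)) : ℝ) + (((Int.ofNat (h * 524288) : ℤ)) : ℝ) * τ := by
    show (((Int.ofNat (a * 524288) : ℤ)) : ℝ) + ((0 : ℤ) : ℝ) * σ +
      (((Int.ofNat (h * 524288) : ℤ)) : ℝ) * τ + ((0 : ℤ) : ℝ) * σ ^ 2 +
      ((0 : ℤ) : ℝ) * (σ * τ) + ((0 : ℤ) : ℝ) * τ ^ 2 + ((0 : ℤ) : ℝ) * σ ^ 3 +
      ((0 : ℤ) : ℝ) * (σ ^ 2 * τ) + ((0 : ℤ) : ℝ) * (σ * τ ^ 2) + ((0 : ℤ) : ℝ) * τ ^ 3 = _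
    rw [Int.cast_zero]
    ring
  have h1 : (((Int.ofNat (a * 524288) : ℤ)) : ℝ) = (a : ℝ) * 524288 := by
    rw [Int.ofNat_eq_natCast]
    push_cast
    ring
  have h2 : (((Int.ofNat (h * 524288) : ℤ)) : ℝ) = (h : ℝ) * 524288 := by
    rw [Int.ofNat_eq_natCast]
    push_cast
    ring
  rw [h0, h1, h2]
  have h3 : ((a : ℝ) + h * τ) / 8192 * 4294967296 - ((a : ℝ) * 524288 + (h : ℝ) * 524288 * τ) = 0 := by
    ring
  rw [h3, abs_zero]
  exact Nat.cast_nonneg _

end Pool.Agent.H320.HSC
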