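import Pool.Agent.H320.HSC.Defs

/-! Numerical part: order 3 Taylor models in fixed point arithmetic and the list of quantities to be
checked.  Everything is polymorphic in the operations, so that the same program is run on real
numbers and on Taylor models. -/

set_option autoImplicit false

open Complex
open scoped Manifold ContDiff ComplexOrder

namespace Pool.Agent.H320.HSC



theorem mul_val_dv (a : ℤ) : ∃ e : ℝ, |e| ≤ 1 ∧ (TM.dv a : ℝ) = (a : ℝ) / 4294967296 - e := by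
  refine ⟨(a : ℝ) / 4294967296 - (TM.dv a : ℝ), ?_, by ring⟩
  have h0 : TM.dv a = a / 4294967296 := rfl
  have h1 : 4294967296 * TM.dv a ≤ a := by rw [h0]; omega
  have h2 : a < 4294967296 * TM.dv a + 4294967296 := by rw [h0]; omega
  have h3 : (4294967296 : ℝ) * (TM.dv a : ℝ) ≤ (a : ℝ) := by exact_mod_cast h1
  have h4 : (a : ℝ) < 4294967296 * (TM.dv a : ℝ) + 4294967296 := by exact_mod_cast h2
  rw [abs_le]
  constructor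
  · rw [neg_le_sub_iff_le_add, add_comm]
    have : (TM.dv a : ℝ) ≤ (a : ℝ) / 4294967296 := by
      rw [le_div_iff₀ (by norm_num)]; linarith
    linarith
  · rw [sub_le_iff_le_add, div_le_iff₀ (by norm_num)]
    linarith

theorem mul_val_one (e m : ℝ) (he : |e| ≤ 1) (hm : |m| ≤ 1) : |e * m| ≤ 1 := by
  rw [abs_mul]
  exact mul_le_one₀ he (abs_nonneg _) hm

theorem mul_val_lin (a m : ℝ) (hm : |m| ≤ 1) : |a * m| ≤ |a| := by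
  rw [abs_mul]
  exact mul_le_of_le_one_right (abs_nonneg _) hm

theorem mul_val_n1 (X : TM) : (TM.n1 X : ℝ) = |(X.a10 : ℝ)| + |(X.a01 : ℝ)| := by
  have h : TM.n1 X = X.a10.natAbs + X.a01.natAbs := rfl
  rw [h]
  push_cast [Nat.cast_natAbs]
  rfl

theorem mul_val_n2 (X : TM) : (TM.n2 X : ℝ) =
    |(X.a20 : ℝ)| + |(X.a11 : ℝ)| + |(X.a02 : ℝ)| := by
  have h : TM.n2 X = X.a20.natAbs + X.a11.natAbs + X.a02.natAbs := rfl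
  rw [h]
  push_cast [Nat.cast_natAbs]
  rfl

theorem mul_val_n3 (X : TM) : (TM.n3 X : ℝ) =
    |(X.a30 : ℝ)| + |(X.a21 : ℝ)| + (|(X.a12 : ℝ)| + |(X.a03 : ℝ)|) := by
  have h : TM.n3 X = X.a30.natAbs + X.a21.natAbs + (X.a12.natAbs + X.a03.natAbs) := rfl
  rw [h]
  push_cast [Nat.cast_natAbs]
  rfl

theorem mul_val_b (σ τ : ℝ) (hs : |σ| ≤ 1) (ht : |τ| ≤ 1) (i j : ℕ) : |σ ^ i * τ ^ j| ≤ 1 := by
  rw [abs_mul, abs_pow, abs_pow]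
  exact mul_le_one₀ (pow_le_one₀ (abs_nonneg _) hs) (pow_nonneg (abs_nonneg _) _)
    (pow_le_one₀ (abs_nonneg _) ht)

theorem mul_val_x1 (σ τ : ℝ) (hs : |σ| ≤ 1) (ht : |τ| ≤ 1) (X : TM) :
    |(X.a10 : ℝ) * σ + X.a01 * τ| ≤ TM.n1 X := by
  rw [mul_val_n1]
  exact (abs_add_le _ _).trans (add_le_add (mul_val_lin _ _ hs) (mul_val_lin _ _ ht))

theorem mul_val_x2 (σ τ : ℝ) (hs : |σ| ≤ 1) (ht : |τ| ≤ 1) (X : TM) :
    |(X.a20 : ℝ) * σ ^ 2 + X.a11 * (σ * τ) + X.a02 * τ ^ 2| ≤ TM.n2 X := by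
  rw [mul_val_n2]
  have h1 : |σ ^ 2| ≤ 1 := by simpa using mul_val_b σ τ hs ht 2 0
  have h2 : |σ * τ| ≤ 1 := by simpa using mul_val_b σ τ hs ht 1 1
  have h3 : |τ ^ 2| ≤ 1 := by simpa using mul_val_b σ τ hs ht 0 2
  exact (abs_add_le _ _).trans (add_le_add ((abs_add_le _ _).trans
    (add_le_add (mul_val_lin _ _ h1) (mul_val_lin _ _ h2))) (mul_val_lin _ _ h3))

theorem mul_val_x3 (σ τ : ℝ) (hs : |σ| ≤ 1) (ht : |τ| ≤ 1) (X : TM) :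
    |(X.a30 : ℝ) * σ ^ 3 + X.a21 * (σ ^ 2 * τ) + (X.a12 * (σ * τ ^ 2) + X.a03 * τ ^ 3)| ≤
      TM.n3 X := by
  rw [mul_val_n3]
  have h1 : |σ ^ 3| ≤ 1 := by simpa using mul_val_b σ τ hs ht 3 0
  have h2 : |σ ^ 2 * τ| ≤ 1 := by simpa using mul_val_b σ τ hs ht 2 1
  have h3 : |σ * τ ^ 2| ≤ 1 := by simpa using mul_val_b σ τ hs ht 1 2
  have h4 : |τ ^ 3| ≤ 1 := by simpa using mul_val_b σ τ hs ht 0 3
  exact (abs_add_le _ _).trans (add_le_add ((abs_add_le _ _).trans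
    (add_le_add (mul_val_lin _ _ h1) (mul_val_lin _ _ h2))) ((abs_add_le _ _).trans
    (add_le_add (mul_val_lin _ _ h3) (mul_val_lin _ _ h4))))

theorem mul_val (σ τ : ℝ) (hs : |σ| ≤ 1) (ht : |τ| ≤ 1) (X Y : TM) :
    |X.val σ τ * Y.val σ τ / 4294967296 - (TM.mul X Y).val σ τ| ≤
      10 + ((TM.n1 X : ℝ) * TM.n3 Y + TM.n2 X * (TM.n2 Y + TM.n3 Y)
        + TM.n3 X * (TM.n1 Y + (TM.n2 Y + TM.n3 Y))) / 4294967296 := by
  obtain ⟨e00, he00, hd00⟩ := mul_val_dv (X.a00 * Y.a00)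
  obtain ⟨e10, he10, hd10⟩ := mul_val_dv (X.a00 * Y.a10 + X.a10 * Y.a00)
  obtain ⟨e01, he01, hd01⟩ := mul_val_dv (X.a00 * Y.a01 + X.a01 * Y.a00)
  obtain ⟨e20, he20, hd20⟩ := mul_val_dv (X.a00 * Y.a20 + X.a20 * Y.a00 + X.a10 * Y.a10)
  obtain ⟨e11, he11, hd11⟩ := mul_val_dv (X.a00 * Y.a11 + X.a11 * Y.a00 + (X.a10 * Y.a01 + X.a01 * Y.a10))
  obtain ⟨e02, he02, hd02⟩ := mul_val_dv (X.a00 * Y.a02 + X.a02 * Y.a00 + X.a01 * Y.a01)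
  obtain ⟨e30, he30, hd30⟩ := mul_val_dv (X.a00 * Y.a30 + X.a30 * Y.a00 + (X.a10 * Y.a20 + X.a20 * Y.a10))
  obtain ⟨e21, he21, hd21⟩ := mul_val_dv (X.a00 * Y.a21 + X.a21 * Y.a00 + (X.a10 * Y.a11 + X.a11 * Y.a10) + (X.a01 * Y.a20 + X.a20 * Y.a01))
  obtain ⟨e12, he12, hd12⟩ := mul_val_dv (X.a00 * Y.a12 + X.a12 * Y.a00 + (X.a01 * Y.a11 + X.a11 * Y.a01) + (X.a10 * Y.a02 + X.a02 * Y.a10))
  obtain ⟨e03, he03, hd03⟩ := mul_val_dv (X.a00 * Y.a03 + X.a03 * Y.a00 + (X.a01 * Y.a02 + X.a02 * Y.a01))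
  have hval : (TM.mul X Y).val σ τ =
      (TM.dv (X.a00 * Y.a00) : ℝ)
      + (TM.dv (X.a00 * Y.a10 + X.a10 * Y.a00) : ℝ) * σ
      + (TM.dv (X.a00 * Y.a01 + X.a01 * Y.a00) : ℝ) * τ
      + (TM.dv (X.a00 * Y.a20 + X.a20 * Y.a00 + X.a10 * Y.a10) : ℝ) * σ ^ 2
      + (TM.dv (X.a00 * Y.a11 + X.a11 * Y.a00 + (X.a10 * Y.a01 + X.a01 * Y.a10)) : ℝ) * (σ * τ)
      + (TM.dv (X.a00 * Y.a02 + X.a02 * Y.a00 + X.a01 * Y.a01) : ℝ) * τ ^ 2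
      + (TM.dv (X.a00 * Y.a30 + X.a30 * Y.a00 + (X.a10 * Y.a20 + X.a20 * Y.a10)) : ℝ) * σ ^ 3
      + (TM.dv (X.a00 * Y.a21 + X.a21 * Y.a00 + (X.a10 * Y.a11 + X.a11 * Y.a10) + (X.a01 * Y.a20 + X.a20 * Y.a01)) : ℝ) * (σ ^ 2 * τ)
      + (TM.dv (X.a00 * Y.a12 + X.a12 * Y.a00 + (X.a01 * Y.a11 + X.a11 * Y.a01) + (X.a10 * Y.a02 + X.a02 * Y.a10)) : ℝ) * (σ * τ ^ 2)
      + (TM.dv (X.a00 * Y.a03 + X.a03 * Y.a00 + (X.a01 * Y.a02 + X.a02 * Y.a01)) : ℝ) * τ ^ 3 := rfl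
  set x1 : ℝ := (X.a10 : ℝ) * σ + X.a01 * τ with hx1
  set x2 : ℝ := (X.a20 : ℝ) * σ ^ 2 + X.a11 * (σ * τ) + X.a02 * τ ^ 2 with hx2
  set x3 : ℝ := (X.a30 : ℝ) * σ ^ 3 + X.a21 * (σ ^ 2 * τ) + (X.a12 * (σ * τ ^ 2) + X.a03 * τ ^ 3)
    with hx3
  set y1 : ℝ := (Y.a10 : ℝ) * σ + Y.a01 * τ with hy1
  set y2 : ℝ := (Y.a20 : ℝ) * σ ^ 2 + Y.a11 * (σ * τ) + Y.a02 * τ ^ 2 with hy2
  set y3 : ℝ := (Y.a30 : ℝ) * σ ^ 3 + Y.a21 * (σ ^ 2 * τ) + (Y.a12 * (σ * τ ^ 2) + Y.a03 * τ ^ 3)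
    with hy3
  have b1 : |x1| ≤ TM.n1 X := mul_val_x1 σ τ hs ht X
  have b2 : |x2| ≤ TM.n2 X := mul_val_x2 σ τ hs ht X
  have b3 : |x3| ≤ TM.n3 X := mul_val_x3 σ τ hs ht X
  have c1 : |y1| ≤ TM.n1 Y := mul_val_x1 σ τ hs ht Y
  have c2 : |y2| ≤ TM.n2 Y := mul_val_x2 σ τ hs ht Y
  have c3 : |y3| ≤ TM.n3 Y := mul_val_x3 σ τ hs ht Y
  have hkey : X.val σ τ * Y.val σ τ / 4294967296 - (TM.mul X Y).val σ τ =
      ((e00 * 1 + e10 * σ + e01 * τ + e20 * σ ^ 2 + e11 * (σ * τ) + e02 * τ ^ 2 + e30 * σ ^ 3 + e21 * (σ ^ 2 * τ) + e12 * (σ * τ ^ 2) + e03 * τ ^ 3)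
      + (x1 * y3 + x2 * (y2 + y3) + x3 * (y1 + (y2 + y3))) / 4294967296) := by
    rw [hval, hd00, hd10, hd01, hd20, hd11, hd02, hd30, hd21, hd12, hd03]
    rw [hx1, hx2, hx3, hy1, hy2, hy3]
    unfold TM.val
    push_cast
    ring
  rw [hkey]
  refine (abs_add_le _ _).trans (add_le_add ?_ ?_)
  · have k00 : |e00 * 1| ≤ 1 := mul_val_one _ _ he00 (by simp)
    have k10 : |e10 * σ| ≤ 1 := mul_val_one _ _ he10 (by simpa using mul_val_b σ τ hs ht 1 0)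
    have k01 : |e01 * τ| ≤ 1 := mul_val_one _ _ he01 (by simpa using mul_val_b σ τ hs ht 0 1)
    have k20 : |e20 * σ ^ 2| ≤ 1 := mul_val_one _ _ he20 (by simpa using mul_val_b σ τ hs ht 2 0)
    have k11 : |e11 * (σ * τ)| ≤ 1 := mul_val_one _ _ he11 (by simpa using mul_val_b σ τ hs ht 1 1)
    have k02 : |e02 * τ ^ 2| ≤ 1 := mul_val_one _ _ he02 (by simpa using mul_val_b σ τ hs ht 0 2)
    have k30 : |e30 * σ ^ 3| ≤ 1 := mul_val_one _ _ he30 (by simpa using mul_val_b σ τ hs ht 3 0)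
    have k21 : |e21 * (σ ^ 2 * τ)| ≤ 1 := mul_val_one _ _ he21 (by simpa using mul_val_b σ τ hs ht 2 1)
    have k12 : |e12 * (σ * τ ^ 2)| ≤ 1 := mul_val_one _ _ he12 (by simpa using mul_val_b σ τ hs ht 1 2)
    have k03 : |e03 * τ ^ 3| ≤ 1 := mul_val_one _ _ he03 (by simpa using mul_val_b σ τ hs ht 0 3)
    have hab := fun (a b c d : ℝ) (h1 : |a| ≤ c) (h2 : |b| ≤ d) =>
      (abs_add_le a b).trans (add_le_add h1 h2)
    have t := hab _ _ _ _ (hab _ _ _ _ (hab _ _ _ _ (hab _ _ _ _ (hab _ _ _ _ (hab _ _ _ _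
      (hab _ _ _ _ (hab _ _ _ _ (hab _ _ _ _ k00 k10) k01) k20) k11) k02) k30) k21) k12) k03
    refine t.trans ?_
    norm_num
  · rw [abs_div, abs_of_pos (by norm_num : (0:ℝ) < 4294967296)]
    apply div_le_div_of_nonneg_right _ (by norm_num)
    have n1 : (0:ℝ) ≤ TM.n1 X := Nat.cast_nonneg _
    have n2 : (0:ℝ) ≤ TM.n2 X := Nat.cast_nonneg _
    have n3 : (0:ℝ) ≤ TM.n3 X := Nat.cast_nonneg _
    have p1 : |x1 * y3| ≤ TM.n1 X * TM.n3 Y := by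
      rw [abs_mul]; exact mul_le_mul b1 c3 (abs_nonneg _) n1
    have p2 : |x2 * (y2 + y3)| ≤ TM.n2 X * (TM.n2 Y + TM.n3 Y) := by
      rw [abs_mul]
      exact mul_le_mul b2 ((abs_add_le _ _).trans (add_le_add c2 c3)) (abs_nonneg _) n2
    have p3 : |x3 * (y1 + (y2 + y3))| ≤ TM.n3 X * (TM.n1 Y + (TM.n2 Y + TM.n3 Y)) := by
      rw [abs_mul]
      exact mul_le_mul b3 ((abs_add_le _ _).trans (add_le_add c1
        ((abs_add_le _ _).trans (add_le_add c2 c3)))) (abs_nonneg _) n3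
    exact (abs_add_le _ _).trans (add_le_add ((abs_add_le _ _).trans (add_le_add p1 p2)) p3)

end Pool.Agent.H320.HSC
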