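import Pool.Agent.H320.HSC.Defs

/-! Numerical part: order 3 Taylor models in fixed point arithmetic and the list of quantities to be
checked.  Everything is polymorphic in the operations, so that the same program is run on real
numbers and on Taylor models. -/

set_option autoImplicit false

open Complex
open scoped Manifold ContDiff ComplexOrder

namespace Pool.Agent.H320.HSC



theorem val_le_tot_aux (a : Int) (m : ℝ) (hm : |m| ≤ 1) :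
    |(a : ℝ) * m| ≤ (Int.natAbs a : ℝ) := by
  rw [abs_mul, Nat.cast_natAbs, Int.cast_abs]
  exact mul_le_of_le_one_right (abs_nonneg _) hm

theorem val_le_tot (σ τ : ℝ) (hs : |σ| ≤ 1) (ht : |τ| ≤ 1) (X : TM) : |X.val σ τ| ≤ TM.tot X := by
  have hs2 : |σ ^ 2| ≤ 1 := by rw [abs_pow]; exact pow_le_one₀ (abs_nonneg _) hs
  have ht2 : |τ ^ 2| ≤ 1 := by rw [abs_pow]; exact pow_le_one₀ (abs_nonneg _) ht
  have hs3 : |σ ^ 3| ≤ 1 := by rw [abs_pow]; exact pow_le_one₀ (abs_nonneg _) hs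
  have ht3 : |τ ^ 3| ≤ 1 := by rw [abs_pow]; exact pow_le_one₀ (abs_nonneg _) ht
  have hst : |σ * τ| ≤ 1 := by rw [abs_mul]; exact mul_le_one₀ hs (abs_nonneg _) ht
  have hs2t : |σ ^ 2 * τ| ≤ 1 := by rw [abs_mul]; exact mul_le_one₀ hs2 (abs_nonneg _) ht
  have hst2 : |σ * τ ^ 2| ≤ 1 := by rw [abs_mul]; exact mul_le_one₀ hs (abs_nonneg _) ht2
  have h00 : |(X.a00 : ℝ)| = (Int.natAbs X.a00 : ℝ) := by rw [Nat.cast_natAbs, Int.cast_abs]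
  have h10 := val_le_tot_aux X.a10 σ hs
  have h01 := val_le_tot_aux X.a01 τ ht
  have h20 := val_le_tot_aux X.a20 (σ ^ 2) hs2
  have h11 := val_le_tot_aux X.a11 (σ * τ) hst
  have h02 := val_le_tot_aux X.a02 (τ ^ 2) ht2
  have h30 := val_le_tot_aux X.a30 (σ ^ 3) hs3
  have h21 := val_le_tot_aux X.a21 (σ ^ 2 * τ) hs2t
  have h12 := val_le_tot_aux X.a12 (σ * τ ^ 2) hst2
  have h03 := val_le_tot_aux X.a03 (τ ^ 3) ht3
  have htot : ((TM.tot X : ℕ) : ℝ) = (Int.natAbs X.a00 : ℝ) + ((Int.natAbs X.a10 : ℝ)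
      + (Int.natAbs X.a01 : ℝ)) + (((Int.natAbs X.a20 : ℝ) + (Int.natAbs X.a11 : ℝ)
      + (Int.natAbs X.a02 : ℝ)) + (((Int.natAbs X.a30 : ℝ) + (Int.natAbs X.a21 : ℝ))
      + ((Int.natAbs X.a12 : ℝ) + (Int.natAbs X.a03 : ℝ)))) := by
    have : TM.tot X = X.a00.natAbs + (X.a10.natAbs + X.a01.natAbs) +
      ((X.a20.natAbs + X.a11.natAbs + X.a02.natAbs) + ((X.a30.natAbs + X.a21.natAbs) +
        (X.a12.natAbs + X.a03.natAbs))) := rfl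
    rw [this]
    push_cast
    ring
  rw [htot]
  unfold TM.val
  have t1 := abs_add_le ((X.a00 : ℝ) + X.a10 * σ + X.a01 * τ + X.a20 * σ ^ 2 + X.a11 * (σ * τ)
    + X.a02 * τ ^ 2 + X.a30 * σ ^ 3 + X.a21 * (σ ^ 2 * τ) + X.a12 * (σ * τ ^ 2)) (X.a03 * τ ^ 3)
  have t2 := abs_add_le ((X.a00 : ℝ) + X.a10 * σ + X.a01 * τ + X.a20 * σ ^ 2 + X.a11 * (σ * τ)
    + X.a02 * τ ^ 2 + X.a30 * σ ^ 3 + X.a21 * (σ ^ 2 * τ)) (X.a12 * (σ * τ ^ 2))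
  have t3 := abs_add_le ((X.a00 : ℝ) + X.a10 * σ + X.a01 * τ + X.a20 * σ ^ 2 + X.a11 * (σ * τ)
    + X.a02 * τ ^ 2 + X.a30 * σ ^ 3) (X.a21 * (σ ^ 2 * τ))
  have t4 := abs_add_le ((X.a00 : ℝ) + X.a10 * σ + X.a01 * τ + X.a20 * σ ^ 2 + X.a11 * (σ * τ)
    + X.a02 * τ ^ 2) (X.a30 * σ ^ 3)
  have t5 := abs_add_le ((X.a00 : ℝ) + X.a10 * σ + X.a01 * τ + X.a20 * σ ^ 2 + X.a11 * (σ * τ))
    (X.a02 * τ ^ 2)
  have t6 := abs_add_le ((X.a00 : ℝ) + X.a10 * σ + X.a01 * τ + X.a20 * σ ^ 2) (X.a11 * (σ * τ))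
  have t7 := abs_add_le ((X.a00 : ℝ) + X.a10 * σ + X.a01 * τ) (X.a20 * σ ^ 2)
  have t8 := abs_add_le ((X.a00 : ℝ) + X.a10 * σ) (X.a01 * τ)
  have t9 := abs_add_le (X.a00 : ℝ) (X.a10 * σ)
  linarith

end Pool.Agent.H320.HSC
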