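import Pool.Agent.H320.HSC.Defs
import Pool.Agent.H320.HSC.P_val_le_tot
import Pool.Agent.H320.HSC.P_mul_val

/-! Numerical part: order 3 Taylor models in fixed point arithmetic and the list of quantities to be
checked.  Everything is polymorphic in the operations, so that the same program is run on real
numbers and on Taylor models. -/

set_option autoImplicit false

open Complex
open scoped Manifold ContDiff ComplexOrder

namespace Pool.Agent.H320.HSC



theorem enc_mul_div (N : ℕ) : (N : ℝ) / 4294967296 ≤ ((Nat.div N TM.P : ℕ) : ℝ) + 1 := by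
  have h1 : Nat.div N TM.P = N / 4294967296 := rfl
  have h2 := Nat.div_add_mod N 4294967296
  have h3 := Nat.mod_lt N (show 0 < 4294967296 by norm_num)
  have h4 : N ≤ 4294967296 * (N / 4294967296 + 1) := by omega
  have h5 : (N : ℝ) ≤ 4294967296 * (((N / 4294967296 : ℕ) : ℝ) + 1) := by exact_mod_cast h4
  rw [h1, div_le_iff₀ (by norm_num)]
  linarith

theorem enc_mul_R (X Y : TM) :
    10 + ((TM.n1 X : ℝ) * TM.n3 Y + TM.n2 X * (TM.n2 Y + TM.n3 Y)
        + TM.n3 X * (TM.n1 Y + (TM.n2 Y + TM.n3 Y))) / 4294967296 +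
      ((TM.tot X : ℝ) * Y.r + TM.tot Y * X.r + X.r * Y.r) / 4294967296 ≤ (TM.mulR X Y : ℝ) := by
  have hN : TM.mulR X Y = Nat.div (TM.n1 X * TM.n3 Y + (TM.n2 X * (TM.n2 Y + TM.n3 Y) +
      TM.n3 X * (TM.n1 Y + (TM.n2 Y + TM.n3 Y))) + ((TM.tot X + X.r) * Y.r + TM.tot Y * X.r)) TM.P
      + 11 := rfl
  have h := enc_mul_div (TM.n1 X * TM.n3 Y + (TM.n2 X * (TM.n2 Y + TM.n3 Y) +
      TM.n3 X * (TM.n1 Y + (TM.n2 Y + TM.n3 Y))) + ((TM.tot X + X.r) * Y.r + TM.tot Y * X.r))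
  rw [hN, Nat.cast_add]
  push_cast at h ⊢
  linarith

theorem enc_mul (σ τ : ℝ) (hs : |σ| ≤ 1) (ht : |τ| ≤ 1) (x y : ℝ) (X Y : TM) (hx : Enc σ τ x X)
    (hy : Enc σ τ y Y) : Enc σ τ (x * y) (TM.mul X Y) := by
  intro hok
  have hok' : (X.ok && Y.ok) = true := hok
  rw [Bool.and_eq_true] at hok'
  have h1 := hx hok'.1
  have h2 := hy hok'.2
  have hr : ((TM.mul X Y).r : ℝ) = (TM.mulR X Y : ℝ) := rfl
  rw [hr]
  have h3 := mul_val σ τ hs ht X Y
  have h4 := val_le_tot σ τ hs ht X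
  have h5 := val_le_tot σ τ hs ht Y
  have h6 := enc_mul_R X Y
  obtain ⟨A, hA⟩ : ∃ A : ℝ, A = X.val σ τ := ⟨_, rfl⟩
  obtain ⟨B, hB⟩ : ∃ B : ℝ, B = Y.val σ τ := ⟨_, rfl⟩
  obtain ⟨C, hC⟩ : ∃ C : ℝ, C = (TM.mul X Y).val σ τ := ⟨_, rfl⟩
  rw [← hA, ← hB, ← hC] at h3
  rw [← hA] at h1 h4
  rw [← hB] at h2 h5
  rw [← hC]
  obtain ⟨e, he⟩ : ∃ e : ℝ, e = x * 4294967296 - A := ⟨_, rfl⟩
  obtain ⟨f, hf⟩ : ∃ f : ℝ, f = y * 4294967296 - B := ⟨_, rfl⟩
  rw [← he] at h1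
  rw [← hf] at h2
  have key : x * y * 4294967296 - C = (A * B / 4294967296 - C) + (A * f + B * e + e * f) / 4294967296 := by
    rw [he, hf]; ring
  rw [key]
  have h7 : |(A * f + B * e + e * f) / 4294967296| ≤
      ((TM.tot X : ℝ) * Y.r + TM.tot Y * X.r + X.r * Y.r) / 4294967296 := by
    rw [abs_div, abs_of_pos (show (0 : ℝ) < 4294967296 by norm_num)]
    refine div_le_div_of_nonneg_right ?_ (by norm_num)
    have a1 : |A * f| ≤ (TM.tot X : ℝ) * Y.r := by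
      rw [abs_mul]; exact mul_le_mul h4 h2 (abs_nonneg _) (Nat.cast_nonneg _)
    have a2 : |B * e| ≤ (TM.tot Y : ℝ) * X.r := by
      rw [abs_mul]; exact mul_le_mul h5 h1 (abs_nonneg _) (Nat.cast_nonneg _)
    have a3 : |e * f| ≤ (X.r : ℝ) * Y.r := by
      rw [abs_mul]; exact mul_le_mul h1 h2 (abs_nonneg _) (Nat.cast_nonneg _)
    have a4 := abs_add_le (A * f + B * e) (e * f)
    have a5 := abs_add_le (A * f) (B * e)
    linarith
  have h8 := abs_add_le (A * B / 4294967296 - C) ((A * f + B * e + e * f) / 4294967296)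
  linarith

end Pool.Agent.H320.HSC
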