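import Pool.Agent.H320.HSC.Defs

/-! Numerical part: order 3 Taylor models in fixed point arithmetic and the list of quantities to be
checked.  Everything is polymorphic in the operations, so that the same program is run on real
numbers and on Taylor models. -/

set_option autoImplicit false

open Complex
open scoped Manifold ContDiff ComplexOrder

namespace Pool.Agent.H320.HSC



theorem enc_sub (σ τ : ℝ) (hs : |σ| ≤ 1) (ht : |τ| ≤ 1) (x y : ℝ) (X Y : TM) (hx : Enc σ τ x X)
    (hy : Enc σ τ y Y) : Enc σ τ (x - y) (TM.sub X Y) := by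
  intro hok
  have hok' : (and X.ok Y.ok) = true := hok
  have h1 : X.ok = true := by
    revert hok'
    cases X.ok <;> cases Y.ok <;> simp
  have h2 : Y.ok = true := by
    revert hok'
    cases X.ok <;> cases Y.ok <;> simp
  have a1 := hx h1
  have a2 := hy h2
  have e : (TM.sub X Y).val σ τ = X.val σ τ - Y.val σ τ := by
    have hsub : ∀ a b : Int, Int.sub a b = a - b := fun _ _ => rfl
    simp only [TM.val, TM.sub, hsub]
    push_cast
    ring
  have er : (((TM.sub X Y).r : ℕ) : ℝ) = (X.r : ℝ) + (Y.r : ℝ) := by
    have hadd : ∀ a b : Nat, Nat.add a b = a + b := fun _ _ => rfl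
    simp only [TM.sub, hadd]
    push_cast
    rfl
  rw [e, er]
  have e3 : (x - y) * 4294967296 - (X.val σ τ - Y.val σ τ) =
      (x * 4294967296 - X.val σ τ) - (y * 4294967296 - Y.val σ τ) := by ring
  rw [e3]
  exact (abs_sub _ _).trans (add_le_add a1 a2)

end Pool.Agent.H320.HSC
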