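import Pool.Agent.H320.HSC.Defs
import Pool.Agent.H320.HSC.P_enc_cst
import Pool.Agent.H320.HSC.P_enc_sub
import Pool.Agent.H320.HSC.P_val_le_tot
import Pool.Agent.H320.HSC.P_enc_mul

/-! Numerical part: order 3 Taylor models in fixed point arithmetic and the list of quantities to be
checked.  Everything is polymorphic in the operations, so that the same program is run on real
numbers and on Taylor models. -/

set_option autoImplicit false

open Complex
open scoped Manifold ContDiff ComplexOrder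

namespace Pool.Agent.H320.HSC



theorem enc_inv_val_sub (σ τ : ℝ) (A B : TM) :
    (TM.sub A B).val σ τ = A.val σ τ - B.val σ τ := by
  have h : ∀ a b : ℤ, ((Int.sub a b : ℤ) : ℝ) = a - b := fun a b => Int.cast_sub a b
  unfold TM.val TM.sub
  simp only [h]
  ring

theorem enc_inv_val_cst (σ τ : ℝ) : (TM.cst 1).val σ τ = 4294967296 := by
  unfold TM.val TM.cst
  simp

theorem enc_inv_aux (x y P d t v rest : ℝ) (hP : 0 < P) (hd0 : 0 ≤ d) (hd : d < P)
    (h1 : |1 - x * y| * P ≤ d) (h2 : |y| * P ≤ t) (hv : v = y * P)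
    (h3 : t * d ≤ (P - d) * rest) : |x⁻¹ * P - v| ≤ rest := by
  have hPd : 0 < P - d := by linarith
  have h4 : P - x * y * P ≤ d := by
    have := le_abs_self (1 - x * y)
    nlinarith
  have hxyP : P - d ≤ x * y * P := by linarith
  have hxy : 0 < x * y := by
    by_contra hcon
    push Not at hcon
    nlinarith
  have hx : x ≠ 0 := by
    rintro rfl
    simp at hxy
  have hy0 : 0 < |x| * |y| := by rw [← abs_mul]; exact abs_pos.mpr hxy.ne'
  have hxa : 0 < |x| := abs_pos.mpr hx
  have e1 : x⁻¹ * P - v = (1 - x * y) * P / x := by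
    rw [hv]
    field_simp
  rw [e1, abs_div, abs_mul, abs_of_pos hP, div_le_iff₀ hxa]
  have hxye : |x| * |y| = x * y := by rw [← abs_mul, abs_of_pos hxy]
  have hya : 0 ≤ |y| := abs_nonneg y
  -- d * (P - d) ≤ d * |x| |y| P ≤ |x| * (t * d) ≤ |x| * (P-d) * rest
  have h5 : d * (P - d) ≤ (rest * |x|) * (P - d) := by
    calc d * (P - d) ≤ d * (x * y * P) := mul_le_mul_of_nonneg_left hxyP hd0
      _ = |x| * (|y| * P * d) := by rw [← hxye]; ring
      _ ≤ |x| * (t * d) := by
          apply mul_le_mul_of_nonneg_left _ hxa.le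
          exact mul_le_mul_of_nonneg_right h2 hd0
      _ ≤ |x| * ((P - d) * rest) := mul_le_mul_of_nonneg_left h3 hxa.le
      _ = (rest * |x|) * (P - d) := by ring
  have h6 : d ≤ rest * |x| := le_of_mul_le_mul_right h5 hPd
  linarith

theorem enc_inv (σ τ : ℝ) (hs : |σ| ≤ 1) (ht : |τ| ≤ 1) (x : ℝ) (X : TM) (hx : Enc σ τ x X) :
    Enc σ τ x⁻¹ (TM.inv X) := by
  intro hok
  have hYok : (TM.cand X).ok = true := rfl
  have hYr : (TM.cand X).r = 0 := rfl
  have hinv : TM.inv X = TM.invWith X (TM.cand X) (TM.defect X (TM.cand X)) := rfl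
  rw [hinv] at hok ⊢
  generalize TM.cand X = Y at *
  have hok' : (and X.ok (Nat.blt (TM.defect X Y) TM.P)) = true := hok
  rw [Bool.and_eq_true] at hok'
  obtain ⟨hXok, hblt⟩ := hok'
  have hlt : TM.defect X Y < TM.P := Nat.blt_eq.mp hblt
  have hval : (TM.invWith X Y (TM.defect X Y)).val σ τ = Y.val σ τ := rfl
  have hr : (TM.invWith X Y (TM.defect X Y)).r =
      TM.tot Y * TM.defect X Y / (TM.P - TM.defect X Y) + 1 := rfl
  rw [hval, hr]
  set y : ℝ := Y.val σ τ / 4294967296 with hy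
  have hyv : Y.val σ τ = y * 4294967296 := by rw [hy]; field_simp
  have hYe : Enc σ τ y Y := by
    intro _
    rw [hyv, sub_self, abs_zero]
    exact Nat.cast_nonneg _
  have hm := enc_mul σ τ hs ht x y X Y hx hYe (by
    show (and X.ok Y.ok) = true
    rw [hXok, hYok]; rfl)
  have hv := val_le_tot σ τ hs ht (TM.sub (TM.cst 1) (TM.mul X Y))
  rw [enc_inv_val_sub, enc_inv_val_cst] at hv
  have hvY := val_le_tot σ τ hs ht Y
  have hdef : (TM.defect X Y : ℝ) = (TM.tot (TM.sub (TM.cst 1) (TM.mul X Y)) : ℝ) +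
      ((TM.mul X Y).r : ℝ) := by
    have : TM.defect X Y = TM.tot (TM.sub (TM.cst 1) (TM.mul X Y)) + (TM.mul X Y).r := rfl
    rw [this]; push_cast; ring
  have hPr : ((TM.P : ℕ) : ℝ) = 4294967296 := by norm_num [TM.P]
  have hltR : (TM.defect X Y : ℝ) < 4294967296 := by
    rw [← hPr]; exact_mod_cast hlt
  have h1 : |1 - x * y| * 4294967296 ≤ (TM.defect X Y : ℝ) := by
    have e : |1 - x * y| * 4294967296 = |(1 - x * y) * 4294967296| := by
      rw [abs_mul, abs_of_pos (by norm_num : (0:ℝ) < 4294967296)]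
    rw [e, hdef]
    have e2 : (1 - x * y) * 4294967296 = (4294967296 - (TM.mul X Y).val σ τ) -
        (x * y * 4294967296 - (TM.mul X Y).val σ τ) := by ring
    rw [e2]
    exact (abs_sub _ _).trans (add_le_add hv hm)
  have h2 : |y| * 4294967296 ≤ (TM.tot Y : ℝ) := by
    have e : |y| * 4294967296 = |Y.val σ τ| := by
      rw [hyv, abs_mul, abs_of_pos (by norm_num : (0:ℝ) < 4294967296)]
    rw [e]
    exact hvY
  refine enc_inv_aux x y 4294967296 (TM.defect X Y : ℝ) (TM.tot Y : ℝ) _ _ (by norm_num)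
    (Nat.cast_nonneg _) hltR h1 h2 hyv ?_
  have hpos : 0 < TM.P - TM.defect X Y := Nat.sub_pos_of_lt hlt
  have h3 := (Nat.lt_mul_div_succ (TM.tot Y * TM.defect X Y) hpos).le
  have h4 : ((TM.tot Y * TM.defect X Y : ℕ) : ℝ) ≤
      (((TM.P - TM.defect X Y) * (TM.tot Y * TM.defect X Y / (TM.P - TM.defect X Y) + 1) : ℕ) : ℝ) := by
    exact_mod_cast h3
  rw [Nat.cast_mul, Nat.cast_mul, Nat.cast_sub hlt.le, hPr] at h4
  exact h4

end Pool.Agent.H320.HSC
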