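import Pool.Agent.H320.HSC.Defs

/-! Numerical part: order 3 Taylor models in fixed point arithmetic and the list of quantities to be
checked.  Everything is polymorphic in the operations, so that the same program is run on real
numbers and on Taylor models. -/

set_option autoImplicit false

open Complex
open scoped Manifold ContDiff ComplexOrder

namespace Pool.Agent.H320.HSC



/-- job26267: a coefficient times a monomial of size at most one -/
theorem job26267_term (a : Int) (m : ℝ) (hm : |m| ≤ 1) : -((Int.natAbs a : ℕ) : ℝ) ≤ (a : ℝ) * m := by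
  have h1 : |(a : ℝ) * m| ≤ ((Int.natAbs a : ℕ) : ℝ) := by
    rw [abs_mul, Nat.cast_natAbs, Int.cast_abs]
    calc |(a : ℝ)| * |m| ≤ |(a : ℝ)| * 1 := mul_le_mul_of_nonneg_left hm (abs_nonneg _)
      _ = |(a : ℝ)| := mul_one _
  have h2 := (abs_le.mp h1).1
  exact h2

/-- job26267: product of two reals of size at most one -/
theorem job26267_mul (a b : ℝ) (ha : |a| ≤ 1) (hb : |b| ≤ 1) : |a * b| ≤ 1 := by
  rw [abs_mul]
  exact mul_le_one₀ ha (abs_nonneg _) hb

/-- job26267: power of a real of size at most one -/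
theorem job26267_pow (a : ℝ) (n : ℕ) (ha : |a| ≤ 1) : |a ^ n| ≤ 1 := by
  rw [abs_pow]
  exact pow_le_one₀ (abs_nonneg _) ha

theorem enc_pos (σ τ : ℝ) (hs : |σ| ≤ 1) (ht : |τ| ≤ 1) (x : ℝ) (X : TM) (hx : Enc σ τ x X)
    (h : TM.pos X = true) : 0 < x := by
  obtain ⟨a00, a10, a01, a20, a11, a02, a30, a21, a12, a03, r, ok⟩ := X
  cases ok with
  | false => exact absurd h (by simp [TM.pos])
  | true =>
    cases a00 with
    | negSucc n => exact absurd h (by simp [TM.pos])
    | ofNat n =>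
      have h1 : Nat.blt (Nat.add (Nat.add (Nat.add (Int.natAbs a10) (Int.natAbs a01))
          (Nat.add (Nat.add (Nat.add (Int.natAbs a20) (Int.natAbs a11)) (Int.natAbs a02))
            (Nat.add (Nat.add (Int.natAbs a30) (Int.natAbs a21))
              (Nat.add (Int.natAbs a12) (Int.natAbs a03))))) r) n = true := h
      have h2 : ((Int.natAbs a10 + Int.natAbs a01) +
          ((Int.natAbs a20 + Int.natAbs a11 + Int.natAbs a02) +
            ((Int.natAbs a30 + Int.natAbs a21) + (Int.natAbs a12 + Int.natAbs a03)))) + r < n :=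
        Nat.blt_eq.mp h1
      have h3 : (((Int.natAbs a10 : ℕ) : ℝ) + ((Int.natAbs a01 : ℕ) : ℝ)) +
          ((((Int.natAbs a20 : ℕ) : ℝ) + ((Int.natAbs a11 : ℕ) : ℝ) + ((Int.natAbs a02 : ℕ) : ℝ)) +
            ((((Int.natAbs a30 : ℕ) : ℝ) + ((Int.natAbs a21 : ℕ) : ℝ)) +
              (((Int.natAbs a12 : ℕ) : ℝ) + ((Int.natAbs a03 : ℕ) : ℝ)))) + (r : ℝ) < (n : ℝ) := by
        exact_mod_cast h2
      have h4 : |x * 4294967296 - (((Int.ofNat n : Int) : ℝ) + (a10 : ℝ) * σ + (a01 : ℝ) * τ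
          + (a20 : ℝ) * σ ^ 2 + (a11 : ℝ) * (σ * τ) + (a02 : ℝ) * τ ^ 2
          + (a30 : ℝ) * σ ^ 3 + (a21 : ℝ) * (σ ^ 2 * τ) + (a12 : ℝ) * (σ * τ ^ 2)
          + (a03 : ℝ) * τ ^ 3)| ≤ (r : ℝ) := hx rfl
      have h5 : ((Int.ofNat n : Int) : ℝ) = (n : ℝ) := by
        rw [Int.ofNat_eq_natCast, Int.cast_natCast]
      rw [h5] at h4
      have h6 := (abs_le.mp h4).1
      have b1 := job26267_term a10 σ hs
      have b2 := job26267_term a01 τ ht
      have b3 := job26267_term a20 (σ ^ 2) (job26267_pow σ 2 hs)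
      have b4 := job26267_term a11 (σ * τ) (job26267_mul σ τ hs ht)
      have b5 := job26267_term a02 (τ ^ 2) (job26267_pow τ 2 ht)
      have b6 := job26267_term a30 (σ ^ 3) (job26267_pow σ 3 hs)
      have b7 := job26267_term a21 (σ ^ 2 * τ) (job26267_mul _ _ (job26267_pow σ 2 hs) ht)
      have b8 := job26267_term a12 (σ * τ ^ 2) (job26267_mul _ _ hs (job26267_pow τ 2 ht))
      have b9 := job26267_term a03 (τ ^ 3) (job26267_pow τ 3 ht)
      linarith

end Pool.Agent.H320.HSC
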