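import Pool.Agent.H320.HSC.Defs

/-! Numerical part: order 3 Taylor models in fixed point arithmetic and the list of quantities to be
checked.  Everything is polymorphic in the operations, so that the same program is run on real
numbers and on Taylor models. -/

set_option autoImplicit false

open Complex
open scoped Manifold ContDiff ComplexOrder

namespace Pool.Agent.H320.HSC



theorem rel_comb {R S : Type} (o : Ops R) (o' : Ops S) (r : R → S → Prop) (h : RelOps o o' r)
    (A B C D : D14 R) (A' B' C' D' : D14 S) (h1 : RelD r A A') (h2 : RelD r B B')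
    (h3 : RelD r C C') (h4 : RelD r D D') :
    RelD r (comb o A B C D) (comb o' A' B' C' D') := by
  have key : ∀ (a b c d : R) (a' b' c' d' : S), r a a' → r b b' → r c c' → r d d' →
      r (o.add (o.mul (o.nat 3) (o.add a b)) (o.add c d))
        (o'.add (o'.mul (o'.nat 3) (o'.add a' b')) (o'.add c' d')) := by
    intro a b c d a' b' c' d' ha hb hc hd
    exact h.add _ _ _ _ (h.mul _ _ _ _ (h.nat 3) (h.add _ _ _ _ ha hb)) (h.add _ _ _ _ hc hd)
  exact {
    s := key _ _ _ _ _ _ _ _ h1.s h2.s h3.s h4.s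
    t := key _ _ _ _ _ _ _ _ h1.t h2.t h3.t h4.t
    ss := key _ _ _ _ _ _ _ _ h1.ss h2.ss h3.ss h4.ss
    st := key _ _ _ _ _ _ _ _ h1.st h2.st h3.st h4.st
    tt := key _ _ _ _ _ _ _ _ h1.tt h2.tt h3.tt h4.tt
    sss := key _ _ _ _ _ _ _ _ h1.sss h2.sss h3.sss h4.sss
    sst := key _ _ _ _ _ _ _ _ h1.sst h2.sst h3.sst h4.sst
    stt := key _ _ _ _ _ _ _ _ h1.stt h2.stt h3.stt h4.stt
    ttt := key _ _ _ _ _ _ _ _ h1.ttt h2.ttt h3.ttt h4.ttt
    ssss := key _ _ _ _ _ _ _ _ h1.ssss h2.ssss h3.ssss h4.ssss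
    ssst := key _ _ _ _ _ _ _ _ h1.ssst h2.ssst h3.ssst h4.ssst
    sstt := key _ _ _ _ _ _ _ _ h1.sstt h2.sstt h3.sstt h4.sstt
    sttt := key _ _ _ _ _ _ _ _ h1.sttt h2.sttt h3.sttt h4.sttt
    tttt := key _ _ _ _ _ _ _ _ h1.tttt h2.tttt h3.tttt h4.tttt
  }

end Pool.Agent.H320.HSC
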