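import Pool.Agent.H320.HSC.Defs
import Pool.Agent.H320.HSC.P_rel_cum
import Pool.Agent.H320.HSC.P_rel_comb

/-! Numerical part: order 3 Taylor models in fixed point arithmetic and the list of quantities to be
checked.  Everything is polymorphic in the operations, so that the same program is run on real
numbers and on Taylor models. -/

set_option autoImplicit false

open Complex
open scoped Manifold ContDiff ComplexOrder

namespace Pool.Agent.H320.HSC



theorem rel_dF {R S : Type} (o : Ops R) (o' : Ops S) (r : R → S → Prop) (h : RelOps o o' r)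
    (s t : R) (s' t' : S) (hs : r s s') (ht : r t t') : RelD r (dF o s t) (dF o' s' t') := by
  have hn := h.nat
  have hadd := fun {x y x' y'} => h.add x y x' y'
  have hmul := fun {x y x' y'} => h.mul x y x' y'
  have hinv := fun {x x'} => h.inv x x'
  have hQ : ∀ {s t : R} {s' t' : S}, r s s' → r t t' → r (pQ o s t) (pQ o' s' t') := by
    intro s t s' t' hs ht
    unfold pQ
    repeat' first | assumption | apply hn | apply hadd | apply hmul
  have hQs : ∀ {s t : R} {s' t' : S}, r s s' → r t t' → r (pQs o s t) (pQs o' s' t') := by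
    intro s t s' t' hs ht
    unfold pQs
    repeat' first | assumption | apply hn | apply hadd | apply hmul
  have hQt : ∀ {s t : R} {s' t' : S}, r s s' → r t t' → r (pQt o s t) (pQt o' s' t') := by
    intro s t s' t' hs ht
    unfold pQt
    repeat' first | assumption | apply hn | apply hadd | apply hmul
  have hQss : ∀ {t : R} {t' : S}, r t t' → r (pQss o t) (pQss o' t') := by
    intro t t' ht
    unfold pQss
    repeat' first | assumption | apply hn | apply hadd | apply hmul
  have hQst : ∀ {s t : R} {s' t' : S}, r s s' → r t t' → r (pQst o s t) (pQst o' s' t') := by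
    intro s t s' t' hs ht
    unfold pQst
    repeat' first | assumption | apply hn | apply hadd | apply hmul
  have hQtt : ∀ {t : R} {t' : S}, r t t' → r (pQtt o t) (pQtt o' t') := by
    intro t t' ht
    unfold pQtt
    repeat' first | assumption | apply hn | apply hadd | apply hmul
  have hQsst : ∀ {t : R} {t' : S}, r t t' → r (pQsst o t) (pQsst o' t') := by
    intro t t' ht
    unfold pQsst
    repeat' first | assumption | apply hn | apply hadd | apply hmul
  have hQstt : ∀ {t : R} {t' : S}, r t t' → r (pQstt o t) (pQstt o' t') := by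
    intro t t' ht
    unfold pQstt
    repeat' first | assumption | apply hn | apply hadd | apply hmul
  have iQ : r (o.inv (pQ o s t)) (o'.inv (pQ o' s' t')) := hinv (hQ hs ht)
  have iP : r (o.inv (pQ o t s)) (o'.inv (pQ o' t' s')) := hinv (hQ ht hs)
  have i1 : r (o.inv (o.add (o.nat 1) (o.add s (o.mul s t))))
      (o'.inv (o'.add (o'.nat 1) (o'.add s' (o'.mul s' t')))) :=
    hinv (hadd (hn 1) (hadd hs (hmul hs ht)))
  have i2 : r (o.inv (o.add (o.nat 1) (o.add t (o.mul s t))))
      (o'.inv (o'.add (o'.nat 1) (o'.add t' (o'.mul s' t')))) :=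
    hinv (hadd (hn 1) (hadd ht (hmul hs ht)))
  unfold dF
  apply rel_comb o o' r h
  · unfold dL1
    exact rel_cum o o' r h _ _ _ _ _ _ _ _ _ _ _ _ _ _ _ _ (hmul (hadd (hn 1) ht) i1) (hmul hs i1)
      (hn 0) i1 (hn 0) (hn 0) (hn 0) (hn 0)
  · unfold dL2
    exact rel_cum o o' r h _ _ _ _ _ _ _ _ _ _ _ _ _ _ _ _ (hmul ht i2) (hmul (hadd (hn 1) hs) i2)
      (hn 0) i2 (hn 0) (hn 0) (hn 0) (hn 0)
  · unfold dQ dQ'
    exact rel_cum o o' r h _ _ _ _ _ _ _ _ _ _ _ _ _ _ _ _ (hmul (hQs hs ht) iQ)
      (hmul (hQt hs ht) iQ) (hmul (hQss ht) iQ) (hmul (hQst hs ht) iQ) (hmul (hQtt hs) iQ)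
      (hmul (hQsst ht) iQ) (hmul (hQstt hs) iQ) (hmul (hn 4) iQ)
  · unfold dP dP'
    exact rel_cum o o' r h _ _ _ _ _ _ _ _ _ _ _ _ _ _ _ _ (hmul (hQt ht hs) iP)
      (hmul (hQs ht hs) iP) (hmul (hQtt ht) iP) (hmul (hQst ht hs) iP) (hmul (hQss hs) iP)
      (hmul (hQstt ht) iP) (hmul (hQsst hs) iP) (hmul (hn 4) iP)

end Pool.Agent.H320.HSC
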