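import Pool.Agent.H320.HSC.Defs

/-! Numerical part: order 3 Taylor models in fixed point arithmetic and the list of quantities to be
checked.  Everything is polymorphic in the operations, so that the same program is run on real
numbers and on Taylor models. -/

set_option autoImplicit false

open Complex
open scoped Manifold ContDiff ComplexOrder

namespace Pool.Agent.H320.HSC



theorem rel_m2 {R S : Type} (o : Ops R) (o' : Ops S) (r : R → S → Prop) (h : RelOps o o' r)
    (A : Q6 R) (B : Q6 S) (hA : RelQ r A B) :
    r (m2 o A) (m2 o' B) ∧ r (det4 o A) (det4 o' B) := by
  obtain ⟨h1, h2, h3, h4, h5, h6⟩ := hA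
  have hm : r (m2 o A) (m2 o' B) := by
    unfold m2
    repeat' first | assumption | apply h.nat | apply h.add | apply h.sub | apply h.mul
  refine ⟨hm, ?_⟩
  unfold det4
  repeat' first | assumption | apply h.nat | apply h.add | apply h.sub | apply h.mul

end Pool.Agent.H320.HSC
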