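import Pool.Agent.H320.HSC.Defs

/-! Numerical part: order 3 Taylor models in fixed point arithmetic and the list of quantities to be
checked.  Everything is polymorphic in the operations, so that the same program is run on real
numbers and on Taylor models. -/

set_option autoImplicit false

open Complex
open scoped Manifold ContDiff ComplexOrder

namespace Pool.Agent.H320.HSC



theorem rel_mid {R S : Type} (o : Ops R) (o' : Ops S) (r : R → S → Prop) (h : RelOps o o' r)
    (s t : R) (s' t' : S) (A : D14 R) (B : D14 S) (hs : r s s') (ht : r t t') (hA : RelD r A B) :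
    RelM r (mid o s t A) (mid o' s' t' B) := by
  have h1 := hA.s
  have h2 := hA.t
  have h3 := hA.ss
  have h4 := hA.st
  have h5 := hA.tt
  have h6 := hA.sss
  have h7 := hA.sst
  have h8 := hA.stt
  have h9 := hA.ttt
  have h10 := hA.ssss
  have h11 := hA.ssst
  have h12 := hA.sstt
  have h13 := hA.sttt
  have h14 := hA.tttt
  constructor
  all_goals
    simp only [mid]
    repeat' first
      | assumption
      | exact h.nat _
      | refine h.add _ _ _ _ ?_ ?_
      | refine h.sub _ _ _ _ ?_ ?_
      | refine h.mul _ _ _ _ ?_ ?_

end Pool.Agent.H320.HSC
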