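import Pool.Agent.H320.HSC.Defs
import Pool.Agent.H320.HSC.P_enc_cst
import Pool.Agent.H320.HSC.P_enc_add
import Pool.Agent.H320.HSC.P_enc_sub
import Pool.Agent.H320.HSC.P_enc_mul
import Pool.Agent.H320.HSC.P_enc_inv
import Pool.Agent.H320.HSC.P_enc_pos
import Pool.Agent.H320.HSC.P_enc_boxS
import Pool.Agent.H320.HSC.P_enc_boxT
import Pool.Agent.H320.HSC.P_rel_dF
import Pool.Agent.H320.HSC.P_rel_mid
import Pool.Agent.H320.HSC.P_rel_q6
import Pool.Agent.H320.HSC.P_rel_m2

/-! Numerical part: order 3 Taylor models in fixed point arithmetic and the list of quantities to be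
checked.  Everything is polymorphic in the operations, so that the same program is run on real
numbers and on Taylor models. -/

set_option autoImplicit false

open Complex
open scoped Manifold ContDiff ComplexOrder

namespace Pool.Agent.H320.HSC



theorem cg_exists (x : ℝ) (a h : ℕ) (hx : |x * 8192 - a| ≤ h) :
    ∃ σ : ℝ, |σ| ≤ 1 ∧ x = (a + h * σ) / 8192 := by
  rcases Nat.eq_zero_or_pos h with h0 | h0
  · subst h0
    refine ⟨0, by simp, ?_⟩
    have h1 : x * 8192 - a = 0 := by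
      have h2 : |x * 8192 - a| ≤ 0 := by simpa using hx
      exact abs_eq_zero.1 (le_antisymm h2 (abs_nonneg _))
    linarith
  · have h1 : (0 : ℝ) < h := by exact_mod_cast h0
    refine ⟨(x * 8192 - a) / h, ?_, ?_⟩
    · rw [abs_div, abs_of_pos h1, div_le_one h1]
      exact hx
    · rw [mul_div_cancel₀ _ h1.ne']
      ring

theorem cg_main (σ τ : ℝ) (hs : |σ| ≤ 1) (ht : |τ| ≤ 1) (s t : ℝ) (S T : TM)
    (h1 : Enc σ τ s S) (h2 : Enc σ τ t T) (hc : chk S T = true) : Good s t := by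
  have hR : RelOps rOps TM.tOps (Enc σ τ) :=
    { add := fun x y x' y' hx hy => enc_add σ τ hs ht x y x' y' hx hy
      sub := fun x y x' y' hx hy => enc_sub σ τ hs ht x y x' y' hx hy
      mul := fun x y x' y' hx hy => enc_mul σ τ hs ht x y x' y' hx hy
      inv := fun x x' hx => enc_inv σ τ hs ht x x' hx
      nat := fun n => enc_cst σ τ n }
  have rD := rel_dF rOps TM.tOps _ hR s t S T h1 h2
  have rM := rel_mid rOps TM.tOps _ hR s t S T _ _ h1 h2 rD
  have rQ := rel_q6 rOps TM.tOps _ hR s t S T _ _ h1 h2 rM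
  have rm := rel_m2 rOps TM.tOps _ hR _ _ rQ
  unfold chk chkM chkQ at hc
  simp only [Bool.and_eq_true] at hc
  exact ⟨enc_pos σ τ hs ht _ _ rM.dt hc.1.1, enc_pos σ τ hs ht _ _ rQ.al hc.1.2,
    enc_pos σ τ hs ht _ _ rm.1 hc.2.1, enc_pos σ τ hs ht _ _ rm.2 hc.2.2⟩

theorem chk_good (a h b k : ℕ) (hc : chkB a h b k = true) (s t : ℝ) (hs : |s * 8192 - a| ≤ h)
    (ht : |t * 8192 - b| ≤ k) : Good s t := by
  obtain ⟨σ, hσ, es⟩ := cg_exists s a h hs
  obtain ⟨τ, hτ, et⟩ := cg_exists t b k ht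
  have h1 := enc_boxS σ τ a h
  have h2 := enc_boxT σ τ b k
  rw [← es] at h1
  rw [← et] at h2
  unfold chkB at hc
  exact cg_main σ τ hσ hτ s t _ _ h1 h2 hc

end Pool.Agent.H320.HSC
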