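import Pool.Agent.H320.HSC.N00
import Pool.Agent.H320.HSC.N01
import Pool.Agent.H320.HSC.N02
import Pool.Agent.H320.HSC.N03
import Pool.Agent.H320.HSC.N04
import Pool.Agent.H320.HSC.N05
import Pool.Agent.H320.HSC.N06
import Pool.Agent.H320.HSC.N07
import Pool.Agent.H320.HSC.N08
import Pool.Agent.H320.HSC.N09
import Pool.Agent.H320.HSC.N10
import Pool.Agent.H320.HSC.N11
import Pool.Agent.H320.HSC.N12
import Pool.Agent.H320.HSC.N13
import Pool.Agent.H320.HSC.N14
import Pool.Agent.H320.HSC.N15
import Pool.Agent.H320.HSC.N16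
import Pool.Agent.H320.HSC.N17
import Pool.Agent.H320.HSC.N18
import Pool.Agent.H320.HSC.N19
import Pool.Agent.H320.HSC.N20
import Pool.Agent.H320.HSC.N21
import Pool.Agent.H320.HSC.N22
import Pool.Agent.H320.HSC.N23
import Pool.Agent.H320.HSC.N24
import Pool.Agent.H320.HSC.N25
import Pool.Agent.H320.HSC.N26
import Pool.Agent.H320.HSC.N27
import Pool.Agent.H320.HSC.N28
import Pool.Agent.H320.HSC.N29
import Pool.Agent.H320.HSC.N30
import Pool.Agent.H320.HSC.N31
import Pool.Agent.H320.HSC.N32
import Pool.Agent.H320.HSC.N33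
import Pool.Agent.H320.HSC.N34
import Pool.Agent.H320.HSC.N35
set_option autoImplicit false
namespace Pool.Agent.H320.HSC

theorem n_128_128_64_64 : Cov 128 128 64 64 := cov_leaf _ _ _ _ c_128_128_64_64
theorem n_128_128_192_64 : Cov 128 128 192 64 := cov_leaf _ _ _ _ c_128_128_192_64
theorem n_128_128_128_128 : Cov 128 128 128 128 := cov_b 128 128 64 64 n_128_128_64_64 n_128_128_192_64
theorem n_384_128_64_64 : Cov 384 128 64 64 := cov_leaf _ _ _ _ c_384_128_64_64
theorem n_384_128_192_64 : Cov 384 128 192 64 := cov_leaf _ _ _ _ c_384_128_192_64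
theorem n_384_128_128_128 : Cov 384 128 128 128 := cov_b 384 128 64 64 n_384_128_64_64 n_384_128_192_64
theorem n_256_256_128_128 : Cov 256 256 128 128 := cov_a 128 128 128 128 n_128_128_128_128 n_384_128_128_128
theorem n_64_64_384_128 : Cov 64 64 384 128 := cov_skip _ _ _ _ (by norm_num)
theorem n_192_64_384_128 : Cov 192 64 384 128 := cov_leaf _ _ _ _ c_192_64_384_128
theorem n_128_128_384_128 : Cov 128 128 384 128 := cov_a 64 64 384 128 n_64_64_384_128 n_192_64_384_128
theorem n_384_128_384_128 : Cov 384 128 384 128 := cov_leaf _ _ _ _ c_384_128_384_128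
theorem n_256_256_384_128 : Cov 256 256 384 128 := cov_a 128 128 384 128 n_128_128_384_128 n_384_128_384_128
theorem n_256_256_256_256 : Cov 256 256 256 256 := cov_b 256 256 128 128 n_256_256_128_128 n_256_256_384_128
theorem n_640_128_64_64 : Cov 640 128 64 64 := cov_leaf _ _ _ _ c_640_128_64_64
theorem n_640_128_192_64 : Cov 640 128 192 64 := cov_leaf _ _ _ _ c_640_128_192_64
theorem n_640_128_128_128 : Cov 640 128 128 128 := cov_b 640 128 64 64 n_640_128_64_64 n_640_128_192_64
theorem n_896_128_64_64 : Cov 896 128 64 64 := cov_leaf _ _ _ _ c_896_128_64_64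
theorem n_896_128_192_64 : Cov 896 128 192 64 := cov_leaf _ _ _ _ c_896_128_192_64
theorem n_896_128_128_128 : Cov 896 128 128 128 := cov_b 896 128 64 64 n_896_128_64_64 n_896_128_192_64
theorem n_768_256_128_128 : Cov 768 256 128 128 := cov_a 640 128 128 128 n_640_128_128_128 n_896_128_128_128
theorem n_640_128_384_128 : Cov 640 128 384 128 := cov_leaf _ _ _ _ c_640_128_384_128
theorem n_896_128_384_128 : Cov 896 128 384 128 := cov_leaf _ _ _ _ c_896_128_384_128
theorem n_768_256_384_128 : Cov 768 256 384 128 := cov_a 640 128 384 128 n_640_128_384_128 n_896_128_384_128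
theorem n_768_256_256_256 : Cov 768 256 256 256 := cov_b 768 256 128 128 n_768_256_128_128 n_768_256_384_128
theorem n_512_512_256_256 : Cov 512 512 256 256 := cov_a 256 256 256 256 n_256_256_256_256 n_768_256_256_256
theorem n_128_128_768_256 : Cov 128 128 768 256 := cov_skip _ _ _ _ (by norm_num)
theorem n_384_128_640_128 : Cov 384 128 640 128 := cov_leaf _ _ _ _ c_384_128_640_128
theorem n_384_128_896_128 : Cov 384 128 896 128 := cov_skip _ _ _ _ (by norm_num)
theorem n_384_128_768_256 : Cov 384 128 768 256 := cov_b 384 128 640 128 n_384_128_640_128 n_384_128_896_128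
theorem n_256_256_768_256 : Cov 256 256 768 256 := cov_a 128 128 768 256 n_128_128_768_256 n_384_128_768_256
theorem n_640_128_640_128 : Cov 640 128 640 128 := cov_leaf _ _ _ _ c_640_128_640_128
theorem n_896_128_640_128 : Cov 896 128 640 128 := cov_leaf _ _ _ _ c_896_128_640_128
theorem n_768_256_640_128 : Cov 768 256 640 128 := cov_a 640 128 640 128 n_640_128_640_128 n_896_128_640_128
theorem n_640_128_896_128 : Cov 640 128 896 128 := cov_leaf _ _ _ _ c_640_128_896_128
theorem n_896_128_896_128 : Cov 896 128 896 128 := cov_leaf _ _ _ _ c_896_128_896_128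
theorem n_768_256_896_128 : Cov 768 256 896 128 := cov_a 640 128 896 128 n_640_128_896_128 n_896_128_896_128
theorem n_768_256_768_256 : Cov 768 256 768 256 := cov_b 768 256 640 128 n_768_256_640_128 n_768_256_896_128
theorem n_512_512_768_256 : Cov 512 512 768 256 := cov_a 256 256 768 256 n_256_256_768_256 n_768_256_768_256
theorem n_512_512_512_512 : Cov 512 512 512 512 := cov_b 512 512 256 256 n_512_512_256_256 n_512_512_768_256
theorem n_1152_128_64_64 : Cov 1152 128 64 64 := cov_leaf _ _ _ _ c_1152_128_64_64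
theorem n_1152_128_192_64 : Cov 1152 128 192 64 := cov_leaf _ _ _ _ c_1152_128_192_64
theorem n_1152_128_128_128 : Cov 1152 128 128 128 := cov_b 1152 128 64 64 n_1152_128_64_64 n_1152_128_192_64
theorem n_1408_128_64_64 : Cov 1408 128 64 64 := cov_leaf _ _ _ _ c_1408_128_64_64
theorem n_1408_128_192_64 : Cov 1408 128 192 64 := cov_leaf _ _ _ _ c_1408_128_192_64
theorem n_1408_128_128_128 : Cov 1408 128 128 128 := cov_b 1408 128 64 64 n_1408_128_64_64 n_1408_128_192_64
theorem n_1280_256_128_128 : Cov 1280 256 128 128 := cov_a 1152 128 128 128 n_1152_128_128_128 n_1408_128_128_128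
theorem n_1152_128_384_128 : Cov 1152 128 384 128 := cov_leaf _ _ _ _ c_1152_128_384_128
theorem n_1408_128_384_128 : Cov 1408 128 384 128 := cov_leaf _ _ _ _ c_1408_128_384_128
theorem n_1280_256_384_128 : Cov 1280 256 384 128 := cov_a 1152 128 384 128 n_1152_128_384_128 n_1408_128_384_128
theorem n_1280_256_256_256 : Cov 1280 256 256 256 := cov_b 1280 256 128 128 n_1280_256_128_128 n_1280_256_384_128
theorem n_1664_128_64_64 : Cov 1664 128 64 64 := cov_leaf _ _ _ _ c_1664_128_64_64
theorem n_1664_128_192_64 : Cov 1664 128 192 64 := cov_leaf _ _ _ _ c_1664_128_192_64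
theorem n_1664_128_128_128 : Cov 1664 128 128 128 := cov_b 1664 128 64 64 n_1664_128_64_64 n_1664_128_192_64
theorem n_1920_128_64_64 : Cov 1920 128 64 64 := cov_leaf _ _ _ _ c_1920_128_64_64
theorem n_1920_128_192_64 : Cov 1920 128 192 64 := cov_leaf _ _ _ _ c_1920_128_192_64
theorem n_1920_128_128_128 : Cov 1920 128 128 128 := cov_b 1920 128 64 64 n_1920_128_64_64 n_1920_128_192_64
theorem n_1792_256_128_128 : Cov 1792 256 128 128 := cov_a 1664 128 128 128 n_1664_128_128_128 n_1920_128_128_128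
theorem n_1664_128_384_128 : Cov 1664 128 384 128 := cov_leaf _ _ _ _ c_1664_128_384_128
theorem n_1920_128_384_128 : Cov 1920 128 384 128 := cov_leaf _ _ _ _ c_1920_128_384_128
theorem n_1792_256_384_128 : Cov 1792 256 384 128 := cov_a 1664 128 384 128 n_1664_128_384_128 n_1920_128_384_128
theorem n_1792_256_256_256 : Cov 1792 256 256 256 := cov_b 1792 256 128 128 n_1792_256_128_128 n_1792_256_384_128
theorem n_1536_512_256_256 : Cov 1536 512 256 256 := cov_a 1280 256 256 256 n_1280_256_256_256 n_1792_256_256_256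
theorem n_1152_128_640_128 : Cov 1152 128 640 128 := cov_leaf _ _ _ _ c_1152_128_640_128
theorem n_1408_128_640_128 : Cov 1408 128 640 128 := cov_leaf _ _ _ _ c_1408_128_640_128
theorem n_1280_256_640_128 : Cov 1280 256 640 128 := cov_a 1152 128 640 128 n_1152_128_640_128 n_1408_128_640_128
theorem n_1152_128_896_128 : Cov 1152 128 896 128 := cov_leaf _ _ _ _ c_1152_128_896_128
theorem n_1408_128_896_128 : Cov 1408 128 896 128 := cov_leaf _ _ _ _ c_1408_128_896_128
theorem n_1280_256_896_128 : Cov 1280 256 896 128 := cov_a 1152 128 896 128 n_1152_128_896_128 n_1408_128_896_128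
theorem n_1280_256_768_256 : Cov 1280 256 768 256 := cov_b 1280 256 640 128 n_1280_256_640_128 n_1280_256_896_128
theorem n_1664_128_640_128 : Cov 1664 128 640 128 := cov_leaf _ _ _ _ c_1664_128_640_128
theorem n_1920_128_640_128 : Cov 1920 128 640 128 := cov_leaf _ _ _ _ c_1920_128_640_128
theorem n_1792_256_640_128 : Cov 1792 256 640 128 := cov_a 1664 128 640 128 n_1664_128_640_128 n_1920_128_640_128
theorem n_1664_128_896_128 : Cov 1664 128 896 128 := cov_leaf _ _ _ _ c_1664_128_896_128
theorem n_1920_128_896_128 : Cov 1920 128 896 128 := cov_leaf _ _ _ _ c_1920_128_896_128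
theorem n_1792_256_896_128 : Cov 1792 256 896 128 := cov_a 1664 128 896 128 n_1664_128_896_128 n_1920_128_896_128
theorem n_1792_256_768_256 : Cov 1792 256 768 256 := cov_b 1792 256 640 128 n_1792_256_640_128 n_1792_256_896_128
theorem n_1536_512_768_256 : Cov 1536 512 768 256 := cov_a 1280 256 768 256 n_1280_256_768_256 n_1792_256_768_256
theorem n_1536_512_512_512 : Cov 1536 512 512 512 := cov_b 1536 512 256 256 n_1536_512_256_256 n_1536_512_768_256
theorem n_1024_1024_512_512 : Cov 1024 1024 512 512 := cov_a 512 512 512 512 n_512_512_512_512 n_1536_512_512_512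
theorem n_256_256_1536_512 : Cov 256 256 1536 512 := cov_skip _ _ _ _ (by norm_num)
theorem n_640_128_1280_256 : Cov 640 128 1280 256 := cov_skip _ _ _ _ (by norm_num)
theorem n_896_128_1152_128 : Cov 896 128 1152 128 := cov_leaf _ _ _ _ c_896_128_1152_128
theorem n_896_128_1408_128 : Cov 896 128 1408 128 := cov_skip _ _ _ _ (by norm_num)
theorem n_896_128_1280_256 : Cov 896 128 1280 256 := cov_b 896 128 1152 128 n_896_128_1152_128 n_896_128_1408_128
theorem n_768_256_1280_256 : Cov 768 256 1280 256 := cov_a 640 128 1280 256 n_640_128_1280_256 n_896_128_1280_256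
theorem n_768_256_1792_256 : Cov 768 256 1792 256 := cov_skip _ _ _ _ (by norm_num)
theorem n_768_256_1536_512 : Cov 768 256 1536 512 := cov_b 768 256 1280 256 n_768_256_1280_256 n_768_256_1792_256
theorem n_512_512_1536_512 : Cov 512 512 1536 512 := cov_a 256 256 1536 512 n_256_256_1536_512 n_768_256_1536_512
theorem n_1152_128_1152_128 : Cov 1152 128 1152 128 := cov_leaf _ _ _ _ c_1152_128_1152_128
theorem n_1408_128_1152_128 : Cov 1408 128 1152 128 := cov_leaf _ _ _ _ c_1408_128_1152_128
theorem n_1280_256_1152_128 : Cov 1280 256 1152 128 := cov_a 1152 128 1152 128 n_1152_128_1152_128 n_1408_128_1152_128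
theorem n_1152_128_1408_128 : Cov 1152 128 1408 128 := cov_leaf _ _ _ _ c_1152_128_1408_128
theorem n_1408_128_1408_128 : Cov 1408 128 1408 128 := cov_leaf _ _ _ _ c_1408_128_1408_128
theorem n_1280_256_1408_128 : Cov 1280 256 1408 128 := cov_a 1152 128 1408 128 n_1152_128_1408_128 n_1408_128_1408_128
theorem n_1280_256_1280_256 : Cov 1280 256 1280 256 := cov_b 1280 256 1152 128 n_1280_256_1152_128 n_1280_256_1408_128
theorem n_1664_128_1152_128 : Cov 1664 128 1152 128 := cov_leaf _ _ _ _ c_1664_128_1152_128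
theorem n_1920_128_1152_128 : Cov 1920 128 1152 128 := cov_leaf _ _ _ _ c_1920_128_1152_128
theorem n_1792_256_1152_128 : Cov 1792 256 1152 128 := cov_a 1664 128 1152 128 n_1664_128_1152_128 n_1920_128_1152_128
theorem n_1664_128_1408_128 : Cov 1664 128 1408 128 := cov_leaf _ _ _ _ c_1664_128_1408_128
theorem n_1920_128_1408_128 : Cov 1920 128 1408 128 := cov_leaf _ _ _ _ c_1920_128_1408_128
theorem n_1792_256_1408_128 : Cov 1792 256 1408 128 := cov_a 1664 128 1408 128 n_1664_128_1408_128 n_1920_128_1408_128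
theorem n_1792_256_1280_256 : Cov 1792 256 1280 256 := cov_b 1792 256 1152 128 n_1792_256_1152_128 n_1792_256_1408_128
theorem n_1536_512_1280_256 : Cov 1536 512 1280 256 := cov_a 1280 256 1280 256 n_1280_256_1280_256 n_1792_256_1280_256
theorem n_1152_128_1792_256 : Cov 1152 128 1792 256 := cov_skip _ _ _ _ (by norm_num)
theorem n_1408_128_1664_128 : Cov 1408 128 1664 128 := cov_leaf _ _ _ _ c_1408_128_1664_128
theorem n_1408_128_1920_128 : Cov 1408 128 1920 128 := cov_skip _ _ _ _ (by norm_num)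
theorem n_1408_128_1792_256 : Cov 1408 128 1792 256 := cov_b 1408 128 1664 128 n_1408_128_1664_128 n_1408_128_1920_128
theorem n_1280_256_1792_256 : Cov 1280 256 1792 256 := cov_a 1152 128 1792 256 n_1152_128_1792_256 n_1408_128_1792_256
theorem n_1664_128_1664_128 : Cov 1664 128 1664 128 := cov_leaf _ _ _ _ c_1664_128_1664_128
theorem n_1920_128_1664_128 : Cov 1920 128 1664 128 := cov_leaf _ _ _ _ c_1920_128_1664_128
theorem n_1792_256_1664_128 : Cov 1792 256 1664 128 := cov_a 1664 128 1664 128 n_1664_128_1664_128 n_1920_128_1664_128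
theorem n_1664_128_1920_128 : Cov 1664 128 1920 128 := cov_leaf _ _ _ _ c_1664_128_1920_128
theorem n_1920_128_1920_128 : Cov 1920 128 1920 128 := cov_leaf _ _ _ _ c_1920_128_1920_128
theorem n_1792_256_1920_128 : Cov 1792 256 1920 128 := cov_a 1664 128 1920 128 n_1664_128_1920_128 n_1920_128_1920_128
theorem n_1792_256_1792_256 : Cov 1792 256 1792 256 := cov_b 1792 256 1664 128 n_1792_256_1664_128 n_1792_256_1920_128
theorem n_1536_512_1792_256 : Cov 1536 512 1792 256 := cov_a 1280 256 1792 256 n_1280_256_1792_256 n_1792_256_1792_256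
theorem n_1536_512_1536_512 : Cov 1536 512 1536 512 := cov_b 1536 512 1280 256 n_1536_512_1280_256 n_1536_512_1792_256
theorem n_1024_1024_1536_512 : Cov 1024 1024 1536 512 := cov_a 512 512 1536 512 n_512_512_1536_512 n_1536_512_1536_512
theorem n_1024_1024_1024_1024 : Cov 1024 1024 1024 1024 := cov_b 1024 1024 512 512 n_1024_1024_512_512 n_1024_1024_1536_512
theorem n_2176_128_64_64 : Cov 2176 128 64 64 := cov_leaf _ _ _ _ c_2176_128_64_64
theorem n_2176_128_192_64 : Cov 2176 128 192 64 := cov_leaf _ _ _ _ c_2176_128_192_64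
theorem n_2176_128_128_128 : Cov 2176 128 128 128 := cov_b 2176 128 64 64 n_2176_128_64_64 n_2176_128_192_64
theorem n_2432_128_64_64 : Cov 2432 128 64 64 := cov_leaf _ _ _ _ c_2432_128_64_64
theorem n_2432_128_192_64 : Cov 2432 128 192 64 := cov_leaf _ _ _ _ c_2432_128_192_64
theorem n_2432_128_128_128 : Cov 2432 128 128 128 := cov_b 2432 128 64 64 n_2432_128_64_64 n_2432_128_192_64
theorem n_2304_256_128_128 : Cov 2304 256 128 128 := cov_a 2176 128 128 128 n_2176_128_128_128 n_2432_128_128_128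
theorem n_2176_128_384_128 : Cov 2176 128 384 128 := cov_leaf _ _ _ _ c_2176_128_384_128
theorem n_2432_128_384_128 : Cov 2432 128 384 128 := cov_leaf _ _ _ _ c_2432_128_384_128
theorem n_2304_256_384_128 : Cov 2304 256 384 128 := cov_a 2176 128 384 128 n_2176_128_384_128 n_2432_128_384_128
theorem n_2304_256_256_256 : Cov 2304 256 256 256 := cov_b 2304 256 128 128 n_2304_256_128_128 n_2304_256_384_128
theorem n_2688_128_64_64 : Cov 2688 128 64 64 := cov_leaf _ _ _ _ c_2688_128_64_64
theorem n_2688_128_192_64 : Cov 2688 128 192 64 := cov_leaf _ _ _ _ c_2688_128_192_64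
theorem n_2688_128_128_128 : Cov 2688 128 128 128 := cov_b 2688 128 64 64 n_2688_128_64_64 n_2688_128_192_64
theorem n_2944_128_64_64 : Cov 2944 128 64 64 := cov_leaf _ _ _ _ c_2944_128_64_64
theorem n_2944_128_192_64 : Cov 2944 128 192 64 := cov_leaf _ _ _ _ c_2944_128_192_64
theorem n_2944_128_128_128 : Cov 2944 128 128 128 := cov_b 2944 128 64 64 n_2944_128_64_64 n_2944_128_192_64
theorem n_2816_256_128_128 : Cov 2816 256 128 128 := cov_a 2688 128 128 128 n_2688_128_128_128 n_2944_128_128_128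
theorem n_2688_128_384_128 : Cov 2688 128 384 128 := cov_leaf _ _ _ _ c_2688_128_384_128
theorem n_2944_128_384_128 : Cov 2944 128 384 128 := cov_leaf _ _ _ _ c_2944_128_384_128
theorem n_2816_256_384_128 : Cov 2816 256 384 128 := cov_a 2688 128 384 128 n_2688_128_384_128 n_2944_128_384_128
theorem n_2816_256_256_256 : Cov 2816 256 256 256 := cov_b 2816 256 128 128 n_2816_256_128_128 n_2816_256_384_128
theorem n_2560_512_256_256 : Cov 2560 512 256 256 := cov_a 2304 256 256 256 n_2304_256_256_256 n_2816_256_256_256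
theorem n_2176_128_640_128 : Cov 2176 128 640 128 := cov_leaf _ _ _ _ c_2176_128_640_128
theorem n_2432_128_640_128 : Cov 2432 128 640 128 := cov_leaf _ _ _ _ c_2432_128_640_128
theorem n_2304_256_640_128 : Cov 2304 256 640 128 := cov_a 2176 128 640 128 n_2176_128_640_128 n_2432_128_640_128
theorem n_2176_128_896_128 : Cov 2176 128 896 128 := cov_leaf _ _ _ _ c_2176_128_896_128
theorem n_2432_128_896_128 : Cov 2432 128 896 128 := cov_leaf _ _ _ _ c_2432_128_896_128
theorem n_2304_256_896_128 : Cov 2304 256 896 128 := cov_a 2176 128 896 128 n_2176_128_896_128 n_2432_128_896_128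
theorem n_2304_256_768_256 : Cov 2304 256 768 256 := cov_b 2304 256 640 128 n_2304_256_640_128 n_2304_256_896_128
theorem n_2688_128_640_128 : Cov 2688 128 640 128 := cov_leaf _ _ _ _ c_2688_128_640_128
theorem n_2944_128_640_128 : Cov 2944 128 640 128 := cov_leaf _ _ _ _ c_2944_128_640_128
theorem n_2816_256_640_128 : Cov 2816 256 640 128 := cov_a 2688 128 640 128 n_2688_128_640_128 n_2944_128_640_128
theorem n_2816_256_896_128 : Cov 2816 256 896 128 := cov_leaf _ _ _ _ c_2816_256_896_128
theorem n_2816_256_768_256 : Cov 2816 256 768 256 := cov_b 2816 256 640 128 n_2816_256_640_128 n_2816_256_896_128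
theorem n_2560_512_768_256 : Cov 2560 512 768 256 := cov_a 2304 256 768 256 n_2304_256_768_256 n_2816_256_768_256
theorem n_2560_512_512_512 : Cov 2560 512 512 512 := cov_b 2560 512 256 256 n_2560_512_256_256 n_2560_512_768_256
theorem n_3200_128_64_64 : Cov 3200 128 64 64 := cov_leaf _ _ _ _ c_3200_128_64_64
theorem n_3200_128_192_64 : Cov 3200 128 192 64 := cov_leaf _ _ _ _ c_3200_128_192_64
theorem n_3200_128_128_128 : Cov 3200 128 128 128 := cov_b 3200 128 64 64 n_3200_128_64_64 n_3200_128_192_64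
theorem n_3456_128_64_64 : Cov 3456 128 64 64 := cov_leaf _ _ _ _ c_3456_128_64_64
theorem n_3456_128_192_64 : Cov 3456 128 192 64 := cov_leaf _ _ _ _ c_3456_128_192_64
theorem n_3456_128_128_128 : Cov 3456 128 128 128 := cov_b 3456 128 64 64 n_3456_128_64_64 n_3456_128_192_64
theorem n_3328_256_128_128 : Cov 3328 256 128 128 := cov_a 3200 128 128 128 n_3200_128_128_128 n_3456_128_128_128
theorem n_3200_128_384_128 : Cov 3200 128 384 128 := cov_leaf _ _ _ _ c_3200_128_384_128
theorem n_3456_128_384_128 : Cov 3456 128 384 128 := cov_leaf _ _ _ _ c_3456_128_384_128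
theorem n_3328_256_384_128 : Cov 3328 256 384 128 := cov_a 3200 128 384 128 n_3200_128_384_128 n_3456_128_384_128
theorem n_3328_256_256_256 : Cov 3328 256 256 256 := cov_b 3328 256 128 128 n_3328_256_128_128 n_3328_256_384_128
theorem n_3712_128_64_64 : Cov 3712 128 64 64 := cov_leaf _ _ _ _ c_3712_128_64_64
theorem n_3712_128_192_64 : Cov 3712 128 192 64 := cov_leaf _ _ _ _ c_3712_128_192_64
theorem n_3712_128_128_128 : Cov 3712 128 128 128 := cov_b 3712 128 64 64 n_3712_128_64_64 n_3712_128_192_64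
theorem n_3968_128_64_64 : Cov 3968 128 64 64 := cov_leaf _ _ _ _ c_3968_128_64_64
theorem n_3968_128_192_64 : Cov 3968 128 192 64 := cov_leaf _ _ _ _ c_3968_128_192_64
theorem n_3968_128_128_128 : Cov 3968 128 128 128 := cov_b 3968 128 64 64 n_3968_128_64_64 n_3968_128_192_64
theorem n_3840_256_128_128 : Cov 3840 256 128 128 := cov_a 3712 128 128 128 n_3712_128_128_128 n_3968_128_128_128
theorem n_3712_128_320_64 : Cov 3712 128 320 64 := cov_leaf _ _ _ _ c_3712_128_320_64
theorem n_3712_128_448_64 : Cov 3712 128 448 64 := cov_leaf _ _ _ _ c_3712_128_448_64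
theorem n_3712_128_384_128 : Cov 3712 128 384 128 := cov_b 3712 128 320 64 n_3712_128_320_64 n_3712_128_448_64
theorem n_3968_128_320_64 : Cov 3968 128 320 64 := cov_leaf _ _ _ _ c_3968_128_320_64
theorem n_3968_128_448_64 : Cov 3968 128 448 64 := cov_leaf _ _ _ _ c_3968_128_448_64
theorem n_3968_128_384_128 : Cov 3968 128 384 128 := cov_b 3968 128 320 64 n_3968_128_320_64 n_3968_128_448_64
theorem n_3840_256_384_128 : Cov 3840 256 384 128 := cov_a 3712 128 384 128 n_3712_128_384_128 n_3968_128_384_128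
theorem n_3840_256_256_256 : Cov 3840 256 256 256 := cov_b 3840 256 128 128 n_3840_256_128_128 n_3840_256_384_128
theorem n_3584_512_256_256 : Cov 3584 512 256 256 := cov_a 3328 256 256 256 n_3328_256_256_256 n_3840_256_256_256
theorem n_3200_128_640_128 : Cov 3200 128 640 128 := cov_leaf _ _ _ _ c_3200_128_640_128
theorem n_3456_128_640_128 : Cov 3456 128 640 128 := cov_leaf _ _ _ _ c_3456_128_640_128
theorem n_3328_256_640_128 : Cov 3328 256 640 128 := cov_a 3200 128 640 128 n_3200_128_640_128 n_3456_128_640_128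
theorem n_3328_256_896_128 : Cov 3328 256 896 128 := cov_leaf _ _ _ _ c_3328_256_896_128
theorem n_3328_256_768_256 : Cov 3328 256 768 256 := cov_b 3328 256 640 128 n_3328_256_640_128 n_3328_256_896_128
theorem n_3712_128_640_128 : Cov 3712 128 640 128 := cov_leaf _ _ _ _ c_3712_128_640_128
theorem n_3968_128_640_128 : Cov 3968 128 640 128 := cov_leaf _ _ _ _ c_3968_128_640_128
theorem n_3840_256_640_128 : Cov 3840 256 640 128 := cov_a 3712 128 640 128 n_3712_128_640_128 n_3968_128_640_128
theorem n_3840_256_896_128 : Cov 3840 256 896 128 := cov_leaf _ _ _ _ c_3840_256_896_128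
theorem n_3840_256_768_256 : Cov 3840 256 768 256 := cov_b 3840 256 640 128 n_3840_256_640_128 n_3840_256_896_128
theorem n_3584_512_768_256 : Cov 3584 512 768 256 := cov_a 3328 256 768 256 n_3328_256_768_256 n_3840_256_768_256
theorem n_3584_512_512_512 : Cov 3584 512 512 512 := cov_b 3584 512 256 256 n_3584_512_256_256 n_3584_512_768_256
theorem n_3072_1024_512_512 : Cov 3072 1024 512 512 := cov_a 2560 512 512 512 n_2560_512_512_512 n_3584_512_512_512
theorem n_2304_256_1152_128 : Cov 2304 256 1152 128 := cov_leaf _ _ _ _ c_2304_256_1152_128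
theorem n_2304_256_1408_128 : Cov 2304 256 1408 128 := cov_leaf _ _ _ _ c_2304_256_1408_128
theorem n_2304_256_1280_256 : Cov 2304 256 1280 256 := cov_b 2304 256 1152 128 n_2304_256_1152_128 n_2304_256_1408_128
theorem n_2816_256_1152_128 : Cov 2816 256 1152 128 := cov_leaf _ _ _ _ c_2816_256_1152_128
theorem n_2816_256_1408_128 : Cov 2816 256 1408 128 := cov_leaf _ _ _ _ c_2816_256_1408_128
theorem n_2816_256_1280_256 : Cov 2816 256 1280 256 := cov_b 2816 256 1152 128 n_2816_256_1152_128 n_2816_256_1408_128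
theorem n_2560_512_1280_256 : Cov 2560 512 1280 256 := cov_a 2304 256 1280 256 n_2304_256_1280_256 n_2816_256_1280_256
theorem n_2304_256_1664_128 : Cov 2304 256 1664 128 := cov_leaf _ _ _ _ c_2304_256_1664_128
theorem n_2304_256_1920_128 : Cov 2304 256 1920 128 := cov_leaf _ _ _ _ c_2304_256_1920_128
theorem n_2304_256_1792_256 : Cov 2304 256 1792 256 := cov_b 2304 256 1664 128 n_2304_256_1664_128 n_2304_256_1920_128
theorem n_2816_256_1664_128 : Cov 2816 256 1664 128 := cov_leaf _ _ _ _ c_2816_256_1664_128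
theorem n_2816_256_1920_128 : Cov 2816 256 1920 128 := cov_leaf _ _ _ _ c_2816_256_1920_128
theorem n_2816_256_1792_256 : Cov 2816 256 1792 256 := cov_b 2816 256 1664 128 n_2816_256_1664_128 n_2816_256_1920_128
theorem n_2560_512_1792_256 : Cov 2560 512 1792 256 := cov_a 2304 256 1792 256 n_2304_256_1792_256 n_2816_256_1792_256
theorem n_2560_512_1536_512 : Cov 2560 512 1536 512 := cov_b 2560 512 1280 256 n_2560_512_1280_256 n_2560_512_1792_256
theorem n_3328_256_1152_128 : Cov 3328 256 1152 128 := cov_leaf _ _ _ _ c_3328_256_1152_128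
theorem n_3328_256_1408_128 : Cov 3328 256 1408 128 := cov_leaf _ _ _ _ c_3328_256_1408_128
theorem n_3328_256_1280_256 : Cov 3328 256 1280 256 := cov_b 3328 256 1152 128 n_3328_256_1152_128 n_3328_256_1408_128
theorem n_3840_256_1152_128 : Cov 3840 256 1152 128 := cov_leaf _ _ _ _ c_3840_256_1152_128
theorem n_3840_256_1408_128 : Cov 3840 256 1408 128 := cov_leaf _ _ _ _ c_3840_256_1408_128
theorem n_3840_256_1280_256 : Cov 3840 256 1280 256 := cov_b 3840 256 1152 128 n_3840_256_1152_128 n_3840_256_1408_128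
theorem n_3584_512_1280_256 : Cov 3584 512 1280 256 := cov_a 3328 256 1280 256 n_3328_256_1280_256 n_3840_256_1280_256
theorem n_3328_256_1664_128 : Cov 3328 256 1664 128 := cov_leaf _ _ _ _ c_3328_256_1664_128
theorem n_3328_256_1920_128 : Cov 3328 256 1920 128 := cov_leaf _ _ _ _ c_3328_256_1920_128
theorem n_3328_256_1792_256 : Cov 3328 256 1792 256 := cov_b 3328 256 1664 128 n_3328_256_1664_128 n_3328_256_1920_128
theorem n_3840_256_1664_128 : Cov 3840 256 1664 128 := cov_leaf _ _ _ _ c_3840_256_1664_128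
theorem n_3840_256_1920_128 : Cov 3840 256 1920 128 := cov_leaf _ _ _ _ c_3840_256_1920_128
theorem n_3840_256_1792_256 : Cov 3840 256 1792 256 := cov_b 3840 256 1664 128 n_3840_256_1664_128 n_3840_256_1920_128
theorem n_3584_512_1792_256 : Cov 3584 512 1792 256 := cov_a 3328 256 1792 256 n_3328_256_1792_256 n_3840_256_1792_256
theorem n_3584_512_1536_512 : Cov 3584 512 1536 512 := cov_b 3584 512 1280 256 n_3584_512_1280_256 n_3584_512_1792_256
theorem n_3072_1024_1536_512 : Cov 3072 1024 1536 512 := cov_a 2560 512 1536 512 n_2560_512_1536_512 n_3584_512_1536_512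
theorem n_3072_1024_1024_1024 : Cov 3072 1024 1024 1024 := cov_b 3072 1024 512 512 n_3072_1024_512_512 n_3072_1024_1536_512
theorem n_2048_2048_1024_1024 : Cov 2048 2048 1024 1024 := cov_a 1024 1024 1024 1024 n_1024_1024_1024_1024 n_3072_1024_1024_1024
theorem n_512_512_3072_1024 : Cov 512 512 3072 1024 := cov_skip _ _ _ _ (by norm_num)
theorem n_1280_256_2560_512 : Cov 1280 256 2560 512 := cov_skip _ _ _ _ (by norm_num)
theorem n_1664_128_2304_256 : Cov 1664 128 2304 256 := cov_skip _ _ _ _ (by norm_num)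
theorem n_1920_128_2304_256 : Cov 1920 128 2304 256 := cov_leaf _ _ _ _ c_1920_128_2304_256
theorem n_1792_256_2304_256 : Cov 1792 256 2304 256 := cov_a 1664 128 2304 256 n_1664_128_2304_256 n_1920_128_2304_256
theorem n_1792_256_2816_256 : Cov 1792 256 2816 256 := cov_skip _ _ _ _ (by norm_num)
theorem n_1792_256_2560_512 : Cov 1792 256 2560 512 := cov_b 1792 256 2304 256 n_1792_256_2304_256 n_1792_256_2816_256
theorem n_1536_512_2560_512 : Cov 1536 512 2560 512 := cov_a 1280 256 2560 512 n_1280_256_2560_512 n_1792_256_2560_512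
theorem n_1536_512_3584_512 : Cov 1536 512 3584 512 := cov_skip _ _ _ _ (by norm_num)
theorem n_1536_512_3072_1024 : Cov 1536 512 3072 1024 := cov_b 1536 512 2560 512 n_1536_512_2560_512 n_1536_512_3584_512
theorem n_1024_1024_3072_1024 : Cov 1024 1024 3072 1024 := cov_a 512 512 3072 1024 n_512_512_3072_1024 n_1536_512_3072_1024
theorem n_2304_256_2176_128 : Cov 2304 256 2176 128 := cov_leaf _ _ _ _ c_2304_256_2176_128
theorem n_2304_256_2432_128 : Cov 2304 256 2432 128 := cov_leaf _ _ _ _ c_2304_256_2432_128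
theorem n_2304_256_2304_256 : Cov 2304 256 2304 256 := cov_b 2304 256 2176 128 n_2304_256_2176_128 n_2304_256_2432_128
theorem n_2816_256_2176_128 : Cov 2816 256 2176 128 := cov_leaf _ _ _ _ c_2816_256_2176_128
theorem n_2816_256_2432_128 : Cov 2816 256 2432 128 := cov_leaf _ _ _ _ c_2816_256_2432_128
theorem n_2816_256_2304_256 : Cov 2816 256 2304 256 := cov_b 2816 256 2176 128 n_2816_256_2176_128 n_2816_256_2432_128
theorem n_2560_512_2304_256 : Cov 2560 512 2304 256 := cov_a 2304 256 2304 256 n_2304_256_2304_256 n_2816_256_2304_256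
theorem n_2176_128_2816_256 : Cov 2176 128 2816 256 := cov_skip _ _ _ _ (by norm_num)
theorem n_2432_128_2816_256 : Cov 2432 128 2816 256 := cov_leaf _ _ _ _ c_2432_128_2816_256
theorem n_2304_256_2816_256 : Cov 2304 256 2816 256 := cov_a 2176 128 2816 256 n_2176_128_2816_256 n_2432_128_2816_256
theorem n_2816_256_2688_128 : Cov 2816 256 2688 128 := cov_leaf _ _ _ _ c_2816_256_2688_128
theorem n_2816_256_2944_128 : Cov 2816 256 2944 128 := cov_leaf _ _ _ _ c_2816_256_2944_128
theorem n_2816_256_2816_256 : Cov 2816 256 2816 256 := cov_b 2816 256 2688 128 n_2816_256_2688_128 n_2816_256_2944_128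
theorem n_2560_512_2816_256 : Cov 2560 512 2816 256 := cov_a 2304 256 2816 256 n_2304_256_2816_256 n_2816_256_2816_256
theorem n_2560_512_2560_512 : Cov 2560 512 2560 512 := cov_b 2560 512 2304 256 n_2560_512_2304_256 n_2560_512_2816_256
theorem n_3328_256_2176_128 : Cov 3328 256 2176 128 := cov_leaf _ _ _ _ c_3328_256_2176_128
theorem n_3328_256_2432_128 : Cov 3328 256 2432 128 := cov_leaf _ _ _ _ c_3328_256_2432_128
theorem n_3328_256_2304_256 : Cov 3328 256 2304 256 := cov_b 3328 256 2176 128 n_3328_256_2176_128 n_3328_256_2432_128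
theorem n_3840_256_2176_128 : Cov 3840 256 2176 128 := cov_leaf _ _ _ _ c_3840_256_2176_128
theorem n_3840_256_2432_128 : Cov 3840 256 2432 128 := cov_leaf _ _ _ _ c_3840_256_2432_128
theorem n_3840_256_2304_256 : Cov 3840 256 2304 256 := cov_b 3840 256 2176 128 n_3840_256_2176_128 n_3840_256_2432_128
theorem n_3584_512_2304_256 : Cov 3584 512 2304 256 := cov_a 3328 256 2304 256 n_3328_256_2304_256 n_3840_256_2304_256
theorem n_3328_256_2688_128 : Cov 3328 256 2688 128 := cov_leaf _ _ _ _ c_3328_256_2688_128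
theorem n_3328_256_2944_128 : Cov 3328 256 2944 128 := cov_leaf _ _ _ _ c_3328_256_2944_128
theorem n_3328_256_2816_256 : Cov 3328 256 2816 256 := cov_b 3328 256 2688 128 n_3328_256_2688_128 n_3328_256_2944_128
theorem n_3840_256_2688_128 : Cov 3840 256 2688 128 := cov_leaf _ _ _ _ c_3840_256_2688_128
theorem n_3840_256_2944_128 : Cov 3840 256 2944 128 := cov_leaf _ _ _ _ c_3840_256_2944_128
theorem n_3840_256_2816_256 : Cov 3840 256 2816 256 := cov_b 3840 256 2688 128 n_3840_256_2688_128 n_3840_256_2944_128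
theorem n_3584_512_2816_256 : Cov 3584 512 2816 256 := cov_a 3328 256 2816 256 n_3328_256_2816_256 n_3840_256_2816_256
theorem n_3584_512_2560_512 : Cov 3584 512 2560 512 := cov_b 3584 512 2304 256 n_3584_512_2304_256 n_3584_512_2816_256
theorem n_3072_1024_2560_512 : Cov 3072 1024 2560 512 := cov_a 2560 512 2560 512 n_2560_512_2560_512 n_3584_512_2560_512
theorem n_2304_256_3584_512 : Cov 2304 256 3584 512 := cov_skip _ _ _ _ (by norm_num)
theorem n_2688_128_3328_256 : Cov 2688 128 3328 256 := cov_skip _ _ _ _ (by norm_num)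
theorem n_2944_128_3328_256 : Cov 2944 128 3328 256 := cov_leaf _ _ _ _ c_2944_128_3328_256
theorem n_2816_256_3328_256 : Cov 2816 256 3328 256 := cov_a 2688 128 3328 256 n_2688_128_3328_256 n_2944_128_3328_256
theorem n_2816_256_3840_256 : Cov 2816 256 3840 256 := cov_skip _ _ _ _ (by norm_num)
theorem n_2816_256_3584_512 : Cov 2816 256 3584 512 := cov_b 2816 256 3328 256 n_2816_256_3328_256 n_2816_256_3840_256
theorem n_2560_512_3584_512 : Cov 2560 512 3584 512 := cov_a 2304 256 3584 512 n_2304_256_3584_512 n_2816_256_3584_512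
theorem n_3328_256_3200_128 : Cov 3328 256 3200 128 := cov_leaf _ _ _ _ c_3328_256_3200_128
theorem n_3328_256_3456_128 : Cov 3328 256 3456 128 := cov_leaf _ _ _ _ c_3328_256_3456_128
theorem n_3328_256_3328_256 : Cov 3328 256 3328 256 := cov_b 3328 256 3200 128 n_3328_256_3200_128 n_3328_256_3456_128
theorem n_3840_256_3200_128 : Cov 3840 256 3200 128 := cov_leaf _ _ _ _ c_3840_256_3200_128
theorem n_3840_256_3456_128 : Cov 3840 256 3456 128 := cov_leaf _ _ _ _ c_3840_256_3456_128
theorem n_3840_256_3328_256 : Cov 3840 256 3328 256 := cov_b 3840 256 3200 128 n_3840_256_3200_128 n_3840_256_3456_128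
theorem n_3584_512_3328_256 : Cov 3584 512 3328 256 := cov_a 3328 256 3328 256 n_3328_256_3328_256 n_3840_256_3328_256
theorem n_3200_128_3840_256 : Cov 3200 128 3840 256 := cov_skip _ _ _ _ (by norm_num)
theorem n_3456_128_3840_256 : Cov 3456 128 3840 256 := cov_leaf _ _ _ _ c_3456_128_3840_256
theorem n_3328_256_3840_256 : Cov 3328 256 3840 256 := cov_a 3200 128 3840 256 n_3200_128_3840_256 n_3456_128_3840_256
theorem n_3840_256_3712_128 : Cov 3840 256 3712 128 := cov_leaf _ _ _ _ c_3840_256_3712_128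
theorem n_3840_256_3968_128 : Cov 3840 256 3968 128 := cov_leaf _ _ _ _ c_3840_256_3968_128
theorem n_3840_256_3840_256 : Cov 3840 256 3840 256 := cov_b 3840 256 3712 128 n_3840_256_3712_128 n_3840_256_3968_128
theorem n_3584_512_3840_256 : Cov 3584 512 3840 256 := cov_a 3328 256 3840 256 n_3328_256_3840_256 n_3840_256_3840_256
theorem n_3584_512_3584_512 : Cov 3584 512 3584 512 := cov_b 3584 512 3328 256 n_3584_512_3328_256 n_3584_512_3840_256
theorem n_3072_1024_3584_512 : Cov 3072 1024 3584 512 := cov_a 2560 512 3584 512 n_2560_512_3584_512 n_3584_512_3584_512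
theorem n_3072_1024_3072_1024 : Cov 3072 1024 3072 1024 := cov_b 3072 1024 2560 512 n_3072_1024_2560_512 n_3072_1024_3584_512
theorem n_2048_2048_3072_1024 : Cov 2048 2048 3072 1024 := cov_a 1024 1024 3072 1024 n_1024_1024_3072_1024 n_3072_1024_3072_1024
theorem n_2048_2048_2048_2048 : Cov 2048 2048 2048 2048 := cov_b 2048 2048 1024 1024 n_2048_2048_1024_1024 n_2048_2048_3072_1024
theorem n_4224_128_64_64 : Cov 4224 128 64 64 := cov_leaf _ _ _ _ c_4224_128_64_64
theorem n_4224_128_192_64 : Cov 4224 128 192 64 := cov_leaf _ _ _ _ c_4224_128_192_64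
theorem n_4224_128_128_128 : Cov 4224 128 128 128 := cov_b 4224 128 64 64 n_4224_128_64_64 n_4224_128_192_64
theorem n_4480_128_64_64 : Cov 4480 128 64 64 := cov_leaf _ _ _ _ c_4480_128_64_64
theorem n_4480_128_192_64 : Cov 4480 128 192 64 := cov_leaf _ _ _ _ c_4480_128_192_64
theorem n_4480_128_128_128 : Cov 4480 128 128 128 := cov_b 4480 128 64 64 n_4480_128_64_64 n_4480_128_192_64
theorem n_4352_256_128_128 : Cov 4352 256 128 128 := cov_a 4224 128 128 128 n_4224_128_128_128 n_4480_128_128_128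
theorem n_4224_128_320_64 : Cov 4224 128 320 64 := cov_leaf _ _ _ _ c_4224_128_320_64
theorem n_4224_128_448_64 : Cov 4224 128 448 64 := cov_leaf _ _ _ _ c_4224_128_448_64
theorem n_4224_128_384_128 : Cov 4224 128 384 128 := cov_b 4224 128 320 64 n_4224_128_320_64 n_4224_128_448_64
theorem n_4480_128_320_64 : Cov 4480 128 320 64 := cov_leaf _ _ _ _ c_4480_128_320_64
theorem n_4480_128_448_64 : Cov 4480 128 448 64 := cov_leaf _ _ _ _ c_4480_128_448_64
theorem n_4480_128_384_128 : Cov 4480 128 384 128 := cov_b 4480 128 320 64 n_4480_128_320_64 n_4480_128_448_64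
theorem n_4352_256_384_128 : Cov 4352 256 384 128 := cov_a 4224 128 384 128 n_4224_128_384_128 n_4480_128_384_128
theorem n_4352_256_256_256 : Cov 4352 256 256 256 := cov_b 4352 256 128 128 n_4352_256_128_128 n_4352_256_384_128
theorem n_4736_128_64_64 : Cov 4736 128 64 64 := cov_leaf _ _ _ _ c_4736_128_64_64
theorem n_4736_128_192_64 : Cov 4736 128 192 64 := cov_leaf _ _ _ _ c_4736_128_192_64
theorem n_4736_128_128_128 : Cov 4736 128 128 128 := cov_b 4736 128 64 64 n_4736_128_64_64 n_4736_128_192_64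
theorem n_4992_128_64_64 : Cov 4992 128 64 64 := cov_leaf _ _ _ _ c_4992_128_64_64
theorem n_4992_128_192_64 : Cov 4992 128 192 64 := cov_leaf _ _ _ _ c_4992_128_192_64
theorem n_4992_128_128_128 : Cov 4992 128 128 128 := cov_b 4992 128 64 64 n_4992_128_64_64 n_4992_128_192_64
theorem n_4864_256_128_128 : Cov 4864 256 128 128 := cov_a 4736 128 128 128 n_4736_128_128_128 n_4992_128_128_128
theorem n_4736_128_320_64 : Cov 4736 128 320 64 := cov_leaf _ _ _ _ c_4736_128_320_64
theorem n_4736_128_448_64 : Cov 4736 128 448 64 := cov_leaf _ _ _ _ c_4736_128_448_64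
theorem n_4736_128_384_128 : Cov 4736 128 384 128 := cov_b 4736 128 320 64 n_4736_128_320_64 n_4736_128_448_64
theorem n_4992_128_320_64 : Cov 4992 128 320 64 := cov_leaf _ _ _ _ c_4992_128_320_64
theorem n_4992_128_448_64 : Cov 4992 128 448 64 := cov_leaf _ _ _ _ c_4992_128_448_64
theorem n_4992_128_384_128 : Cov 4992 128 384 128 := cov_b 4992 128 320 64 n_4992_128_320_64 n_4992_128_448_64
theorem n_4864_256_384_128 : Cov 4864 256 384 128 := cov_a 4736 128 384 128 n_4736_128_384_128 n_4992_128_384_128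
theorem n_4864_256_256_256 : Cov 4864 256 256 256 := cov_b 4864 256 128 128 n_4864_256_128_128 n_4864_256_384_128
theorem n_4608_512_256_256 : Cov 4608 512 256 256 := cov_a 4352 256 256 256 n_4352_256_256_256 n_4864_256_256_256
theorem n_4224_128_640_128 : Cov 4224 128 640 128 := cov_leaf _ _ _ _ c_4224_128_640_128
theorem n_4480_128_640_128 : Cov 4480 128 640 128 := cov_leaf _ _ _ _ c_4480_128_640_128
theorem n_4352_256_640_128 : Cov 4352 256 640 128 := cov_a 4224 128 640 128 n_4224_128_640_128 n_4480_128_640_128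
theorem n_4352_256_896_128 : Cov 4352 256 896 128 := cov_leaf _ _ _ _ c_4352_256_896_128
theorem n_4352_256_768_256 : Cov 4352 256 768 256 := cov_b 4352 256 640 128 n_4352_256_640_128 n_4352_256_896_128
theorem n_4736_128_640_128 : Cov 4736 128 640 128 := cov_leaf _ _ _ _ c_4736_128_640_128
theorem n_4992_128_640_128 : Cov 4992 128 640 128 := cov_leaf _ _ _ _ c_4992_128_640_128
theorem n_4864_256_640_128 : Cov 4864 256 640 128 := cov_a 4736 128 640 128 n_4736_128_640_128 n_4992_128_640_128
theorem n_4864_256_896_128 : Cov 4864 256 896 128 := cov_leaf _ _ _ _ c_4864_256_896_128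
theorem n_4864_256_768_256 : Cov 4864 256 768 256 := cov_b 4864 256 640 128 n_4864_256_640_128 n_4864_256_896_128
theorem n_4608_512_768_256 : Cov 4608 512 768 256 := cov_a 4352 256 768 256 n_4352_256_768_256 n_4864_256_768_256
theorem n_4608_512_512_512 : Cov 4608 512 512 512 := cov_b 4608 512 256 256 n_4608_512_256_256 n_4608_512_768_256
theorem n_5248_128_64_64 : Cov 5248 128 64 64 := cov_leaf _ _ _ _ c_5248_128_64_64
theorem n_5248_128_192_64 : Cov 5248 128 192 64 := cov_leaf _ _ _ _ c_5248_128_192_64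
theorem n_5248_128_128_128 : Cov 5248 128 128 128 := cov_b 5248 128 64 64 n_5248_128_64_64 n_5248_128_192_64
theorem n_5504_128_64_64 : Cov 5504 128 64 64 := cov_leaf _ _ _ _ c_5504_128_64_64
theorem n_5504_128_192_64 : Cov 5504 128 192 64 := cov_leaf _ _ _ _ c_5504_128_192_64
theorem n_5504_128_128_128 : Cov 5504 128 128 128 := cov_b 5504 128 64 64 n_5504_128_64_64 n_5504_128_192_64
theorem n_5376_256_128_128 : Cov 5376 256 128 128 := cov_a 5248 128 128 128 n_5248_128_128_128 n_5504_128_128_128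
theorem n_5248_128_320_64 : Cov 5248 128 320 64 := cov_leaf _ _ _ _ c_5248_128_320_64
theorem n_5248_128_448_64 : Cov 5248 128 448 64 := cov_leaf _ _ _ _ c_5248_128_448_64
theorem n_5248_128_384_128 : Cov 5248 128 384 128 := cov_b 5248 128 320 64 n_5248_128_320_64 n_5248_128_448_64
theorem n_5504_128_320_64 : Cov 5504 128 320 64 := cov_leaf _ _ _ _ c_5504_128_320_64
theorem n_5504_128_448_64 : Cov 5504 128 448 64 := cov_leaf _ _ _ _ c_5504_128_448_64
theorem n_5504_128_384_128 : Cov 5504 128 384 128 := cov_b 5504 128 320 64 n_5504_128_320_64 n_5504_128_448_64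
theorem n_5376_256_384_128 : Cov 5376 256 384 128 := cov_a 5248 128 384 128 n_5248_128_384_128 n_5504_128_384_128
theorem n_5376_256_256_256 : Cov 5376 256 256 256 := cov_b 5376 256 128 128 n_5376_256_128_128 n_5376_256_384_128
theorem n_5760_128_64_64 : Cov 5760 128 64 64 := cov_leaf _ _ _ _ c_5760_128_64_64
theorem n_5760_128_192_64 : Cov 5760 128 192 64 := cov_leaf _ _ _ _ c_5760_128_192_64
theorem n_5760_128_128_128 : Cov 5760 128 128 128 := cov_b 5760 128 64 64 n_5760_128_64_64 n_5760_128_192_64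
theorem n_6016_128_64_64 : Cov 6016 128 64 64 := cov_leaf _ _ _ _ c_6016_128_64_64
theorem n_6016_128_192_64 : Cov 6016 128 192 64 := cov_leaf _ _ _ _ c_6016_128_192_64
theorem n_6016_128_128_128 : Cov 6016 128 128 128 := cov_b 6016 128 64 64 n_6016_128_64_64 n_6016_128_192_64
theorem n_5888_256_128_128 : Cov 5888 256 128 128 := cov_a 5760 128 128 128 n_5760_128_128_128 n_6016_128_128_128
theorem n_5760_128_320_64 : Cov 5760 128 320 64 := cov_leaf _ _ _ _ c_5760_128_320_64
theorem n_5760_128_448_64 : Cov 5760 128 448 64 := cov_leaf _ _ _ _ c_5760_128_448_64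
theorem n_5760_128_384_128 : Cov 5760 128 384 128 := cov_b 5760 128 320 64 n_5760_128_320_64 n_5760_128_448_64
theorem n_6016_128_320_64 : Cov 6016 128 320 64 := cov_leaf _ _ _ _ c_6016_128_320_64
theorem n_6016_128_448_64 : Cov 6016 128 448 64 := cov_leaf _ _ _ _ c_6016_128_448_64
theorem n_6016_128_384_128 : Cov 6016 128 384 128 := cov_b 6016 128 320 64 n_6016_128_320_64 n_6016_128_448_64
theorem n_5888_256_384_128 : Cov 5888 256 384 128 := cov_a 5760 128 384 128 n_5760_128_384_128 n_6016_128_384_128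
theorem n_5888_256_256_256 : Cov 5888 256 256 256 := cov_b 5888 256 128 128 n_5888_256_128_128 n_5888_256_384_128
theorem n_5632_512_256_256 : Cov 5632 512 256 256 := cov_a 5376 256 256 256 n_5376_256_256_256 n_5888_256_256_256
theorem n_5248_128_640_128 : Cov 5248 128 640 128 := cov_leaf _ _ _ _ c_5248_128_640_128
theorem n_5504_128_640_128 : Cov 5504 128 640 128 := cov_leaf _ _ _ _ c_5504_128_640_128
theorem n_5376_256_640_128 : Cov 5376 256 640 128 := cov_a 5248 128 640 128 n_5248_128_640_128 n_5504_128_640_128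
theorem n_5376_256_896_128 : Cov 5376 256 896 128 := cov_leaf _ _ _ _ c_5376_256_896_128
theorem n_5376_256_768_256 : Cov 5376 256 768 256 := cov_b 5376 256 640 128 n_5376_256_640_128 n_5376_256_896_128
theorem n_5760_128_640_128 : Cov 5760 128 640 128 := cov_leaf _ _ _ _ c_5760_128_640_128
theorem n_6016_128_640_128 : Cov 6016 128 640 128 := cov_leaf _ _ _ _ c_6016_128_640_128
theorem n_5888_256_640_128 : Cov 5888 256 640 128 := cov_a 5760 128 640 128 n_5760_128_640_128 n_6016_128_640_128
theorem n_5760_128_896_128 : Cov 5760 128 896 128 := cov_leaf _ _ _ _ c_5760_128_896_128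
theorem n_6016_128_896_128 : Cov 6016 128 896 128 := cov_leaf _ _ _ _ c_6016_128_896_128
theorem n_5888_256_896_128 : Cov 5888 256 896 128 := cov_a 5760 128 896 128 n_5760_128_896_128 n_6016_128_896_128
theorem n_5888_256_768_256 : Cov 5888 256 768 256 := cov_b 5888 256 640 128 n_5888_256_640_128 n_5888_256_896_128
theorem n_5632_512_768_256 : Cov 5632 512 768 256 := cov_a 5376 256 768 256 n_5376_256_768_256 n_5888_256_768_256
theorem n_5632_512_512_512 : Cov 5632 512 512 512 := cov_b 5632 512 256 256 n_5632_512_256_256 n_5632_512_768_256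
theorem n_5120_1024_512_512 : Cov 5120 1024 512 512 := cov_a 4608 512 512 512 n_4608_512_512_512 n_5632_512_512_512
theorem n_4352_256_1152_128 : Cov 4352 256 1152 128 := cov_leaf _ _ _ _ c_4352_256_1152_128
theorem n_4352_256_1408_128 : Cov 4352 256 1408 128 := cov_leaf _ _ _ _ c_4352_256_1408_128
theorem n_4352_256_1280_256 : Cov 4352 256 1280 256 := cov_b 4352 256 1152 128 n_4352_256_1152_128 n_4352_256_1408_128
theorem n_4864_256_1152_128 : Cov 4864 256 1152 128 := cov_leaf _ _ _ _ c_4864_256_1152_128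
theorem n_4864_256_1408_128 : Cov 4864 256 1408 128 := cov_leaf _ _ _ _ c_4864_256_1408_128
theorem n_4864_256_1280_256 : Cov 4864 256 1280 256 := cov_b 4864 256 1152 128 n_4864_256_1152_128 n_4864_256_1408_128
theorem n_4608_512_1280_256 : Cov 4608 512 1280 256 := cov_a 4352 256 1280 256 n_4352_256_1280_256 n_4864_256_1280_256
theorem n_4352_256_1664_128 : Cov 4352 256 1664 128 := cov_leaf _ _ _ _ c_4352_256_1664_128
theorem n_4352_256_1920_128 : Cov 4352 256 1920 128 := cov_leaf _ _ _ _ c_4352_256_1920_128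
theorem n_4352_256_1792_256 : Cov 4352 256 1792 256 := cov_b 4352 256 1664 128 n_4352_256_1664_128 n_4352_256_1920_128
theorem n_4864_256_1664_128 : Cov 4864 256 1664 128 := cov_leaf _ _ _ _ c_4864_256_1664_128
theorem n_4864_256_1920_128 : Cov 4864 256 1920 128 := cov_leaf _ _ _ _ c_4864_256_1920_128
theorem n_4864_256_1792_256 : Cov 4864 256 1792 256 := cov_b 4864 256 1664 128 n_4864_256_1664_128 n_4864_256_1920_128
theorem n_4608_512_1792_256 : Cov 4608 512 1792 256 := cov_a 4352 256 1792 256 n_4352_256_1792_256 n_4864_256_1792_256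
theorem n_4608_512_1536_512 : Cov 4608 512 1536 512 := cov_b 4608 512 1280 256 n_4608_512_1280_256 n_4608_512_1792_256
theorem n_5376_256_1152_128 : Cov 5376 256 1152 128 := cov_leaf _ _ _ _ c_5376_256_1152_128
theorem n_5376_256_1408_128 : Cov 5376 256 1408 128 := cov_leaf _ _ _ _ c_5376_256_1408_128
theorem n_5376_256_1280_256 : Cov 5376 256 1280 256 := cov_b 5376 256 1152 128 n_5376_256_1152_128 n_5376_256_1408_128
theorem n_5888_256_1152_128 : Cov 5888 256 1152 128 := cov_leaf _ _ _ _ c_5888_256_1152_128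
theorem n_5888_256_1408_128 : Cov 5888 256 1408 128 := cov_leaf _ _ _ _ c_5888_256_1408_128
theorem n_5888_256_1280_256 : Cov 5888 256 1280 256 := cov_b 5888 256 1152 128 n_5888_256_1152_128 n_5888_256_1408_128
theorem n_5632_512_1280_256 : Cov 5632 512 1280 256 := cov_a 5376 256 1280 256 n_5376_256_1280_256 n_5888_256_1280_256
theorem n_5376_256_1664_128 : Cov 5376 256 1664 128 := cov_leaf _ _ _ _ c_5376_256_1664_128
theorem n_5376_256_1920_128 : Cov 5376 256 1920 128 := cov_leaf _ _ _ _ c_5376_256_1920_128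
theorem n_5376_256_1792_256 : Cov 5376 256 1792 256 := cov_b 5376 256 1664 128 n_5376_256_1664_128 n_5376_256_1920_128
theorem n_5888_256_1664_128 : Cov 5888 256 1664 128 := cov_leaf _ _ _ _ c_5888_256_1664_128
theorem n_5888_256_1920_128 : Cov 5888 256 1920 128 := cov_leaf _ _ _ _ c_5888_256_1920_128
theorem n_5888_256_1792_256 : Cov 5888 256 1792 256 := cov_b 5888 256 1664 128 n_5888_256_1664_128 n_5888_256_1920_128
theorem n_5632_512_1792_256 : Cov 5632 512 1792 256 := cov_a 5376 256 1792 256 n_5376_256_1792_256 n_5888_256_1792_256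
theorem n_5632_512_1536_512 : Cov 5632 512 1536 512 := cov_b 5632 512 1280 256 n_5632_512_1280_256 n_5632_512_1792_256
theorem n_5120_1024_1536_512 : Cov 5120 1024 1536 512 := cov_a 4608 512 1536 512 n_4608_512_1536_512 n_5632_512_1536_512
theorem n_5120_1024_1024_1024 : Cov 5120 1024 1024 1024 := cov_b 5120 1024 512 512 n_5120_1024_512_512 n_5120_1024_1536_512
theorem n_6272_128_64_64 : Cov 6272 128 64 64 := cov_leaf _ _ _ _ c_6272_128_64_64
theorem n_6272_128_192_64 : Cov 6272 128 192 64 := cov_leaf _ _ _ _ c_6272_128_192_64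
theorem n_6272_128_128_128 : Cov 6272 128 128 128 := cov_b 6272 128 64 64 n_6272_128_64_64 n_6272_128_192_64
theorem n_6528_128_64_64 : Cov 6528 128 64 64 := cov_leaf _ _ _ _ c_6528_128_64_64
theorem n_6528_128_192_64 : Cov 6528 128 192 64 := cov_leaf _ _ _ _ c_6528_128_192_64
theorem n_6528_128_128_128 : Cov 6528 128 128 128 := cov_b 6528 128 64 64 n_6528_128_64_64 n_6528_128_192_64
theorem n_6400_256_128_128 : Cov 6400 256 128 128 := cov_a 6272 128 128 128 n_6272_128_128_128 n_6528_128_128_128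
theorem n_6272_128_320_64 : Cov 6272 128 320 64 := cov_leaf _ _ _ _ c_6272_128_320_64
theorem n_6272_128_448_64 : Cov 6272 128 448 64 := cov_leaf _ _ _ _ c_6272_128_448_64
theorem n_6272_128_384_128 : Cov 6272 128 384 128 := cov_b 6272 128 320 64 n_6272_128_320_64 n_6272_128_448_64
theorem n_6528_128_320_64 : Cov 6528 128 320 64 := cov_leaf _ _ _ _ c_6528_128_320_64
theorem n_6528_128_448_64 : Cov 6528 128 448 64 := cov_leaf _ _ _ _ c_6528_128_448_64
theorem n_6528_128_384_128 : Cov 6528 128 384 128 := cov_b 6528 128 320 64 n_6528_128_320_64 n_6528_128_448_64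
theorem n_6400_256_384_128 : Cov 6400 256 384 128 := cov_a 6272 128 384 128 n_6272_128_384_128 n_6528_128_384_128
theorem n_6400_256_256_256 : Cov 6400 256 256 256 := cov_b 6400 256 128 128 n_6400_256_128_128 n_6400_256_384_128
theorem n_6720_64_64_64 : Cov 6720 64 64 64 := cov_leaf _ _ _ _ c_6720_64_64_64
theorem n_6848_64_64_64 : Cov 6848 64 64 64 := cov_leaf _ _ _ _ c_6848_64_64_64
theorem n_6784_128_64_64 : Cov 6784 128 64 64 := cov_a 6720 64 64 64 n_6720_64_64_64 n_6848_64_64_64
theorem n_6784_128_192_64 : Cov 6784 128 192 64 := cov_leaf _ _ _ _ c_6784_128_192_64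
theorem n_6784_128_128_128 : Cov 6784 128 128 128 := cov_b 6784 128 64 64 n_6784_128_64_64 n_6784_128_192_64
theorem n_6976_64_64_64 : Cov 6976 64 64 64 := cov_leaf _ _ _ _ c_6976_64_64_64
theorem n_7104_64_64_64 : Cov 7104 64 64 64 := cov_leaf _ _ _ _ c_7104_64_64_64
theorem n_7040_128_64_64 : Cov 7040 128 64 64 := cov_a 6976 64 64 64 n_6976_64_64_64 n_7104_64_64_64
theorem n_7040_128_192_64 : Cov 7040 128 192 64 := cov_leaf _ _ _ _ c_7040_128_192_64
theorem n_7040_128_128_128 : Cov 7040 128 128 128 := cov_b 7040 128 64 64 n_7040_128_64_64 n_7040_128_192_64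
theorem n_6912_256_128_128 : Cov 6912 256 128 128 := cov_a 6784 128 128 128 n_6784_128_128_128 n_7040_128_128_128
theorem n_6784_128_320_64 : Cov 6784 128 320 64 := cov_leaf _ _ _ _ c_6784_128_320_64
theorem n_6784_128_448_64 : Cov 6784 128 448 64 := cov_leaf _ _ _ _ c_6784_128_448_64
theorem n_6784_128_384_128 : Cov 6784 128 384 128 := cov_b 6784 128 320 64 n_6784_128_320_64 n_6784_128_448_64
theorem n_7040_128_320_64 : Cov 7040 128 320 64 := cov_leaf _ _ _ _ c_7040_128_320_64
theorem n_7040_128_448_64 : Cov 7040 128 448 64 := cov_leaf _ _ _ _ c_7040_128_448_64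
theorem n_7040_128_384_128 : Cov 7040 128 384 128 := cov_b 7040 128 320 64 n_7040_128_320_64 n_7040_128_448_64
theorem n_6912_256_384_128 : Cov 6912 256 384 128 := cov_a 6784 128 384 128 n_6784_128_384_128 n_7040_128_384_128
theorem n_6912_256_256_256 : Cov 6912 256 256 256 := cov_b 6912 256 128 128 n_6912_256_128_128 n_6912_256_384_128
theorem n_6656_512_256_256 : Cov 6656 512 256 256 := cov_a 6400 256 256 256 n_6400_256_256_256 n_6912_256_256_256
theorem n_6272_128_576_64 : Cov 6272 128 576 64 := cov_leaf _ _ _ _ c_6272_128_576_64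
theorem n_6272_128_704_64 : Cov 6272 128 704 64 := cov_leaf _ _ _ _ c_6272_128_704_64
theorem n_6272_128_640_128 : Cov 6272 128 640 128 := cov_b 6272 128 576 64 n_6272_128_576_64 n_6272_128_704_64
theorem n_6528_128_576_64 : Cov 6528 128 576 64 := cov_leaf _ _ _ _ c_6528_128_576_64
theorem n_6528_128_704_64 : Cov 6528 128 704 64 := cov_leaf _ _ _ _ c_6528_128_704_64
theorem n_6528_128_640_128 : Cov 6528 128 640 128 := cov_b 6528 128 576 64 n_6528_128_576_64 n_6528_128_704_64
theorem n_6400_256_640_128 : Cov 6400 256 640 128 := cov_a 6272 128 640 128 n_6272_128_640_128 n_6528_128_640_128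
theorem n_6272_128_896_128 : Cov 6272 128 896 128 := cov_leaf _ _ _ _ c_6272_128_896_128
theorem n_6528_128_896_128 : Cov 6528 128 896 128 := cov_leaf _ _ _ _ c_6528_128_896_128
theorem n_6400_256_896_128 : Cov 6400 256 896 128 := cov_a 6272 128 896 128 n_6272_128_896_128 n_6528_128_896_128
theorem n_6400_256_768_256 : Cov 6400 256 768 256 := cov_b 6400 256 640 128 n_6400_256_640_128 n_6400_256_896_128
theorem n_6784_128_576_64 : Cov 6784 128 576 64 := cov_leaf _ _ _ _ c_6784_128_576_64
theorem n_6784_128_704_64 : Cov 6784 128 704 64 := cov_leaf _ _ _ _ c_6784_128_704_64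
theorem n_6784_128_640_128 : Cov 6784 128 640 128 := cov_b 6784 128 576 64 n_6784_128_576_64 n_6784_128_704_64
theorem n_7040_128_576_64 : Cov 7040 128 576 64 := cov_leaf _ _ _ _ c_7040_128_576_64
theorem n_7040_128_704_64 : Cov 7040 128 704 64 := cov_leaf _ _ _ _ c_7040_128_704_64
theorem n_7040_128_640_128 : Cov 7040 128 640 128 := cov_b 7040 128 576 64 n_7040_128_576_64 n_7040_128_704_64
theorem n_6912_256_640_128 : Cov 6912 256 640 128 := cov_a 6784 128 640 128 n_6784_128_640_128 n_7040_128_640_128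
theorem n_6784_128_896_128 : Cov 6784 128 896 128 := cov_leaf _ _ _ _ c_6784_128_896_128
theorem n_7040_128_896_128 : Cov 7040 128 896 128 := cov_leaf _ _ _ _ c_7040_128_896_128
theorem n_6912_256_896_128 : Cov 6912 256 896 128 := cov_a 6784 128 896 128 n_6784_128_896_128 n_7040_128_896_128
theorem n_6912_256_768_256 : Cov 6912 256 768 256 := cov_b 6912 256 640 128 n_6912_256_640_128 n_6912_256_896_128
theorem n_6656_512_768_256 : Cov 6656 512 768 256 := cov_a 6400 256 768 256 n_6400_256_768_256 n_6912_256_768_256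
theorem n_6656_512_512_512 : Cov 6656 512 512 512 := cov_b 6656 512 256 256 n_6656_512_256_256 n_6656_512_768_256
theorem n_7232_64_32_32 : Cov 7232 64 32 32 := cov_leaf _ _ _ _ c_7232_64_32_32
theorem n_7232_64_96_32 : Cov 7232 64 96 32 := cov_leaf _ _ _ _ c_7232_64_96_32
theorem n_7232_64_64_64 : Cov 7232 64 64 64 := cov_b 7232 64 32 32 n_7232_64_32_32 n_7232_64_96_32
theorem n_7360_64_32_32 : Cov 7360 64 32 32 := cov_leaf _ _ _ _ c_7360_64_32_32
theorem n_7360_64_96_32 : Cov 7360 64 96 32 := cov_leaf _ _ _ _ c_7360_64_96_32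
theorem n_7360_64_64_64 : Cov 7360 64 64 64 := cov_b 7360 64 32 32 n_7360_64_32_32 n_7360_64_96_32
theorem n_7296_128_64_64 : Cov 7296 128 64 64 := cov_a 7232 64 64 64 n_7232_64_64_64 n_7360_64_64_64
theorem n_7296_128_192_64 : Cov 7296 128 192 64 := cov_leaf _ _ _ _ c_7296_128_192_64
theorem n_7296_128_128_128 : Cov 7296 128 128 128 := cov_b 7296 128 64 64 n_7296_128_64_64 n_7296_128_192_64
theorem n_7488_64_32_32 : Cov 7488 64 32 32 := cov_leaf _ _ _ _ c_7488_64_32_32
theorem n_7488_64_96_32 : Cov 7488 64 96 32 := cov_leaf _ _ _ _ c_7488_64_96_32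
theorem n_7488_64_64_64 : Cov 7488 64 64 64 := cov_b 7488 64 32 32 n_7488_64_32_32 n_7488_64_96_32
theorem n_7616_64_32_32 : Cov 7616 64 32 32 := cov_leaf _ _ _ _ c_7616_64_32_32
theorem n_7616_64_96_32 : Cov 7616 64 96 32 := cov_leaf _ _ _ _ c_7616_64_96_32
theorem n_7616_64_64_64 : Cov 7616 64 64 64 := cov_b 7616 64 32 32 n_7616_64_32_32 n_7616_64_96_32
theorem n_7552_128_64_64 : Cov 7552 128 64 64 := cov_a 7488 64 64 64 n_7488_64_64_64 n_7616_64_64_64
theorem n_7552_128_192_64 : Cov 7552 128 192 64 := cov_leaf _ _ _ _ c_7552_128_192_64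
theorem n_7552_128_128_128 : Cov 7552 128 128 128 := cov_b 7552 128 64 64 n_7552_128_64_64 n_7552_128_192_64
theorem n_7424_256_128_128 : Cov 7424 256 128 128 := cov_a 7296 128 128 128 n_7296_128_128_128 n_7552_128_128_128
theorem n_7296_128_320_64 : Cov 7296 128 320 64 := cov_leaf _ _ _ _ c_7296_128_320_64
theorem n_7296_128_448_64 : Cov 7296 128 448 64 := cov_leaf _ _ _ _ c_7296_128_448_64
theorem n_7296_128_384_128 : Cov 7296 128 384 128 := cov_b 7296 128 320 64 n_7296_128_320_64 n_7296_128_448_64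
theorem n_7552_128_320_64 : Cov 7552 128 320 64 := cov_leaf _ _ _ _ c_7552_128_320_64
theorem n_7552_128_448_64 : Cov 7552 128 448 64 := cov_leaf _ _ _ _ c_7552_128_448_64
theorem n_7552_128_384_128 : Cov 7552 128 384 128 := cov_b 7552 128 320 64 n_7552_128_320_64 n_7552_128_448_64
theorem n_7424_256_384_128 : Cov 7424 256 384 128 := cov_a 7296 128 384 128 n_7296_128_384_128 n_7552_128_384_128
theorem n_7424_256_256_256 : Cov 7424 256 256 256 := cov_b 7424 256 128 128 n_7424_256_128_128 n_7424_256_384_128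
theorem n_7744_64_32_32 : Cov 7744 64 32 32 := cov_leaf _ _ _ _ c_7744_64_32_32
theorem n_7744_64_96_32 : Cov 7744 64 96 32 := cov_leaf _ _ _ _ c_7744_64_96_32
theorem n_7744_64_64_64 : Cov 7744 64 64 64 := cov_b 7744 64 32 32 n_7744_64_32_32 n_7744_64_96_32
theorem n_7872_64_32_32 : Cov 7872 64 32 32 := cov_leaf _ _ _ _ c_7872_64_32_32
theorem n_7872_64_96_32 : Cov 7872 64 96 32 := cov_leaf _ _ _ _ c_7872_64_96_32
theorem n_7872_64_64_64 : Cov 7872 64 64 64 := cov_b 7872 64 32 32 n_7872_64_32_32 n_7872_64_96_32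
theorem n_7808_128_64_64 : Cov 7808 128 64 64 := cov_a 7744 64 64 64 n_7744_64_64_64 n_7872_64_64_64
theorem n_7808_128_192_64 : Cov 7808 128 192 64 := cov_leaf _ _ _ _ c_7808_128_192_64
theorem n_7808_128_128_128 : Cov 7808 128 128 128 := cov_b 7808 128 64 64 n_7808_128_64_64 n_7808_128_192_64
theorem n_8000_64_32_32 : Cov 8000 64 32 32 := cov_leaf _ _ _ _ c_8000_64_32_32
theorem n_8000_64_96_32 : Cov 8000 64 96 32 := cov_leaf _ _ _ _ c_8000_64_96_32
theorem n_8000_64_64_64 : Cov 8000 64 64 64 := cov_b 8000 64 32 32 n_8000_64_32_32 n_8000_64_96_32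
theorem n_8128_64_32_32 : Cov 8128 64 32 32 := cov_leaf _ _ _ _ c_8128_64_32_32
theorem n_8128_64_96_32 : Cov 8128 64 96 32 := cov_leaf _ _ _ _ c_8128_64_96_32
theorem n_8128_64_64_64 : Cov 8128 64 64 64 := cov_b 8128 64 32 32 n_8128_64_32_32 n_8128_64_96_32
theorem n_8064_128_64_64 : Cov 8064 128 64 64 := cov_a 8000 64 64 64 n_8000_64_64_64 n_8128_64_64_64
theorem n_8064_128_192_64 : Cov 8064 128 192 64 := cov_leaf _ _ _ _ c_8064_128_192_64
theorem n_8064_128_128_128 : Cov 8064 128 128 128 := cov_b 8064 128 64 64 n_8064_128_64_64 n_8064_128_192_64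
theorem n_7936_256_128_128 : Cov 7936 256 128 128 := cov_a 7808 128 128 128 n_7808_128_128_128 n_8064_128_128_128
theorem n_7808_128_320_64 : Cov 7808 128 320 64 := cov_leaf _ _ _ _ c_7808_128_320_64
theorem n_7808_128_448_64 : Cov 7808 128 448 64 := cov_leaf _ _ _ _ c_7808_128_448_64
theorem n_7808_128_384_128 : Cov 7808 128 384 128 := cov_b 7808 128 320 64 n_7808_128_320_64 n_7808_128_448_64
theorem n_8064_128_320_64 : Cov 8064 128 320 64 := cov_leaf _ _ _ _ c_8064_128_320_64
theorem n_8064_128_448_64 : Cov 8064 128 448 64 := cov_leaf _ _ _ _ c_8064_128_448_64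
theorem n_8064_128_384_128 : Cov 8064 128 384 128 := cov_b 8064 128 320 64 n_8064_128_320_64 n_8064_128_448_64
theorem n_7936_256_384_128 : Cov 7936 256 384 128 := cov_a 7808 128 384 128 n_7808_128_384_128 n_8064_128_384_128
theorem n_7936_256_256_256 : Cov 7936 256 256 256 := cov_b 7936 256 128 128 n_7936_256_128_128 n_7936_256_384_128
theorem n_7680_512_256_256 : Cov 7680 512 256 256 := cov_a 7424 256 256 256 n_7424_256_256_256 n_7936_256_256_256
theorem n_7296_128_576_64 : Cov 7296 128 576 64 := cov_leaf _ _ _ _ c_7296_128_576_64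
theorem n_7296_128_704_64 : Cov 7296 128 704 64 := cov_leaf _ _ _ _ c_7296_128_704_64
theorem n_7296_128_640_128 : Cov 7296 128 640 128 := cov_b 7296 128 576 64 n_7296_128_576_64 n_7296_128_704_64
theorem n_7552_128_576_64 : Cov 7552 128 576 64 := cov_leaf _ _ _ _ c_7552_128_576_64
theorem n_7552_128_704_64 : Cov 7552 128 704 64 := cov_leaf _ _ _ _ c_7552_128_704_64
theorem n_7552_128_640_128 : Cov 7552 128 640 128 := cov_b 7552 128 576 64 n_7552_128_576_64 n_7552_128_704_64
theorem n_7424_256_640_128 : Cov 7424 256 640 128 := cov_a 7296 128 640 128 n_7296_128_640_128 n_7552_128_640_128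
theorem n_7296_128_896_128 : Cov 7296 128 896 128 := cov_leaf _ _ _ _ c_7296_128_896_128
theorem n_7552_128_896_128 : Cov 7552 128 896 128 := cov_leaf _ _ _ _ c_7552_128_896_128
theorem n_7424_256_896_128 : Cov 7424 256 896 128 := cov_a 7296 128 896 128 n_7296_128_896_128 n_7552_128_896_128
theorem n_7424_256_768_256 : Cov 7424 256 768 256 := cov_b 7424 256 640 128 n_7424_256_640_128 n_7424_256_896_128
theorem n_7808_128_576_64 : Cov 7808 128 576 64 := cov_leaf _ _ _ _ c_7808_128_576_64
theorem n_7808_128_704_64 : Cov 7808 128 704 64 := cov_leaf _ _ _ _ c_7808_128_704_64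
theorem n_7808_128_640_128 : Cov 7808 128 640 128 := cov_b 7808 128 576 64 n_7808_128_576_64 n_7808_128_704_64
theorem n_8064_128_576_64 : Cov 8064 128 576 64 := cov_leaf _ _ _ _ c_8064_128_576_64
theorem n_8064_128_704_64 : Cov 8064 128 704 64 := cov_leaf _ _ _ _ c_8064_128_704_64
theorem n_8064_128_640_128 : Cov 8064 128 640 128 := cov_b 8064 128 576 64 n_8064_128_576_64 n_8064_128_704_64
theorem n_7936_256_640_128 : Cov 7936 256 640 128 := cov_a 7808 128 640 128 n_7808_128_640_128 n_8064_128_640_128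
theorem n_7808_128_896_128 : Cov 7808 128 896 128 := cov_leaf _ _ _ _ c_7808_128_896_128
theorem n_8064_128_896_128 : Cov 8064 128 896 128 := cov_leaf _ _ _ _ c_8064_128_896_128
theorem n_7936_256_896_128 : Cov 7936 256 896 128 := cov_a 7808 128 896 128 n_7808_128_896_128 n_8064_128_896_128
theorem n_7936_256_768_256 : Cov 7936 256 768 256 := cov_b 7936 256 640 128 n_7936_256_640_128 n_7936_256_896_128
theorem n_7680_512_768_256 : Cov 7680 512 768 256 := cov_a 7424 256 768 256 n_7424_256_768_256 n_7936_256_768_256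
theorem n_7680_512_512_512 : Cov 7680 512 512 512 := cov_b 7680 512 256 256 n_7680_512_256_256 n_7680_512_768_256
theorem n_7168_1024_512_512 : Cov 7168 1024 512 512 := cov_a 6656 512 512 512 n_6656_512_512_512 n_7680_512_512_512
theorem n_6400_256_1152_128 : Cov 6400 256 1152 128 := cov_leaf _ _ _ _ c_6400_256_1152_128
theorem n_6400_256_1408_128 : Cov 6400 256 1408 128 := cov_leaf _ _ _ _ c_6400_256_1408_128
theorem n_6400_256_1280_256 : Cov 6400 256 1280 256 := cov_b 6400 256 1152 128 n_6400_256_1152_128 n_6400_256_1408_128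
theorem n_6912_256_1152_128 : Cov 6912 256 1152 128 := cov_leaf _ _ _ _ c_6912_256_1152_128
theorem n_6912_256_1408_128 : Cov 6912 256 1408 128 := cov_leaf _ _ _ _ c_6912_256_1408_128
theorem n_6912_256_1280_256 : Cov 6912 256 1280 256 := cov_b 6912 256 1152 128 n_6912_256_1152_128 n_6912_256_1408_128
theorem n_6656_512_1280_256 : Cov 6656 512 1280 256 := cov_a 6400 256 1280 256 n_6400_256_1280_256 n_6912_256_1280_256
theorem n_6400_256_1664_128 : Cov 6400 256 1664 128 := cov_leaf _ _ _ _ c_6400_256_1664_128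
theorem n_6400_256_1920_128 : Cov 6400 256 1920 128 := cov_leaf _ _ _ _ c_6400_256_1920_128
theorem n_6400_256_1792_256 : Cov 6400 256 1792 256 := cov_b 6400 256 1664 128 n_6400_256_1664_128 n_6400_256_1920_128
theorem n_6912_256_1664_128 : Cov 6912 256 1664 128 := cov_leaf _ _ _ _ c_6912_256_1664_128
theorem n_6912_256_1920_128 : Cov 6912 256 1920 128 := cov_leaf _ _ _ _ c_6912_256_1920_128
theorem n_6912_256_1792_256 : Cov 6912 256 1792 256 := cov_b 6912 256 1664 128 n_6912_256_1664_128 n_6912_256_1920_128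
theorem n_6656_512_1792_256 : Cov 6656 512 1792 256 := cov_a 6400 256 1792 256 n_6400_256_1792_256 n_6912_256_1792_256
theorem n_6656_512_1536_512 : Cov 6656 512 1536 512 := cov_b 6656 512 1280 256 n_6656_512_1280_256 n_6656_512_1792_256
theorem n_7424_256_1152_128 : Cov 7424 256 1152 128 := cov_leaf _ _ _ _ c_7424_256_1152_128
theorem n_7424_256_1408_128 : Cov 7424 256 1408 128 := cov_leaf _ _ _ _ c_7424_256_1408_128
theorem n_7424_256_1280_256 : Cov 7424 256 1280 256 := cov_b 7424 256 1152 128 n_7424_256_1152_128 n_7424_256_1408_128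
theorem n_7936_256_1152_128 : Cov 7936 256 1152 128 := cov_leaf _ _ _ _ c_7936_256_1152_128
theorem n_7936_256_1408_128 : Cov 7936 256 1408 128 := cov_leaf _ _ _ _ c_7936_256_1408_128
theorem n_7936_256_1280_256 : Cov 7936 256 1280 256 := cov_b 7936 256 1152 128 n_7936_256_1152_128 n_7936_256_1408_128
theorem n_7680_512_1280_256 : Cov 7680 512 1280 256 := cov_a 7424 256 1280 256 n_7424_256_1280_256 n_7936_256_1280_256
theorem n_7424_256_1664_128 : Cov 7424 256 1664 128 := cov_leaf _ _ _ _ c_7424_256_1664_128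
theorem n_7424_256_1920_128 : Cov 7424 256 1920 128 := cov_leaf _ _ _ _ c_7424_256_1920_128
theorem n_7424_256_1792_256 : Cov 7424 256 1792 256 := cov_b 7424 256 1664 128 n_7424_256_1664_128 n_7424_256_1920_128
theorem n_7936_256_1664_128 : Cov 7936 256 1664 128 := cov_leaf _ _ _ _ c_7936_256_1664_128
theorem n_7936_256_1920_128 : Cov 7936 256 1920 128 := cov_leaf _ _ _ _ c_7936_256_1920_128
theorem n_7936_256_1792_256 : Cov 7936 256 1792 256 := cov_b 7936 256 1664 128 n_7936_256_1664_128 n_7936_256_1920_128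
theorem n_7680_512_1792_256 : Cov 7680 512 1792 256 := cov_a 7424 256 1792 256 n_7424_256_1792_256 n_7936_256_1792_256
theorem n_7680_512_1536_512 : Cov 7680 512 1536 512 := cov_b 7680 512 1280 256 n_7680_512_1280_256 n_7680_512_1792_256
theorem n_7168_1024_1536_512 : Cov 7168 1024 1536 512 := cov_a 6656 512 1536 512 n_6656_512_1536_512 n_7680_512_1536_512
theorem n_7168_1024_1024_1024 : Cov 7168 1024 1024 1024 := cov_b 7168 1024 512 512 n_7168_1024_512_512 n_7168_1024_1536_512
theorem n_6144_2048_1024_1024 : Cov 6144 2048 1024 1024 := cov_a 5120 1024 1024 1024 n_5120_1024_1024_1024 n_7168_1024_1024_1024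
theorem n_4352_256_2176_128 : Cov 4352 256 2176 128 := cov_leaf _ _ _ _ c_4352_256_2176_128
theorem n_4352_256_2432_128 : Cov 4352 256 2432 128 := cov_leaf _ _ _ _ c_4352_256_2432_128
theorem n_4352_256_2304_256 : Cov 4352 256 2304 256 := cov_b 4352 256 2176 128 n_4352_256_2176_128 n_4352_256_2432_128
theorem n_4864_256_2176_128 : Cov 4864 256 2176 128 := cov_leaf _ _ _ _ c_4864_256_2176_128
theorem n_4864_256_2432_128 : Cov 4864 256 2432 128 := cov_leaf _ _ _ _ c_4864_256_2432_128
theorem n_4864_256_2304_256 : Cov 4864 256 2304 256 := cov_b 4864 256 2176 128 n_4864_256_2176_128 n_4864_256_2432_128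
theorem n_4608_512_2304_256 : Cov 4608 512 2304 256 := cov_a 4352 256 2304 256 n_4352_256_2304_256 n_4864_256_2304_256
theorem n_4352_256_2688_128 : Cov 4352 256 2688 128 := cov_leaf _ _ _ _ c_4352_256_2688_128
theorem n_4352_256_2944_128 : Cov 4352 256 2944 128 := cov_leaf _ _ _ _ c_4352_256_2944_128
theorem n_4352_256_2816_256 : Cov 4352 256 2816 256 := cov_b 4352 256 2688 128 n_4352_256_2688_128 n_4352_256_2944_128
theorem n_4864_256_2688_128 : Cov 4864 256 2688 128 := cov_leaf _ _ _ _ c_4864_256_2688_128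
theorem n_4864_256_2944_128 : Cov 4864 256 2944 128 := cov_leaf _ _ _ _ c_4864_256_2944_128
theorem n_4864_256_2816_256 : Cov 4864 256 2816 256 := cov_b 4864 256 2688 128 n_4864_256_2688_128 n_4864_256_2944_128
theorem n_4608_512_2816_256 : Cov 4608 512 2816 256 := cov_a 4352 256 2816 256 n_4352_256_2816_256 n_4864_256_2816_256
theorem n_4608_512_2560_512 : Cov 4608 512 2560 512 := cov_b 4608 512 2304 256 n_4608_512_2304_256 n_4608_512_2816_256
theorem n_5376_256_2176_128 : Cov 5376 256 2176 128 := cov_leaf _ _ _ _ c_5376_256_2176_128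
theorem n_5376_256_2432_128 : Cov 5376 256 2432 128 := cov_leaf _ _ _ _ c_5376_256_2432_128
theorem n_5376_256_2304_256 : Cov 5376 256 2304 256 := cov_b 5376 256 2176 128 n_5376_256_2176_128 n_5376_256_2432_128
theorem n_5888_256_2176_128 : Cov 5888 256 2176 128 := cov_leaf _ _ _ _ c_5888_256_2176_128
theorem n_5888_256_2432_128 : Cov 5888 256 2432 128 := cov_leaf _ _ _ _ c_5888_256_2432_128
theorem n_5888_256_2304_256 : Cov 5888 256 2304 256 := cov_b 5888 256 2176 128 n_5888_256_2176_128 n_5888_256_2432_128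
theorem n_5632_512_2304_256 : Cov 5632 512 2304 256 := cov_a 5376 256 2304 256 n_5376_256_2304_256 n_5888_256_2304_256
theorem n_5376_256_2688_128 : Cov 5376 256 2688 128 := cov_leaf _ _ _ _ c_5376_256_2688_128
theorem n_5376_256_2944_128 : Cov 5376 256 2944 128 := cov_leaf _ _ _ _ c_5376_256_2944_128
theorem n_5376_256_2816_256 : Cov 5376 256 2816 256 := cov_b 5376 256 2688 128 n_5376_256_2688_128 n_5376_256_2944_128
theorem n_5888_256_2688_128 : Cov 5888 256 2688 128 := cov_leaf _ _ _ _ c_5888_256_2688_128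
theorem n_5888_256_2944_128 : Cov 5888 256 2944 128 := cov_leaf _ _ _ _ c_5888_256_2944_128
theorem n_5888_256_2816_256 : Cov 5888 256 2816 256 := cov_b 5888 256 2688 128 n_5888_256_2688_128 n_5888_256_2944_128
theorem n_5632_512_2816_256 : Cov 5632 512 2816 256 := cov_a 5376 256 2816 256 n_5376_256_2816_256 n_5888_256_2816_256
theorem n_5632_512_2560_512 : Cov 5632 512 2560 512 := cov_b 5632 512 2304 256 n_5632_512_2304_256 n_5632_512_2816_256
theorem n_5120_1024_2560_512 : Cov 5120 1024 2560 512 := cov_a 4608 512 2560 512 n_4608_512_2560_512 n_5632_512_2560_512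
theorem n_4352_256_3200_128 : Cov 4352 256 3200 128 := cov_leaf _ _ _ _ c_4352_256_3200_128
theorem n_4352_256_3456_128 : Cov 4352 256 3456 128 := cov_leaf _ _ _ _ c_4352_256_3456_128
theorem n_4352_256_3328_256 : Cov 4352 256 3328 256 := cov_b 4352 256 3200 128 n_4352_256_3200_128 n_4352_256_3456_128
theorem n_4864_256_3200_128 : Cov 4864 256 3200 128 := cov_leaf _ _ _ _ c_4864_256_3200_128
theorem n_4864_256_3456_128 : Cov 4864 256 3456 128 := cov_leaf _ _ _ _ c_4864_256_3456_128
theorem n_4864_256_3328_256 : Cov 4864 256 3328 256 := cov_b 4864 256 3200 128 n_4864_256_3200_128 n_4864_256_3456_128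
theorem n_4608_512_3328_256 : Cov 4608 512 3328 256 := cov_a 4352 256 3328 256 n_4352_256_3328_256 n_4864_256_3328_256
theorem n_4352_256_3712_128 : Cov 4352 256 3712 128 := cov_leaf _ _ _ _ c_4352_256_3712_128
theorem n_4352_256_3968_128 : Cov 4352 256 3968 128 := cov_leaf _ _ _ _ c_4352_256_3968_128
theorem n_4352_256_3840_256 : Cov 4352 256 3840 256 := cov_b 4352 256 3712 128 n_4352_256_3712_128 n_4352_256_3968_128
theorem n_4864_256_3712_128 : Cov 4864 256 3712 128 := cov_leaf _ _ _ _ c_4864_256_3712_128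
theorem n_4864_256_3968_128 : Cov 4864 256 3968 128 := cov_leaf _ _ _ _ c_4864_256_3968_128
theorem n_4864_256_3840_256 : Cov 4864 256 3840 256 := cov_b 4864 256 3712 128 n_4864_256_3712_128 n_4864_256_3968_128
theorem n_4608_512_3840_256 : Cov 4608 512 3840 256 := cov_a 4352 256 3840 256 n_4352_256_3840_256 n_4864_256_3840_256
theorem n_4608_512_3584_512 : Cov 4608 512 3584 512 := cov_b 4608 512 3328 256 n_4608_512_3328_256 n_4608_512_3840_256
theorem n_5376_256_3200_128 : Cov 5376 256 3200 128 := cov_leaf _ _ _ _ c_5376_256_3200_128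
theorem n_5376_256_3456_128 : Cov 5376 256 3456 128 := cov_leaf _ _ _ _ c_5376_256_3456_128
theorem n_5376_256_3328_256 : Cov 5376 256 3328 256 := cov_b 5376 256 3200 128 n_5376_256_3200_128 n_5376_256_3456_128
theorem n_5888_256_3200_128 : Cov 5888 256 3200 128 := cov_leaf _ _ _ _ c_5888_256_3200_128
theorem n_5888_256_3456_128 : Cov 5888 256 3456 128 := cov_leaf _ _ _ _ c_5888_256_3456_128
theorem n_5888_256_3328_256 : Cov 5888 256 3328 256 := cov_b 5888 256 3200 128 n_5888_256_3200_128 n_5888_256_3456_128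
theorem n_5632_512_3328_256 : Cov 5632 512 3328 256 := cov_a 5376 256 3328 256 n_5376_256_3328_256 n_5888_256_3328_256
theorem n_5376_256_3712_128 : Cov 5376 256 3712 128 := cov_leaf _ _ _ _ c_5376_256_3712_128
theorem n_5376_256_3968_128 : Cov 5376 256 3968 128 := cov_leaf _ _ _ _ c_5376_256_3968_128
theorem n_5376_256_3840_256 : Cov 5376 256 3840 256 := cov_b 5376 256 3712 128 n_5376_256_3712_128 n_5376_256_3968_128
theorem n_5888_256_3712_128 : Cov 5888 256 3712 128 := cov_leaf _ _ _ _ c_5888_256_3712_128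
theorem n_5888_256_3968_128 : Cov 5888 256 3968 128 := cov_leaf _ _ _ _ c_5888_256_3968_128
theorem n_5888_256_3840_256 : Cov 5888 256 3840 256 := cov_b 5888 256 3712 128 n_5888_256_3712_128 n_5888_256_3968_128
theorem n_5632_512_3840_256 : Cov 5632 512 3840 256 := cov_a 5376 256 3840 256 n_5376_256_3840_256 n_5888_256_3840_256
theorem n_5632_512_3584_512 : Cov 5632 512 3584 512 := cov_b 5632 512 3328 256 n_5632_512_3328_256 n_5632_512_3840_256
theorem n_5120_1024_3584_512 : Cov 5120 1024 3584 512 := cov_a 4608 512 3584 512 n_4608_512_3584_512 n_5632_512_3584_512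
theorem n_5120_1024_3072_1024 : Cov 5120 1024 3072 1024 := cov_b 5120 1024 2560 512 n_5120_1024_2560_512 n_5120_1024_3584_512
theorem n_6400_256_2176_128 : Cov 6400 256 2176 128 := cov_leaf _ _ _ _ c_6400_256_2176_128
theorem n_6400_256_2432_128 : Cov 6400 256 2432 128 := cov_leaf _ _ _ _ c_6400_256_2432_128
theorem n_6400_256_2304_256 : Cov 6400 256 2304 256 := cov_b 6400 256 2176 128 n_6400_256_2176_128 n_6400_256_2432_128
theorem n_6912_256_2176_128 : Cov 6912 256 2176 128 := cov_leaf _ _ _ _ c_6912_256_2176_128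
theorem n_6912_256_2432_128 : Cov 6912 256 2432 128 := cov_leaf _ _ _ _ c_6912_256_2432_128
theorem n_6912_256_2304_256 : Cov 6912 256 2304 256 := cov_b 6912 256 2176 128 n_6912_256_2176_128 n_6912_256_2432_128
theorem n_6656_512_2304_256 : Cov 6656 512 2304 256 := cov_a 6400 256 2304 256 n_6400_256_2304_256 n_6912_256_2304_256
theorem n_6400_256_2688_128 : Cov 6400 256 2688 128 := cov_leaf _ _ _ _ c_6400_256_2688_128
theorem n_6400_256_2944_128 : Cov 6400 256 2944 128 := cov_leaf _ _ _ _ c_6400_256_2944_128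
theorem n_6400_256_2816_256 : Cov 6400 256 2816 256 := cov_b 6400 256 2688 128 n_6400_256_2688_128 n_6400_256_2944_128
theorem n_6912_256_2688_128 : Cov 6912 256 2688 128 := cov_leaf _ _ _ _ c_6912_256_2688_128
theorem n_6912_256_2944_128 : Cov 6912 256 2944 128 := cov_leaf _ _ _ _ c_6912_256_2944_128
theorem n_6912_256_2816_256 : Cov 6912 256 2816 256 := cov_b 6912 256 2688 128 n_6912_256_2688_128 n_6912_256_2944_128
theorem n_6656_512_2816_256 : Cov 6656 512 2816 256 := cov_a 6400 256 2816 256 n_6400_256_2816_256 n_6912_256_2816_256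
theorem n_6656_512_2560_512 : Cov 6656 512 2560 512 := cov_b 6656 512 2304 256 n_6656_512_2304_256 n_6656_512_2816_256
theorem n_7424_256_2176_128 : Cov 7424 256 2176 128 := cov_leaf _ _ _ _ c_7424_256_2176_128
theorem n_7424_256_2432_128 : Cov 7424 256 2432 128 := cov_leaf _ _ _ _ c_7424_256_2432_128
theorem n_7424_256_2304_256 : Cov 7424 256 2304 256 := cov_b 7424 256 2176 128 n_7424_256_2176_128 n_7424_256_2432_128
theorem n_7936_256_2176_128 : Cov 7936 256 2176 128 := cov_leaf _ _ _ _ c_7936_256_2176_128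
theorem n_7936_256_2432_128 : Cov 7936 256 2432 128 := cov_leaf _ _ _ _ c_7936_256_2432_128
theorem n_7936_256_2304_256 : Cov 7936 256 2304 256 := cov_b 7936 256 2176 128 n_7936_256_2176_128 n_7936_256_2432_128
theorem n_7680_512_2304_256 : Cov 7680 512 2304 256 := cov_a 7424 256 2304 256 n_7424_256_2304_256 n_7936_256_2304_256
theorem n_7424_256_2688_128 : Cov 7424 256 2688 128 := cov_leaf _ _ _ _ c_7424_256_2688_128
theorem n_7424_256_2944_128 : Cov 7424 256 2944 128 := cov_leaf _ _ _ _ c_7424_256_2944_128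
theorem n_7424_256_2816_256 : Cov 7424 256 2816 256 := cov_b 7424 256 2688 128 n_7424_256_2688_128 n_7424_256_2944_128
theorem n_7936_256_2688_128 : Cov 7936 256 2688 128 := cov_leaf _ _ _ _ c_7936_256_2688_128
theorem n_7936_256_2944_128 : Cov 7936 256 2944 128 := cov_leaf _ _ _ _ c_7936_256_2944_128
theorem n_7936_256_2816_256 : Cov 7936 256 2816 256 := cov_b 7936 256 2688 128 n_7936_256_2688_128 n_7936_256_2944_128
theorem n_7680_512_2816_256 : Cov 7680 512 2816 256 := cov_a 7424 256 2816 256 n_7424_256_2816_256 n_7936_256_2816_256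
theorem n_7680_512_2560_512 : Cov 7680 512 2560 512 := cov_b 7680 512 2304 256 n_7680_512_2304_256 n_7680_512_2816_256
theorem n_7168_1024_2560_512 : Cov 7168 1024 2560 512 := cov_a 6656 512 2560 512 n_6656_512_2560_512 n_7680_512_2560_512
theorem n_6400_256_3200_128 : Cov 6400 256 3200 128 := cov_leaf _ _ _ _ c_6400_256_3200_128
theorem n_6400_256_3456_128 : Cov 6400 256 3456 128 := cov_leaf _ _ _ _ c_6400_256_3456_128
theorem n_6400_256_3328_256 : Cov 6400 256 3328 256 := cov_b 6400 256 3200 128 n_6400_256_3200_128 n_6400_256_3456_128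
theorem n_6912_256_3200_128 : Cov 6912 256 3200 128 := cov_leaf _ _ _ _ c_6912_256_3200_128
theorem n_6912_256_3456_128 : Cov 6912 256 3456 128 := cov_leaf _ _ _ _ c_6912_256_3456_128
theorem n_6912_256_3328_256 : Cov 6912 256 3328 256 := cov_b 6912 256 3200 128 n_6912_256_3200_128 n_6912_256_3456_128
theorem n_6656_512_3328_256 : Cov 6656 512 3328 256 := cov_a 6400 256 3328 256 n_6400_256_3328_256 n_6912_256_3328_256
theorem n_6400_256_3712_128 : Cov 6400 256 3712 128 := cov_leaf _ _ _ _ c_6400_256_3712_128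
theorem n_6400_256_3968_128 : Cov 6400 256 3968 128 := cov_leaf _ _ _ _ c_6400_256_3968_128
theorem n_6400_256_3840_256 : Cov 6400 256 3840 256 := cov_b 6400 256 3712 128 n_6400_256_3712_128 n_6400_256_3968_128
theorem n_6912_256_3712_128 : Cov 6912 256 3712 128 := cov_leaf _ _ _ _ c_6912_256_3712_128
theorem n_6912_256_3968_128 : Cov 6912 256 3968 128 := cov_leaf _ _ _ _ c_6912_256_3968_128
theorem n_6912_256_3840_256 : Cov 6912 256 3840 256 := cov_b 6912 256 3712 128 n_6912_256_3712_128 n_6912_256_3968_128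
theorem n_6656_512_3840_256 : Cov 6656 512 3840 256 := cov_a 6400 256 3840 256 n_6400_256_3840_256 n_6912_256_3840_256
theorem n_6656_512_3584_512 : Cov 6656 512 3584 512 := cov_b 6656 512 3328 256 n_6656_512_3328_256 n_6656_512_3840_256
theorem n_7424_256_3200_128 : Cov 7424 256 3200 128 := cov_leaf _ _ _ _ c_7424_256_3200_128
theorem n_7424_256_3456_128 : Cov 7424 256 3456 128 := cov_leaf _ _ _ _ c_7424_256_3456_128
theorem n_7424_256_3328_256 : Cov 7424 256 3328 256 := cov_b 7424 256 3200 128 n_7424_256_3200_128 n_7424_256_3456_128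
theorem n_7936_256_3200_128 : Cov 7936 256 3200 128 := cov_leaf _ _ _ _ c_7936_256_3200_128
theorem n_7936_256_3456_128 : Cov 7936 256 3456 128 := cov_leaf _ _ _ _ c_7936_256_3456_128
theorem n_7936_256_3328_256 : Cov 7936 256 3328 256 := cov_b 7936 256 3200 128 n_7936_256_3200_128 n_7936_256_3456_128
theorem n_7680_512_3328_256 : Cov 7680 512 3328 256 := cov_a 7424 256 3328 256 n_7424_256_3328_256 n_7936_256_3328_256
theorem n_7424_256_3712_128 : Cov 7424 256 3712 128 := cov_leaf _ _ _ _ c_7424_256_3712_128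
theorem n_7424_256_3968_128 : Cov 7424 256 3968 128 := cov_leaf _ _ _ _ c_7424_256_3968_128
theorem n_7424_256_3840_256 : Cov 7424 256 3840 256 := cov_b 7424 256 3712 128 n_7424_256_3712_128 n_7424_256_3968_128
theorem n_7936_256_3712_128 : Cov 7936 256 3712 128 := cov_leaf _ _ _ _ c_7936_256_3712_128
theorem n_7936_256_3968_128 : Cov 7936 256 3968 128 := cov_leaf _ _ _ _ c_7936_256_3968_128
theorem n_7936_256_3840_256 : Cov 7936 256 3840 256 := cov_b 7936 256 3712 128 n_7936_256_3712_128 n_7936_256_3968_128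
theorem n_7680_512_3840_256 : Cov 7680 512 3840 256 := cov_a 7424 256 3840 256 n_7424_256_3840_256 n_7936_256_3840_256
theorem n_7680_512_3584_512 : Cov 7680 512 3584 512 := cov_b 7680 512 3328 256 n_7680_512_3328_256 n_7680_512_3840_256
theorem n_7168_1024_3584_512 : Cov 7168 1024 3584 512 := cov_a 6656 512 3584 512 n_6656_512_3584_512 n_7680_512_3584_512
theorem n_7168_1024_3072_1024 : Cov 7168 1024 3072 1024 := cov_b 7168 1024 2560 512 n_7168_1024_2560_512 n_7168_1024_3584_512
theorem n_6144_2048_3072_1024 : Cov 6144 2048 3072 1024 := cov_a 5120 1024 3072 1024 n_5120_1024_3072_1024 n_7168_1024_3072_1024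
theorem n_6144_2048_2048_2048 : Cov 6144 2048 2048 2048 := cov_b 6144 2048 1024 1024 n_6144_2048_1024_1024 n_6144_2048_3072_1024
theorem n_4096_4096_2048_2048 : Cov 4096 4096 2048 2048 := cov_a 2048 2048 2048 2048 n_2048_2048_2048_2048 n_6144_2048_2048_2048
theorem n_1024_1024_6144_2048 : Cov 1024 1024 6144 2048 := cov_skip _ _ _ _ (by norm_num)
theorem n_2560_512_5120_1024 : Cov 2560 512 5120 1024 := cov_skip _ _ _ _ (by norm_num)
theorem n_3328_256_4608_512 : Cov 3328 256 4608 512 := cov_skip _ _ _ _ (by norm_num)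
theorem n_3712_128_4352_256 : Cov 3712 128 4352 256 := cov_skip _ _ _ _ (by norm_num)
theorem n_3968_128_4352_256 : Cov 3968 128 4352 256 := cov_leaf _ _ _ _ c_3968_128_4352_256
theorem n_3840_256_4352_256 : Cov 3840 256 4352 256 := cov_a 3712 128 4352 256 n_3712_128_4352_256 n_3968_128_4352_256
theorem n_3840_256_4864_256 : Cov 3840 256 4864 256 := cov_skip _ _ _ _ (by norm_num)
theorem n_3840_256_4608_512 : Cov 3840 256 4608 512 := cov_b 3840 256 4352 256 n_3840_256_4352_256 n_3840_256_4864_256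
theorem n_3584_512_4608_512 : Cov 3584 512 4608 512 := cov_a 3328 256 4608 512 n_3328_256_4608_512 n_3840_256_4608_512
theorem n_3584_512_5632_512 : Cov 3584 512 5632 512 := cov_skip _ _ _ _ (by norm_num)
theorem n_3584_512_5120_1024 : Cov 3584 512 5120 1024 := cov_b 3584 512 4608 512 n_3584_512_4608_512 n_3584_512_5632_512
theorem n_3072_1024_5120_1024 : Cov 3072 1024 5120 1024 := cov_a 2560 512 5120 1024 n_2560_512_5120_1024 n_3584_512_5120_1024
theorem n_3072_1024_7168_1024 : Cov 3072 1024 7168 1024 := cov_skip _ _ _ _ (by norm_num)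
theorem n_3072_1024_6144_2048 : Cov 3072 1024 6144 2048 := cov_b 3072 1024 5120 1024 n_3072_1024_5120_1024 n_3072_1024_7168_1024
theorem n_2048_2048_6144_2048 : Cov 2048 2048 6144 2048 := cov_a 1024 1024 6144 2048 n_1024_1024_6144_2048 n_3072_1024_6144_2048
theorem n_4352_256_4224_128 : Cov 4352 256 4224 128 := cov_leaf _ _ _ _ c_4352_256_4224_128
theorem n_4352_256_4480_128 : Cov 4352 256 4480 128 := cov_leaf _ _ _ _ c_4352_256_4480_128
theorem n_4352_256_4352_256 : Cov 4352 256 4352 256 := cov_b 4352 256 4224 128 n_4352_256_4224_128 n_4352_256_4480_128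
theorem n_4864_256_4224_128 : Cov 4864 256 4224 128 := cov_leaf _ _ _ _ c_4864_256_4224_128
theorem n_4864_256_4480_128 : Cov 4864 256 4480 128 := cov_leaf _ _ _ _ c_4864_256_4480_128
theorem n_4864_256_4352_256 : Cov 4864 256 4352 256 := cov_b 4864 256 4224 128 n_4864_256_4224_128 n_4864_256_4480_128
theorem n_4608_512_4352_256 : Cov 4608 512 4352 256 := cov_a 4352 256 4352 256 n_4352_256_4352_256 n_4864_256_4352_256
theorem n_4224_128_4864_256 : Cov 4224 128 4864 256 := cov_skip _ _ _ _ (by norm_num)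
theorem n_4480_128_4864_256 : Cov 4480 128 4864 256 := cov_leaf _ _ _ _ c_4480_128_4864_256
theorem n_4352_256_4864_256 : Cov 4352 256 4864 256 := cov_a 4224 128 4864 256 n_4224_128_4864_256 n_4480_128_4864_256
theorem n_4864_256_4736_128 : Cov 4864 256 4736 128 := cov_leaf _ _ _ _ c_4864_256_4736_128
theorem n_4864_256_4992_128 : Cov 4864 256 4992 128 := cov_leaf _ _ _ _ c_4864_256_4992_128
theorem n_4864_256_4864_256 : Cov 4864 256 4864 256 := cov_b 4864 256 4736 128 n_4864_256_4736_128 n_4864_256_4992_128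
theorem n_4608_512_4864_256 : Cov 4608 512 4864 256 := cov_a 4352 256 4864 256 n_4352_256_4864_256 n_4864_256_4864_256
theorem n_4608_512_4608_512 : Cov 4608 512 4608 512 := cov_b 4608 512 4352 256 n_4608_512_4352_256 n_4608_512_4864_256
theorem n_5376_256_4224_128 : Cov 5376 256 4224 128 := cov_leaf _ _ _ _ c_5376_256_4224_128
theorem n_5376_256_4480_128 : Cov 5376 256 4480 128 := cov_leaf _ _ _ _ c_5376_256_4480_128
theorem n_5376_256_4352_256 : Cov 5376 256 4352 256 := cov_b 5376 256 4224 128 n_5376_256_4224_128 n_5376_256_4480_128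
theorem n_5888_256_4224_128 : Cov 5888 256 4224 128 := cov_leaf _ _ _ _ c_5888_256_4224_128
theorem n_5888_256_4480_128 : Cov 5888 256 4480 128 := cov_leaf _ _ _ _ c_5888_256_4480_128
theorem n_5888_256_4352_256 : Cov 5888 256 4352 256 := cov_b 5888 256 4224 128 n_5888_256_4224_128 n_5888_256_4480_128
theorem n_5632_512_4352_256 : Cov 5632 512 4352 256 := cov_a 5376 256 4352 256 n_5376_256_4352_256 n_5888_256_4352_256
theorem n_5376_256_4736_128 : Cov 5376 256 4736 128 := cov_leaf _ _ _ _ c_5376_256_4736_128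
theorem n_5376_256_4992_128 : Cov 5376 256 4992 128 := cov_leaf _ _ _ _ c_5376_256_4992_128
theorem n_5376_256_4864_256 : Cov 5376 256 4864 256 := cov_b 5376 256 4736 128 n_5376_256_4736_128 n_5376_256_4992_128
theorem n_5888_256_4736_128 : Cov 5888 256 4736 128 := cov_leaf _ _ _ _ c_5888_256_4736_128
theorem n_5888_256_4992_128 : Cov 5888 256 4992 128 := cov_leaf _ _ _ _ c_5888_256_4992_128
theorem n_5888_256_4864_256 : Cov 5888 256 4864 256 := cov_b 5888 256 4736 128 n_5888_256_4736_128 n_5888_256_4992_128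
theorem n_5632_512_4864_256 : Cov 5632 512 4864 256 := cov_a 5376 256 4864 256 n_5376_256_4864_256 n_5888_256_4864_256
theorem n_5632_512_4608_512 : Cov 5632 512 4608 512 := cov_b 5632 512 4352 256 n_5632_512_4352_256 n_5632_512_4864_256
theorem n_5120_1024_4608_512 : Cov 5120 1024 4608 512 := cov_a 4608 512 4608 512 n_4608_512_4608_512 n_5632_512_4608_512
theorem n_4352_256_5632_512 : Cov 4352 256 5632 512 := cov_skip _ _ _ _ (by norm_num)
theorem n_4736_128_5376_256 : Cov 4736 128 5376 256 := cov_skip _ _ _ _ (by norm_num)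
theorem n_4992_128_5376_256 : Cov 4992 128 5376 256 := cov_leaf _ _ _ _ c_4992_128_5376_256
theorem n_4864_256_5376_256 : Cov 4864 256 5376 256 := cov_a 4736 128 5376 256 n_4736_128_5376_256 n_4992_128_5376_256
theorem n_4864_256_5888_256 : Cov 4864 256 5888 256 := cov_skip _ _ _ _ (by norm_num)
theorem n_4864_256_5632_512 : Cov 4864 256 5632 512 := cov_b 4864 256 5376 256 n_4864_256_5376_256 n_4864_256_5888_256
theorem n_4608_512_5632_512 : Cov 4608 512 5632 512 := cov_a 4352 256 5632 512 n_4352_256_5632_512 n_4864_256_5632_512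
theorem n_5376_256_5248_128 : Cov 5376 256 5248 128 := cov_leaf _ _ _ _ c_5376_256_5248_128
theorem n_5376_256_5504_128 : Cov 5376 256 5504 128 := cov_leaf _ _ _ _ c_5376_256_5504_128
theorem n_5376_256_5376_256 : Cov 5376 256 5376 256 := cov_b 5376 256 5248 128 n_5376_256_5248_128 n_5376_256_5504_128
theorem n_5888_256_5248_128 : Cov 5888 256 5248 128 := cov_leaf _ _ _ _ c_5888_256_5248_128
theorem n_5888_256_5504_128 : Cov 5888 256 5504 128 := cov_leaf _ _ _ _ c_5888_256_5504_128
theorem n_5888_256_5376_256 : Cov 5888 256 5376 256 := cov_b 5888 256 5248 128 n_5888_256_5248_128 n_5888_256_5504_128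
theorem n_5632_512_5376_256 : Cov 5632 512 5376 256 := cov_a 5376 256 5376 256 n_5376_256_5376_256 n_5888_256_5376_256
theorem n_5248_128_5888_256 : Cov 5248 128 5888 256 := cov_skip _ _ _ _ (by norm_num)
theorem n_5504_128_5888_256 : Cov 5504 128 5888 256 := cov_leaf _ _ _ _ c_5504_128_5888_256
theorem n_5376_256_5888_256 : Cov 5376 256 5888 256 := cov_a 5248 128 5888 256 n_5248_128_5888_256 n_5504_128_5888_256
theorem n_5888_256_5760_128 : Cov 5888 256 5760 128 := cov_leaf _ _ _ _ c_5888_256_5760_128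
theorem n_5888_256_6016_128 : Cov 5888 256 6016 128 := cov_leaf _ _ _ _ c_5888_256_6016_128
theorem n_5888_256_5888_256 : Cov 5888 256 5888 256 := cov_b 5888 256 5760 128 n_5888_256_5760_128 n_5888_256_6016_128
theorem n_5632_512_5888_256 : Cov 5632 512 5888 256 := cov_a 5376 256 5888 256 n_5376_256_5888_256 n_5888_256_5888_256
theorem n_5632_512_5632_512 : Cov 5632 512 5632 512 := cov_b 5632 512 5376 256 n_5632_512_5376_256 n_5632_512_5888_256
theorem n_5120_1024_5632_512 : Cov 5120 1024 5632 512 := cov_a 4608 512 5632 512 n_4608_512_5632_512 n_5632_512_5632_512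
theorem n_5120_1024_5120_1024 : Cov 5120 1024 5120 1024 := cov_b 5120 1024 4608 512 n_5120_1024_4608_512 n_5120_1024_5632_512
theorem n_6400_256_4224_128 : Cov 6400 256 4224 128 := cov_leaf _ _ _ _ c_6400_256_4224_128
theorem n_6400_256_4480_128 : Cov 6400 256 4480 128 := cov_leaf _ _ _ _ c_6400_256_4480_128
theorem n_6400_256_4352_256 : Cov 6400 256 4352 256 := cov_b 6400 256 4224 128 n_6400_256_4224_128 n_6400_256_4480_128
theorem n_6912_256_4224_128 : Cov 6912 256 4224 128 := cov_leaf _ _ _ _ c_6912_256_4224_128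
theorem n_6912_256_4480_128 : Cov 6912 256 4480 128 := cov_leaf _ _ _ _ c_6912_256_4480_128
theorem n_6912_256_4352_256 : Cov 6912 256 4352 256 := cov_b 6912 256 4224 128 n_6912_256_4224_128 n_6912_256_4480_128
theorem n_6656_512_4352_256 : Cov 6656 512 4352 256 := cov_a 6400 256 4352 256 n_6400_256_4352_256 n_6912_256_4352_256
theorem n_6400_256_4736_128 : Cov 6400 256 4736 128 := cov_leaf _ _ _ _ c_6400_256_4736_128
theorem n_6400_256_4992_128 : Cov 6400 256 4992 128 := cov_leaf _ _ _ _ c_6400_256_4992_128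
theorem n_6400_256_4864_256 : Cov 6400 256 4864 256 := cov_b 6400 256 4736 128 n_6400_256_4736_128 n_6400_256_4992_128
theorem n_6912_256_4736_128 : Cov 6912 256 4736 128 := cov_leaf _ _ _ _ c_6912_256_4736_128
theorem n_6912_256_4992_128 : Cov 6912 256 4992 128 := cov_leaf _ _ _ _ c_6912_256_4992_128
theorem n_6912_256_4864_256 : Cov 6912 256 4864 256 := cov_b 6912 256 4736 128 n_6912_256_4736_128 n_6912_256_4992_128
theorem n_6656_512_4864_256 : Cov 6656 512 4864 256 := cov_a 6400 256 4864 256 n_6400_256_4864_256 n_6912_256_4864_256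
theorem n_6656_512_4608_512 : Cov 6656 512 4608 512 := cov_b 6656 512 4352 256 n_6656_512_4352_256 n_6656_512_4864_256
theorem n_7424_256_4224_128 : Cov 7424 256 4224 128 := cov_leaf _ _ _ _ c_7424_256_4224_128
theorem n_7424_256_4480_128 : Cov 7424 256 4480 128 := cov_leaf _ _ _ _ c_7424_256_4480_128
theorem n_7424_256_4352_256 : Cov 7424 256 4352 256 := cov_b 7424 256 4224 128 n_7424_256_4224_128 n_7424_256_4480_128
theorem n_7936_256_4224_128 : Cov 7936 256 4224 128 := cov_leaf _ _ _ _ c_7936_256_4224_128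
theorem n_7936_256_4480_128 : Cov 7936 256 4480 128 := cov_leaf _ _ _ _ c_7936_256_4480_128
theorem n_7936_256_4352_256 : Cov 7936 256 4352 256 := cov_b 7936 256 4224 128 n_7936_256_4224_128 n_7936_256_4480_128
theorem n_7680_512_4352_256 : Cov 7680 512 4352 256 := cov_a 7424 256 4352 256 n_7424_256_4352_256 n_7936_256_4352_256
theorem n_7424_256_4736_128 : Cov 7424 256 4736 128 := cov_leaf _ _ _ _ c_7424_256_4736_128
theorem n_7424_256_4992_128 : Cov 7424 256 4992 128 := cov_leaf _ _ _ _ c_7424_256_4992_128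
theorem n_7424_256_4864_256 : Cov 7424 256 4864 256 := cov_b 7424 256 4736 128 n_7424_256_4736_128 n_7424_256_4992_128
theorem n_7936_256_4736_128 : Cov 7936 256 4736 128 := cov_leaf _ _ _ _ c_7936_256_4736_128
theorem n_7936_256_4992_128 : Cov 7936 256 4992 128 := cov_leaf _ _ _ _ c_7936_256_4992_128
theorem n_7936_256_4864_256 : Cov 7936 256 4864 256 := cov_b 7936 256 4736 128 n_7936_256_4736_128 n_7936_256_4992_128
theorem n_7680_512_4864_256 : Cov 7680 512 4864 256 := cov_a 7424 256 4864 256 n_7424_256_4864_256 n_7936_256_4864_256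
theorem n_7680_512_4608_512 : Cov 7680 512 4608 512 := cov_b 7680 512 4352 256 n_7680_512_4352_256 n_7680_512_4864_256
theorem n_7168_1024_4608_512 : Cov 7168 1024 4608 512 := cov_a 6656 512 4608 512 n_6656_512_4608_512 n_7680_512_4608_512
theorem n_6400_256_5248_128 : Cov 6400 256 5248 128 := cov_leaf _ _ _ _ c_6400_256_5248_128
theorem n_6400_256_5504_128 : Cov 6400 256 5504 128 := cov_leaf _ _ _ _ c_6400_256_5504_128
theorem n_6400_256_5376_256 : Cov 6400 256 5376 256 := cov_b 6400 256 5248 128 n_6400_256_5248_128 n_6400_256_5504_128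
theorem n_6912_256_5248_128 : Cov 6912 256 5248 128 := cov_leaf _ _ _ _ c_6912_256_5248_128
theorem n_6912_256_5504_128 : Cov 6912 256 5504 128 := cov_leaf _ _ _ _ c_6912_256_5504_128
theorem n_6912_256_5376_256 : Cov 6912 256 5376 256 := cov_b 6912 256 5248 128 n_6912_256_5248_128 n_6912_256_5504_128
theorem n_6656_512_5376_256 : Cov 6656 512 5376 256 := cov_a 6400 256 5376 256 n_6400_256_5376_256 n_6912_256_5376_256
theorem n_6400_256_5760_128 : Cov 6400 256 5760 128 := cov_leaf _ _ _ _ c_6400_256_5760_128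
theorem n_6400_256_6016_128 : Cov 6400 256 6016 128 := cov_leaf _ _ _ _ c_6400_256_6016_128
theorem n_6400_256_5888_256 : Cov 6400 256 5888 256 := cov_b 6400 256 5760 128 n_6400_256_5760_128 n_6400_256_6016_128
theorem n_6912_256_5760_128 : Cov 6912 256 5760 128 := cov_leaf _ _ _ _ c_6912_256_5760_128
theorem n_6912_256_6016_128 : Cov 6912 256 6016 128 := cov_leaf _ _ _ _ c_6912_256_6016_128
theorem n_6912_256_5888_256 : Cov 6912 256 5888 256 := cov_b 6912 256 5760 128 n_6912_256_5760_128 n_6912_256_6016_128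
theorem n_6656_512_5888_256 : Cov 6656 512 5888 256 := cov_a 6400 256 5888 256 n_6400_256_5888_256 n_6912_256_5888_256
theorem n_6656_512_5632_512 : Cov 6656 512 5632 512 := cov_b 6656 512 5376 256 n_6656_512_5376_256 n_6656_512_5888_256
theorem n_7424_256_5248_128 : Cov 7424 256 5248 128 := cov_leaf _ _ _ _ c_7424_256_5248_128
theorem n_7424_256_5504_128 : Cov 7424 256 5504 128 := cov_leaf _ _ _ _ c_7424_256_5504_128
theorem n_7424_256_5376_256 : Cov 7424 256 5376 256 := cov_b 7424 256 5248 128 n_7424_256_5248_128 n_7424_256_5504_128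
theorem n_7936_256_5248_128 : Cov 7936 256 5248 128 := cov_leaf _ _ _ _ c_7936_256_5248_128
theorem n_7936_256_5504_128 : Cov 7936 256 5504 128 := cov_leaf _ _ _ _ c_7936_256_5504_128
theorem n_7936_256_5376_256 : Cov 7936 256 5376 256 := cov_b 7936 256 5248 128 n_7936_256_5248_128 n_7936_256_5504_128
theorem n_7680_512_5376_256 : Cov 7680 512 5376 256 := cov_a 7424 256 5376 256 n_7424_256_5376_256 n_7936_256_5376_256
theorem n_7424_256_5760_128 : Cov 7424 256 5760 128 := cov_leaf _ _ _ _ c_7424_256_5760_128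
theorem n_7424_256_6016_128 : Cov 7424 256 6016 128 := cov_leaf _ _ _ _ c_7424_256_6016_128
theorem n_7424_256_5888_256 : Cov 7424 256 5888 256 := cov_b 7424 256 5760 128 n_7424_256_5760_128 n_7424_256_6016_128
theorem n_7936_256_5760_128 : Cov 7936 256 5760 128 := cov_leaf _ _ _ _ c_7936_256_5760_128
theorem n_7936_256_6016_128 : Cov 7936 256 6016 128 := cov_leaf _ _ _ _ c_7936_256_6016_128
theorem n_7936_256_5888_256 : Cov 7936 256 5888 256 := cov_b 7936 256 5760 128 n_7936_256_5760_128 n_7936_256_6016_128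
theorem n_7680_512_5888_256 : Cov 7680 512 5888 256 := cov_a 7424 256 5888 256 n_7424_256_5888_256 n_7936_256_5888_256
theorem n_7680_512_5632_512 : Cov 7680 512 5632 512 := cov_b 7680 512 5376 256 n_7680_512_5376_256 n_7680_512_5888_256
theorem n_7168_1024_5632_512 : Cov 7168 1024 5632 512 := cov_a 6656 512 5632 512 n_6656_512_5632_512 n_7680_512_5632_512
theorem n_7168_1024_5120_1024 : Cov 7168 1024 5120 1024 := cov_b 7168 1024 4608 512 n_7168_1024_4608_512 n_7168_1024_5632_512
theorem n_6144_2048_5120_1024 : Cov 6144 2048 5120 1024 := cov_a 5120 1024 5120 1024 n_5120_1024_5120_1024 n_7168_1024_5120_1024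
theorem n_4608_512_7168_1024 : Cov 4608 512 7168 1024 := cov_skip _ _ _ _ (by norm_num)
theorem n_5376_256_6656_512 : Cov 5376 256 6656 512 := cov_skip _ _ _ _ (by norm_num)
theorem n_5760_128_6400_256 : Cov 5760 128 6400 256 := cov_skip _ _ _ _ (by norm_num)
theorem n_6016_128_6400_256 : Cov 6016 128 6400 256 := cov_leaf _ _ _ _ c_6016_128_6400_256
theorem n_5888_256_6400_256 : Cov 5888 256 6400 256 := cov_a 5760 128 6400 256 n_5760_128_6400_256 n_6016_128_6400_256
theorem n_5888_256_6912_256 : Cov 5888 256 6912 256 := cov_skip _ _ _ _ (by norm_num)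
theorem n_5888_256_6656_512 : Cov 5888 256 6656 512 := cov_b 5888 256 6400 256 n_5888_256_6400_256 n_5888_256_6912_256
theorem n_5632_512_6656_512 : Cov 5632 512 6656 512 := cov_a 5376 256 6656 512 n_5376_256_6656_512 n_5888_256_6656_512
theorem n_5632_512_7680_512 : Cov 5632 512 7680 512 := cov_skip _ _ _ _ (by norm_num)
theorem n_5632_512_7168_1024 : Cov 5632 512 7168 1024 := cov_b 5632 512 6656 512 n_5632_512_6656_512 n_5632_512_7680_512
theorem n_5120_1024_7168_1024 : Cov 5120 1024 7168 1024 := cov_a 4608 512 7168 1024 n_4608_512_7168_1024 n_5632_512_7168_1024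
theorem n_6400_256_6272_128 : Cov 6400 256 6272 128 := cov_leaf _ _ _ _ c_6400_256_6272_128
theorem n_6400_256_6528_128 : Cov 6400 256 6528 128 := cov_leaf _ _ _ _ c_6400_256_6528_128
theorem n_6400_256_6400_256 : Cov 6400 256 6400 256 := cov_b 6400 256 6272 128 n_6400_256_6272_128 n_6400_256_6528_128
theorem n_6912_256_6272_128 : Cov 6912 256 6272 128 := cov_leaf _ _ _ _ c_6912_256_6272_128
theorem n_6912_256_6528_128 : Cov 6912 256 6528 128 := cov_leaf _ _ _ _ c_6912_256_6528_128
theorem n_6912_256_6400_256 : Cov 6912 256 6400 256 := cov_b 6912 256 6272 128 n_6912_256_6272_128 n_6912_256_6528_128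
theorem n_6656_512_6400_256 : Cov 6656 512 6400 256 := cov_a 6400 256 6400 256 n_6400_256_6400_256 n_6912_256_6400_256
theorem n_6272_128_6912_256 : Cov 6272 128 6912 256 := cov_skip _ _ _ _ (by norm_num)
theorem n_6528_128_6912_256 : Cov 6528 128 6912 256 := cov_leaf _ _ _ _ c_6528_128_6912_256
theorem n_6400_256_6912_256 : Cov 6400 256 6912 256 := cov_a 6272 128 6912 256 n_6272_128_6912_256 n_6528_128_6912_256
theorem n_6912_256_6784_128 : Cov 6912 256 6784 128 := cov_leaf _ _ _ _ c_6912_256_6784_128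
theorem n_6912_256_7040_128 : Cov 6912 256 7040 128 := cov_leaf _ _ _ _ c_6912_256_7040_128
theorem n_6912_256_6912_256 : Cov 6912 256 6912 256 := cov_b 6912 256 6784 128 n_6912_256_6784_128 n_6912_256_7040_128
theorem n_6656_512_6912_256 : Cov 6656 512 6912 256 := cov_a 6400 256 6912 256 n_6400_256_6912_256 n_6912_256_6912_256
theorem n_6656_512_6656_512 : Cov 6656 512 6656 512 := cov_b 6656 512 6400 256 n_6656_512_6400_256 n_6656_512_6912_256
theorem n_7424_256_6272_128 : Cov 7424 256 6272 128 := cov_leaf _ _ _ _ c_7424_256_6272_128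
theorem n_7424_256_6528_128 : Cov 7424 256 6528 128 := cov_leaf _ _ _ _ c_7424_256_6528_128
theorem n_7424_256_6400_256 : Cov 7424 256 6400 256 := cov_b 7424 256 6272 128 n_7424_256_6272_128 n_7424_256_6528_128
theorem n_7936_256_6272_128 : Cov 7936 256 6272 128 := cov_leaf _ _ _ _ c_7936_256_6272_128
theorem n_7936_256_6528_128 : Cov 7936 256 6528 128 := cov_leaf _ _ _ _ c_7936_256_6528_128
theorem n_7936_256_6400_256 : Cov 7936 256 6400 256 := cov_b 7936 256 6272 128 n_7936_256_6272_128 n_7936_256_6528_128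
theorem n_7680_512_6400_256 : Cov 7680 512 6400 256 := cov_a 7424 256 6400 256 n_7424_256_6400_256 n_7936_256_6400_256
theorem n_7424_256_6784_128 : Cov 7424 256 6784 128 := cov_leaf _ _ _ _ c_7424_256_6784_128
theorem n_7424_256_7040_128 : Cov 7424 256 7040 128 := cov_leaf _ _ _ _ c_7424_256_7040_128
theorem n_7424_256_6912_256 : Cov 7424 256 6912 256 := cov_b 7424 256 6784 128 n_7424_256_6784_128 n_7424_256_7040_128
theorem n_7936_256_6784_128 : Cov 7936 256 6784 128 := cov_leaf _ _ _ _ c_7936_256_6784_128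
theorem n_7936_256_7040_128 : Cov 7936 256 7040 128 := cov_leaf _ _ _ _ c_7936_256_7040_128
theorem n_7936_256_6912_256 : Cov 7936 256 6912 256 := cov_b 7936 256 6784 128 n_7936_256_6784_128 n_7936_256_7040_128
theorem n_7680_512_6912_256 : Cov 7680 512 6912 256 := cov_a 7424 256 6912 256 n_7424_256_6912_256 n_7936_256_6912_256
theorem n_7680_512_6656_512 : Cov 7680 512 6656 512 := cov_b 7680 512 6400 256 n_7680_512_6400_256 n_7680_512_6912_256
theorem n_7168_1024_6656_512 : Cov 7168 1024 6656 512 := cov_a 6656 512 6656 512 n_6656_512_6656_512 n_7680_512_6656_512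
theorem n_6400_256_7680_512 : Cov 6400 256 7680 512 := cov_skip _ _ _ _ (by norm_num)
theorem n_6784_128_7424_256 : Cov 6784 128 7424 256 := cov_skip _ _ _ _ (by norm_num)
theorem n_7040_128_7424_256 : Cov 7040 128 7424 256 := cov_leaf _ _ _ _ c_7040_128_7424_256
theorem n_6912_256_7424_256 : Cov 6912 256 7424 256 := cov_a 6784 128 7424 256 n_6784_128_7424_256 n_7040_128_7424_256
theorem n_6912_256_7936_256 : Cov 6912 256 7936 256 := cov_skip _ _ _ _ (by norm_num)
theorem n_6912_256_7680_512 : Cov 6912 256 7680 512 := cov_b 6912 256 7424 256 n_6912_256_7424_256 n_6912_256_7936_256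
theorem n_6656_512_7680_512 : Cov 6656 512 7680 512 := cov_a 6400 256 7680 512 n_6400_256_7680_512 n_6912_256_7680_512
theorem n_7424_256_7296_128 : Cov 7424 256 7296 128 := cov_leaf _ _ _ _ c_7424_256_7296_128
theorem n_7424_256_7552_128 : Cov 7424 256 7552 128 := cov_leaf _ _ _ _ c_7424_256_7552_128
theorem n_7424_256_7424_256 : Cov 7424 256 7424 256 := cov_b 7424 256 7296 128 n_7424_256_7296_128 n_7424_256_7552_128
theorem n_7936_256_7296_128 : Cov 7936 256 7296 128 := cov_leaf _ _ _ _ c_7936_256_7296_128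
theorem n_7936_256_7552_128 : Cov 7936 256 7552 128 := cov_leaf _ _ _ _ c_7936_256_7552_128
theorem n_7936_256_7424_256 : Cov 7936 256 7424 256 := cov_b 7936 256 7296 128 n_7936_256_7296_128 n_7936_256_7552_128
theorem n_7680_512_7424_256 : Cov 7680 512 7424 256 := cov_a 7424 256 7424 256 n_7424_256_7424_256 n_7936_256_7424_256
theorem n_7296_128_7936_256 : Cov 7296 128 7936 256 := cov_skip _ _ _ _ (by norm_num)
theorem n_7552_128_7936_256 : Cov 7552 128 7936 256 := cov_leaf _ _ _ _ c_7552_128_7936_256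
theorem n_7424_256_7936_256 : Cov 7424 256 7936 256 := cov_a 7296 128 7936 256 n_7296_128_7936_256 n_7552_128_7936_256
theorem n_7936_256_7808_128 : Cov 7936 256 7808 128 := cov_leaf _ _ _ _ c_7936_256_7808_128
theorem n_7936_256_8064_128 : Cov 7936 256 8064 128 := cov_leaf _ _ _ _ c_7936_256_8064_128
theorem n_7936_256_7936_256 : Cov 7936 256 7936 256 := cov_b 7936 256 7808 128 n_7936_256_7808_128 n_7936_256_8064_128
theorem n_7680_512_7936_256 : Cov 7680 512 7936 256 := cov_a 7424 256 7936 256 n_7424_256_7936_256 n_7936_256_7936_256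
theorem n_7680_512_7680_512 : Cov 7680 512 7680 512 := cov_b 7680 512 7424 256 n_7680_512_7424_256 n_7680_512_7936_256
theorem n_7168_1024_7680_512 : Cov 7168 1024 7680 512 := cov_a 6656 512 7680 512 n_6656_512_7680_512 n_7680_512_7680_512
theorem n_7168_1024_7168_1024 : Cov 7168 1024 7168 1024 := cov_b 7168 1024 6656 512 n_7168_1024_6656_512 n_7168_1024_7680_512
theorem n_6144_2048_7168_1024 : Cov 6144 2048 7168 1024 := cov_a 5120 1024 7168 1024 n_5120_1024_7168_1024 n_7168_1024_7168_1024
theorem n_6144_2048_6144_2048 : Cov 6144 2048 6144 2048 := cov_b 6144 2048 5120 1024 n_6144_2048_5120_1024 n_6144_2048_7168_1024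
theorem n_4096_4096_6144_2048 : Cov 4096 4096 6144 2048 := cov_a 2048 2048 6144 2048 n_2048_2048_6144_2048 n_6144_2048_6144_2048
theorem n_4096_4096_4096_4096 : Cov 4096 4096 4096 4096 := cov_b 4096 4096 2048 2048 n_4096_4096_2048_2048 n_4096_4096_6144_2048

theorem good_unit (s t : ℝ) (hs : 0 ≤ s) (hs1 : s ≤ 1) (ht : 0 ≤ t) (ht1 : t ≤ 1) : Good s t := by
  rcases le_total t s with h | h
  · exact n_4096_4096_4096_4096 s t (abs_le.2 ⟨by push_cast; linarith, by push_cast; linarith⟩)
      (abs_le.2 ⟨by push_cast; linarith, by push_cast; linarith⟩) h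
  · exact good_symm s t (n_4096_4096_4096_4096 t s (abs_le.2 ⟨by push_cast; linarith, by push_cast; linarith⟩)
      (abs_le.2 ⟨by push_cast; linarith, by push_cast; linarith⟩) h)

end Pool.Agent.H320.HSC
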